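import Pool.Agent.HTE.Defs

set_option autoImplicit false

namespace Pool.Agent.HTE

open Module

instance instFintypeFlags (M : GMap) : Fintype M.D := M.fin

variable {V : Type} {G : SimpleGraph V}

/-- A labelling of the two sides of the arcs of a drawing: the two flags of an edge end have
different sides (`t2`), and the side does not change along an edge of the map (`t0`) and when the
arc goes straight through a crossing (`t1 ∘ t2 ∘ t1`). -/
structure Side (M : Drawing G) where
  sd : M.D → Bool
  sd_t2 : ∀ d, sd (M.t2 d) = !sd d
  sd_t0 : ∀ d, sd (M.t0 d) = sd d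
  sd_st : ∀ d, M.cross d → sd (M.t1 (M.t2 (M.t1 d))) = sd d

namespace Drawing

variable (M : Drawing G)

/-- The flag on the other side of a crossing, on the same arc and on the same side of the arc. -/
def st (d : M.D) : M.D := M.t1 (M.t2 (M.t1 d))

theorem st_st (d : M.D) : M.st (M.st d) = d := by
  simp only [st, M.t1_t1, M.t2_t2]

theorem cross_st (d : M.D) : M.cross (M.st d) ↔ M.cross d := by
  simp only [st, M.cross_t1, M.cross_t2]

theorem cross_four' (d : M.D) (h : M.cross d) :
    M.t1 (M.t2 (M.t1 (M.t2 (M.t1 (M.t2 (M.t1 (M.t2 d))))))) = d := M.cross_four d h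

theorem lab_st (d : M.D) (h : M.cross d) : M.lab (M.st d) = (M.lab d).symm := by
  have := M.cross_opp (M.t2 d) ((M.cross_t2 d).2 h)
  rw [M.t2_t2, M.lab_t2] at this
  exact this

/-- Going straight commutes with changing the side. -/
theorem st_t2 (d : M.D) (h : M.cross d) : M.st (M.t2 d) = M.t2 (M.st d) := by
  have h4 := M.cross_four d h
  have := congrArg (fun x => M.t2 (M.t1 (M.t2 (M.t1 x)))) h4
  simp only [M.t1_t1, M.t2_t2] at this
  exact this

end Drawing

end Pool.Agent.HTE
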