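import Pool.Agent.HTE.A0

set_option autoImplicit false

namespace Pool.Agent.HTE

variable {V : Type} {G : SimpleGraph V}

/-- **Step 0.** A side labelling exists.

Proof. Let `back d = M.t0 (M.st d)`. If `M.cross d` then `pos d = pos (back d) + 1`: apply
`M.pos_succ` to `back d` (`M.t0 (back d) = M.st d` is a crossing flag by `cross_st`, and
`M.t1 (M.t2 (M.t1 (M.st d))) = M.st (M.st d) = d`). So `pos d ≠ 0` for crossing flags, and by
`pos_zero` `cross d ↔ pos d ≠ 0`; hence `back^[pos d] d` is not a crossing flag (induction on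
`pos d`). Also `lab (back d) = lab d` for crossing `d` (`lab_st`, `lab_t0`, `symm_symm`), and
`back (t2 d) = t2 (back d)` for crossing `d` (`st_t2`, `t0_t2`), `pos_t2`.

Choose for every `a : G.Dart` a flag `ρ a` with `¬ cross (ρ a)`, `lab (ρ a) = a` (`vert_ex`), and
put `base d = false` if `d = ρ (lab d)`, `true` otherwise. For a noncrossing flag `d`:
`d = ρ (lab d)` or `d = t2 (ρ (lab d))`, not both (`vert_uniq`, `t2_ne`), so
`base (t2 d) = !base d`. Let `g d = base (back^[pos d] d)`. Then `g (t2 d) = !g d` for all `d`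
(induction on `pos d`) and `g d = g (back d)` for crossing `d`.

Choose an orientation of every edge: `O : G.Dart → Prop` such that exactly one of `O a`,
`O a.symm` holds (e.g. choose for each `e : Sym2 V` ... `O a := a = c a.edge` with `c e` a chosen
dart with edge `e` (via `Classical`/`Function.invFun`); `a.edge = b.edge` iff `b = a` or
`b = a.symm`, and `a ≠ a.symm`). Define `sd d = g d` if `O (lab d)`, and `sd d = g (t0 d)`
otherwise. Then: `sd (t0 d) = sd d` (`lab_t0`, `t0_t0`), `sd (t2 d) = !sd d` (`lab_t2`, `t0_t2`).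
`sd (st d) = sd d` for crossing `d`: if `O (lab d)`: `sd d = g d = g (back d) = sd (back d)`
(`lab (back d) = lab d`) `= sd (t0 (st d)) = sd (st d)`. If not `O (lab d)`: put `d' = st d`, a
crossing flag with `lab d' = (lab d).symm`, `O (lab d')`; the first case for `d'` gives
`sd (st d') = sd d'`, i.e. `sd d = sd (st d)`. -/
theorem exists_side (M : Drawing G) : Nonempty (Side M) := by
  classical
  let back : M.D → M.D := fun d => M.t0 (M.st d)
  have hback : ∀ d, back d = M.t0 (M.st d) := fun d => rfl
  have hpos : ∀ d, M.cross d → M.pos d = M.pos (back d) + 1 := by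
    intro d hd
    have h0 : M.t0 (back d) = M.st d := by rw [hback, M.t0_t0]
    have h1 := M.pos_succ (back d) (by rw [h0]; exact (M.cross_st d).2 hd)
    rw [h0] at h1
    have h2 : M.t1 (M.t2 (M.t1 (M.st d))) = d := M.st_st d
    rw [h2] at h1
    exact h1
  have hlab : ∀ d, M.cross d → M.lab (back d) = M.lab d := by
    intro d hd
    rw [hback, M.lab_t0, M.lab_st d hd, SimpleGraph.Dart.symm_symm]
  have hbt2 : ∀ d, M.cross d → back (M.t2 d) = M.t2 (back d) := by
    intro d hd
    rw [hback, M.st_t2 d hd, M.t0_t2, ← hback]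
  choose ρ hρc hρl using M.vert_ex
  let base : M.D → Bool := fun d => decide (d ≠ ρ (M.lab d))
  have hbase : ∀ d, ¬ M.cross d → base (M.t2 d) = !base d := by
    intro d hd
    have h1 : M.lab (M.t2 d) = M.lab d := M.lab_t2 d
    have h2 := M.vert_uniq (ρ (M.lab d)) d (hρc _) hd (hρl _)
    simp only [base, h1]
    rcases h2 with h2 | h2
    · have h3 : M.t2 d ≠ ρ (M.lab d) := by
        rw [← h2]
        exact M.t2_ne d
      rw [decide_eq_true h3, decide_eq_false (fun h => h h2)]
      rfl
    · have h3 : M.t2 d = ρ (M.lab d) := by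
        have h4 := congrArg M.t2 h2
        rw [M.t2_t2] at h4
        exact h4
      have h5 : d ≠ ρ (M.lab d) := by
        intro h
        rw [← h] at h3
        exact M.t2_ne d h3
      rw [decide_eq_true h5, decide_eq_false (fun h => h h3)]
      rfl
  let g : M.D → Bool := fun d => base (back^[M.pos d] d)
  have hgback : ∀ d, M.cross d → g d = g (back d) := by
    intro d hd
    simp only [g]
    rw [hpos d hd, Function.iterate_succ_apply]
  have hg2 : ∀ n : ℕ, ∀ d, M.pos d = n → g (M.t2 d) = !g d := by
    intro n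
    induction n with
    | zero =>
      intro d hd
      have hc : ¬ M.cross d := by
        intro hc
        have := hpos d hc
        omega
      simp only [g]
      rw [M.pos_t2, hd]
      exact hbase d hc
    | succ n ih =>
      intro d hd
      have hc : M.cross d := by
        by_contra hc
        have := M.pos_zero d hc
        omega
      rw [hgback _ ((M.cross_t2 d).2 hc), hbt2 d hc, hgback d hc]
      apply ih
      have := hpos d hc
      omega
  have hg : ∀ d, g (M.t2 d) = !g d := fun d => hg2 _ d rfl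
  let O : G.Dart → Prop := fun a => WellOrderingRel a.fst a.snd
  have hO : ∀ a : G.Dart, O a.symm ↔ ¬ O a := by
    intro a
    have hne : a.fst ≠ a.snd := a.adj.ne
    constructor
    · intro h h'
      exact asymm_of (WellOrderingRel : V → V → Prop) h' h
    · intro h
      rcases trichotomous_of (WellOrderingRel : V → V → Prop) a.fst a.snd with h1 | h1 | h1
      · exact absurd h1 h
      · exact absurd h1 hne
      · exact h1
  let sd : M.D → Bool := fun d => if O (M.lab d) then g d else g (M.t0 d)
  have hsd1 : ∀ d, O (M.lab d) → sd d = g d := fun d h => if_pos h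
  have hsd2 : ∀ d, ¬ O (M.lab d) → sd d = g (M.t0 d) := fun d h => if_neg h
  have hC : ∀ d, M.cross d → O (M.lab d) → sd (M.st d) = sd d := by
    intro d hd ho
    have h1 : ¬ O (M.lab (M.st d)) := by
      rw [M.lab_st d hd, hO]
      exact fun h => h ho
    rw [hsd2 _ h1, hsd1 _ ho, ← hback, ← hgback d hd]
  refine ⟨⟨sd, ?_, ?_, ?_⟩⟩
  · intro d
    by_cases ho : O (M.lab d)
    · have h1 : O (M.lab (M.t2 d)) := by
        rw [M.lab_t2]
        exact ho
      rw [hsd1 _ h1, hsd1 _ ho]
      exact hg d
    · have h1 : ¬ O (M.lab (M.t2 d)) := by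
        rw [M.lab_t2]
        exact ho
      rw [hsd2 _ h1, hsd2 _ ho, M.t0_t2]
      exact hg _
  · intro d
    by_cases ho : O (M.lab d)
    · have h1 : ¬ O (M.lab (M.t0 d)) := by
        rw [M.lab_t0, hO]
        exact fun h => h ho
      rw [hsd2 _ h1, hsd1 _ ho, M.t0_t0]
    · have h1 : O (M.lab (M.t0 d)) := by
        rw [M.lab_t0, hO]
        exact ho
      rw [hsd1 _ h1, hsd2 _ ho]
  · intro d hd
    show sd (M.st d) = sd d
    by_cases ho : O (M.lab d)
    · exact hC d hd ho
    · have h1 : O (M.lab (M.st d)) := by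
        rw [M.lab_st d hd, hO]
        exact ho
      have h2 := hC (M.st d) ((M.cross_st d).2 hd) h1
      rw [M.st_st] at h2
      exact h2.symm

namespace Side

variable {M : Drawing G} (σ : Side M)

/-- For each oriented edge `a` and side `s` there is exactly one noncrossing flag. (`vert_ex`
gives one with label `a`; it or its `t2`-image has side `s`; uniqueness by `vert_uniq` and
`sd_t2`.) -/
theorem exists_unique_real (a : G.Dart) (s : Bool) :
    ∃! d, ¬ M.cross d ∧ M.lab d = a ∧ σ.sd d = s := by
  obtain ⟨d, hd, hl⟩ := M.vert_ex a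
  obtain ⟨e, he, hle, hse⟩ : ∃ e, ¬ M.cross e ∧ M.lab e = a ∧ σ.sd e = s := by
    by_cases h : σ.sd d = s
    · exact ⟨d, hd, hl, h⟩
    · refine ⟨M.t2 d, fun h' => hd ((M.cross_t2 d).1 h'), by rw [M.lab_t2, hl], ?_⟩
      rw [σ.sd_t2]
      cases h1 : σ.sd d <;> cases s <;> simp_all
  refine ⟨e, ⟨he, hle, hse⟩, ?_⟩
  rintro f ⟨hf, hlf, hsf⟩
  rcases M.vert_uniq e f he hf (by rw [hle, hlf]) with h | h
  · exact h
  · exfalso
    rw [h, σ.sd_t2, hse] at hsf
    cases s <;> simp at hsf

/-- The noncrossing flag with label `a` and side `s`. -/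
noncomputable def rho (a : G.Dart) (s : Bool) : M.D := (σ.exists_unique_real a s).choose

theorem rho_cross (a : G.Dart) (s : Bool) : ¬ M.cross (σ.rho a s) :=
  (σ.exists_unique_real a s).choose_spec.1.1

theorem rho_lab (a : G.Dart) (s : Bool) : M.lab (σ.rho a s) = a :=
  (σ.exists_unique_real a s).choose_spec.1.2.1

theorem rho_sd (a : G.Dart) (s : Bool) : σ.sd (σ.rho a s) = s :=
  (σ.exists_unique_real a s).choose_spec.1.2.2

theorem rho_uniq (d : M.D) (h : ¬ M.cross d) : d = σ.rho (M.lab d) (σ.sd d) :=
  (σ.exists_unique_real (M.lab d) (σ.sd d)).choose_spec.2 d ⟨h, rfl, rfl⟩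

/-- `t2` switches the side (from `rho_uniq`). -/
theorem rho_t2 (a : G.Dart) (s : Bool) : M.t2 (σ.rho a s) = σ.rho a (!s) := by
  have h := σ.rho_uniq (M.t2 (σ.rho a s)) (fun h => σ.rho_cross a s ((M.cross_t2 _).1 h))
  rw [M.lab_t2, σ.rho_lab, σ.sd_t2, σ.rho_sd] at h
  exact h

end Side

end Pool.Agent.HTE
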