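import Pool.Agent.HTE.A2

set_option autoImplicit false

namespace Pool.Agent.HTE

open Module

/-- `w ↦ w + w ∘ t2`. -/
def a3_L (M : GMap) : (M.D → ZMod 2) →ₗ[ZMod 2] (M.D → ZMod 2) where
  toFun w d := w d + w (M.t2 d)
  map_add' w w' := by
    funext d
    simp only [Pi.add_apply]
    ring
  map_smul' b w := by
    funext d
    simp only [Pi.smul_apply, smul_eq_mul, RingHom.id_apply]
    ring

open scoped Classical in
/-- A sum over all flags is the sum over those with `H d = false` of `x d + x (t2 d)`. -/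
theorem a3_sum (M : GMap) (H : M.D → Bool) (hH : ∀ d, H (M.t2 d) = !H d) (x : M.D → ZMod 2) :
    ∑ d, x d = ∑ d ∈ Finset.univ.filter (fun d => H d = false), (x d + x (M.t2 d)) := by
  rw [Finset.sum_add_distrib, ← Finset.sum_filter_add_sum_filter_not Finset.univ
    (fun d => H d = false) x]
  congr 1
  refine Finset.sum_nbij' M.t2 M.t2 ?_ ?_ (fun d _ => M.t2_t2 d) (fun d _ => M.t2_t2 d) ?_
  · intro d hd
    simp only [Finset.mem_filter, Finset.mem_univ, true_and, hH] at hd ⊢
    revert hd
    cases H d <;> simp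
  · intro d hd
    simp only [Finset.mem_filter, Finset.mem_univ, true_and, hH] at hd ⊢
    rw [hd]
    simp
  · intro d _
    rw [M.t2_t2]

theorem a3_perm (M : GMap) (x : M.D → ZMod 2) : ∑ d, x (M.t2 d) = ∑ d, x d :=
  Finset.sum_nbij' M.t2 M.t2 (fun _ _ => Finset.mem_univ _) (fun _ _ => Finset.mem_univ _)
    (fun d _ => M.t2_t2 d) (fun d _ => M.t2_t2 d) (fun _ _ => rfl)

open scoped Classical in
/-- **Step 2.** Let `H` choose one of the two flags of each edge end (`H (t2 d) = !H d`). A
`t2`-invariant `y` such that `∑_{d : H d = false} a d * y d = 0` for all functions `a` on the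
vertices is of the form `w + w ∘ t2` with a function `w` on the corners.

Proof. Let `R` be the range of the linear map `inv1 → (D → F)`, `w ↦ w + w ∘ t2`. If `y ∉ R`, there
is a linear functional `f` on `D → F` with `f = 0` on `R` and `f y ≠ 0`
(`Submodule.exists_le_ker_of_notMem` or `Submodule.exists_dual_map_eq_bot_of_notMem`). Let
`b d = f (Pi.single d 1)`, so `f x = ∑ d, b d * x d` (`LinearMap.pi_apply_eq_sum_univ`). For
`w ∈ inv1`: `0 = ∑ d, b d * (w d + w (t2 d)) = ∑ d, (b d + b (t2 d)) * w d` (the involution `t2` is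
a bijection). Put `a d = b d + b (t2 d)`. For a flag `d₀` take
`w = Pi.single d₀ 1 + Pi.single (t1 d₀) 1 ∈ inv1` (`t1 d₀ ≠ d₀`): `a d₀ + a (t1 d₀) = 0`, so `a` is
`t1`-invariant, and clearly `t2`-invariant: `a ∈ invV`. Finally
`f y = ∑ d, b d * y d = ∑_{H d = false} (b d * y d + b (t2 d) * y (t2 d))
= ∑_{H d = false} a d * y d = 0` (the flags with `H d = true` are the `t2`-images of those with
`H d = false`), a contradiction. -/
theorem GMap.exists_corner (M : GMap) (H : M.D → Bool) (hH : ∀ d, H (M.t2 d) = !H d)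
    (y : M.D → ZMod 2) (hy : ∀ d, y (M.t2 d) = y d)
    (h : ∀ a ∈ M.invV, ∑ d ∈ Finset.univ.filter (fun d => H d = false), a d * y d = 0) :
    ∃ w ∈ M.inv1, ∀ d, w d + w (M.t2 d) = y d := by
  have hfun : ∀ f : Module.Dual (ZMod 2) (M.D → ZMod 2), ∀ x : M.D → ZMod 2,
      f x = ∑ d, x d * f (Pi.single d 1) := by
    intro f x
    rw [LinearMap.pi_apply_eq_sum_univ f x]
    refine Finset.sum_congr rfl fun d _ => ?_
    rw [smul_eq_mul]
    congr 2
    funext e
    rw [Pi.single_apply]
    by_cases hde : d = e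
    · rw [if_pos hde, if_pos hde.symm]
    · rw [if_neg hde, if_neg (fun h => hde h.symm)]
  by_cases hR : y ∈ (M.inv1).map (a3_L M)
  · obtain ⟨w, hw, hwy⟩ := hR
    exact ⟨w, hw, fun d => congrFun hwy d⟩
  · exfalso
    obtain ⟨f, hf1, hf2⟩ := Submodule.exists_le_ker_of_notMem hR
    have hz : ∀ w ∈ M.inv1, ∑ d, w d * (f (Pi.single d 1) + f (Pi.single (M.t2 d) 1)) = 0 := by
      intro w hw
      have h0 : f (a3_L M w) = 0 := hf2 (Submodule.mem_map_of_mem hw)
      rw [hfun] at h0
      have h1 : ∀ d, a3_L M w d = w d + w (M.t2 d) := fun d => rfl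
      simp only [h1, add_mul, Finset.sum_add_distrib] at h0
      have h2 := a3_perm M (fun d => w (M.t2 d) * f (Pi.single d 1))
      simp only [M.t2_t2] at h2
      simp only [mul_add, Finset.sum_add_distrib]
      rw [h2]
      exact h0
    set a : M.D → ZMod 2 := fun d => f (Pi.single d 1) + f (Pi.single (M.t2 d) 1) with ha
    have ht2 : ∀ d, a (M.t2 d) = a d := by
      intro d
      simp only [ha, M.t2_t2]
      ring
    have ht1 : ∀ d, a (M.t1 d) = a d := by
      intro d
      have hw : (Pi.single d 1 + Pi.single (M.t1 d) 1 : M.D → ZMod 2) ∈ M.inv1 := by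
        rw [GMap.mem_inv1]
        intro e
        simp only [Pi.add_apply, Pi.single_apply]
        have e1 : (M.t1 e = d) ↔ (e = M.t1 d) :=
          ⟨fun h => by rw [← h, M.t1_t1], fun h => by rw [h, M.t1_t1]⟩
        have e2 : (M.t1 e = M.t1 d) ↔ (e = d) :=
          ⟨fun h => by rw [← M.t1_t1 e, h, M.t1_t1], fun h => by rw [h]⟩
        simp only [e1, e2]
        ring
      have h1 := hz _ hw
      simp only [Pi.add_apply, add_mul, Finset.sum_add_distrib, Pi.single_apply, ite_mul, one_mul,
        zero_mul, Finset.sum_ite_eq', Finset.mem_univ, if_true] at h1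
      have h2 : a d + a (M.t1 d) = 0 := h1
      exact (CharTwo.add_eq_zero.1 h2).symm
    have haV : a ∈ M.invV := (M.mem_invV a).2 ⟨ht1, ht2⟩
    have h3 := h a haV
    apply hf1
    rw [hfun, a3_sum M H hH, ← h3]
    refine Finset.sum_congr rfl fun d _ => ?_
    rw [hy d]
    simp only [ha]
    ring

end Pool.Agent.HTE
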