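import Mathlib

set_option autoImplicit false

namespace Pool.Agent.HTE

open Module

variable {V : Type} [Fintype V]

/-- The cycle space of `G`: functions on the edges with sum `0` at every vertex. -/
def cyc (G : SimpleGraph V) : Submodule (ZMod 2) (V → V → ZMod 2) where
  carrier := {z | (∀ u v, z u v = z v u) ∧ (∀ u v, ¬ G.Adj u v → z u v = 0) ∧
    ∀ v, ∑ u, z v u = 0}
  add_mem' := by
    rintro z z' ⟨h1, h2, h3⟩ ⟨h1', h2', h3'⟩
    refine ⟨fun u v => ?_, fun u v h => ?_, fun v => ?_⟩
    · simp only [Pi.add_apply, h1 u v, h1' u v]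
    · simp only [Pi.add_apply, h2 u v h, h2' u v h, add_zero]
    · simp only [Pi.add_apply, Finset.sum_add_distrib, h3 v, h3' v, add_zero]
  zero_mem' := by
    refine ⟨fun u v => rfl, fun u v h => rfl, fun v => ?_⟩
    simp
  smul_mem' := by
    rintro a z ⟨h1, h2, h3⟩
    refine ⟨fun u v => ?_, fun u v h => ?_, fun v => ?_⟩
    · simp only [Pi.smul_apply, h1 u v]
    · simp only [Pi.smul_apply, h2 u v h, smul_zero]
    · simp only [Pi.smul_apply, ← Finset.smul_sum, h3 v, smul_zero]

theorem a5_sum (z : V → V → ZMod 2) (hs : ∀ u v, z u v = z v u) (h0 : ∀ v, z v v = 0) :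
    ∑ v, ∑ u, z v u = 0 := by
  rw [← Fintype.sum_prod_type' (f := z)]
  refine Finset.sum_involution (fun p _ => (p.2, p.1)) ?_ ?_ ?_ ?_
  · intro p _
    simp only
    rw [hs p.2 p.1]
    exact CharTwo.add_self_eq_zero _
  · intro p _ hp h
    apply hp
    have h1 : p.2 = p.1 := congrArg Prod.fst h
    rw [h1]
    exact h0 _
  · intro p _
    exact Finset.mem_univ _
  · intro p _
    rfl

open Classical in
/-- the function on pairs of a function on the edges -/
noncomputable def a5_z (G : SimpleGraph V) : (G.edgeSet → ZMod 2) →ₗ[ZMod 2] (V → V → ZMod 2) where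
  toFun g u v := if h : G.Adj u v then g ⟨s(u, v), h⟩ else 0
  map_add' g g' := by
    funext u v
    by_cases h : G.Adj u v
    · simp only [h, dif_pos, Pi.add_apply]
    · simp only [h, not_false_eq_true, dif_neg, Pi.add_apply, add_zero]
  map_smul' a g := by
    funext u v
    by_cases h : G.Adj u v
    · simp only [h, dif_pos, Pi.smul_apply, RingHom.id_apply]
    · simp only [h, not_false_eq_true, dif_neg, Pi.smul_apply, RingHom.id_apply, smul_zero]

theorem a5_z_pos (G : SimpleGraph V) (g : G.edgeSet → ZMod 2) {u v : V} (h : G.Adj u v) :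
    a5_z G g u v = g ⟨s(u, v), h⟩ := by
  unfold a5_z
  simp only [LinearMap.coe_mk, AddHom.coe_mk]
  rw [dif_pos h]

theorem a5_z_neg (G : SimpleGraph V) (g : G.edgeSet → ZMod 2) {u v : V} (h : ¬ G.Adj u v) :
    a5_z G g u v = 0 := by
  unfold a5_z
  simp only [LinearMap.coe_mk, AddHom.coe_mk]
  rw [dif_neg h]

theorem a5_z_symm (G : SimpleGraph V) (g : G.edgeSet → ZMod 2) (u v : V) :
    a5_z G g u v = a5_z G g v u := by
  by_cases h : G.Adj u v
  · rw [a5_z_pos G g h, a5_z_pos G g h.symm]
    congr 1
    apply Subtype.ext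
    exact Sym2.eq_swap
  · rw [a5_z_neg G g h, a5_z_neg G g (fun h' => h h'.symm)]

theorem a5_z_inj (G : SimpleGraph V) : Function.Injective (a5_z G) := by
  intro g g' h
  funext e
  obtain ⟨e, he⟩ := e
  induction e using Sym2.ind with
  | _ u v =>
    have h1 : G.Adj u v := he
    have h2 := congrFun (congrFun h u) v
    rw [a5_z_pos G g h1, a5_z_pos G g' h1] at h2
    exact h2

/-- the boundary map -/
noncomputable def a5_d (G : SimpleGraph V) : (G.edgeSet → ZMod 2) →ₗ[ZMod 2] (V → ZMod 2) where
  toFun g v := ∑ u, a5_z G g v u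
  map_add' g g' := by
    funext v
    simp only [map_add, Pi.add_apply, Finset.sum_add_distrib]
  map_smul' a g := by
    funext v
    simp only [map_smul, Pi.smul_apply, RingHom.id_apply, Finset.smul_sum]

/-- the sum -/
def a5_e (V : Type) [Fintype V] : (V → ZMod 2) →ₗ[ZMod 2] ZMod 2 where
  toFun f := ∑ v, f v
  map_add' f f' := by
    simp only [Pi.add_apply, Finset.sum_add_distrib]
  map_smul' a f := by
    simp only [Pi.smul_apply, RingHom.id_apply, Finset.smul_sum]

/-- `dim (cyc G) ≥ |E| - |V| + 1`.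

Proof. Let `A` be the space of functions `g : G.edgeSet → F` (dimension `|E|`). For `g ∈ A` put
`z u v = g ⟨s(u, v), _⟩` if `G.Adj u v`, and `0` otherwise; this is linear and injective in `g`,
symmetric and supported on adjacent pairs. The linear map `δ : A → (V → F)`,
`δ g v = ∑ u, z v u`, has range in `{f | ∑ v, f v = 0}` (in `∑ v, ∑ u, z v u` every edge is
counted twice: the terms of `(v, u)` and `(u, v)` cancel, e.g. `Finset.sum_involution` on the
pairs), a proper subspace of `V → F` (`V` is nonempty), so `dim (range δ) ≤ |V| - 1` and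
`dim (ker δ) ≥ |E| - |V| + 1`; `g ↦ z` maps `ker δ` injectively into `cyc G`. -/
theorem finrank_cyc (G : SimpleGraph V) [Nonempty V] :
    Nat.card G.edgeSet + 1 ≤ finrank (ZMod 2) (cyc G) + Fintype.card V := by
  classical
  have : Fintype G.edgeSet := Fintype.ofFinite _
  -- the range of the boundary map
  have hr : LinearMap.range (a5_d G) ≤ LinearMap.ker (a5_e V) := by
    rintro _ ⟨g, rfl⟩
    rw [LinearMap.mem_ker]
    change ∑ v, ∑ u, a5_z G g v u = 0
    exact a5_sum _ (a5_z_symm G g) (fun v => a5_z_neg G g (G.loopless.irrefl v))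
  have hs : LinearMap.range (a5_e V) = ⊤ := by
    rw [LinearMap.range_eq_top]
    intro c
    obtain ⟨v₀⟩ := (inferInstance : Nonempty V)
    refine ⟨Pi.single v₀ c, ?_⟩
    change ∑ v, (Pi.single v₀ c : V → ZMod 2) v = c
    rw [Finset.sum_eq_single v₀]
    · simp
    · intro b _ hb
      rw [Pi.single_apply, if_neg hb]
    · intro h
      exact absurd (Finset.mem_univ v₀) h
  have h1 := LinearMap.finrank_range_add_finrank_ker (a5_e V)
  rw [hs, finrank_top, Module.finrank_self, Module.finrank_fintype_fun_eq_card] at h1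
  have h2 := LinearMap.finrank_range_add_finrank_ker (a5_d G)
  rw [Module.finrank_fintype_fun_eq_card] at h2
  have h3 := Submodule.finrank_mono hr
  have h4 : finrank (ZMod 2) (LinearMap.ker (a5_d G)) ≤ finrank (ZMod 2) (cyc G) := by
    have hm : ∀ g : LinearMap.ker (a5_d G), a5_z G g.1 ∈ cyc G := by
      intro g
      refine ⟨a5_z_symm G g.1, fun u v h => a5_z_neg G g.1 h, fun v => ?_⟩
      have h5 := congrFun (LinearMap.mem_ker.mp g.2) v
      exact h5
    refine LinearMap.finrank_le_finrank_of_injective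
      (f := ((a5_z G).comp (LinearMap.ker (a5_d G)).subtype).codRestrict (cyc G) hm) ?_
    intro g g' h
    apply Subtype.ext
    apply a5_z_inj G
    exact congrArg Subtype.val h
  rw [Nat.card_eq_fintype_card]
  omega

end Pool.Agent.HTE
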