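import Pool.Agent.HTE.A1
import Pool.Agent.HTE.A3
import Pool.Agent.HTE.A5

set_option autoImplicit false

namespace Pool.Agent.HTE

open Module

variable {V : Type} [Fintype V] {G : SimpleGraph V} (M : Drawing G)

/-- A function on the vertices of the map has the same value at all noncrossing flags whose label
has the same initial vertex (`vert_same`; `a` factors through `Quot`). -/
theorem invV_fst (a : M.D → ZMod 2) (ha : a ∈ M.invV) (d e : M.D) (hd : ¬ M.cross d)
    (he : ¬ M.cross e) (h : (M.lab d).fst = (M.lab e).fst) : a d = a e := by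
  have h1 := (M.vert_same d e hd he).2 h
  exact congrArg (Quot.lift a ha) h1

open scoped Classical in
/-- **Lifting of cycles.** For every `z` in the cycle space of `G` there is a function `w` on the
corners of the map whose jump at each flag is the value of `z` on the edge of `G`.

Proof. `GMap.exists_corner` with `H = σ.sd`, `y d = z (M.lab d).fst (M.lab d).snd`, which is
`t2`-invariant by `lab_t2`. To check for `a ∈ invV`: `∑_{d : sd d = false} a d * y d = 0`. Split
into crossing and noncrossing flags. On the crossing flags with `sd d = false` the map `M.st` is an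
involution (`st_st`, `cross_st`, `σ.sd_st`) without fixed points (`lab_st`: the label of `st d` is
`(lab d).symm ≠ lab d`), `a (st d) = a d` (`a` is invariant under `t1`, `t2`),
`y (st d) = y d` (`z` is symmetric, `lab_st`); so this part is `0` (`Finset.sum_involution`, char 2).
The noncrossing flags with `sd d = false` correspond bijectively to the darts `b : G.Dart` by
`d = σ.rho b false` (`rho_uniq`). By `invV_fst` `a (σ.rho b false)` depends only on `b.fst`; so the
sum is `∑ v, α v * ∑_{u : Adj v u} z v u = 0` where `α v` is the common value (any value if `v` is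
isolated) and `∑_{u : Adj v u} z v u = ∑_u z v u = 0`. (E.g. sum over the darts by
`Finset.sum_fiberwise` over `b.fst`, and for each `v` the darts with `b.fst = v` correspond to the
neighbours of `v`: `SimpleGraph.dartOfNeighborSet`.) -/
theorem lift_cyc (σ : Side M) (z : V → V → ZMod 2) (hz : z ∈ cyc G) :
    ∃ w ∈ M.inv1, ∀ d, w d + w (M.t2 d) = z (M.lab d).fst (M.lab d).snd := by
  obtain ⟨hz1, hz2, hz3⟩ := hz
  refine GMap.exists_corner M.toGMap σ.sd σ.sd_t2 (fun d => z (M.lab d).fst (M.lab d).snd) ?_ ?_
  · intro d
    simp only [M.lab_t2]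
  intro a ha
  have ha' := (GMap.mem_invV _ _).1 ha
  rw [← Finset.sum_filter_add_sum_filter_not _ (fun d => M.cross d)]
  have hcross : ∑ d ∈ (Finset.univ.filter (fun d => σ.sd d = false)).filter (fun d => M.cross d),
      a d * z (M.lab d).fst (M.lab d).snd = 0 := by
    refine Finset.sum_involution (fun d _ => M.st d) ?_ ?_ ?_ ?_
    · intro d hd
      rw [Finset.mem_filter, Finset.mem_filter] at hd
      rw [M.lab_st d hd.2]
      have h1 : a (M.st d) = a d := by
        unfold Drawing.st
        rw [ha'.1, ha'.2, ha'.1]
      rw [h1]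
      show a d * z (M.lab d).fst (M.lab d).snd + a d * z (M.lab d).snd (M.lab d).fst = 0
      rw [hz1 (M.lab d).snd (M.lab d).fst]
      exact CharTwo.add_self_eq_zero _
    · intro d hd _ h
      rw [Finset.mem_filter, Finset.mem_filter] at hd
      have h1 := M.lab_st d hd.2
      rw [h] at h1
      exact (M.lab d).symm_ne h1.symm
    · intro d hd
      rw [Finset.mem_filter, Finset.mem_filter] at hd ⊢
      refine ⟨⟨Finset.mem_univ _, ?_⟩, (M.cross_st d).2 hd.2⟩
      rw [← hd.1.2]
      exact σ.sd_st d hd.2
    · intro d _
      exact M.st_st d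
  rw [hcross, zero_add]
  have hnon : ∑ d ∈ (Finset.univ.filter (fun d => σ.sd d = false)).filter (fun d => ¬ M.cross d),
      a d * z (M.lab d).fst (M.lab d).snd =
      ∑ b : G.Dart, a (σ.rho b false) * z b.fst b.snd := by
    refine Finset.sum_bij' (fun d _ => M.lab d) (fun b _ => σ.rho b false) ?_ ?_ ?_ ?_ ?_
    · intro d _
      exact Finset.mem_univ _
    · intro b _
      rw [Finset.mem_filter, Finset.mem_filter]
      exact ⟨⟨Finset.mem_univ _, σ.rho_sd b false⟩, σ.rho_cross b false⟩
    · intro d hd
      rw [Finset.mem_filter, Finset.mem_filter] at hd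
      have h1 := σ.rho_uniq d hd.2
      rw [hd.1.2] at h1
      exact h1.symm
    · intro b _
      exact σ.rho_lab b false
    · intro d hd
      rw [Finset.mem_filter, Finset.mem_filter] at hd
      have h1 := σ.rho_uniq d hd.2
      rw [hd.1.2] at h1
      rw [← h1]
  rw [hnon, ← Finset.sum_fiberwise Finset.univ (fun b : G.Dart => b.fst)]
  refine Finset.sum_eq_zero fun v _ => ?_
  by_cases hv : ∃ b₀ : G.Dart, b₀.fst = v
  · obtain ⟨b₀, hb₀⟩ := hv
    have h1 : ∀ b ∈ Finset.univ.filter (fun b : G.Dart => b.fst = v),
        a (σ.rho b false) * z b.fst b.snd = a (σ.rho b₀ false) * z v b.snd := by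
      intro b hb
      rw [Finset.mem_filter] at hb
      rw [hb.2]
      congr 1
      refine invV_fst M a ha _ _ (σ.rho_cross _ _) (σ.rho_cross _ _) ?_
      rw [σ.rho_lab, σ.rho_lab, hb.2, hb₀]
    rw [Finset.sum_congr rfl h1, ← Finset.mul_sum]
    have h2 : ∑ b ∈ Finset.univ.filter (fun b : G.Dart => b.fst = v), z v b.snd =
        ∑ u ∈ Finset.univ.filter (fun u => G.Adj v u), z v u := by
      refine Finset.sum_bij (fun b _ => b.snd) ?_ ?_ ?_ ?_
      · intro b hb
        rw [Finset.mem_filter] at hb ⊢
        refine ⟨Finset.mem_univ _, ?_⟩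
        rw [← hb.2]
        exact b.adj
      · intro b hb b' hb' h
        rw [Finset.mem_filter] at hb hb'
        have h3 : b.toProd = b'.toProd := Prod.ext (hb.2.trans hb'.2.symm) h
        exact SimpleGraph.Dart.ext _ _ h3
      · intro u hu
        rw [Finset.mem_filter] at hu
        exact ⟨⟨(v, u), hu.2⟩, Finset.mem_filter.2 ⟨Finset.mem_univ _, rfl⟩, rfl⟩
      · intro b _
        rfl
    have h3 : ∑ u ∈ Finset.univ.filter (fun u => G.Adj v u), z v u = ∑ u, z v u := by
      rw [Finset.sum_filter]
      refine Finset.sum_congr rfl fun u _ => ?_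
      split_ifs with h
      · rfl
      · exact (hz2 v u h).symm
    rw [h2, h3, hz3 v, mul_zero]
  · refine Finset.sum_eq_zero fun b hb => ?_
    rw [Finset.mem_filter] at hb
    exact absurd ⟨b, hb.2⟩ hv

end Pool.Agent.HTE
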