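import Pool.Agent.HTE.A8

set_option autoImplicit false

namespace Pool.Agent.HTE

open Module

variable {V : Type} [Fintype V] {G : SimpleGraph V} {M : Drawing G}

/-- The number of crossings is symmetric: `t1` is a bijection between the two sets of flags
(`cross_t1`, `t1_t1`). -/
theorem crossings_comm (M : Drawing G) (e f : Sym2 V) : M.crossings e f = M.crossings f e := by
  unfold Drawing.crossings
  congr 1
  refine Nat.card_congr ⟨fun d => ⟨M.t1 d.1, ?_⟩, fun d => ⟨M.t1 d.1, ?_⟩, ?_, ?_⟩
  · exact ⟨(M.cross_t1 _).2 d.2.1, d.2.2.2, by rw [M.t1_t1]; exact d.2.2.1⟩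
  · exact ⟨(M.cross_t1 _).2 d.2.1, d.2.2.2, by rw [M.t1_t1]; exact d.2.2.1⟩
  · intro d
    exact Subtype.ext (M.t1_t1 _)
  · intro d
    exact Subtype.ext (M.t1_t1 _)

open scoped Classical in
private theorem a9_self (σ : Side M) (a : G.Dart) : M.crossings a.edge a.edge = 0 := by
  rw [← Side.card_cross σ a false a.edge, Finset.card_eq_zero, Finset.filter_eq_empty_iff]
  rintro q _ ⟨h1, h2, _, h3⟩
  exact M.cross_ne q h1 (by rw [h3, h2])

open scoped Classical in
/-- **The values at the two ends of a side of an edge** when the drawing is independently even.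

Proof. By `Side.tele` (with `a = ⟨(v, u), h⟩`, `a.symm = ⟨(u, v), h.symm⟩`), `hTh` and `hj`
(applied to the flag `t1 q`), the left side is
`∑_{q : cross q, lab q = a, sd q = s} zz (lab (t1 q)).edge`, where
`zz = Sym2.lift ⟨z, hz⟩ : Sym2 V → F`. Grouping by the value `f` of `(lab (t1 q)).edge`
(`Finset.sum_fiberwise` over `f : Sym2 V`) and `Side.card_cross` this is
`∑ f : Sym2 V, (M.crossings s(v, u) f) * zz f`. Terms: if `f` is not an edge, `zz f = 0` (`hz0`).
If `f = s(v, u)`: `crossings s(v, u) s(v, u) = 0`, because by `Side.card_cross` it is the number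
of `q` with `cross q`, `lab q = a`, `(lab (t1 q)).edge = a.edge`, impossible by `cross_ne`. If `f`
is an edge with no common end with `s(v, u)`: even by `hE`, so `0` in `ZMod 2`. The remaining `f`
are the edges `s(v, u')` with `u' ≠ u` and the edges `s(u, u')` with `u' ≠ v`, all different
(`s(v, u') = s(u, u'')` would give `u' = u`). So the sum is the right side (for `u' = v` resp.
nonadjacent `u'` the terms on the right vanish by `hz0`); also `s(u, v) = s(v, u)`. -/
theorem Side.ends (σ : Side M) (hE : M.IndependentlyEven) (w : M.D → ZMod 2) (hw : w ∈ M.inv1)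
    (z : V → V → ZMod 2) (hz : ∀ u v, z u v = z v u) (hz0 : ∀ u v, ¬ G.Adj u v → z u v = 0)
    (hj : ∀ d, w d + w (M.t2 d) = z (M.lab d).fst (M.lab d).snd)
    (v u : V) (h : G.Adj v u) (s : Bool) (hTh : σ.Th w ⟨(v, u), h⟩ s = 0) :
    w (σ.rho ⟨(v, u), h⟩ s) + w (σ.rho ⟨(u, v), h.symm⟩ s) =
      ∑ u' ∈ Finset.univ.erase u, (M.crossings s(v, u) s(v, u') : ZMod 2) * z v u' +
      ∑ u' ∈ Finset.univ.erase v, (M.crossings s(u, v) s(u, u') : ZMod 2) * z u u' := by
  have hvu : v ≠ u := h.ne
  set a : G.Dart := ⟨(v, u), h⟩ with ha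
  have hsymm : a.symm = ⟨(u, v), h.symm⟩ := rfl
  have haedge : a.edge = s(v, u) := rfl
  set zz : Sym2 V → ZMod 2 := Sym2.lift ⟨z, hz⟩ with hzz
  have hzz' : ∀ x y : V, zz s(x, y) = z x y := fun x y => rfl
  rw [← hsymm, σ.tele w hw a s, hTh, zero_add]
  -- the jumps
  have hjump : ∀ q : M.D, w (M.t1 q) + w (M.t2 (M.t1 q)) = zz (M.lab (M.t1 q)).edge := by
    intro q
    rw [hj]
    rfl
  rw [Finset.sum_congr rfl (fun q _ => hjump q)]
  -- grouping
  have hgroup : ∑ q ∈ Finset.univ.filter (fun q => M.cross q ∧ M.lab q = a ∧ σ.sd q = s),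
      zz (M.lab (M.t1 q)).edge = ∑ f : Sym2 V, (M.crossings s(v, u) f : ZMod 2) * zz f := by
    rw [← Finset.sum_fiberwise
      (Finset.univ.filter (fun q => M.cross q ∧ M.lab q = a ∧ σ.sd q = s))
      (fun q => (M.lab (M.t1 q)).edge) (fun q => zz (M.lab (M.t1 q)).edge)]
    refine Finset.sum_congr rfl fun f _ => ?_
    rw [Finset.filter_filter]
    have hc := σ.card_cross a s f
    have hfil : Finset.univ.filter (fun q => (M.cross q ∧ M.lab q = a ∧ σ.sd q = s) ∧
        (M.lab (M.t1 q)).edge = f) = Finset.univ.filter (fun q => M.cross q ∧ M.lab q = a ∧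
        σ.sd q = s ∧ (M.lab (M.t1 q)).edge = f) := by
      ext q
      simp only [Finset.mem_filter, Finset.mem_univ, true_and]
      tauto
    rw [hfil, Finset.sum_congr rfl (g := fun _ => zz f), Finset.sum_const, hc, haedge,
      nsmul_eq_mul]
    intro q hq
    simp only [Finset.mem_filter, Finset.mem_univ, true_and] at hq
    rw [hq.2.2.2]
  rw [hgroup]
  -- only edges with a common end count
  set F : Sym2 V → ZMod 2 := fun f => (M.crossings s(v, u) f : ZMod 2) * zz f with hF
  have hself : F s(v, u) = 0 := by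
    have := a9_self σ a
    rw [haedge] at this
    rw [hF]
    simp only [this, Nat.cast_zero, zero_mul]
  have hFz : ∀ f : Sym2 V, f ∉ G.edgeSet → F f = 0 := by
    intro f
    refine Sym2.ind (fun x y => ?_) f
    intro hxy
    rw [hF]
    simp only [hzz']
    rw [hz0 x y hxy, mul_zero]
  have hFi : ∀ f : Sym2 V, v ∉ f → u ∉ f → F f = 0 := by
    intro f hv hu
    by_cases hf : f ∈ G.edgeSet
    · have hev := hE s(v, u) h f hf (by
        intro x hx
        rcases Sym2.mem_iff.1 hx with rfl | rfl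
        · exact hv
        · exact hu)
      have : (M.crossings s(v, u) f : ZMod 2) = 0 := by
        rw [ZMod.natCast_eq_zero_iff]
        exact even_iff_two_dvd.1 hev
      rw [hF]
      simp only [this, zero_mul]
    · exact hFz f hf
  -- the edges at v and the edges at u
  set A : Finset (Sym2 V) := (Finset.univ.erase u).image (fun x => s(v, x)) with hA
  set B : Finset (Sym2 V) := (Finset.univ.erase v).image (fun x => s(u, x)) with hB
  have hAB : Disjoint A B := by
    rw [Finset.disjoint_left]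
    intro f h1 h2
    rw [hA, Finset.mem_image] at h1
    rw [hB, Finset.mem_image] at h2
    obtain ⟨x, hx, rfl⟩ := h1
    obtain ⟨y, hy, hxy⟩ := h2
    rw [Finset.mem_erase] at hx hy
    rcases Sym2.eq_iff.1 hxy with ⟨h1, _⟩ | ⟨h1, h2⟩
    · exact hvu h1.symm
    · exact hx.1 h1.symm
  have hsub : ∑ f ∈ A ∪ B, F f = ∑ f : Sym2 V, F f := by
    refine Finset.sum_subset (Finset.subset_univ _) fun f _ hf => ?_
    rw [Finset.mem_union, not_or] at hf
    by_cases hv : v ∈ f
    · obtain ⟨x, rfl⟩ := Sym2.mem_iff_exists.1 hv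
      by_cases hxu : x = u
      · rw [hxu]
        exact hself
      · exfalso
        apply hf.1
        rw [hA, Finset.mem_image]
        exact ⟨x, Finset.mem_erase.2 ⟨hxu, Finset.mem_univ _⟩, rfl⟩
    · by_cases hu : u ∈ f
      · obtain ⟨x, rfl⟩ := Sym2.mem_iff_exists.1 hu
        exfalso
        apply hf.2
        rw [hB, Finset.mem_image]
        refine ⟨x, Finset.mem_erase.2 ⟨?_, Finset.mem_univ _⟩, rfl⟩
        rintro rfl
        exact hv (Sym2.mem_mk_right _ _)
      · exact hFi f hv hu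
  rw [← hsub, Finset.sum_union hAB, hA, hB, Finset.sum_image, Finset.sum_image]
  · rw [Sym2.eq_swap (a := u) (b := v)]
    rfl
  · intro x _ y _ hxy
    rcases Sym2.eq_iff.1 hxy with ⟨_, h2⟩ | ⟨h1, h2⟩
    · exact h2
    · rw [h2, ← h1]
  · intro x _ y _ hxy
    rcases Sym2.eq_iff.1 hxy with ⟨_, h2⟩ | ⟨h1, h2⟩
    · exact h2
    · rw [h2, ← h1]

end Pool.Agent.HTE
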