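import Pool.Agent.HTE.Core
import Pool.Agent.HTE.A6
import Pool.Agent.HTE.A9

set_option autoImplicit false

namespace Pool.Agent.HTE

open Module

variable {V : Type} [Fintype V] {G : SimpleGraph V} {M : Drawing G}

open scoped Classical in
/-- The code at the vertex `v`. -/
noncomputable def Side.code (σ : Side M) (v : V) :
    Submodule (ZMod 2) (V → Bool → ZMod 2) where
  carrier := {c | (∀ u, ¬ G.Adj v u → c u = 0) ∧ ∃ w ∈ M.inv1, ∀ u (h : G.Adj v u) s,
    c u s = w (σ.rho ⟨(v, u), h⟩ s) + ∑ u' ∈ Finset.univ.erase u,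
      (M.crossings s(v, u) s(v, u') : ZMod 2) * (c u' false + c u' true)}
  add_mem' := by
    rintro c c' ⟨h0, w, h1, h2⟩ ⟨h0', w', h1', h2'⟩
    refine ⟨fun u hu => by simp only [Pi.add_apply, h0 u hu, h0' u hu, add_zero],
      w + w', M.inv1.add_mem h1 h1', fun u h s => ?_⟩
    simp only [Pi.add_apply]
    rw [h2 u h s, h2' u h s]
    have : ∀ x : V, (M.crossings s(v, u) s(v, x) : ZMod 2) *
        (c x false + c' x false + (c x true + c' x true)) =
        (M.crossings s(v, u) s(v, x) : ZMod 2) * (c x false + c x true) +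
        (M.crossings s(v, u) s(v, x) : ZMod 2) * (c' x false + c' x true) := fun x => by ring
    simp only [this, Finset.sum_add_distrib]
    ring
  zero_mem' := ⟨fun _ _ => rfl, 0, M.inv1.zero_mem, fun _ _ _ => by simp⟩
  smul_mem' := by
    rintro a c ⟨h0, w, h1, h2⟩
    refine ⟨fun u hu => by simp only [Pi.smul_apply, h0 u hu, smul_zero],
      a • w, M.inv1.smul_mem a h1, fun u h s => ?_⟩
    simp only [Pi.smul_apply, smul_eq_mul]
    rw [h2 u h s, mul_add, Finset.mul_sum]
    congr 1
    refine Finset.sum_congr rfl fun x _ => ?_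
    ring

private theorem a10_two (x : ZMod 2) : x + x = 0 := CharTwo.add_self_eq_zero x

private theorem a10_fst_t1 (d : M.D) (h : ¬ M.cross d) :
    (M.lab (M.t1 d)).fst = (M.lab d).fst := by
  have h' : ¬ M.cross (M.t1 d) := fun h1 => h ((M.cross_t1 d).1 h1)
  exact ((M.vert_same d (M.t1 d) h h').1 (Quot.sound (Or.inl rfl))).symm

open scoped Classical in
/-- The noncrossing flags at `v`. -/
private noncomputable def a10_S (M : Drawing G) (v : V) : Finset M.D :=
  Finset.univ.filter (fun d => ¬ M.cross d ∧ (M.lab d).fst = v)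

private theorem a10_S_mem (v : V) (d : M.D) :
    d ∈ a10_S M v ↔ ¬ M.cross d ∧ (M.lab d).fst = v := by
  simp [a10_S]

private theorem a10_S_t1 (v : V) (d : M.D) (h : d ∈ a10_S M v) : M.t1 d ∈ a10_S M v := by
  rw [a10_S_mem] at h ⊢
  exact ⟨fun h1 => h.1 ((M.cross_t1 d).1 h1), by rw [a10_fst_t1 d h.1, h.2]⟩

private theorem a10_S_sum (v : V) (w w' : M.D → ZMod 2) (hw : w ∈ M.inv1) (hw' : w' ∈ M.inv1) :
    ∑ d ∈ a10_S M v, w d * w' d = 0 := by
  have h1 := (M.mem_inv1 w).1 hw
  have h1' := (M.mem_inv1 w').1 hw'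
  refine Finset.sum_involution (fun d _ => M.t1 d) ?_ ?_ ?_ ?_
  · intro d _
    rw [h1, h1']
    exact a10_two _
  · intro d _ _
    exact M.t1_ne d
  · intro d hd
    exact a10_S_t1 v d hd
  · intro d _
    exact M.t1_t1 d

open scoped Classical in
private theorem a10_S_fib (σ : Side M) (v : V) (f : M.D → ZMod 2) :
    ∑ d ∈ a10_S M v, f d = ∑ u, if h : G.Adj v u then
      (f (σ.rho ⟨(v, u), h⟩ true) + f (σ.rho ⟨(v, u), h⟩ false)) else 0 := by
  rw [← Finset.sum_fiberwise (a10_S M v) (fun d => (M.lab d).snd) f]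
  refine Finset.sum_congr rfl fun u _ => ?_
  by_cases h : G.Adj v u
  · rw [dif_pos h]
    have hfil : (a10_S M v).filter (fun d => (M.lab d).snd = u) =
        {σ.rho ⟨(v, u), h⟩ true, σ.rho ⟨(v, u), h⟩ false} := by
      ext d
      simp only [Finset.mem_filter, a10_S_mem, Finset.mem_insert, Finset.mem_singleton]
      constructor
      · rintro ⟨⟨h1, h2⟩, h3⟩
        have hl : M.lab d = ⟨(v, u), h⟩ := by
          apply SimpleGraph.Dart.ext
          exact Prod.ext h2 h3
        have hr := σ.rho_uniq d h1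
        rw [hl] at hr
        cases hs : σ.sd d
        · rw [hs] at hr
          exact Or.inr hr
        · rw [hs] at hr
          exact Or.inl hr
      · rintro (rfl | rfl)
        · exact ⟨⟨σ.rho_cross _ _, by rw [σ.rho_lab]⟩, by rw [σ.rho_lab]⟩
        · exact ⟨⟨σ.rho_cross _ _, by rw [σ.rho_lab]⟩, by rw [σ.rho_lab]⟩
    rw [hfil, Finset.sum_pair]
    intro he
    have := congrArg σ.sd he
    rw [σ.rho_sd, σ.rho_sd] at this
    exact Bool.false_ne_true this.symm
  · rw [dif_neg h]
    apply Finset.sum_eq_zero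
    intro d hd
    exfalso
    rw [Finset.mem_filter, a10_S_mem] at hd
    apply h
    have := (M.lab d).adj
    rw [← hd.1.2, ← hd.2]
    exact this

open scoped Classical in
private theorem a10_cross (N : V → V → ZMod 2) (hN : ∀ u u', N u u' = N u' u)
    (ζ ζ' : V → ZMod 2) :
    ∑ u, ((∑ u' ∈ Finset.univ.erase u, N u u' * ζ u') * ζ' u +
      (∑ u' ∈ Finset.univ.erase u, N u u' * ζ' u') * ζ u) = 0 := by
  have hL : ∀ (x : V → ZMod 2) (u : V), ∑ u' ∈ Finset.univ.erase u, N u u' * x u' =
      ∑ u', (if u' = u then 0 else N u u') * x u' := by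
    intro x u
    rw [← Finset.sum_erase (s := Finset.univ) (a := u)]
    · refine Finset.sum_congr rfl fun u' hu' => ?_
      rw [if_neg (Finset.ne_of_mem_erase hu')]
    · simp
  simp only [hL]
  rw [Finset.sum_add_distrib]
  have hsw : ∑ u, (∑ u', (if u' = u then 0 else N u u') * ζ' u') * ζ u =
      ∑ u, (∑ u', (if u' = u then 0 else N u u') * ζ u') * ζ' u := by
    simp only [Finset.sum_mul]
    rw [Finset.sum_comm]
    refine Finset.sum_congr rfl fun u _ => Finset.sum_congr rfl fun u' _ => ?_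
    by_cases h : u' = u
    · rw [if_pos h, if_pos h.symm]
      ring
    · rw [if_neg h, if_neg (fun h1 => h h1.symm), hN u' u]
      ring
  rw [hsw]
  exact a10_two _

/-- **The codes are self-orthogonal.**

Proof. Let `c, c'` be given by `w, w'`. Write `ζ u = c u false + c u true`,
`m u u' = (crossings s(v, u) s(v, u') : F)` (symmetric by `crossings_comm`),
`L u = ∑_{u' ≠ u} m u u' * ζ u'`, and `ζ'`, `L'` for `c'`. For `u` adjacent to `v`:
`c u s = w (rho (v,u) s) + L u`, so `ζ u = w (rho (v,u) false) + w (rho (v,u) true)` (char 2) and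
`∑ s, c u s * c' u s = ∑ s, w (rho (v,u) s) * w' (rho (v,u) s) + L u * ζ' u + L' u * ζ u`.
For `u` not adjacent to `v` `c u = 0`, `ζ u = 0`, `ζ' u = 0`. Summing over `u`:
`∑_u (L u * ζ' u + L' u * ζ u) = ∑_u ∑_{u' ≠ u} m u u' (ζ u' ζ' u + ζ' u' ζ u) = 0` (swap `u, u'` in
the second term; char 2). And
`∑_{u : Adj v u} ∑_s w (rho (v,u) s) * w' (rho (v,u) s) = ∑_{d} w d * w' d` over the noncrossing flags
`d` with `(lab d).fst = v` (bijection by `rho_uniq`, `rho_lab`, `rho_sd`), and this is `0` since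
`t1` is a fixed-point-free involution on this set which leaves `w, w'` invariant
(`Finset.sum_involution`; `cross_t1`; `(lab (t1 d)).fst = (lab d).fst` by `vert_same`, because
`Quot.mk _ d = Quot.mk _ (t1 d)`). -/
theorem Side.code_orth (σ : Side M) (v : V) (c c' : V → Bool → ZMod 2) (hc : c ∈ σ.code v)
    (hc' : c' ∈ σ.code v) : ∑ u, ∑ s, c u s * c' u s = 0 := by
  classical
  obtain ⟨hc0, w, hw, hcw⟩ := hc
  obtain ⟨hc0', w', hw', hcw'⟩ := hc'
  set N : V → V → ZMod 2 := fun u u' => (M.crossings s(v, u) s(v, u') : ZMod 2) with hN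
  have hNs : ∀ u u', N u u' = N u' u := by
    intro u u'
    rw [hN]
    simp only [crossings_comm M s(v, u) s(v, u')]
  set ζ : V → ZMod 2 := fun u => c u false + c u true with hζ
  set ζ' : V → ZMod 2 := fun u => c' u false + c' u true with hζ'
  have hterm : ∀ u, ∑ s, c u s * c' u s = (if h : G.Adj v u then
      (w (σ.rho ⟨(v, u), h⟩ true) * w' (σ.rho ⟨(v, u), h⟩ true) +
        w (σ.rho ⟨(v, u), h⟩ false) * w' (σ.rho ⟨(v, u), h⟩ false)) else 0) +
      ((∑ u' ∈ Finset.univ.erase u, N u u' * ζ u') * ζ' u +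
      (∑ u' ∈ Finset.univ.erase u, N u u' * ζ' u') * ζ u) := by
    intro u
    rw [Fintype.sum_bool]
    by_cases h : G.Adj v u
    · rw [dif_pos h]
      have e1 := hcw u h true
      have e2 := hcw u h false
      have e1' := hcw' u h true
      have e2' := hcw' u h false
      have eL : ∑ u' ∈ Finset.univ.erase u,
          (M.crossings s(v, u) s(v, u') : ZMod 2) * (c u' false + c u' true) =
          ∑ u' ∈ Finset.univ.erase u, N u u' * ζ u' := rfl
      have eL' : ∑ u' ∈ Finset.univ.erase u,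
          (M.crossings s(v, u) s(v, u') : ZMod 2) * (c' u' false + c' u' true) =
          ∑ u' ∈ Finset.univ.erase u, N u u' * ζ' u' := rfl
      rw [eL] at e1 e2
      rw [eL'] at e1' e2'
      have z1 : ζ u = c u false + c u true := rfl
      have z1' : ζ' u = c' u false + c' u true := rfl
      rw [z1, z1', e1, e2, e1', e2']
      generalize ∑ u' ∈ Finset.univ.erase u, N u u' * ζ u' = L
      generalize ∑ u' ∈ Finset.univ.erase u, N u u' * ζ' u' = L'
      have t1 := a10_two (L * L')
      linear_combination (-1) * t1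
    · rw [dif_neg h]
      have e1 : c u = 0 := hc0 u h
      have e1' : c' u = 0 := hc0' u h
      have z1 : ζ u = 0 := by
        rw [hζ]
        simp [e1]
      have z1' : ζ' u = 0 := by
        rw [hζ']
        simp [e1']
      rw [z1, z1', e1, e1']
      simp
  rw [Finset.sum_congr rfl (fun u _ => hterm u), Finset.sum_add_distrib,
    a10_cross N hNs ζ ζ', add_zero]
  have hfib := a10_S_fib σ v (fun d => w d * w' d)
  rw [a10_S_sum v w w' hw hw'] at hfib
  exact hfib.symm

/-- **Transversality.** Proof: if `c u false = c u true` for all `u`, then `ζ = 0` (see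
`Side.code_orth`) and `c u s = w (rho (v,u) s)` for `u` adjacent to `v`. Let `w'` be `w` on the
noncrossing flags `d` with `(lab d).fst = v`, and `0` elsewhere. This set is closed under `t1`
(see `Side.code_orth`) and `t2` (`lab_t2`, `cross_t2`), and on it `w' (t1 d) = w' d`
(`w ∈ inv1`) and `w' (t2 d) = w' d` (with `d = rho (v,u) s`, `t2 d = rho (v,u) (!s)` by `rho_t2`:
`w (t2 d) = c u (!s) = c u s = w d`). So `w' ∈ invV` (`GMap.mem_invV`) and by `invV_fst` it is
constant on the set. Hence all `c u s` with `u` adjacent to `v` are equal to one element `κ` of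
`ZMod 2`. If `κ = 0` then `c = 0`; if `κ = 1` then `c u = 1` for all neighbours. -/
theorem Side.code_tran (σ : Side M) (v : V) (c : V → Bool → ZMod 2) (hc : c ∈ σ.code v)
    (h : ∀ u, c u false = c u true) : c = 0 ∨ ∀ u, G.Adj v u → c u = 1 := by
  classical
  obtain ⟨hc0, w, hw, hcw⟩ := hc
  have h1 := (M.mem_inv1 w).1 hw
  have hcw1 : ∀ u (hu : G.Adj v u) s, c u s = w (σ.rho ⟨(v, u), hu⟩ s) := by
    intro u hu s
    rw [hcw u hu s]
    have : ∀ u' : V, (M.crossings s(v, u) s(v, u') : ZMod 2) * (c u' false + c u' true) = 0 := by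
      intro u'
      rw [h u', a10_two, mul_zero]
    rw [Finset.sum_congr rfl (fun u' _ => this u'), Finset.sum_const_zero, add_zero]
  have hcs : ∀ u s s', c u s = c u s' := by
    intro u s s'
    cases s <;> cases s'
    · rfl
    · exact h u
    · exact (h u).symm
    · rfl
  set W : M.D → ZMod 2 := fun d => if ¬ M.cross d ∧ (M.lab d).fst = v then w d else 0 with hW
  have hWV : W ∈ M.invV := by
    rw [GMap.mem_invV]
    constructor
    · intro d
      by_cases hd : ¬ M.cross d ∧ (M.lab d).fst = v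
      · have hd' : ¬ M.cross (M.t1 d) ∧ (M.lab (M.t1 d)).fst = v :=
          ⟨fun h1 => hd.1 ((M.cross_t1 d).1 h1), by rw [a10_fst_t1 d hd.1, hd.2]⟩
        rw [hW]
        simp only [if_pos hd, if_pos hd', h1]
      · have hd' : ¬ (¬ M.cross (M.t1 d) ∧ (M.lab (M.t1 d)).fst = v) := by
          rintro ⟨h2, h3⟩
          apply hd
          refine ⟨fun h4 => h2 ((M.cross_t1 d).2 h4), ?_⟩
          have := a10_fst_t1 (M.t1 d) h2
          rw [M.t1_t1] at this
          rw [this, h3]
        rw [hW]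
        simp only [if_neg hd, if_neg hd']
    · intro d
      by_cases hd : ¬ M.cross d ∧ (M.lab d).fst = v
      · have hd' : ¬ M.cross (M.t2 d) ∧ (M.lab (M.t2 d)).fst = v :=
          ⟨fun h1 => hd.1 ((M.cross_t2 d).1 h1), by rw [M.lab_t2, hd.2]⟩
        rw [hW]
        simp only [if_pos hd, if_pos hd']
        obtain ⟨hd1, hd2⟩ := hd
        have hr := σ.rho_uniq d hd1
        have hadj : G.Adj v (M.lab d).snd := by
          have := (M.lab d).adj
          rw [← hd2]
          exact this
        have hl : M.lab d = ⟨(v, (M.lab d).snd), hadj⟩ := by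
          apply SimpleGraph.Dart.ext
          exact Prod.ext hd2 rfl
        have e1 : w d = c (M.lab d).snd (σ.sd d) := by
          rw [hcw1 _ hadj, ← hl, ← hr]
        have e2 : w (M.t2 d) = c (M.lab d).snd (!σ.sd d) := by
          rw [hcw1 _ hadj, ← hl, ← σ.rho_t2, ← hr]
        rw [e1, e2]
        exact hcs _ _ _
      · have hd' : ¬ (¬ M.cross (M.t2 d) ∧ (M.lab (M.t2 d)).fst = v) := by
          rintro ⟨h2, h3⟩
          apply hd
          rw [M.lab_t2] at h3
          exact ⟨fun h4 => h2 ((M.cross_t2 d).2 h4), h3⟩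
        rw [hW]
        simp only [if_neg hd, if_neg hd']
  have hconst : ∀ u (hu : G.Adj v u) s u' (hu' : G.Adj v u') s', c u s = c u' s' := by
    intro u hu s u' hu' s'
    have hfst : (M.lab (σ.rho ⟨(v, u), hu⟩ s)).fst = (M.lab (σ.rho ⟨(v, u'), hu'⟩ s')).fst := by
      rw [σ.rho_lab, σ.rho_lab]
    have := invV_fst M W hWV _ _ (σ.rho_cross ⟨(v, u), hu⟩ s) (σ.rho_cross ⟨(v, u'), hu'⟩ s') hfst
    have f1 : W (σ.rho ⟨(v, u), hu⟩ s) = w (σ.rho ⟨(v, u), hu⟩ s) := by
      rw [hW]
      exact if_pos ⟨σ.rho_cross _ _, by rw [σ.rho_lab]⟩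
    have f2 : W (σ.rho ⟨(v, u'), hu'⟩ s') = w (σ.rho ⟨(v, u'), hu'⟩ s') := by
      rw [hW]
      exact if_pos ⟨σ.rho_cross _ _, by rw [σ.rho_lab]⟩
    rw [hcw1 u hu s, hcw1 u' hu' s', ← f1, ← f2, this]
  by_cases hall : ∀ u, G.Adj v u → c u = 1
  · exact Or.inr hall
  · left
    push_neg at hall
    obtain ⟨u0, hu0, hne⟩ := hall
    have hz0 : c u0 false = 0 := by
      by_contra hcon
      apply hne
      have h01 : ∀ x : ZMod 2, x ≠ 0 → x = 1 := by decide
      have h1' := h01 _ hcon
      funext s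
      rw [hcs u0 s false, h1']
      rfl
    funext u
    by_cases hu : G.Adj v u
    · funext s
      rw [hconst u hu s u0 hu0 false, hz0]
      rfl
    · rw [hc0 u hu]
      rfl

/-- The system of codes of an independently even drawing. -/
noncomputable def Side.sys (σ : Side M) : Sys G where
  C := σ.code
  supp := fun _ _ hc u hu => hc.1 u hu
  orth := fun v c c' hc hc' => σ.code_orth v c c' hc hc'
  tran := fun v c hc h => σ.code_tran v c hc h

end Pool.Agent.HTE
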