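import Pool.Agent.HTE.A7
import Pool.Agent.HTE.A10

set_option autoImplicit false

namespace Pool.Agent.HTE

open Module

variable {V : Type} [Fintype V] {G : SimpleGraph V} {M : Drawing G}

theorem Side.Th_add (σ : Side M) (w w' : M.D → ZMod 2) (a : G.Dart) (s : Bool) :
    σ.Th (w + w') a s = σ.Th w a s + σ.Th w' a s := by
  simp only [Side.Th, Pi.add_apply, ← Finset.sum_add_distrib]
  exact Finset.sum_congr rfl fun d _ => by ring

theorem Side.Th_smul (σ : Side M) (b : ZMod 2) (w : M.D → ZMod 2) (a : G.Dart) (s : Bool) :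
    σ.Th (b • w) a s = b * σ.Th w a s := by
  simp only [Side.Th, Pi.smul_apply, smul_eq_mul, Finset.mul_sum]
  exact Finset.sum_congr rfl fun d _ => by ring

/-- `Th` (side `false`) as a linear map. -/
noncomputable def Side.ThL (σ : Side M) : (M.D → ZMod 2) →ₗ[ZMod 2] (G.Dart → ZMod 2) where
  toFun w a := σ.Th w a false
  map_add' w w' := funext fun a => σ.Th_add w w' a false
  map_smul' b w := funext fun a => σ.Th_smul b w a false

/-- Functions on the vertices of the map that vanish at the vertices of `G`. -/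
def Drawing.X (M : Drawing G) : Submodule (ZMod 2) (M.D → ZMod 2) where
  carrier := {w | w ∈ M.invV ∧ ∀ d, ¬ M.cross d → w d = 0}
  add_mem' := by
    rintro w w' ⟨h1, h2⟩ ⟨h1', h2'⟩
    refine ⟨M.invV.add_mem h1 h1', fun d hd => ?_⟩
    simp only [Pi.add_apply, h2 d hd, h2' d hd, add_zero]
  zero_mem' := ⟨M.invV.zero_mem, fun _ _ => rfl⟩
  smul_mem' := by
    rintro b w ⟨h1, h2⟩
    refine ⟨M.invV.smul_mem b h1, fun d hd => ?_⟩
    simp only [Pi.smul_apply, h2 d hd, smul_zero]

open scoped Classical in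
/-- The word on the sides of the edges of `G` defined by a function on the corners. -/
noncomputable def Side.Ph (σ : Side M) : (M.D → ZMod 2) →ₗ[ZMod 2] (V → V → Bool → ZMod 2) where
  toFun w v u s := if h : G.Adj v u then w (σ.rho ⟨(v, u), h⟩ s) +
    ∑ u' ∈ Finset.univ.erase u, (M.crossings s(v, u) s(v, u') : ZMod 2) *
      (if h' : G.Adj v u' then w (σ.rho ⟨(v, u'), h'⟩ false) + w (σ.rho ⟨(v, u'), h'⟩ true)
        else 0) else 0
  map_add' w w' := by
    funext v u s
    simp only [Pi.add_apply]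
    by_cases h : G.Adj v u
    · simp only [h, dite_true]
      have : ∀ x : V, (M.crossings s(v, u) s(v, x) : ZMod 2) *
          (if h' : G.Adj v x then w (σ.rho ⟨(v, x), h'⟩ false) + w' (σ.rho ⟨(v, x), h'⟩ false) +
            (w (σ.rho ⟨(v, x), h'⟩ true) + w' (σ.rho ⟨(v, x), h'⟩ true)) else 0) =
          (M.crossings s(v, u) s(v, x) : ZMod 2) *
            (if h' : G.Adj v x then w (σ.rho ⟨(v, x), h'⟩ false) + w (σ.rho ⟨(v, x), h'⟩ true)
              else 0) +
          (M.crossings s(v, u) s(v, x) : ZMod 2) *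
            (if h' : G.Adj v x then w' (σ.rho ⟨(v, x), h'⟩ false) + w' (σ.rho ⟨(v, x), h'⟩ true)
              else 0) := by
        intro x
        by_cases hx : G.Adj v x
        · simp only [hx, dite_true]; ring
        · simp only [hx, dite_false]; ring
      simp only [this, Finset.sum_add_distrib]
      ring
    · simp only [h, dite_false, add_zero]
  map_smul' b w := by
    funext v u s
    simp only [Pi.smul_apply, smul_eq_mul, RingHom.id_apply]
    by_cases h : G.Adj v u
    · simp only [h, dite_true, mul_add, Finset.mul_sum]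
      congr 1
      refine Finset.sum_congr rfl fun x _ => ?_
      by_cases hx : G.Adj v x
      · simp only [hx, dite_true]; ring
      · simp only [hx, dite_false]; ring
    · simp only [h, dite_false, mul_zero]

/-- the jump at the real flags -/
theorem a11_jump (σ : Side M) (w : M.D → ZMod 2) (z : V → V → ZMod 2)
    (hz0 : ∀ u v, ¬ G.Adj u v → z u v = 0)
    (hj : ∀ d, w d + w (M.t2 d) = z (M.lab d).fst (M.lab d).snd) (v u : V) (h : G.Adj v u) :
    w (σ.rho ⟨(v, u), h⟩ false) + w (σ.rho ⟨(v, u), h⟩ true) = z v u := by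
  have h1 := hj (σ.rho ⟨(v, u), h⟩ false)
  rw [σ.rho_t2, σ.rho_lab] at h1
  exact h1

open scoped Classical in
/-- the value of `Ph` on adjacent pairs -/
theorem a11_Ph (σ : Side M) (w : M.D → ZMod 2) (z : V → V → ZMod 2)
    (hz0 : ∀ u v, ¬ G.Adj u v → z u v = 0)
    (hj : ∀ d, w d + w (M.t2 d) = z (M.lab d).fst (M.lab d).snd) (v u : V) (h : G.Adj v u)
    (s : Bool) : σ.Ph w v u s = w (σ.rho ⟨(v, u), h⟩ s) +
      ∑ u' ∈ Finset.univ.erase u, (M.crossings s(v, u) s(v, u') : ZMod 2) * z v u' := by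
  show (if h : G.Adj v u then w (σ.rho ⟨(v, u), h⟩ s) +
    ∑ u' ∈ Finset.univ.erase u, (M.crossings s(v, u) s(v, u') : ZMod 2) *
      (if h' : G.Adj v u' then w (σ.rho ⟨(v, u'), h'⟩ false) + w (σ.rho ⟨(v, u'), h'⟩ true)
        else 0) else 0) = _
  rw [dif_pos h]
  congr 1
  refine Finset.sum_congr rfl fun u' _ => ?_
  congr 1
  by_cases h' : G.Adj v u'
  · rw [dif_pos h']
    exact a11_jump σ w z hz0 hj v u' h'
  · rw [dif_neg h']
    exact (hz0 v u' h').symm

theorem a11_Ph0 (σ : Side M) (w : M.D → ZMod 2) (v u : V) (h : ¬ G.Adj v u) (s : Bool) :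
    σ.Ph w v u s = 0 := by
  classical
  show (if h : G.Adj v u then _ else (0 : ZMod 2)) = 0
  rw [dif_neg h]

open scoped Classical in
/-- the sum over the two sides -/
theorem a11_sum (σ : Side M) (w : M.D → ZMod 2) (z : V → V → ZMod 2)
    (hz0 : ∀ u v, ¬ G.Adj u v → z u v = 0)
    (hj : ∀ d, w d + w (M.t2 d) = z (M.lab d).fst (M.lab d).snd) (v u : V) :
    σ.Ph w v u false + σ.Ph w v u true = z v u := by
  by_cases h : G.Adj v u
  · rw [a11_Ph σ w z hz0 hj v u h, a11_Ph σ w z hz0 hj v u h, ← a11_jump σ w z hz0 hj v u h]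
    have : ∀ x y S : ZMod 2, x + S + (y + S) = x + y := by
      intro x y S
      have h1 : S + S = 0 := CharTwo.add_self_eq_zero S
      linear_combination h1
    exact this _ _ _
  · rw [a11_Ph0 σ w v u h, a11_Ph0 σ w v u h, hz0 v u h, add_zero]

/-- `Ph w` lies in `D` for `w ∈ LG` with `Th w = 0`.

Proof. Let `z` be the jump function of `w ∈ LG`. For adjacent `v, u'`:
`w (rho (v,u') false) + w (rho (v,u') true) = z v u'` (`rho_t2`, `rho_lab`). So for adjacent `v, u`:
`Ph w v u s = w (rho (v,u) s) + ∑_{u' ≠ u} m * z v u'` (`z v u' = 0` for nonadjacent `u'`).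
`Ph w v ∈ code v` with the same `w`: the value on nonadjacent `u` is `0`, and
`Ph w v u' false + Ph w v u' true = z v u'` for adjacent `u'` (char 2) and `= 0` otherwise.
Symmetry `Ph w u v = Ph w v u`: `0 = 0` for nonadjacent `u, v`; for adjacent ones the sum of the
two sides is `0` by `Side.ends` (`Th w _ s = 0` for both sides by `Side.Th_side` and `LG_le_LM`;
the dart `⟨(v, u), h⟩.symm` is `⟨(u, v), h.symm⟩`). -/
theorem Side.Ph_mem (σ : Side M) (hE : M.IndependentlyEven) (w : M.D → ZMod 2) (hw : w ∈ M.LG)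
    (hTh : σ.ThL w = 0) : σ.Ph w ∈ σ.sys.D := by
  classical
  have hLM := (LG_le_LM M hw).2
  obtain ⟨hw1, z, hz, hz0, hj⟩ := hw
  refine ⟨fun v => ?_, fun u v => ?_⟩
  · refine ⟨fun u hu => funext fun s => a11_Ph0 σ w v u hu s, w, hw1, fun u h s => ?_⟩
    rw [a11_Ph σ w z hz0 hj v u h s]
    congr 1
    refine Finset.sum_congr rfl fun u' _ => ?_
    rw [a11_sum σ w z hz0 hj v u']
  · funext s
    by_cases h : G.Adj v u
    · have hTh' : σ.Th w ⟨(v, u), h⟩ s = 0 := by
        rw [σ.Th_side w hLM _ s false]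
        exact congrFun hTh ⟨(v, u), h⟩
      have h1 := σ.ends hE w hw1 z hz hz0 hj v u h s hTh'
      rw [a11_Ph σ w z hz0 hj v u h s, a11_Ph σ w z hz0 hj u v h.symm s]
      have : ∀ x y S T : ZMod 2, x + y = S + T → y + T = x + S := by
        intro x y S T hxy
        have h2 : x + x = 0 := CharTwo.add_self_eq_zero x
        have h3 : T + T = 0 := CharTwo.add_self_eq_zero T
        linear_combination hxy - h2 + h3
      exact this _ _ _ _ h1
    · rw [a11_Ph0 σ w v u h s, a11_Ph0 σ w u v (fun h' => h h'.symm) s]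

/-- The kernel: if `w ∈ LG` and `Ph w = 0` then `w ∈ X`.
Proof: for adjacent `v u`: `0 = Ph w v u false + Ph w v u true = z v u` (char 2, see
`Side.Ph_mem`), so `z = 0` and `w d + w (t2 d) = 0` for all flags: `w` is `t2`-invariant, `w ∈ invV`.
And `0 = Ph w v u s = w (rho (v,u) s) + ∑ m * 0`, so `w` vanishes on the noncrossing flags
(`rho_uniq`). -/
theorem Side.Ph_ker (σ : Side M) (w : M.D → ZMod 2) (hw : w ∈ M.LG) (h : σ.Ph w = 0) :
    w ∈ M.X := by
  classical
  obtain ⟨hw1, z, hz, hz0, hj⟩ := hw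
  have hz00 : ∀ v u, z v u = 0 := by
    intro v u
    rw [← a11_sum σ w z hz0 hj v u, h]
    exact add_zero _
  have ht2 : ∀ d, w (M.t2 d) = w d := by
    intro d
    have h1 := hj d
    rw [hz00] at h1
    have h2 : w d + w d = 0 := CharTwo.add_self_eq_zero _
    linear_combination h1 - h2
  refine ⟨(GMap.mem_invV _ _).2 ⟨(GMap.mem_inv1 _ _).1 hw1, ht2⟩, fun d hd => ?_⟩
  have h1 := a11_Ph σ w z hz0 hj (M.lab d).fst (M.lab d).snd (M.lab d).adj (σ.sd d)
  rw [h] at h1
  have h2 : ∑ u' ∈ Finset.univ.erase (M.lab d).snd,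
      (M.crossings s((M.lab d).fst, (M.lab d).snd) s((M.lab d).fst, u') : ZMod 2) *
        z (M.lab d).fst u' = 0 := Finset.sum_eq_zero fun u' _ => by rw [hz00, mul_zero]
  rw [h2, add_zero] at h1
  rw [σ.rho_uniq d hd]
  exact h1.symm

end Pool.Agent.HTE
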