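import Pool.Agent.HTE.A11

set_option autoImplicit false

namespace Pool.Agent.HTE

open Module

variable {V : Type} [Fintype V] {G : SimpleGraph V} {M : Drawing G}

/-- `Th = 0` on functions on the faces (`w (t0 d) = w d`, so all terms `w d + w (t0 d)` are `0` in
characteristic 2), and `invF ≤ LM`: `w + w ∘ t2` is `t0`-invariant as `t0 (t2 d) = t2 (t0 d)`. -/
theorem invF_le (σ : Side M) : M.invF ≤ M.LM ⊓ LinearMap.ker σ.ThL := by
  intro w hw
  rw [GMap.mem_invF] at hw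
  obtain ⟨h0, h1⟩ := hw
  refine ⟨⟨(M.mem_inv1 w).2 h1, fun d => ?_⟩, ?_⟩
  · rw [← M.t0_t2, h0, h0]
  · change σ.ThL w = 0
    funext a
    change σ.Th w a false = 0
    rw [Side.Th]
    refine Finset.sum_eq_zero fun d _ => ?_
    rw [h0]
    exact CharTwo.add_self_eq_zero _

/-- `Th = 0` on `X`: by `Side.tele`,
`0 = w (rho a false) + w (rho a.symm false) = Th w a false + ∑ (w (t1 q) + w (t2 (t1 q)))` and the
last sum is `0` because `w` is `t2`-invariant; and `X ≤ LM` (the jump is `0`). -/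
theorem X_le (σ : Side M) : M.X ≤ M.LM ⊓ LinearMap.ker σ.ThL := by
  intro w hw
  obtain ⟨hV, hX⟩ := hw
  obtain ⟨h1, h2⟩ := (M.mem_invV w).1 hV
  have hi : w ∈ M.inv1 := (M.mem_inv1 w).2 h1
  refine ⟨⟨hi, fun d => ?_⟩, ?_⟩
  · rw [h2, h2, CharTwo.add_self_eq_zero, CharTwo.add_self_eq_zero]
  · change σ.ThL w = 0
    funext a
    change σ.Th w a false = 0
    have ht := σ.tele w hi a false
    rw [hX _ (σ.rho_cross a false), hX _ (σ.rho_cross a.symm false)] at ht
    rw [Finset.sum_eq_zero (fun q _ => by rw [h2]; exact CharTwo.add_self_eq_zero _), add_zero,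
      add_zero] at ht
    exact ht.symm

/-- `invF ⊓ X = ⊥` if `G` has an edge: such a function is invariant under `t0, t1, t2` and zero at
a noncrossing flag (`vert_ex`), so it is zero by `M.conn`. -/
theorem invF_inf_X (M : Drawing G) (a : G.Dart) : M.invF ⊓ M.X = ⊥ := by
  rw [Submodule.eq_bot_iff]
  rintro w ⟨hF, hV, hX⟩
  obtain ⟨h0, h1⟩ := (M.mem_invF w).1 hF
  obtain ⟨-, h2⟩ := (M.mem_invV w).1 hV
  obtain ⟨d0, hd0, -⟩ := M.vert_ex a
  funext d
  exact M.conn (fun d => w d = 0)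
    (fun d hd => ⟨(h0 d).trans hd, (h1 d).trans hd, (h2 d).trans hd⟩) ⟨d0, hX d0 hd0⟩ d

/-- Rank-nullity for the restriction to a subspace. -/
theorem a12_rank {E E' : Type} [AddCommGroup E] [Module (ZMod 2) E]
    [FiniteDimensional (ZMod 2) E] [AddCommGroup E'] [Module (ZMod 2) E']
    (f : E →ₗ[ZMod 2] E') (L : Submodule (ZMod 2) E) :
    finrank (ZMod 2) (L.map f) +
      finrank (ZMod 2) (L ⊓ LinearMap.ker f : Submodule (ZMod 2) E) = finrank (ZMod 2) L := by
  have h := LinearMap.finrank_range_add_finrank_ker (f.domRestrict L)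
  have e1 : LinearMap.range (f.domRestrict L) = L.map f := by
    ext x
    simp only [LinearMap.mem_range, Submodule.mem_map, LinearMap.domRestrict_apply,
      Subtype.exists]
    exact ⟨fun ⟨y, hy, h⟩ => ⟨y, hy, h⟩, fun ⟨y, hy, h⟩ => ⟨y, hy, h⟩⟩
  have e2 : finrank (ZMod 2) (LinearMap.ker (f.domRestrict L)) =
      finrank (ZMod 2) (L ⊓ LinearMap.ker f : Submodule (ZMod 2) E) := by
    have : (LinearMap.ker (f.domRestrict L)).map L.subtype = L ⊓ LinearMap.ker f := by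
      ext x
      simp only [Submodule.mem_map, LinearMap.mem_ker, LinearMap.domRestrict_apply,
        Submodule.mem_inf]
      constructor
      · rintro ⟨y, hy, rfl⟩
        exact ⟨y.2, hy⟩
      · rintro ⟨h1, h2⟩
        exact ⟨⟨x, h1⟩, h2, rfl⟩
    rw [← this]
    exact (LinearEquiv.finrank_eq (Submodule.equivMapOfInjective L.subtype
      L.injective_subtype _))
  rw [e1, e2] at h
  exact h

/-- Pure linear algebra. Proof: with `f` restricted to `LM`:
`finrank LM = finrank (f '' LM) + finrank (LM ⊓ ker f)`,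
`finrank LG = finrank (f '' LG) + finrank (LG ⊓ ker f)`, `f '' LG ≤ f '' LM`, and
`finrank (LM ⊓ ker f) ≥ finrank (K ⊔ X) = finrank K + finrank X`
(`Submodule.finrank_sup_add_finrank_inf_eq`). -/
theorem linalg_count {E E' : Type} [AddCommGroup E] [Module (ZMod 2) E]
    [FiniteDimensional (ZMod 2) E] [AddCommGroup E'] [Module (ZMod 2) E']
    (f : E →ₗ[ZMod 2] E') (LM LG K X : Submodule (ZMod 2) E) (h1 : LG ≤ LM)
    (h2 : K ≤ LM ⊓ LinearMap.ker f) (h3 : X ≤ LM ⊓ LinearMap.ker f) (h4 : K ⊓ X = ⊥) :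
    finrank (ZMod 2) LG + finrank (ZMod 2) K + finrank (ZMod 2) X ≤
      finrank (ZMod 2) (LG ⊓ LinearMap.ker f : Submodule (ZMod 2) E) + finrank (ZMod 2) LM := by
  have e1 := a12_rank f LM
  have e2 := a12_rank f LG
  have e3 : finrank (ZMod 2) (LG.map f) ≤ finrank (ZMod 2) (LM.map f) :=
    Submodule.finrank_mono (Submodule.map_mono h1)
  have e4 : finrank (ZMod 2) (K ⊔ X : Submodule (ZMod 2) E) ≤
      finrank (ZMod 2) (LM ⊓ LinearMap.ker f : Submodule (ZMod 2) E) :=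
    Submodule.finrank_mono (sup_le h2 h3)
  have e5 := Submodule.finrank_sup_add_finrank_inf_eq K X
  rw [h4, finrank_bot, add_zero] at e5
  omega

/-- **Main count.** `dim D ≥ |E| - |V| + chi(M)`.

Proof. `linalg_count` with `f = σ.ThL`, `LM = M.LM`, `LG = M.LG`, `K = M.invF`, `X = M.X`
(`LG_le_LM`, `invF_le`, `X_le`, `invF_inf_X` with any dart `a`). The linear map `σ.Ph` maps
`LG ⊓ ker ThL` to `σ.sys.D` (`Ph_mem`) with kernel contained in `X` (`Ph_ker`), so
`finrank (LG ⊓ ker ThL) ≤ finrank D + finrank X`. With `finrank_LG`, `finrank_LM`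
(`H = σ.sd`), `finrank_invF`:
`|Vert| + |E| + 1 - |V| + |Face| + dim X ≤ dim LG + dim K + dim X ≤ dim D + dim X + |Edge| + 1`. -/
theorem Side.main_count (σ : Side M) (hE : M.IndependentlyEven) (a : G.Dart) :
    Nat.card M.Vert + Nat.card G.edgeSet + Nat.card M.Face ≤
      finrank (ZMod 2) σ.sys.D + Fintype.card V + Nat.card M.Edge := by
  haveI : Nonempty V := ⟨a.fst⟩
  have h1 := linalg_count σ.ThL M.LM M.LG M.invF M.X (LG_le_LM M) (invF_le σ) (X_le σ)
    (invF_inf_X M a)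
  have h2 := finrank_LG M σ
  have h3 := M.toGMap.finrank_LM σ.sd σ.sd_t2 σ.sd_t0
  have h4 := M.toGMap.finrank_invF
  have e1 := a12_rank σ.Ph (M.LG ⊓ LinearMap.ker σ.ThL)
  have e2 : finrank (ZMod 2) ((M.LG ⊓ LinearMap.ker σ.ThL).map σ.Ph) ≤
      finrank (ZMod 2) σ.sys.D := by
    apply Submodule.finrank_mono
    rintro _ ⟨w, ⟨hw, hw'⟩, rfl⟩
    exact σ.Ph_mem hE w hw (LinearMap.mem_ker.1 hw')
  have e3 : finrank (ZMod 2) ((M.LG ⊓ LinearMap.ker σ.ThL) ⊓ LinearMap.ker σ.Ph :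
      Submodule (ZMod 2) (M.D → ZMod 2)) ≤ finrank (ZMod 2) M.X := by
    apply Submodule.finrank_mono
    rintro w ⟨⟨hw, -⟩, hk⟩
    exact σ.Ph_ker w hw (LinearMap.mem_ker.1 hk)
  have h4' : finrank (ZMod 2) M.invF = Nat.card M.Face := h4
  omega

end Pool.Agent.HTE
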