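import Pool.Agent.HTE.A0

set_option autoImplicit false

namespace Pool.Agent.HTE

open Module

/-- The functions that respect a relation. -/
def invSub {α : Type} (r : α → α → Prop) : Submodule (ZMod 2) (α → ZMod 2) where
  carrier := {w | ∀ d e, r d e → w d = w e}
  add_mem' := by
    intro w w' h h' d e hde
    simp only [Pi.add_apply, h d e hde, h' d e hde]
  zero_mem' := fun _ _ _ => rfl
  smul_mem' := by
    intro a w h d e hde
    simp only [Pi.smul_apply, h d e hde]

/-- Their space has dimension `|Quot r|`. Proof: `w ↦ Quot.lift w` is a linear isomorphism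
`invSub r ≃ (Quot r → F)` with inverse `g ↦ g ∘ Quot.mk r`; `Quot r` is finite (quotient of a
finite type), `Module.finrank_fintype_fun_eq_card`, `Nat.card_eq_fintype_card`. -/
theorem finrank_invSub {α : Type} [Fintype α] (r : α → α → Prop) :
    finrank (ZMod 2) (invSub r) = Nat.card (Quot r) := by
  classical
  have h1 : Finite (Quot r) := Finite.of_surjective (Quot.mk r) Quot.exists_rep
  let h2 : Fintype (Quot r) := Fintype.ofFinite (Quot r)
  let e : invSub r ≃ₗ[ZMod 2] (Quot r → ZMod 2) :=
    { toFun := fun w q => Quot.lift w.1 w.2 q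
      map_add' := by
        intro w w'
        funext q
        obtain ⟨a, rfl⟩ := Quot.exists_rep q
        rfl
      map_smul' := by
        intro c w
        funext q
        obtain ⟨a, rfl⟩ := Quot.exists_rep q
        rfl
      invFun := fun g => ⟨fun a => g (Quot.mk r a), fun d e h => congrArg g (Quot.sound h)⟩
      left_inv := by
        intro w
        apply Subtype.ext
        funext a
        rfl
      right_inv := by
        intro g
        funext q
        obtain ⟨a, rfl⟩ := Quot.exists_rep q
        rfl }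
  rw [e.finrank_eq, Module.finrank_fintype_fun_eq_card, Nat.card_eq_fintype_card]

namespace GMap

variable (M : GMap)

/-- Functions on the corners (`t1`-invariant functions). -/
def inv1 : Submodule (ZMod 2) (M.D → ZMod 2) := invSub (fun d e : M.D => e = M.t1 d)

/-- Functions on the vertices. -/
def invV : Submodule (ZMod 2) (M.D → ZMod 2) := invSub (fun d e : M.D => e = M.t1 d ∨ e = M.t2 d)

/-- Functions on the edges. -/
def invE : Submodule (ZMod 2) (M.D → ZMod 2) := invSub (fun d e : M.D => e = M.t0 d ∨ e = M.t2 d)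

/-- Functions on the faces. -/
def invF : Submodule (ZMod 2) (M.D → ZMod 2) := invSub (fun d e : M.D => e = M.t0 d ∨ e = M.t1 d)

theorem mem_inv1 (w : M.D → ZMod 2) : w ∈ M.inv1 ↔ ∀ d, w (M.t1 d) = w d :=
  ⟨fun h d => (h d _ rfl).symm, fun h d e hde => by rw [hde, h d]⟩

theorem mem_invV (w : M.D → ZMod 2) :
    w ∈ M.invV ↔ (∀ d, w (M.t1 d) = w d) ∧ ∀ d, w (M.t2 d) = w d :=
  ⟨fun h => ⟨fun d => (h d _ (Or.inl rfl)).symm, fun d => (h d _ (Or.inr rfl)).symm⟩,
    fun h d e hde => by rcases hde with hde | hde <;> rw [hde]; exacts [(h.1 d).symm, (h.2 d).symm]⟩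

theorem mem_invE (w : M.D → ZMod 2) :
    w ∈ M.invE ↔ (∀ d, w (M.t0 d) = w d) ∧ ∀ d, w (M.t2 d) = w d :=
  ⟨fun h => ⟨fun d => (h d _ (Or.inl rfl)).symm, fun d => (h d _ (Or.inr rfl)).symm⟩,
    fun h d e hde => by rcases hde with hde | hde <;> rw [hde]; exacts [(h.1 d).symm, (h.2 d).symm]⟩

theorem mem_invF (w : M.D → ZMod 2) :
    w ∈ M.invF ↔ (∀ d, w (M.t0 d) = w d) ∧ ∀ d, w (M.t1 d) = w d :=
  ⟨fun h => ⟨fun d => (h d _ (Or.inl rfl)).symm, fun d => (h d _ (Or.inr rfl)).symm⟩,
    fun h d e hde => by rcases hde with hde | hde <;> rw [hde]; exacts [(h.1 d).symm, (h.2 d).symm]⟩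

theorem finrank_invV : finrank (ZMod 2) M.invV = Nat.card M.Vert := finrank_invSub _

theorem finrank_invE : finrank (ZMod 2) M.invE = Nat.card M.Edge := finrank_invSub _

theorem finrank_invF : finrank (ZMod 2) M.invF = Nat.card M.Face := finrank_invSub _

end GMap

end Pool.Agent.HTE
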