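import Pool.Agent.HTE.A2

set_option autoImplicit false

namespace Pool.Agent.HTE

open Module

/-- The functions `w` on the corners whose jump `w + w ∘ t2` is constant along the edges of the
map. -/
def GMap.LM (M : GMap) : Submodule (ZMod 2) (M.D → ZMod 2) where
  carrier := {w | w ∈ M.inv1 ∧ ∀ d, w (M.t0 d) + w (M.t2 (M.t0 d)) = w d + w (M.t2 d)}
  add_mem' := by
    rintro w w' ⟨h1, h2⟩ ⟨h1', h2'⟩
    refine ⟨M.inv1.add_mem h1 h1', fun d => ?_⟩
    have := h2 d
    have := h2' d
    simp only [Pi.add_apply]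
    linear_combination h2 d + h2' d
  zero_mem' := ⟨M.inv1.zero_mem, fun _ => rfl⟩
  smul_mem' := by
    rintro a w ⟨h1, h2⟩
    refine ⟨M.inv1.smul_mem a h1, fun d => ?_⟩
    simp only [Pi.smul_apply, smul_eq_mul]
    linear_combination a * h2 d

private theorem a4_eq {x y : ZMod 2} (h : x + y = 0) : x = y := by
  rw [add_eq_zero_iff_eq_neg, ZMod.neg_eq_self_mod_two] at h
  exact h

private theorem a4_inv1 (M : GMap) (a w : M.D → ZMod 2) (ha : ∀ d, a (M.t1 d) = a d)
    (hw : ∀ d, w (M.t1 d) = w d) : ∑ d, a d * w d = 0 := by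
  refine Finset.sum_involution (fun d _ => M.t1 d) ?_ (fun d _ _ => M.t1_ne d)
    (fun d _ => Finset.mem_univ _) (fun d _ => M.t1_t1 d)
  intro d _
  rw [ha, hw]
  exact CharTwo.add_self_eq_zero _

private theorem a4_sum (M : GMap) (H : M.D → Bool) (hH : ∀ d, H (M.t2 d) = !H d)
    (a w : M.D → ZMod 2) (ha : ∀ d, a (M.t2 d) = a d) :
    ∑ d, (if H d then 0 else a d * (w d + w (M.t2 d))) = ∑ d, a d * w d := by
  have e1 : ∑ d, (if H d then 0 else a d * w (M.t2 d)) = ∑ d, (if H d then a d * w d else 0) := by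
    let e : M.D ≃ M.D := ⟨M.t2, M.t2, M.t2_t2, M.t2_t2⟩
    rw [← Equiv.sum_comp e]
    refine Finset.sum_congr rfl fun d _ => ?_
    show (if H (M.t2 d) then 0 else a (M.t2 d) * w (M.t2 (M.t2 d))) = _
    rw [hH, M.t2_t2, ha]
    cases H d <;> simp
  have e2 : ∀ d, (if H d then 0 else a d * (w d + w (M.t2 d))) =
      (if H d then 0 else a d * w d) + (if H d then 0 else a d * w (M.t2 d)) := by
    intro d
    cases H d
    · simp only [Bool.false_eq_true, if_false]
      ring
    · simp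
  rw [Finset.sum_congr rfl fun d _ => e2 d, Finset.sum_add_distrib, e1, ← Finset.sum_add_distrib]
  refine Finset.sum_congr rfl fun d _ => ?_
  cases H d <;> simp

/-- the jump -/
private def a4_j (M : GMap) : M.LM →ₗ[ZMod 2] M.invE where
  toFun w := ⟨fun d => w.1 d + w.1 (M.t2 d), (M.mem_invE _).2 ⟨fun d => w.2.2 d, fun d => by
    show w.1 (M.t2 d) + w.1 (M.t2 (M.t2 d)) = w.1 d + w.1 (M.t2 d)
    rw [M.t2_t2, add_comm]⟩⟩
  map_add' w w' := by
    apply Subtype.ext
    funext d
    show (w.1 d + w'.1 d) + (w.1 (M.t2 d) + w'.1 (M.t2 d)) =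
      (w.1 d + w.1 (M.t2 d)) + (w'.1 d + w'.1 (M.t2 d))
    ring
  map_smul' a w := by
    apply Subtype.ext
    funext d
    show a * w.1 d + a * w.1 (M.t2 d) = a * (w.1 d + w.1 (M.t2 d))
    ring

/-- the pairing of functions on the vertices and functions on the edges -/
private def a4_Psi (M : GMap) (H : M.D → Bool) :
    M.invV →ₗ[ZMod 2] Module.Dual (ZMod 2) M.invE :=
  LinearMap.mk₂ (ZMod 2) (fun a y => ∑ d, (if H d then 0 else a.1 d * y.1 d))
    (fun a a' y => by
      rw [← Finset.sum_add_distrib]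
      refine Finset.sum_congr rfl fun d _ => ?_
      show (if H d then 0 else (a.1 d + a'.1 d) * y.1 d) = _
      split_ifs <;> ring)
    (fun c a y => by
      rw [smul_eq_mul, Finset.mul_sum]
      refine Finset.sum_congr rfl fun d _ => ?_
      show (if H d then 0 else (c * a.1 d) * y.1 d) = _
      split_ifs <;> ring)
    (fun a y y' => by
      rw [← Finset.sum_add_distrib]
      refine Finset.sum_congr rfl fun d _ => ?_
      show (if H d then 0 else a.1 d * (y.1 d + y'.1 d)) = _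
      split_ifs <;> ring)
    (fun c a y => by
      rw [smul_eq_mul, Finset.mul_sum]
      refine Finset.sum_congr rfl fun d _ => ?_
      show (if H d then 0 else a.1 d * (c * y.1 d)) = _
      split_ifs <;> ring)

private theorem a4_Psi_apply (M : GMap) (H : M.D → Bool) (a : M.invV) (y : M.invE) :
    a4_Psi M H a y = ∑ d, (if H d then 0 else a.1 d * y.1 d) := rfl

private theorem a4_ker0 (M : GMap) (H : M.D → Bool) (hH : ∀ d, H (M.t2 d) = !H d)
    (hH0 : ∀ d, H (M.t0 d) = H d) (a : M.invV) (ha : a4_Psi M H a = 0) (d₀ : M.D)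
    (h0 : H d₀ = false) : a.1 (M.t0 d₀) = a.1 d₀ := by
  classical
  let y : M.D → ZMod 2 := fun d =>
    if d = d₀ ∨ d = M.t0 d₀ ∨ d = M.t2 d₀ ∨ d = M.t0 (M.t2 d₀) then 1 else 0
  have hy : y ∈ M.invE := by
    rw [M.mem_invE]
    constructor
    · intro d
      have e : (M.t0 d = d₀ ∨ M.t0 d = M.t0 d₀ ∨ M.t0 d = M.t2 d₀ ∨ M.t0 d = M.t0 (M.t2 d₀)) ↔
          (d = d₀ ∨ d = M.t0 d₀ ∨ d = M.t2 d₀ ∨ d = M.t0 (M.t2 d₀)) := by
        have k : ∀ x z, M.t0 x = z ↔ x = M.t0 z := fun x z =>
          ⟨fun h => by rw [← h, M.t0_t0], fun h => by rw [h, M.t0_t0]⟩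
        rw [k, k, k, k, M.t0_t0, M.t0_t0]
        tauto
      show (if _ then (1 : ZMod 2) else 0) = if _ then 1 else 0
      simp only [e]
    · intro d
      have e : (M.t2 d = d₀ ∨ M.t2 d = M.t0 d₀ ∨ M.t2 d = M.t2 d₀ ∨ M.t2 d = M.t0 (M.t2 d₀)) ↔
          (d = d₀ ∨ d = M.t0 d₀ ∨ d = M.t2 d₀ ∨ d = M.t0 (M.t2 d₀)) := by
        have k : ∀ x z, M.t2 x = z ↔ x = M.t2 z := fun x z =>
          ⟨fun h => by rw [← h, M.t2_t2], fun h => by rw [h, M.t2_t2]⟩
        rw [k, k, k, k, M.t2_t2, M.t0_t2, M.t2_t2]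
        tauto
      show (if _ then (1 : ZMod 2) else 0) = if _ then 1 else 0
      simp only [e]
  have h1 : a4_Psi M H a ⟨y, hy⟩ = 0 := by
    rw [ha]
    rfl
  rw [a4_Psi_apply] at h1
  have e1 : ∀ d, (if H d then 0 else a.1 d * y d) =
      (if d = d₀ then a.1 d₀ else 0) + (if d = M.t0 d₀ then a.1 (M.t0 d₀) else 0) := by
    intro d
    by_cases hd : d = d₀
    · subst hd
      have hne : d ≠ M.t0 d := (M.t0_ne d).symm
      simp [h0, y, hne]
    · by_cases hd1 : d = M.t0 d₀
      · have hne : M.t0 d₀ ≠ d₀ := M.t0_ne d₀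
        subst hd1
        simp [hH0, h0, y, hne]
      · by_cases hd2 : d = M.t2 d₀
        · have hne : M.t2 d₀ ≠ d₀ := M.t2_ne d₀
          subst hd2
          simp only [hH, h0, Bool.not_false, if_true, hd1, if_false, hne, add_zero]
        · by_cases hd3 : d = M.t0 (M.t2 d₀)
          · subst hd3
            simp only [hH0, hH, h0, Bool.not_false, if_true, hd1, if_false, hd, add_zero]
          · simp [y, hd, hd1, hd2, hd3]
  have h2 : ∑ d, (if H d then 0 else a.1 d * y d) = a.1 d₀ + a.1 (M.t0 d₀) := by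
    rw [Finset.sum_congr rfl fun d _ => e1 d, Finset.sum_add_distrib, Finset.sum_ite_eq',
      Finset.sum_ite_eq']
    simp
  have h3 : a.1 d₀ + a.1 (M.t0 d₀) = 0 := by
    rw [← h2]
    exact h1
  exact (a4_eq h3).symm

private theorem a4_ker1 (M : GMap) (H : M.D → Bool) (hH : ∀ d, H (M.t2 d) = !H d)
    (hH0 : ∀ d, H (M.t0 d) = H d) (a : M.invV) (ha : a4_Psi M H a = 0) (d : M.D) :
    a.1 (M.t0 d) = a.1 d := by
  have h2 := ((M.mem_invV _).1 a.2).2
  rcases h : H d with _ | _
  · exact a4_ker0 M H hH hH0 a ha d h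
  · have h1 := a4_ker0 M H hH hH0 a ha (M.t2 d) (by rw [hH, h]; rfl)
    rw [M.t0_t2, h2, h2] at h1
    exact h1

private theorem a4_ker (M : GMap) (H : M.D → Bool) (hH : ∀ d, H (M.t2 d) = !H d)
    (hH0 : ∀ d, H (M.t0 d) = H d) :
    finrank (ZMod 2) (LinearMap.ker (a4_Psi M H)) ≤ 1 := by
  by_cases hne : Nonempty M.D
  · obtain ⟨d₁⟩ := hne
    have key : ∀ a : LinearMap.ker (a4_Psi M H), ∀ d, a.1.1 d = a.1.1 d₁ := by
      intro a
      have ha : a4_Psi M H a.1 = 0 := a.2
      have h2 := (M.mem_invV _).1 a.1.2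
      refine M.conn (fun d => a.1.1 d = a.1.1 d₁) ?_ ⟨d₁, rfl⟩
      intro d hd
      exact ⟨(a4_ker1 M H hH hH0 a.1 ha d).trans hd, (h2.1 d).trans hd, (h2.2 d).trans hd⟩
    let ev : LinearMap.ker (a4_Psi M H) →ₗ[ZMod 2] ZMod 2 :=
      { toFun := fun a => a.1.1 d₁
        map_add' := fun _ _ => rfl
        map_smul' := fun _ _ => rfl }
    have hinj : Function.Injective ev := by
      intro a b hab
      apply Subtype.ext
      apply Subtype.ext
      funext d
      rw [key a d, key b d]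
      exact hab
    have h1 := LinearMap.finrank_le_finrank_of_injective hinj
    rwa [finrank_self] at h1
  · have : Subsingleton (LinearMap.ker (a4_Psi M H)) := by
      refine ⟨fun a b => ?_⟩
      apply Subtype.ext
      apply Subtype.ext
      funext d
      exact absurd ⟨d⟩ hne
    rw [finrank_zero_of_subsingleton]
    exact Nat.zero_le 1

/-- **Step 3.** `dim LM ≤ |E| + 1` (numbers of the map `M`). Here `H` chooses one of the two flags
of each edge end and is invariant under `t0`.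

Proof. The linear map `j : LM → (D → F)`, `w ↦ w + w ∘ t2`, has kernel `invV` (a `t1`-invariant
`w` with `w + w ∘ t2 = 0` is `t2`-invariant; in `ZMod 2` `x + y = 0` iff `x = y`), of dimension
`|Vert|`, and range contained in
`Z = {y ∈ invE | ∀ a ∈ invV, ∑_{d : H d = false} a d * y d = 0}`: the jump is in `invE` (it is
`t2`-invariant, and `t0`-invariant by the definition of `LM`); and for `a ∈ invV`, `w ∈ inv1`:
`∑_{H d = false} a d * (w d + w (t2 d)) = ∑_d a d * w d` (split by `H`, `a` is `t2`-invariant)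
`= 0`, because `t1` is a fixed-point-free involution leaving `a` and `w` invariant (the terms of
`d` and `t1 d` cancel: `Finset.sum_involution`).
Claim: `dim Z + |Vert| ≤ |Edge| + 1`. Consider the linear map `Ψ : invV → Dual (invE)`,
`Ψ a y = ∑_{H d = false} a d * y d`. If `Ψ a = 0`, then for each flag `d₀` take for `y` the
indicator function of the set of the four flags `{d₀, t2 d₀, t0 d₀, t0 (t2 d₀)}` of its edge
(pairwise different: `t2_ne`, `t0_ne`, `t0_t2_ne`); exactly two of the four have `H = false`: one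
of `d₀, t2 d₀`, and its `t0`-image. So `a d₀ + a (t0 d₀) = 0` (`a` is `t2`-invariant). Hence `a` is
invariant under `t0`, `t1`, `t2` and constant by `M.conn`; so `dim (ker Ψ) ≤ 1`, and
`dim (range Ψ) ≥ |Vert| - 1`. `Z` is the set of `y ∈ invE` killed by `range Ψ`, so
`dim Z = |Edge| - dim (range Ψ)` (`Submodule.dualCoannihilator`,
`Subspace.finrank_add_finrank_dualCoannihilator_eq`).
Together `dim LM = |Vert| + dim (range j) ≤ |Vert| + dim Z ≤ |Edge| + 1`. -/
theorem GMap.finrank_LM (M : GMap) (H : M.D → Bool) (hH : ∀ d, H (M.t2 d) = !H d)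
    (hH0 : ∀ d, H (M.t0 d) = H d) :
    finrank (ZMod 2) M.LM ≤ Nat.card M.Edge + 1 := by
  have h1 := LinearMap.finrank_range_add_finrank_ker (a4_j M)
  have h2 := LinearMap.finrank_range_add_finrank_ker (a4_Psi M H)
  have h3 := a4_ker M H hH hH0
  have h4 := Subspace.finrank_add_finrank_dualCoannihilator_eq
    (K := ZMod 2) (V := M.invE) (LinearMap.range (a4_Psi M H))
  have h5 : LinearMap.range (a4_j M) ≤ (LinearMap.range (a4_Psi M H)).dualCoannihilator := by
    rintro _ ⟨w, rfl⟩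
    rw [Submodule.mem_dualCoannihilator]
    rintro _ ⟨a, rfl⟩
    have e1 : a4_Psi M H a (a4_j M w) =
        ∑ d, (if H d then 0 else a.1 d * (w.1 d + w.1 (M.t2 d))) := rfl
    have ha := (M.mem_invV _).1 a.2
    rw [e1, a4_sum M H hH a.1 w.1 ha.2]
    exact a4_inv1 M a.1 w.1 ha.1 ((M.mem_inv1 _).1 w.2.1)
  have h6 := Submodule.finrank_mono h5
  have h7 : finrank (ZMod 2) (LinearMap.ker (a4_j M)) ≤ finrank (ZMod 2) M.invV := by
    have hmem : ∀ w : LinearMap.ker (a4_j M), w.1.1 ∈ M.invV := by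
      intro w
      rw [M.mem_invV]
      refine ⟨(M.mem_inv1 _).1 w.1.2.1, fun d => ?_⟩
      have h8 : a4_j M w.1 = 0 := w.2
      have h9 : w.1.1 d + w.1.1 (M.t2 d) = 0 := congrFun (congrArg Subtype.val h8) d
      exact (a4_eq h9).symm
    let i : LinearMap.ker (a4_j M) →ₗ[ZMod 2] M.invV :=
      { toFun := fun w => ⟨w.1.1, hmem w⟩
        map_add' := fun _ _ => rfl
        map_smul' := fun _ _ => rfl }
    have hinj : Function.Injective i := by
      intro a b hab
      have h10 : (i a).1 = (i b).1 := by rw [hab]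
      apply Subtype.ext
      apply Subtype.ext
      exact h10
    exact LinearMap.finrank_le_finrank_of_injective hinj
  rw [M.finrank_invE] at h4
  omega

end Pool.Agent.HTE
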