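import Pool.Agent.HTE.A1
import Pool.Agent.HTE.A4
import Pool.Agent.HTE.A6

set_option autoImplicit false

namespace Pool.Agent.HTE

open Module

variable {V : Type} [Fintype V] {G : SimpleGraph V}

/-- The functions `w` on the corners of the map whose jump `w + w ∘ t2` is constant along the edges
of `G`. -/
def Drawing.LG (M : Drawing G) : Submodule (ZMod 2) (M.D → ZMod 2) where
  carrier := {w | w ∈ M.inv1 ∧ ∃ z : V → V → ZMod 2, (∀ u v, z u v = z v u) ∧
    (∀ u v, ¬ G.Adj u v → z u v = 0) ∧ ∀ d, w d + w (M.t2 d) = z (M.lab d).fst (M.lab d).snd}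
  add_mem' := by
    rintro w w' ⟨h1, z, hz, hz0, h2⟩ ⟨h1', z', hz', hz0', h2'⟩
    refine ⟨M.inv1.add_mem h1 h1', z + z', fun u v => ?_, fun u v h => ?_, fun d => ?_⟩
    · simp only [Pi.add_apply, hz u v, hz' u v]
    · simp only [Pi.add_apply, hz0 u v h, hz0' u v h, add_zero]
    · simp only [Pi.add_apply]
      linear_combination h2 d + h2' d
  zero_mem' := ⟨M.inv1.zero_mem, 0, fun _ _ => rfl, fun _ _ _ => rfl, fun _ => by simp⟩
  smul_mem' := by
    rintro a w ⟨h1, z, hz, hz0, h2⟩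
    refine ⟨M.inv1.smul_mem a h1, a • z, fun u v => ?_, fun u v h => ?_, fun d => ?_⟩
    · simp only [Pi.smul_apply, hz u v]
    · simp only [Pi.smul_apply, hz0 u v h, smul_zero]
    · simp only [Pi.smul_apply, smul_eq_mul]
      linear_combination a * h2 d

/-- `LG ≤ LM` (by `lab_t0` and symmetry of `z`: the value of the jump at `t0 d` is
`z snd fst = z fst snd`). -/
theorem LG_le_LM (M : Drawing G) : M.LG ≤ M.LM := by
  rintro w ⟨h1, z, hz, hz0, h2⟩
  refine ⟨h1, fun d => ?_⟩
  rw [h2, h2, M.lab_t0]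
  exact hz _ _

/-- **Step 4.** `dim LG ≥ |Vert M| + |E| - |V| + 1`.

Proof. The linear map `j : LG → (D → F)`, `w ↦ w + w ∘ t2`, has kernel `⊇ invV` (as a subspace of
`LG`: take `z = 0`), so `dim ker ≥ |Vert|` (`finrank_invV`), and its range contains the image of
`cyc G` under the injective linear map `z ↦ (d ↦ z (lab d).fst (lab d).snd)` (`lift_cyc`; `w ∈ LG`
because `z ∈ cyc G` is symmetric and supported on adjacent pairs; injective: for adjacent `u v`
there is a flag with label `(u, v)` by `vert_ex`, and `z u v = 0` for nonadjacent `u v`). So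
`dim range ≥ dim (cyc G) ≥ |E| - |V| + 1` (`finrank_cyc`). -/
theorem finrank_LG (M : Drawing G) (σ : Side M) [Nonempty V] :
    Nat.card M.Vert + Nat.card G.edgeSet + 1 ≤ finrank (ZMod 2) M.LG + Fintype.card V := by
  obtain ⟨J, hJ⟩ : ∃ J : (M.D → ZMod 2) →ₗ[ZMod 2] (M.D → ZMod 2), ∀ w d, J w d = w d + w (M.t2 d) :=
    ⟨LinearMap.id + LinearMap.funLeft (ZMod 2) (ZMod 2) M.t2, fun w d => rfl⟩
  obtain ⟨K, hK⟩ : ∃ K : (V → V → ZMod 2) →ₗ[ZMod 2] (M.D → ZMod 2),
      ∀ z d, K z d = z (M.lab d).fst (M.lab d).snd :=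
    ⟨{ toFun := fun z d => z (M.lab d).fst (M.lab d).snd
       map_add' := fun z z' => rfl
       map_smul' := fun b z => rfl }, fun z d => rfl⟩
  have hrk := LinearMap.finrank_range_add_finrank_ker (J.domRestrict M.LG)
  have hker : Nat.card M.Vert ≤ finrank (ZMod 2) (LinearMap.ker (J.domRestrict M.LG)) := by
    rw [← M.finrank_invV, ← Submodule.finrank_map_subtype_eq M.LG (LinearMap.ker (J.domRestrict M.LG))]
    refine Submodule.finrank_mono ?_
    intro w hw
    have hw' := (GMap.mem_invV _ _).1 hw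
    have hj : ∀ d, w d + w (M.t2 d) = 0 := by
      intro d
      rw [hw'.2]
      exact CharTwo.add_self_eq_zero _
    have hLG : w ∈ M.LG := by
      refine ⟨(GMap.mem_inv1 _ _).2 hw'.1, 0, fun _ _ => rfl, fun _ _ _ => rfl, fun d => ?_⟩
      rw [hj d]
      rfl
    rw [Submodule.mem_map]
    refine ⟨⟨w, hLG⟩, ?_, rfl⟩
    rw [LinearMap.mem_ker]
    funext d
    rw [LinearMap.domRestrict_apply, hJ]
    exact hj d
  have hran : finrank (ZMod 2) (cyc G) ≤ finrank (ZMod 2) (LinearMap.range (J.domRestrict M.LG)) := by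
    have hinj : Function.Injective (K.domRestrict (cyc G)) := by
      rw [← LinearMap.ker_eq_bot, LinearMap.ker_eq_bot']
      rintro ⟨z, hz1, hz2, hz3⟩ h
      apply Subtype.ext
      funext u v
      by_cases huv : G.Adj u v
      · obtain ⟨d, _, hd⟩ := M.vert_ex ⟨(u, v), huv⟩
        have h1 := congrFun h d
        rw [LinearMap.domRestrict_apply, hK, hd] at h1
        exact h1
      · exact hz2 u v huv
    rw [← LinearMap.finrank_range_of_inj hinj]
    refine Submodule.finrank_mono ?_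
    rintro _ ⟨⟨z, hz⟩, rfl⟩
    obtain ⟨w, hw, hwz⟩ := lift_cyc M σ z hz
    refine ⟨⟨w, hw, z, hz.1, hz.2.1, hwz⟩, ?_⟩
    funext d
    rw [LinearMap.domRestrict_apply, LinearMap.domRestrict_apply, hJ, hK]
    exact hwz d
  have hcyc := finrank_cyc G
  omega

end Pool.Agent.HTE
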