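import Pool.Agent.HTE.A1
import Pool.Agent.HTE.A2

set_option autoImplicit false

namespace Pool.Agent.HTE

open Module

variable {V : Type} {G : SimpleGraph V} {M : Drawing G}

open scoped Classical in
/-- The sum, over all edges of the map on the arc of `a`, of the differences of `w` along the side
`s`. -/
noncomputable def Side.Th (σ : Side M) (w : M.D → ZMod 2) (a : G.Dart) (s : Bool) : ZMod 2 :=
  ∑ d ∈ Finset.univ.filter (fun d => M.lab d = a ∧ σ.sd d = s), (w d + w (M.t0 d))

open scoped Classical in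
private theorem a8_split (σ : Side M) (w : M.D → ZMod 2) (a : G.Dart) (s : Bool) :
    ∑ d ∈ Finset.univ.filter (fun d => M.lab d = a ∧ σ.sd d = s), w d =
      w (σ.rho a s) +
        ∑ d ∈ Finset.univ.filter (fun d => M.cross d ∧ M.lab d = a ∧ σ.sd d = s), w d := by
  have hins : Finset.univ.filter (fun d => M.lab d = a ∧ σ.sd d = s) =
      insert (σ.rho a s)
        (Finset.univ.filter (fun d => M.cross d ∧ M.lab d = a ∧ σ.sd d = s)) := by
    ext d
    simp only [Finset.mem_filter, Finset.mem_univ, true_and, Finset.mem_insert]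
    constructor
    · rintro ⟨h1, h2⟩
      by_cases hc : M.cross d
      · exact Or.inr ⟨hc, h1, h2⟩
      · left
        have := σ.rho_uniq d hc
        rw [h1, h2] at this
        exact this
    · rintro (rfl | ⟨_, h1, h2⟩)
      · exact ⟨σ.rho_lab a s, σ.rho_sd a s⟩
      · exact ⟨h1, h2⟩
  rw [hins, Finset.sum_insert]
  simp only [Finset.mem_filter, Finset.mem_univ, true_and, not_and]
  intro h
  exact absurd h (σ.rho_cross a s)

open scoped Classical in
private theorem a8_t0 (σ : Side M) (w : M.D → ZMod 2) (a : G.Dart) (s : Bool) :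
    ∑ d ∈ Finset.univ.filter (fun d => M.lab d = a ∧ σ.sd d = s), w (M.t0 d) =
      ∑ d ∈ Finset.univ.filter (fun d => M.lab d = a.symm ∧ σ.sd d = s), w d := by
  refine Finset.sum_nbij' (fun d => M.t0 d) (fun d => M.t0 d) ?_ ?_ ?_ ?_ ?_
  · intro d hd
    simp only [Finset.mem_filter, Finset.mem_univ, true_and] at hd ⊢
    exact ⟨by rw [M.lab_t0, hd.1], by rw [σ.sd_t0, hd.2]⟩
  · intro d hd
    simp only [Finset.mem_filter, Finset.mem_univ, true_and] at hd ⊢
    exact ⟨by rw [M.lab_t0, hd.1, SimpleGraph.Dart.symm_symm], by rw [σ.sd_t0, hd.2]⟩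
  · intro d _
    exact M.t0_t0 d
  · intro d _
    exact M.t0_t0 d
  · intro d _
    rfl

open scoped Classical in
private theorem a8_st (σ : Side M) (w : M.D → ZMod 2) (a : G.Dart) (s : Bool) :
    ∑ d ∈ Finset.univ.filter (fun d => M.cross d ∧ M.lab d = a ∧ σ.sd d = s), w (M.st d) =
      ∑ d ∈ Finset.univ.filter (fun d => M.cross d ∧ M.lab d = a.symm ∧ σ.sd d = s), w d := by
  refine Finset.sum_nbij' (fun d => M.st d) (fun d => M.st d) ?_ ?_ ?_ ?_ ?_
  · intro d hd
    simp only [Finset.mem_filter, Finset.mem_univ, true_and] at hd ⊢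
    exact ⟨(M.cross_st d).2 hd.1, by rw [M.lab_st d hd.1, hd.2.1],
      by rw [Drawing.st, σ.sd_st d hd.1, hd.2.2]⟩
  · intro d hd
    simp only [Finset.mem_filter, Finset.mem_univ, true_and] at hd ⊢
    exact ⟨(M.cross_st d).2 hd.1, by rw [M.lab_st d hd.1, hd.2.1, SimpleGraph.Dart.symm_symm],
      by rw [Drawing.st, σ.sd_st d hd.1, hd.2.2]⟩
  · intro d _
    exact M.st_st d
  · intro d _
    exact M.st_st d
  · intro d _
    rfl

private theorem a8_two (x : ZMod 2) : x + x = 0 := CharTwo.add_self_eq_zero x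

private theorem a8_lab_opp (d : M.D) (h : M.cross d) :
    (M.lab (M.t1 (M.t2 d))).edge = (M.lab (M.t1 d)).edge := by
  have h1 := M.cross_opp (M.t2 (M.t1 d)) ((M.cross_t2 _).2 ((M.cross_t1 _).2 h))
  rw [M.t2_t2, M.t1_t1, M.lab_t2] at h1
  rw [h1, SimpleGraph.Dart.edge_symm]

open scoped Classical in
/-- The part of the crossing flags with label `a`, side `s`, crossing `f`. -/
private noncomputable def a8_X (σ : Side M) (a : G.Dart) (s : Bool) (f : Sym2 V) : Finset M.D :=
  Finset.univ.filter (fun q => M.cross q ∧ M.lab q = a ∧ σ.sd q = s ∧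
      (M.lab (M.t1 q)).edge = f)

private theorem a8_X_mem (σ : Side M) (a : G.Dart) (s : Bool) (f : Sym2 V) (q : M.D) :
    q ∈ a8_X σ a s f ↔ (M.cross q ∧ M.lab q = a ∧ σ.sd q = s ∧ (M.lab (M.t1 q)).edge = f) := by
  simp [a8_X]

private theorem a8_X_t2 (σ : Side M) (a : G.Dart) (s : Bool) (f : Sym2 V) :
    (a8_X σ a s f).card = (a8_X σ a (!s) f).card := by
  refine Finset.card_nbij' (fun d => M.t2 d) (fun d => M.t2 d) ?_ ?_ ?_ ?_
  · intro d hd
    simp only [Finset.mem_coe, a8_X_mem] at hd ⊢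
    exact ⟨(M.cross_t2 d).2 hd.1, by rw [M.lab_t2, hd.2.1], by rw [σ.sd_t2, hd.2.2.1],
      by rw [a8_lab_opp d hd.1, hd.2.2.2]⟩
  · intro d hd
    simp only [Finset.mem_coe, a8_X_mem] at hd ⊢
    exact ⟨(M.cross_t2 d).2 hd.1, by rw [M.lab_t2, hd.2.1],
      by rw [σ.sd_t2, hd.2.2.1, Bool.not_not], by rw [a8_lab_opp d hd.1, hd.2.2.2]⟩
  · intro d _
    exact M.t2_t2 d
  · intro d _
    exact M.t2_t2 d

private theorem a8_t1_st (d : M.D) : M.lab (M.t1 (M.st d)) = M.lab (M.t1 d) := by
  rw [Drawing.st, M.t1_t1, M.lab_t2]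

private theorem a8_X_st (σ : Side M) (a : G.Dart) (s : Bool) (f : Sym2 V) :
    (a8_X σ a s f).card = (a8_X σ a.symm s f).card := by
  refine Finset.card_nbij' (fun d => M.st d) (fun d => M.st d) ?_ ?_ ?_ ?_
  · intro d hd
    simp only [Finset.mem_coe, a8_X_mem] at hd ⊢
    exact ⟨(M.cross_st d).2 hd.1, by rw [M.lab_st d hd.1, hd.2.1],
      by rw [Drawing.st, σ.sd_st d hd.1, hd.2.2.1], by rw [a8_t1_st, hd.2.2.2]⟩
  · intro d hd
    simp only [Finset.mem_coe, a8_X_mem] at hd ⊢
    exact ⟨(M.cross_st d).2 hd.1, by rw [M.lab_st d hd.1, hd.2.1, SimpleGraph.Dart.symm_symm],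
      by rw [Drawing.st, σ.sd_st d hd.1, hd.2.2.1], by rw [a8_t1_st, hd.2.2.2]⟩
  · intro d _
    exact M.st_st d
  · intro d _
    exact M.st_st d

open scoped Classical in
/-- **Telescoping identity.** For a function `w` on the corners, the values at the two ends of the
side `s` of the arc of `a` differ by `Th w a s` plus the jumps of `w` across the arcs crossing `a`.

Proof. `Th w a s = ∑_{lab d = a, sd d = s} w d + ∑_{lab d = a, sd d = s} w (t0 d)`, and the second
sum is `∑_{lab d = a.symm, sd d = s} w d` (the bijection `t0`: `lab_t0`, `sd_t0`, `t0_t0`). In each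
sum there is exactly one noncrossing flag, `σ.rho a s` and `σ.rho a.symm s` (`rho_uniq`). The map
`M.st` is a bijection from the crossing flags with label `a`, side `s` to the crossing flags with
label `a.symm`, side `s` (`lab_st`, `cross_st`, `sd_st`, `st_st`). So
`Th w a s = w (rho a s) + w (rho a.symm s) + ∑_{q crossing, lab q = a, sd q = s} (w q + w (st q))`
and `w q = w (t1 q)`, `w (st q) = w (t1 (t2 (t1 q))) = w (t2 (t1 q))` as `w` is `t1`-invariant.
Everything is in characteristic 2. -/
theorem Side.tele (σ : Side M) (w : M.D → ZMod 2) (hw : w ∈ M.inv1) (a : G.Dart) (s : Bool) :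
    w (σ.rho a s) + w (σ.rho a.symm s) = σ.Th w a s +
      ∑ q ∈ Finset.univ.filter (fun q => M.cross q ∧ M.lab q = a ∧ σ.sd q = s),
        (w (M.t1 q) + w (M.t2 (M.t1 q))) := by
  have h1 := (M.mem_inv1 w).1 hw
  have hTh : σ.Th w a s = ∑ d ∈ Finset.univ.filter (fun d => M.lab d = a ∧ σ.sd d = s), w d +
      ∑ d ∈ Finset.univ.filter (fun d => M.lab d = a.symm ∧ σ.sd d = s), w d := by
    rw [Side.Th, Finset.sum_add_distrib, a8_t0]
  have hX : ∑ q ∈ Finset.univ.filter (fun q => M.cross q ∧ M.lab q = a ∧ σ.sd q = s),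
        (w (M.t1 q) + w (M.t2 (M.t1 q))) =
      ∑ d ∈ Finset.univ.filter (fun d => M.cross d ∧ M.lab d = a ∧ σ.sd d = s), w d +
      ∑ d ∈ Finset.univ.filter (fun d => M.cross d ∧ M.lab d = a.symm ∧ σ.sd d = s), w d := by
    rw [← a8_st, ← Finset.sum_add_distrib]
    refine Finset.sum_congr rfl fun q _ => ?_
    rw [h1 q, Drawing.st, h1]
  rw [hTh, a8_split, a8_split, hX]
  have e1 := a8_two (∑ d ∈ Finset.univ.filter
    (fun d => M.cross d ∧ M.lab d = a ∧ σ.sd d = s), w d)
  have e2 := a8_two (∑ d ∈ Finset.univ.filter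
    (fun d => M.cross d ∧ M.lab d = a.symm ∧ σ.sd d = s), w d)
  linear_combination -e1 - e2

open scoped Classical in
/-- If the jump of `w` is constant along the arc of `a` then `Th` is the same for both sides.
Proof: `t2` is a bijection from the flags with label `a` and side `false` to those with side
`true`; so `Th w a true + Th w a false = ∑_{lab d = a, sd d = false} ((w d + w (t2 d)) +
(w (t0 d) + w (t0 (t2 d))))`, `t0 (t2 d) = t2 (t0 d)` and the two brackets are equal by
hypothesis, so the sum is `0`. -/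
theorem Side.Th_side (σ : Side M) (w : M.D → ZMod 2)
    (h : ∀ d, w (M.t0 d) + w (M.t2 (M.t0 d)) = w d + w (M.t2 d)) (a : G.Dart) (s s' : Bool) :
    σ.Th w a s = σ.Th w a s' := by
  have key : ∀ t : Bool, σ.Th w a (!t) = σ.Th w a t := by
    intro t
    have hb : σ.Th w a (!t) =
        ∑ d ∈ Finset.univ.filter (fun d => M.lab d = a ∧ σ.sd d = t),
          (w (M.t2 d) + w (M.t0 (M.t2 d))) := by
      rw [Side.Th]
      symm
      refine Finset.sum_nbij' (fun d => M.t2 d) (fun d => M.t2 d) ?_ ?_ ?_ ?_ ?_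
      · intro d hd
        simp only [Finset.mem_filter, Finset.mem_univ, true_and] at hd ⊢
        exact ⟨by rw [M.lab_t2, hd.1], by rw [σ.sd_t2, hd.2]⟩
      · intro d hd
        simp only [Finset.mem_filter, Finset.mem_univ, true_and] at hd ⊢
        exact ⟨by rw [M.lab_t2, hd.1], by rw [σ.sd_t2, hd.2, Bool.not_not]⟩
      · intro d _
        exact M.t2_t2 d
      · intro d _
        exact M.t2_t2 d
      · intro d _
        rfl
    rw [hb, Side.Th]
    refine Finset.sum_congr rfl fun d _ => ?_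
    have h1 := h d
    rw [M.t0_t2]
    have e1 := a8_two (w (M.t2 d))
    have e2 := a8_two (w (M.t0 d))
    linear_combination h1 + e1 - e2
  cases s <;> cases s'
  · rfl
  · exact (key false).symm
  · exact key false
  · rfl

open scoped Classical in
/-- **Counting crossings on one side of the arc.** The number of crossing flags with label `a` and
side `s` at which `a` crosses the edge `f` is the number of crossings of `a.edge` and `f`.

Proof. Let `X` be the set of the crossing flags `d` with `(lab d).edge = a.edge` and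
`(lab (t1 d)).edge = f`, and `X_{b,s}` the part with `lab d = b`, `sd d = s`, for `b = a, a.symm`.
`X` is the disjoint union of `X_{a,false}, X_{a,true}, X_{a.symm,false}, X_{a.symm,true}`
(`SimpleGraph.dart_edge_eq_iff`, `a ≠ a.symm`). `t2` is a bijection `X_{b,s} → X_{b,!s}`: the label
is the same, and `(lab (t1 (t2 d))).edge = (lab (t1 d)).edge`: by `cross_opp` applied to
`t2 (t1 d)`: `lab (t1 (t2 (t1 (t2 (t2 (t1 d)))))) = (lab (t2 (t1 d))).symm`, and the left side is
`lab (t1 (t2 d))` by `t2_t2`, `t1_t1`; `lab (t2 (t1 d)) = lab (t1 d)`; `dart.symm` has the same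
edge. `M.st` is a bijection `X_{a,s} → X_{a.symm,s}`: `lab_st`, `sd_st`, and
`lab (t1 (st d)) = lab (t2 (t1 d)) = lab (t1 d)`. So the four parts have the same size and
`crossings = |X| / 4` is this size. -/
theorem Side.card_cross (σ : Side M) (a : G.Dart) (s : Bool) (f : Sym2 V) :
    (Finset.univ.filter (fun q => M.cross q ∧ M.lab q = a ∧ σ.sd q = s ∧
      (M.lab (M.t1 q)).edge = f)).card = M.crossings a.edge f := by
  change (a8_X σ a s f).card = _
  have hs : ∀ (b : G.Dart) (t t' : Bool), (a8_X σ b t f).card = (a8_X σ b t' f).card := by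
    intro b t t'
    cases t <;> cases t'
    · rfl
    · exact a8_X_t2 σ b false f
    · exact a8_X_t2 σ b true f
    · rfl
  have hne : a ≠ a.symm := fun h => a.symm_ne h.symm
  have hU : Finset.univ.filter (fun d => M.cross d ∧ (M.lab d).edge = a.edge ∧
      (M.lab (M.t1 d)).edge = f) =
      ((a8_X σ a false f ∪ a8_X σ a true f) ∪ (a8_X σ a.symm false f ∪ a8_X σ a.symm true f)) := by
    ext d
    simp only [Finset.mem_filter, Finset.mem_univ, true_and, Finset.mem_union, a8_X_mem]
    constructor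
    · rintro ⟨h1, h2, h3⟩
      rcases (SimpleGraph.dart_edge_eq_iff _ _).1 h2 with h2 | h2
      · left
        cases hsd : σ.sd d
        · exact Or.inl ⟨h1, h2, rfl, h3⟩
        · exact Or.inr ⟨h1, h2, rfl, h3⟩
      · right
        cases hsd : σ.sd d
        · exact Or.inl ⟨h1, h2, rfl, h3⟩
        · exact Or.inr ⟨h1, h2, rfl, h3⟩
    · rintro ((⟨h1, h2, _, h3⟩ | ⟨h1, h2, _, h3⟩) | (⟨h1, h2, _, h3⟩ | ⟨h1, h2, _, h3⟩))
      · exact ⟨h1, by rw [h2], h3⟩
      · exact ⟨h1, by rw [h2], h3⟩
      · exact ⟨h1, by rw [h2, SimpleGraph.Dart.edge_symm], h3⟩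
      · exact ⟨h1, by rw [h2, SimpleGraph.Dart.edge_symm], h3⟩
  have hd1 : ∀ b : G.Dart, Disjoint (a8_X σ b false f) (a8_X σ b true f) := by
    intro b
    rw [Finset.disjoint_left]
    intro d h1 h2
    rw [a8_X_mem] at h1 h2
    exact Bool.false_ne_true (h1.2.2.1.symm.trans h2.2.2.1)
  have hd2 : Disjoint (a8_X σ a false f ∪ a8_X σ a true f)
      (a8_X σ a.symm false f ∪ a8_X σ a.symm true f) := by
    rw [Finset.disjoint_left]
    intro d h1 h2
    simp only [Finset.mem_union, a8_X_mem] at h1 h2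
    rcases h1 with h1 | h1 <;> rcases h2 with h2 | h2 <;>
      exact hne (h1.2.1.symm.trans h2.2.1)
  have hcard : Nat.card {d : M.D // M.cross d ∧ (M.lab d).edge = a.edge ∧
      (M.lab (M.t1 d)).edge = f} = 4 * (a8_X σ a s f).card := by
    rw [Nat.card_eq_fintype_card, Fintype.card_subtype, hU, Finset.card_union_of_disjoint hd2,
      Finset.card_union_of_disjoint (hd1 a), Finset.card_union_of_disjoint (hd1 a.symm),
      ← a8_X_st σ a false f, ← a8_X_st σ a true f, hs a false s, hs a true s]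
    ring
  rw [Drawing.crossings, hcard]
  omega

end Pool.Agent.HTE
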