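import Mathlib

set_option autoImplicit false

namespace Pool.Agent.HTE

open Equiv

/-- The sign of a permutation in terms of its number of cycles (fixed points included):
`sign π = (-1)^(|P| + number of cycles)`.

Proof: `Equiv.Perm.sign_of_cycleType`: `sign π = (-1)^(π.cycleType.sum + card π.cycleType)`,
`Equiv.Perm.sum_cycleType`: the sum is `#π.support`. The classes of `SameCycle` are the cycles
(`π.cycleFactorsFinset`, as many as `card π.cycleType`) and the fixed points
(`|P| - #π.support` many). So `|P| + number of cycles = |P| + card + |P| - #support`, which has the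
same parity as `#support + card`. (Alternatively induct with `Equiv.Perm.swap_induction_on`.) -/
theorem sign_eq_orbits {P : Type} [Fintype P] [DecidableEq P] (π : Perm P) :
    (Perm.sign π : ℤ) = (-1) ^ (Fintype.card P +
      Nat.card (Quotient (Perm.SameCycle.setoid π))) := by
  classical
  let f : P → Perm P ⊕ P := fun x => if π x = x then Sum.inr x else Sum.inl (π.cycleOf x)
  have f1 : ∀ x, π x = x → f x = Sum.inr x := fun x hx => if_pos hx
  have f2 : ∀ x, ¬ π x = x → f x = Sum.inl (π.cycleOf x) := fun x hx => if_neg hx
  have hf : ∀ x y, f x = f y ↔ π.SameCycle x y := by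
    intro x y
    by_cases hx : π x = x
    · by_cases hy : π y = y
      · rw [f1 x hx, f1 y hy]
        constructor
        · intro h
          rw [Sum.inr.inj h]
        · intro h
          rw [h.eq_of_left hx]
      · rw [f1 x hx, f2 y hy]
        constructor
        · intro h
          cases h
        · intro h
          exact absurd ((h.apply_eq_self_iff).1 hx) hy
    · by_cases hy : π y = y
      · rw [f2 x hx, f1 y hy]
        constructor
        · intro h
          cases h
        · intro h
          exact absurd ((h.apply_eq_self_iff).2 hy) hx
      · rw [f2 x hx, f2 y hy]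
        rw [Perm.sameCycle_iff_cycleOf_eq_of_mem_support (Perm.mem_support.2 hx)
          (Perm.mem_support.2 hy)]
        exact Sum.inl_injective.eq_iff
  have hcard : Nat.card (Quotient (Perm.SameCycle.setoid π)) =
      (Finset.univ.image f).card := by
    have e : Quotient (Perm.SameCycle.setoid π) ≃ {z // z ∈ Finset.univ.image f} := by
      refine Equiv.ofBijective
        (fun q => Quotient.lift (s := Perm.SameCycle.setoid π)
          (fun x => (⟨f x, Finset.mem_image_of_mem f (Finset.mem_univ x)⟩ :
            {z // z ∈ Finset.univ.image f}))
          (fun x y h => Subtype.ext ((hf x y).2 h)) q) ⟨?_, ?_⟩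
      · intro a b
        induction a using Quotient.inductionOn
        induction b using Quotient.inductionOn
        intro h
        exact Quotient.sound (s := Perm.SameCycle.setoid π) ((hf _ _).1 (congrArg Subtype.val h))
      · rintro ⟨z, hz⟩
        obtain ⟨x, -, hx⟩ := Finset.mem_image.1 hz
        exact ⟨Quotient.mk (Perm.SameCycle.setoid π) x, Subtype.ext hx⟩
    rw [Nat.card_congr e, Nat.card_eq_fintype_card, Fintype.card_coe]
  have himg : Finset.univ.image f = π.cycleFactorsFinset.disjSum (Finset.univ \ π.support) := by
    ext z
    rw [Finset.mem_image, Finset.mem_disjSum]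
    constructor
    · rintro ⟨x, -, rfl⟩
      by_cases hx : π x = x
      · right
        exact ⟨x, by simpa using hx, (f1 x hx).symm⟩
      · left
        exact ⟨π.cycleOf x, Perm.cycleOf_mem_cycleFactorsFinset_iff.2 (Perm.mem_support.2 hx),
          (f2 x hx).symm⟩
    · rintro (⟨c, hc, rfl⟩ | ⟨x, hx, rfl⟩)
      · have hc1 := (Perm.mem_cycleFactorsFinset_iff.1 hc).1
        obtain ⟨a, ha⟩ := hc1.nonempty_support
        have h1 := Perm.cycle_is_cycleOf ha hc
        have h2 : a ∈ π.support := Perm.mem_cycleFactorsFinset_support_le hc ha
        refine ⟨a, Finset.mem_univ a, ?_⟩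
        rw [f2 a (Perm.mem_support.1 h2), ← h1]
      · refine ⟨x, Finset.mem_univ x, f1 x ?_⟩
        simpa using hx
  have hc3 : π.cycleType.card = π.cycleFactorsFinset.card := by
    rw [Perm.cycleType_def, Multiset.card_map]
    rfl
  have hsupp : (Finset.univ \ π.support).card = Fintype.card P - π.support.card := by
    rw [Finset.card_sdiff_of_subset (Finset.subset_univ _), Finset.card_univ]
  have hle : π.support.card ≤ Fintype.card P := Finset.card_le_univ _
  rw [Perm.sign_of_cycleType, Perm.sum_cycleType, hcard, himg, Finset.card_disjSum, hc3, hsupp]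
  have h3 : Fintype.card P + (π.cycleFactorsFinset.card + (Fintype.card P - π.support.card)) =
      (π.support.card + π.cycleFactorsFinset.card) + 2 * (Fintype.card P - π.support.card) := by
    omega
  rw [h3, pow_add ((-1 : ℤ)), pow_mul]
  simp

end Pool.Agent.HTE
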