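import Mathlib

set_option autoImplicit false

namespace Pool.Agent.HTE

open Equiv

/-- Two involutions `s`, `t` of `D` that both switch the classes of `o : D → Bool`. -/
def evenPerm {D : Type} (s t : D → D) (hs : ∀ d, s (s d) = d) (ht : ∀ d, t (t d) = d)
    (o : D → Bool) (hos : ∀ d, o (s d) = !o d) (hot : ∀ d, o (t d) = !o d) :
    Perm {d : D // o d = true} where
  toFun d := ⟨s (t d.1), by rw [hos, hot, Bool.not_not, d.2]⟩
  invFun d := ⟨t (s d.1), by rw [hot, hos, Bool.not_not, d.2]⟩
  left_inv d := Subtype.ext (by simp [hs, ht])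
  right_inv d := Subtype.ext (by simp [hs, ht])

/-- The orbits of the group generated by `s`, `t` correspond to the cycles of `s ∘ t` on the class
`o = true`.

Proof. Let `π = evenPerm ...`. The map `P → Quot (e = s d ∨ e = t d)`, `d ↦ Quot.mk _ d.1`, is
constant on the cycles of `π` (`Quot.mk (s (t d)) = Quot.mk (t d) = Quot.mk d`), so it induces
`Φ : Quotient (SameCycle.setoid π) → Quot _`. Surjective: every `d : D` or its image `s d` lies in
`o = true`, and they have the same class. Injective: define
`g : D → Quotient (SameCycle.setoid π)`, `g d = ⟦⟨d, _⟩⟧` if `o d = true` and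
`g d = ⟦⟨s d, _⟩⟧` if `o d = false`. Then `g (s d) = g d` (if `o d = true`: `g (s d) = ⟦s (s d)⟧`;
similarly for `false`) and `g (t d) = g d` (if `o d = true`: `g (t d) = ⟦s (t d)⟧ = ⟦π d⟧ = ⟦d⟧`;
if `o d = false`: `g (t d) = ⟦t d⟧` and `π (t d) = s (t (t d)) = s d`, `g d = ⟦s d⟧`). So `g` factors
through `Quot` and gives an inverse of `Φ`. Use `Nat.card_congr`. -/
theorem card_orbits {D : Type} (s t : D → D) (hs : ∀ d, s (s d) = d) (ht : ∀ d, t (t d) = d)
    (o : D → Bool) (hos : ∀ d, o (s d) = !o d) (hot : ∀ d, o (t d) = !o d) :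
    Nat.card (Quot (fun d e : D => e = s d ∨ e = t d)) =
      Nat.card (Quotient (Perm.SameCycle.setoid (evenPerm s t hs ht o hos hot))) := by
  set π := evenPerm s t hs ht o hos hot with hπ
  have hπd : ∀ d : {d : D // o d = true}, (π d).1 = s (t d.1) := fun d => rfl
  have hstep : ∀ d : {d : D // o d = true}, Quot.mk (fun d e : D => e = s d ∨ e = t d) (π d).1 =
      Quot.mk (fun d e : D => e = s d ∨ e = t d) d.1 := by
    intro d
    rw [hπd]
    have h1 : Quot.mk (fun d e : D => e = s d ∨ e = t d) (t d.1) = Quot.mk _ (s (t d.1)) :=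
      Quot.sound (Or.inl rfl)
    have h2 : Quot.mk (fun d e : D => e = s d ∨ e = t d) d.1 = Quot.mk _ (t d.1) :=
      Quot.sound (Or.inr rfl)
    rw [← h1, ← h2]
  have hpow : ∀ (n : ℕ) (d : {d : D // o d = true}),
      Quot.mk (fun d e : D => e = s d ∨ e = t d) ((π ^ n) d).1 =
      Quot.mk (fun d e : D => e = s d ∨ e = t d) d.1 := by
    intro n
    induction n with
    | zero => intro d; rfl
    | succ n ih =>
      intro d
      rw [pow_succ, Perm.mul_apply, ih, hstep]
  have hzpow : ∀ (n : ℤ) (d : {d : D // o d = true}),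
      Quot.mk (fun d e : D => e = s d ∨ e = t d) ((π ^ n) d).1 =
      Quot.mk (fun d e : D => e = s d ∨ e = t d) d.1 := by
    intro n d
    obtain ⟨m, rfl | rfl⟩ := n.eq_nat_or_neg
    · rw [zpow_natCast]
      exact hpow m d
    · have := hpow m ((π ^ (-(m : ℤ))) d)
      rw [← this, ← Perm.mul_apply, ← zpow_natCast, ← zpow_add]
      simp
  have hsame : ∀ d : {d : D // o d = true}, π.SameCycle d (π d) := fun d =>
    (Perm.sameCycle_apply_right).2 (Perm.SameCycle.refl _ _)
  let Φ : Quotient (Perm.SameCycle.setoid π) → Quot (fun d e : D => e = s d ∨ e = t d) :=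
    fun q => Quotient.lift (s := Perm.SameCycle.setoid π)
      (fun d : {d : D // o d = true} => Quot.mk (fun d e : D => e = s d ∨ e = t d) d.1)
      (fun a b h => by
        obtain ⟨n, hn⟩ := (h : π.SameCycle a b)
        change Quot.mk _ a.1 = Quot.mk _ b.1
        rw [← hn, hzpow]) q
  let g : D → Quotient (Perm.SameCycle.setoid π) := fun d =>
    if h : o d = true then Quotient.mk (Perm.SameCycle.setoid π) ⟨d, h⟩
    else Quotient.mk (Perm.SameCycle.setoid π) ⟨s d, by rw [hos]; simpa using h⟩
  have g1 : ∀ d (h : o d = true), g d = Quotient.mk (Perm.SameCycle.setoid π) ⟨d, h⟩ :=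
    fun d h => dif_pos h
  have g2 : ∀ d (h : ¬ o d = true), g d = Quotient.mk (Perm.SameCycle.setoid π)
      ⟨s d, by rw [hos]; simpa using h⟩ := fun d h => dif_neg h
  have gs : ∀ d, g (s d) = g d := by
    intro d
    by_cases h : o d = true
    · have h' : ¬ o (s d) = true := by rw [hos, h]; simp
      rw [g1 d h, g2 (s d) h']
      congr 1
      exact Subtype.ext (hs d)
    · have h' : o (s d) = true := by rw [hos]; simpa using h
      rw [g2 d h, g1 (s d) h']
  have gt : ∀ d, g (t d) = g d := by
    intro d
    by_cases h : o d = true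
    · have h' : ¬ o (t d) = true := by rw [hot, h]; simp
      rw [g1 d h, g2 (t d) h']
      refine Quotient.sound (s := Perm.SameCycle.setoid π) ?_
      have := (hsame ⟨d, h⟩).symm
      exact this
    · have h' : o (t d) = true := by rw [hot]; simpa using h
      rw [g2 d h, g1 (t d) h']
      refine Quotient.sound (s := Perm.SameCycle.setoid π) ?_
      have h3 := hsame ⟨t d, h'⟩
      have h4 : π ⟨t d, h'⟩ = ⟨s d, by rw [hos]; simpa using h⟩ := by
        apply Subtype.ext
        rw [hπd]
        simp only [ht]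
      rw [h4] at h3
      exact h3
  let Ψ : Quot (fun d e : D => e = s d ∨ e = t d) → Quotient (Perm.SameCycle.setoid π) :=
    Quot.lift g (fun a b h => by
      rcases h with rfl | rfl
      · exact (gs a).symm
      · exact (gt a).symm)
  refine Nat.card_congr ⟨Ψ, Φ, ?_, ?_⟩
  · intro q
    induction q using Quot.inductionOn with
    | h d =>
      change Φ (g d) = _
      by_cases h : o d = true
      · rw [g1 d h]
        rfl
      · rw [g2 d h]
        have h5 : Quot.mk (fun d e : D => e = s d ∨ e = t d) d = Quot.mk _ (s d) :=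
          Quot.sound (Or.inl rfl)
        exact h5.symm
  · intro q
    induction q using Quotient.inductionOn with
    | h d =>
      change g d.1 = _
      rw [g1 d.1 d.2]

end Pool.Agent.HTE
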