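import Pool.Agent.HTE.A0
import Pool.Agent.HTE.B1
import Pool.Agent.HTE.B2

set_option autoImplicit false

namespace Pool.Agent.HTE

/-- The Euler characteristic of an orientable map is even.

Proof. Let `o` be the orientation, `P = {d // o d = true}`. Let `α = evenPerm t1 t2`
(`d ↦ t1 (t2 d)`), `β = evenPerm t2 t0` (`d ↦ t2 (t0 d)`), `γ = evenPerm t1 t0`
(`d ↦ t1 (t0 d)`). `α * β = γ` (`t1 (t2 (t2 (t0 d))) = t1 (t0 d)`), so
`sign α * sign β = sign γ`, `sign α * sign β * sign γ = 1`. By `sign_eq_orbits` and `card_orbits`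
(the relation for `t2, t0` is the one for `t0, t2` with the disjuncts exchanged, so `|Edge|`;
`t1, t0`: `|Face|`) the product of the signs is `(-1)^(3|P| + |Vert| + |Edge| + |Face|)`, so
`3|P| + |Vert| + |Edge| + |Face|` is even. `β` is a fixed-point-free involution of `P`
(`t2 (t0 (t2 (t0 d))) = d` by `t0_t2`; `t2 (t0 d) ≠ d` by `t0_t2_ne`), so `|P|` is even
(`Finset.card_involution`-type lemma: `Function.Involutive.card_fixedPoints...` or
`Equiv.Perm.card_fixedPoints_modEq`/ sum of `1` over `P` in `ZMod 2` with `Finset.sum_involution`).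
Hence `|Vert| + |Edge| + |Face|` is even and so is `chi`. -/
theorem even_chi (M : GMap) (h : M.Orientable) : Even M.chi := by
  classical
  obtain ⟨o, ho⟩ := h
  have o0 : ∀ d, o (M.t0 d) = !o d := fun d => (ho d).1
  have o1 : ∀ d, o (M.t1 d) = !o d := fun d => (ho d).2.1
  have o2 : ∀ d, o (M.t2 d) = !o d := fun d => (ho d).2.2
  obtain ⟨A, hA⟩ : ∃ A, A = evenPerm M.t1 M.t2 M.t1_t1 M.t2_t2 o o1 o2 := ⟨_, rfl⟩
  obtain ⟨B, hB⟩ : ∃ B, B = evenPerm M.t0 M.t2 M.t0_t0 M.t2_t2 o o0 o2 := ⟨_, rfl⟩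
  obtain ⟨C, hC⟩ : ∃ C, C = evenPerm M.t0 M.t1 M.t0_t0 M.t1_t1 o o0 o1 := ⟨_, rfl⟩
  have hCA : C * A = B := by
    apply Equiv.ext
    intro d
    rw [hA, hB, hC, Equiv.Perm.mul_apply]
    apply Subtype.ext
    show M.t0 (M.t1 (M.t1 (M.t2 d.1))) = M.t0 (M.t2 d.1)
    rw [M.t1_t1]
  have hBB : ∀ d, B (B d) = d := by
    intro d
    rw [hB]
    apply Subtype.ext
    show M.t0 (M.t2 (M.t0 (M.t2 d.1))) = d.1
    rw [M.t0_t2, M.t0_t0, M.t2_t2]
  have hBne : ∀ d, B d ≠ d := by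
    intro d hd
    have h1 := congrArg Subtype.val hd
    rw [hB] at h1
    exact M.t0_t2_ne d.1 h1
  have hPeven : Even (Fintype.card {d : M.D // o d = true}) := by
    have h1 : (∑ _d : {d : M.D // o d = true}, (1 : ZMod 2)) = 0 :=
      Finset.sum_involution (fun d _ => B d) (fun _ _ => by decide) (fun d _ _ => hBne d)
        (fun _ _ => Finset.mem_univ _) (fun d _ => hBB d)
    rw [Finset.sum_const, Finset.card_univ, nsmul_eq_mul, mul_one] at h1
    exact (ZMod.natCast_eq_zero_iff_even).mp h1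
  have sA : ((Equiv.Perm.sign A : ℤˣ) : ℤ) =
      (-1) ^ (Fintype.card {d : M.D // o d = true} + Nat.card M.Vert) := by
    rw [sign_eq_orbits, hA, ← card_orbits M.t1 M.t2 M.t1_t1 M.t2_t2 o o1 o2]
    rfl
  have sB : ((Equiv.Perm.sign B : ℤˣ) : ℤ) =
      (-1) ^ (Fintype.card {d : M.D // o d = true} + Nat.card M.Edge) := by
    rw [sign_eq_orbits, hB, ← card_orbits M.t0 M.t2 M.t0_t0 M.t2_t2 o o0 o2]
    rfl
  have sC : ((Equiv.Perm.sign C : ℤˣ) : ℤ) =
      (-1) ^ (Fintype.card {d : M.D // o d = true} + Nat.card M.Face) := by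
    rw [sign_eq_orbits, hC, ← card_orbits M.t0 M.t1 M.t0_t0 M.t1_t1 o o0 o1]
    rfl
  have hs : ((Equiv.Perm.sign C : ℤˣ) : ℤ) * ((Equiv.Perm.sign A : ℤˣ) : ℤ) =
      ((Equiv.Perm.sign B : ℤˣ) : ℤ) := by
    rw [← hCA, Equiv.Perm.sign_mul]
    rfl
  rw [sA, sB, sC] at hs
  have h2 : ((-1 : ℤ)) ^ ((Fintype.card {d : M.D // o d = true} + Nat.card M.Face) +
      (Fintype.card {d : M.D // o d = true} + Nat.card M.Vert) +
      (Fintype.card {d : M.D // o d = true} + Nat.card M.Edge)) = 1 := by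
    rw [pow_add, pow_add (-1 : ℤ) (Fintype.card {d : M.D // o d = true} + Nat.card M.Face), hs,
      ← pow_add]
    exact Even.neg_one_pow ⟨_, rfl⟩
  have h3 := (neg_one_pow_eq_one_iff_even (by norm_num : (-1 : ℤ) ≠ 1)).mp h2
  obtain ⟨k, hk⟩ := h3
  obtain ⟨l, hl⟩ := hPeven
  unfold GMap.chi
  rw [Int.even_iff]
  omega

end Pool.Agent.HTE
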