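import Pool.Agent.HTE.Core

set_option autoImplicit false

namespace Pool.Agent.HTE

open Module

/-- Orthogonal subspaces of `F^ι` have dimensions with sum at most `|ι|`.
Proof: the standard dot product is nondegenerate; `P` is contained in the orthogonal space of `Q`,
whose dimension is `|ι| - dim Q`. In detail: the linear map `P → Dual (F^ι ⧸ Q)`,
`p ↦ (q ↦ ∑ p i q i)` is well defined by `h` and injective (test on unit vectors), and
`dim (F^ι ⧸ Q) = |ι| - dim Q`. (Mathlib: `Matrix.dotProduct`, `Submodule.dualAnnihilator`,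
`Subspace.finrank_add_finrank_dualAnnihilator_eq`, `Module.piEquiv`/`dotProductEquiv`.) -/
theorem orth_dim {ι : Type} [Fintype ι] (P Q : Submodule (ZMod 2) (ι → ZMod 2))
    (h : ∀ p ∈ P, ∀ q ∈ Q, ∑ i, p i * q i = 0) :
    finrank (ZMod 2) P + finrank (ZMod 2) Q ≤ Fintype.card ι := by
  classical
  let T : (ι → ZMod 2) →ₗ[ZMod 2] Dual (ZMod 2) (ι → ZMod 2) :=
    LinearMap.mk₂ (ZMod 2) (fun p q => ∑ i, p i * q i)
      (fun p p' q => by simp only [Pi.add_apply, add_mul, Finset.sum_add_distrib])
      (fun c p q => by simp only [Pi.smul_apply, smul_eq_mul, mul_assoc, Finset.mul_sum])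
      (fun p q q' => by simp only [Pi.add_apply, mul_add, Finset.sum_add_distrib])
      (fun c p q => by
        simp only [Pi.smul_apply, smul_eq_mul, Finset.mul_sum]
        exact Finset.sum_congr rfl fun i _ => by ring)
  have hT : ∀ p q, T p q = ∑ i, p i * q i := fun p q => rfl
  have hinj : Function.Injective T := by
    intro p p' hpp
    funext i
    have h1 := LinearMap.congr_fun hpp (Pi.single i 1)
    rw [hT, hT] at h1
    simpa [Pi.single_apply] using h1
  have hle : P.map T ≤ Q.dualAnnihilator := by
    rintro _ ⟨p, hp, rfl⟩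
    rw [Submodule.mem_dualAnnihilator]
    intro q hq
    exact h p hp q hq
  have h1 := Submodule.finrank_mono hle
  have h2 := (Submodule.equivMapOfInjective T hinj P).finrank_eq
  have h3 := Subspace.finrank_add_finrank_dualAnnihilator_eq Q
  rw [Module.finrank_fintype_fun_eq_card] at h3
  omega

end Pool.Agent.HTE
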