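import Pool.Agent.HTE.Core

set_option autoImplicit false

namespace Pool.Agent.HTE

open Module

variable {V : Type} [Fintype V] {G : SimpleGraph V}

/-- `dim D ≤ ∑ v, dim (im v)`.

Proof. Claim: for all `t : ℕ`,
`finrank (S.Dlt r t) ≤ ∑ v ∈ univ.filter (fun v => r v < t), finrank (S.im r v)`.
Induction on `t`. `t = 0`: a word of `Dlt r 0` has `W u v = 0` for all `u v`, so `Dlt r 0 = ⊥`.
Step: if no vertex has `r v = t`, then `Dlt r (t+1) ≤ Dlt r t` (`r u < t + 1` iff `r u < t`).
Otherwise let `v` be the vertex with `r v = t` (unique, `r` is injective). The linear map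
`Dlt r (t+1) → (V → Bool → F)`, `W ↦ W v` has range `S.im r v`, and its kernel is contained in
`Dlt r t`: let `W v = 0` and not (`r u < t` and `r x < t`); if not (`r u < t+1 ∧ r x < t+1`) then
`W u x = 0`; otherwise `r u = t` or `r x = t`, i.e. `u = v` or `x = v`, and `W v x = 0`,
`W u v = W v u = 0`. So `finrank (Dlt r (t+1)) ≤ finrank (im v) + finrank (Dlt r t)`
(`LinearMap.finrank_range_add_finrank_ker` for `(LinearMap.proj v).domRestrict (Dlt r (t+1))`).
Finally `S.D ≤ S.Dlt r t` if `t` is larger than all `r v` (a finite set of numbers). -/
theorem Sys.finrank_D_le (S : Sys G) (r : V → ℕ) (hr : Function.Injective r) :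
    finrank (ZMod 2) S.D ≤ ∑ v, finrank (ZMod 2) (S.im r v) := by
  classical
  have claim : ∀ t : ℕ, finrank (ZMod 2) (S.Dlt r t) ≤
      ∑ v ∈ Finset.univ.filter (fun v => r v < t), finrank (ZMod 2) (S.im r v) := by
    intro t
    induction t with
    | zero =>
      have h0 : S.Dlt r 0 = ⊥ := by
        rw [eq_bot_iff]
        rintro W ⟨_, h⟩
        rw [Submodule.mem_bot]
        ext1 x
        ext1 y
        exact h x y (by simp)
      rw [h0, finrank_bot]
      exact Nat.zero_le _
    | succ t ih =>
      by_cases hv : ∃ v, r v = t
      · obtain ⟨v, hv⟩ := hv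
        let f : S.Dlt r (t + 1) →ₗ[ZMod 2] (V → Bool → ZMod 2) :=
          (LinearMap.proj v).domRestrict (S.Dlt r (t + 1))
        have h1 := LinearMap.finrank_range_add_finrank_ker f
        have h2 : LinearMap.range f ≤ S.im r v := by
          rintro _ ⟨⟨W, hW⟩, rfl⟩
          refine ⟨W, ?_, rfl⟩
          rw [hv]
          exact hW
        have h3 : finrank (ZMod 2) (LinearMap.ker f) ≤ finrank (ZMod 2) (S.Dlt r t) := by
          let g : LinearMap.ker f →ₗ[ZMod 2] (V → V → Bool → ZMod 2) :=
            (S.Dlt r (t + 1)).subtype.comp (LinearMap.ker f).subtype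
          have hg : ∀ x, g x ∈ S.Dlt r t := by
            rintro ⟨⟨W, hW⟩, hk⟩
            have hWv : W v = 0 := LinearMap.mem_ker.1 hk
            refine ⟨hW.1, ?_⟩
            intro u x hux
            change W u x = 0
            by_cases hux' : r u < t + 1 ∧ r x < t + 1
            · have h4 : r u = t ∨ r x = t := by omega
              rcases h4 with h4 | h4
              · have : u = v := hr (h4.trans hv.symm)
                rw [this, hWv]; rfl
              · have : x = v := hr (h4.trans hv.symm)
                rw [this, hW.1.2 u v, hWv]; rfl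
            · exact hW.2 u x hux'
          apply LinearMap.finrank_le_finrank_of_injective (f := g.codRestrict (S.Dlt r t) hg)
          rintro ⟨⟨W, hW⟩, hk⟩ ⟨⟨W', hW'⟩, hk'⟩ h
          have h5 : W = W' := congrArg Subtype.val h
          exact Subtype.ext (Subtype.ext h5)
        have h6 := Submodule.finrank_mono h2
        have h7 : Finset.univ.filter (fun w => r w < t + 1) =
            insert v (Finset.univ.filter (fun w => r w < t)) := by
          ext w
          simp only [Finset.mem_filter, Finset.mem_univ, true_and, Finset.mem_insert]
          constructor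
          · intro h
            by_cases hw : r w < t
            · exact Or.inr hw
            · exact Or.inl (hr (by omega))
          · rintro (h | h)
            · rw [h, hv]; omega
            · omega
        rw [h7, Finset.sum_insert (by simp [hv])]
        omega
      · have h1 : S.Dlt r (t + 1) ≤ S.Dlt r t := by
          rintro W ⟨hW, h⟩
          refine ⟨hW, ?_⟩
          intro u x hux
          apply h u x
          intro h2
          apply hux
          have h3 : r u ≠ t := fun h => hv ⟨u, h⟩
          have h4 : r x ≠ t := fun h => hv ⟨x, h⟩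
          omega
        refine (Submodule.finrank_mono h1).trans (ih.trans ?_)
        apply Finset.sum_le_sum_of_subset
        intro w
        simp only [Finset.mem_filter, Finset.mem_univ, true_and]
        omega
  have hlast := claim ((Finset.univ.sup r) + 1)
  have hall : ∀ v, r v < Finset.univ.sup r + 1 := fun v =>
    Nat.lt_succ_of_le (Finset.le_sup (Finset.mem_univ v))
  have hf : Finset.univ.filter (fun v => r v < Finset.univ.sup r + 1) = Finset.univ := by
    rw [Finset.filter_true_of_mem]
    intro v _
    exact hall v
  rw [hf] at hlast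
  refine le_trans (Submodule.finrank_mono ?_) hlast
  intro W hW
  exact ⟨hW, fun u v h => absurd ⟨hall u, hall v⟩ h⟩

end Pool.Agent.HTE
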