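import Pool.Agent.HTE.C6

set_option autoImplicit false

namespace Pool.Agent.HTE

open Module

variable {V : Type} [Fintype V] {G : SimpleGraph V}

open scoped Classical in
/-- **(B1)** `dim (im v) ≤ ∑_{u ∈ N(v), r u < r v} T v u`.

Proof. For `t : ℕ` let `U t = S.sub v (fun x => r x < t)`, the words of `S.C v` that vanish
outside `{x | r x < t}`. Claim:
`finrank (U t) ≤ ∑ u ∈ univ.filter (fun u => G.Adj v u ∧ r u < t), S.T r v u`, by induction on `t`.
`t = 0`: `U 0 = ⊥`. Step: if no neighbour `u` of `v` has `r u = t` then `U (t+1) ≤ U t`
(a word of `S.C v` vanishes on the nonneighbours of `v`). Otherwise let `u` be this neighbour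
(unique, `r` injective). The linear map `U (t+1) → (Bool → F)`, `c ↦ c u`, has kernel contained in
`U t` and its range is contained in (in fact equal to) `S.I v u (fun x => r x < r u)`
(`r x < t + 1` implies `r x < r u` or `x = u`), whose dimension is `S.T r v u`.
Finally `S.im r v ≤ U (r v)` by `Sys.im_le`, `Sys.im_supp`. -/
theorem Sys.im_le1 (S : Sys G) (r : V → ℕ) (hr : Function.Injective r) (v : V) :
    finrank (ZMod 2) (S.im r v) ≤
      ∑ u ∈ Finset.univ.filter (fun u => G.Adj v u ∧ r u < r v), S.T r v u := by
  have claim : ∀ t : ℕ, finrank (ZMod 2) (S.sub v (fun x => r x < t)) ≤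
      ∑ u ∈ Finset.univ.filter (fun u => G.Adj v u ∧ r u < t), S.T r v u := by
    intro t
    induction t with
    | zero =>
      have h0 : S.sub v (fun x => r x < 0) = ⊥ := by
        rw [eq_bot_iff]
        rintro c ⟨_, h⟩
        rw [Submodule.mem_bot]
        ext1 x
        exact h x (by simp)
      rw [h0, finrank_bot]
      exact Nat.zero_le _
    | succ t ih =>
      by_cases hu : ∃ u, G.Adj v u ∧ r u = t
      · obtain ⟨u, hvu, hu⟩ := hu
        let f : S.sub v (fun x => r x < t + 1) →ₗ[ZMod 2] (Bool → ZMod 2) :=
          (LinearMap.proj u).domRestrict (S.sub v (fun x => r x < t + 1))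
        have h1 := LinearMap.finrank_range_add_finrank_ker f
        have h2 : LinearMap.range f ≤ S.I v u (fun x => r x < r u) := by
          rintro _ ⟨⟨c, hc⟩, rfl⟩
          refine ⟨c, ⟨hc.1, ?_⟩, rfl⟩
          intro x hx
          apply hc.2 x
          intro hx'
          apply hx
          by_cases hxt : r x < t
          · left; omega
          · right; exact hr (by omega)
        have h3 : finrank (ZMod 2) (LinearMap.ker f) ≤
            finrank (ZMod 2) (S.sub v (fun x => r x < t)) := by
          let g : LinearMap.ker f →ₗ[ZMod 2] (V → Bool → ZMod 2) :=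
            (S.sub v (fun x => r x < t + 1)).subtype.comp (LinearMap.ker f).subtype
          have hg : ∀ x, g x ∈ S.sub v (fun x => r x < t) := by
            rintro ⟨⟨c, hc⟩, hk⟩
            have hcu : c u = 0 := LinearMap.mem_ker.1 hk
            refine ⟨hc.1, ?_⟩
            intro x hx
            change c x = 0
            by_cases hxt : r x = t
            · have : x = u := hr (hxt.trans hu.symm)
              rw [this, hcu]
            · exact hc.2 x (by omega)
          apply LinearMap.finrank_le_finrank_of_injective
            (f := g.codRestrict (S.sub v (fun x => r x < t)) hg)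
          rintro ⟨⟨W, hW⟩, hk⟩ ⟨⟨W', hW'⟩, hk'⟩ h
          have h5 : W = W' := congrArg Subtype.val h
          exact Subtype.ext (Subtype.ext h5)
        have h6 : finrank (ZMod 2) (LinearMap.range f) ≤ S.T r v u := Submodule.finrank_mono h2
        have h7 : Finset.univ.filter (fun w => G.Adj v w ∧ r w < t + 1) =
            insert u (Finset.univ.filter (fun w => G.Adj v w ∧ r w < t)) := by
          ext w
          simp only [Finset.mem_filter, Finset.mem_univ, true_and, Finset.mem_insert]
          constructor
          · rintro ⟨h, h'⟩
            by_cases hw : r w < t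
            · exact Or.inr ⟨h, hw⟩
            · exact Or.inl (hr (by omega))
          · rintro (h | ⟨h, h'⟩)
            · rw [h, hu]
              exact ⟨hvu, by omega⟩
            · exact ⟨h, by omega⟩
        rw [h7, Finset.sum_insert (by simp [hu])]
        omega
      · have h1 : S.sub v (fun x => r x < t + 1) ≤ S.sub v (fun x => r x < t) := by
          rintro c ⟨hc, h⟩
          refine ⟨hc, ?_⟩
          intro x hx
          by_cases hadj : G.Adj v x
          · apply h x
            have h3 : r x ≠ t := fun h => hu ⟨x, hadj, h⟩
            omega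
          · exact S.supp v c hc x hadj
        refine (Submodule.finrank_mono h1).trans (ih.trans ?_)
        apply Finset.sum_le_sum_of_subset
        intro w
        simp only [Finset.mem_filter, Finset.mem_univ, true_and]
        rintro ⟨h2, h3⟩
        exact ⟨h2, by omega⟩
  refine le_trans (Submodule.finrank_mono ?_) (claim (r v))
  intro c hc
  refine ⟨S.im_le r v hc, ?_⟩
  intro x hx
  exact S.im_supp r hr v c hc x (fun h => hx h.2)

end Pool.Agent.HTE
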