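import Pool.Agent.HTE.Core

set_option autoImplicit false

namespace Pool.Agent.HTE

open Module

variable {V : Type} [Fintype V] {G : SimpleGraph V}

/-- The words of `im v` lie in `C v`. (A word of `im v` is `W v` with `W ∈ D`.) -/
theorem Sys.im_le (S : Sys G) (r : V → ℕ) (v : V) : S.im r v ≤ S.C v := by
  rintro _ ⟨W, ⟨⟨hW1, hW2⟩, hW3⟩, rfl⟩
  exact hW1 v

/-- The words of `im v` vanish outside the neighbours `u` of `v` with `r u < r v`.
Proof: `c = W v`, `W ∈ Dlt r (r v + 1)`. If `u` is not a neighbour: `S.supp`. Otherwise `u ≠ v`,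
`r u ≠ r v` (injective), so `¬ r u < r v` gives `¬ r u < r v + 1`, hence `W v u = 0`. -/
theorem Sys.im_supp (S : Sys G) (r : V → ℕ) (hr : Function.Injective r) (v : V)
    (c : V → Bool → ZMod 2) (hc : c ∈ S.im r v) (u : V) (hu : ¬ (G.Adj v u ∧ r u < r v)) :
    c u = 0 := by
  obtain ⟨W, ⟨⟨hW1, hW2⟩, hW3⟩, rfl⟩ := hc
  by_cases hvu : G.Adj v u
  · have h1 : ¬ r u < r v := fun h => hu ⟨hvu, h⟩
    have h2 : r u ≠ r v := fun h => hvu.ne' (hr h)
    exact hW3 v u (by omega)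
  · exact S.supp v (W v) (hW1 v) u hvu

/-- For `c ∈ im v` the value `c u` lies in `I u v {x | r x < r v}`.
Proof: `c = W v` with `W ∈ Dlt r (r v + 1)`; `c u = W v u = W u v = (W u) v` with
`W u ∈ S.C u`, and `W u x = 0` unless `r x < r v + 1`, i.e. unless `r x < r v` or `x = v`
(`r` is injective). So `W u ∈ S.sub u (fun x => r x < r v ∨ x = v)`. -/
theorem Sys.im_mem (S : Sys G) (r : V → ℕ) (hr : Function.Injective r) (v : V)
    (c : V → Bool → ZMod 2) (hc : c ∈ S.im r v) (u : V) :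
    c u ∈ S.I u v (fun x => r x < r v) := by
  obtain ⟨W, ⟨⟨hW1, hW2⟩, hW3⟩, rfl⟩ := hc
  refine ⟨W u, ⟨hW1 u, fun x hx => ?_⟩, (hW2 u v)⟩
  rw [not_or] at hx
  have h2 : r x ≠ r v := fun h => hx.2 (hr h)
  have h1 := hx.1
  exact hW3 u x (by omega)

end Pool.Agent.HTE
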