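import Pool.Agent.HTE.C4
import Pool.Agent.HTE.C6

set_option autoImplicit false

namespace Pool.Agent.HTE

open Module

variable {V : Type} [Fintype V] {G : SimpleGraph V}

open scoped Classical in
/-- **(B2)** `2 dim (im v) ≤ ∑_{u ∈ N(v), r u < r v} T u v`.
Proof: `Sys.lemR` with `W = S.im r v`, `J = univ.filter (fun u => G.Adj v u ∧ r u < r v)`,
`A u = S.I u v (fun x => r x < r v)`, using `Sys.im_le`, `Sys.im_supp`, `Sys.im_mem`;
`S.T r u v = finrank (S.I u v (fun x => r x < r v))` by definition. -/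
theorem Sys.im_le2 (S : Sys G) (r : V → ℕ) (hr : Function.Injective r) (v : V)
    (hd : ∀ u, G.Adj v u → ∃ u', u' ≠ u ∧ G.Adj v u') :
    2 * finrank (ZMod 2) (S.im r v) ≤
      ∑ u ∈ Finset.univ.filter (fun u => G.Adj v u ∧ r u < r v), S.T r u v := by
  refine (S.lemR v hd (S.im r v) (S.im_le r v)
    (Finset.univ.filter (fun u => G.Adj v u ∧ r u < r v))
    (fun u hu => (Finset.mem_filter.1 hu).2.1)
    (fun c hc u hu => S.im_supp r hr v c hc u (fun h =>
      hu (Finset.mem_filter.2 ⟨Finset.mem_univ _, h⟩)))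
    (fun u => S.I u v (fun x => r x < r v))
    (fun c hc u _ => S.im_mem r hr v c hc u)).trans (le_of_eq ?_)
  refine Finset.sum_congr rfl fun u _ => ?_
  rfl

end Pool.Agent.HTE
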