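import Mathlib

set_option autoImplicit false

namespace Pool.Agent.HTE

variable {V : Type} [Fintype V] {G : SimpleGraph V}

open scoped Classical in
/-- Each edge has an end that comes later: the sum of `g v u + g u v` over all `v` and the earlier
neighbours `u` of `v` is the sum of `g` over all ordered adjacent pairs.
Proof: `∑_v ∑_{u : Adj v u, r u < r v} g u v = ∑_u ∑_{v : Adj u v, r u < r v} g u v` (swap sums,
symmetry of `Adj`), rename; and every ordered adjacent pair `(v, u)` satisfies exactly one of
`r u < r v`, `r v < r u` (`v ≠ u`, `r` injective). -/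
theorem sum_pairs (r : V → ℕ) (hr : Function.Injective r) (g : V → V → ℕ) :
    ∑ v, ∑ u ∈ Finset.univ.filter (fun u => G.Adj v u ∧ r u < r v), (g v u + g u v) =
      ∑ v, ∑ u ∈ Finset.univ.filter (fun u => G.Adj v u), g v u := by
  simp only [Finset.sum_add_distrib, Finset.sum_filter]
  have h2 : ∑ v : V, ∑ u : V, (if G.Adj v u ∧ r u < r v then g u v else 0) =
      ∑ v : V, ∑ u : V, (if G.Adj v u ∧ r v < r u then g v u else 0) := by
    rw [Finset.sum_comm]
    apply Finset.sum_congr rfl
    intro v _
    apply Finset.sum_congr rfl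
    intro u _
    simp only [G.adj_comm u v]
  rw [h2, ← Finset.sum_add_distrib]
  apply Finset.sum_congr rfl
  intro v _
  rw [← Finset.sum_add_distrib]
  apply Finset.sum_congr rfl
  intro u _
  by_cases h : G.Adj v u
  · have hne : r v ≠ r u := fun h' => h.ne (hr h')
    rcases lt_or_gt_of_ne hne with h3 | h3
    · simp [h, h3, not_lt.2 h3.le]
    · simp [h, h3, not_lt.2 h3.le]
  · simp [h]

open scoped Classical in
/-- The number of ordered adjacent pairs is twice the number of edges
(`SimpleGraph.sum_degrees_eq_twice_card_edges`). -/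
theorem sum_adj_one (c : ℕ) :
    ∑ v : V, ∑ _u ∈ Finset.univ.filter (fun u => G.Adj v u), c = c * (2 * Nat.card G.edgeSet) := by
  have h1 : ∀ v : V, (∑ _u ∈ Finset.univ.filter (fun u => G.Adj v u), c) = G.degree v * c := by
    intro v
    rw [Finset.sum_const, smul_eq_mul, ← SimpleGraph.card_neighborFinset_eq_degree,
      SimpleGraph.neighborFinset_eq_filter]
  simp only [h1]
  rw [← Finset.sum_mul, SimpleGraph.sum_degrees_eq_twice_card_edges, mul_comm,
    Nat.card_eq_fintype_card, SimpleGraph.edgeFinset_card]

end Pool.Agent.HTE
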