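import Pool.Agent.HTE.C2
import Pool.Agent.HTE.C5
import Pool.Agent.HTE.C7
import Pool.Agent.HTE.C8
import Pool.Agent.HTE.C9

set_option autoImplicit false

namespace Pool.Agent.HTE

open Module

variable {V : Type} [Fintype V] {G : SimpleGraph V}

/-- **The bound `dim D ≤ 2|E|/3`** (no vertex of degree 1).

Proof. For every injective `r : V → ℕ`: `3 finrank (im v) ≤ ∑_{u ∈ N(v), r u < r v}
(T r v u + T r u v)` by `Sys.im_le1` + `Sys.im_le2`; summing over `v` with `Sys.finrank_D_le` and
`sum_pairs`: `3 k ≤ ∑_v ∑_{u ∈ N(v)} T r v u`. Apply this to `r` (from `Fintype.equivFin V`,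
`r v = (Fintype.equivFin V v : ℕ)`) and to the reversed order `r' v = n - r v`
(`n = Fintype.card V`, `r v < n`, so `r'` is injective and `r' x < r' u` iff `r u < r x`), and add:
`6 k ≤ ∑_v ∑_{u ∈ N(v)} (T r v u + T r' v u) ≤ ∑_v ∑_{u ∈ N(v)} 2 = 4 |E|` by `Sys.I_add`
(`P = {x | r x < r u}`, `Q = {x | r' x < r' u}` are disjoint) and `sum_adj_one`. -/
theorem Sys.three_k (S : Sys G) (hd : ∀ v u, G.Adj v u → ∃ u', u' ≠ u ∧ G.Adj v u') :
    3 * finrank (ZMod 2) S.D ≤ 2 * Nat.card G.edgeSet := by
  classical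
  have key : ∀ r : V → ℕ, Function.Injective r → 3 * finrank (ZMod 2) S.D ≤
      ∑ v, ∑ u ∈ Finset.univ.filter (fun u => G.Adj v u), S.T r v u := by
    intro r hr
    rw [← sum_pairs r hr (fun v u => S.T r v u)]
    refine (Nat.mul_le_mul_left 3 (S.finrank_D_le r hr)).trans ?_
    rw [Finset.mul_sum]
    apply Finset.sum_le_sum
    intro v _
    rw [Finset.sum_add_distrib]
    have h1 := S.im_le1 r hr v
    have h2 := S.im_le2 r hr v (hd v)
    omega
  set r : V → ℕ := fun v => (Fintype.equivFin V v : ℕ) with hrdef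
  have hlt : ∀ v, r v < Fintype.card V := fun v => (Fintype.equivFin V v).2
  have hr : Function.Injective r := fun x y h =>
    (Fintype.equivFin V).injective (Fin.ext h)
  set r' : V → ℕ := fun v => Fintype.card V - r v with hr'def
  have hr' : Function.Injective r' := by
    intro x y h
    apply hr
    have h1 := hlt x
    have h2 := hlt y
    simp only [hr'def] at h
    omega
  have h1 := key r hr
  have h2 := key r' hr'
  have h3 : ∑ v, ∑ u ∈ Finset.univ.filter (fun u => G.Adj v u), S.T r v u +
      ∑ v, ∑ u ∈ Finset.univ.filter (fun u => G.Adj v u), S.T r' v u ≤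
      ∑ v : V, ∑ _u ∈ Finset.univ.filter (fun u => G.Adj v u), 2 := by
    rw [← Finset.sum_add_distrib]
    apply Finset.sum_le_sum
    intro v _
    rw [← Finset.sum_add_distrib]
    apply Finset.sum_le_sum
    intro u _
    apply S.I_add v u
    intro x hx _ h4 h5
    have h6 := hlt x
    have h7 := hlt u
    simp only [hr'def] at h5
    omega
  rw [sum_adj_one] at h3
  omega

end Pool.Agent.HTE
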