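import Pool.Agent.HTE.C2
import Pool.Agent.HTE.C5
import Pool.Agent.HTE.C7
import Pool.Agent.HTE.C8
import Pool.Agent.HTE.C9

set_option autoImplicit false

namespace Pool.Agent.HTE

open Module

variable {V : Type} [Fintype V] {G : SimpleGraph V}

open scoped Classical in
/-- The bound for one order in the bipartite case: if all vertices with `f = false` come before all
vertices with `f = true`, then `2 k ≤ ∑_{v, f v = true} ∑_{u ∈ N(v)} T r u v`.
Proof: by `Sys.finrank_D_le` `k ≤ ∑ v, finrank (im v)`. If `f v = false`, then all neighbours of
`v` have `f = true` and come after `v`, so `im v = ⊥` by `Sys.im_supp` (all words vanish), finrank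
`0`. If `f v = true`, all neighbours come before `v`, so the filter in `Sys.im_le2` is
`{u | G.Adj v u}`. -/
theorem Sys.bip_one (S : Sys G) (hd : ∀ v u, G.Adj v u → ∃ u', u' ≠ u ∧ G.Adj v u')
    (f : V → Bool) (hf : ∀ u v, G.Adj u v → f u ≠ f v)
    (r : V → ℕ) (hr : Function.Injective r)
    (hrf : ∀ x y, f x = false → f y = true → r x < r y) :
    2 * finrank (ZMod 2) S.D ≤
      ∑ v ∈ Finset.univ.filter (fun v => f v = true),
        ∑ u ∈ Finset.univ.filter (fun u => G.Adj v u), S.T r u v := by
  refine (Nat.mul_le_mul_left 2 (S.finrank_D_le r hr)).trans ?_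
  rw [Finset.mul_sum, Finset.sum_filter]
  apply Finset.sum_le_sum
  intro v _
  by_cases hv : f v = true
  · rw [if_pos hv]
    have h1 := S.im_le2 r hr v (hd v)
    have h2 : Finset.univ.filter (fun u => G.Adj v u ∧ r u < r v) =
        Finset.univ.filter (fun u => G.Adj v u) := by
      apply Finset.filter_congr
      intro u _
      constructor
      · exact fun h => h.1
      · intro h
        refine ⟨h, hrf u v ?_ hv⟩
        have h3 := hf v u h
        rw [hv] at h3
        cases hfu : f u
        · rfl
        · rw [hfu] at h3; exact absurd rfl h3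
    rw [h2] at h1
    exact h1
  · rw [if_neg hv]
    have hvf : f v = false := by
      cases hfv : f v
      · rfl
      · exact absurd hfv hv
    have h1 : S.im r v = ⊥ := by
      rw [eq_bot_iff]
      intro c hc
      rw [Submodule.mem_bot]
      ext1 u
      apply S.im_supp r hr v c hc u
      rintro ⟨h2, h3⟩
      have h4 : f u = true := by
        have h5 := hf v u h2
        rw [hvf] at h5
        cases hfu : f u
        · rw [hfu] at h5; exact absurd rfl h5
        · rfl
      have h6 := hrf v u hvf h4
      omega
    rw [h1, finrank_bot, mul_zero]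

/-- **The bound `dim D ≤ |E|/2`** for bipartite `G` (no vertex of degree 1).

Proof. Let `n = Fintype.card V`, `e v = (Fintype.equivFin V v : ℕ) < n`. Apply `Sys.bip_one` to
`r v = e v` if `f v = false`, `r v = n + e v` if `f v = true`, and to
`r' v = e v` if `f v = false`, `r' v = 2 * n - e v` if `f v = true`
(both are injective, first class before the second), and add:
`4 k ≤ ∑_{v, f v = true} ∑_{u ∈ N(v)} (T r u v + T r' u v) ≤ ∑_{v, f v = true} ∑_{u ∈ N(v)} 2
= 2 |E|`. Here `T r u v + T r' u v ≤ 2` is `Sys.I_add` for the vertex `u` and the leg `v`: the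
neighbours `x ≠ v` of `u` have `f x = true` like `v`, and `r x < r v`, `r' x < r' v` exclude each
other. The last equality: each edge has exactly one end with `f = true`; e.g. from
`sum_adj_one`: `∑_v ∑_{u ∈ N(v)} 1 = 2 |E|` splits into the parts `f v = true`, `f v = false`, and
these are equal by swapping the sums (`f u = false` for the neighbours of `v` with
`f v = true`). -/
theorem Sys.two_k (S : Sys G) (hd : ∀ v u, G.Adj v u → ∃ u', u' ≠ u ∧ G.Adj v u')
    (f : V → Bool) (hf : ∀ u v, G.Adj u v → f u ≠ f v) :
    2 * finrank (ZMod 2) S.D ≤ Nat.card G.edgeSet := by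
  classical
  set e : V → ℕ := fun v => (Fintype.equivFin V v : ℕ) with hedef
  have hlt : ∀ v, e v < Fintype.card V := fun v => (Fintype.equivFin V v).2
  have he : Function.Injective e := fun x y h =>
    (Fintype.equivFin V).injective (Fin.ext h)
  set n := Fintype.card V with hn
  have hcase : ∀ v, f v = true ∨ f v = false := fun v => by cases f v <;> simp
  have hneg : ∀ u v, G.Adj v u → f v = true → f u = false := by
    intro u v h hv
    rcases hcase u with h1 | h1
    · exact absurd (hv.trans h1.symm) (hf v u h)
    · exact h1
  have hpos : ∀ u v, G.Adj v u → f v = false → f u = true := by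
    intro u v h hv
    rcases hcase u with h1 | h1
    · exact h1
    · exact absurd (hv.trans h1.symm) (hf v u h)
  let r : V → ℕ := fun v => if f v = true then n + e v else e v
  let r' : V → ℕ := fun v => if f v = true then 2 * n - e v else e v
  have r_t : ∀ v, f v = true → r v = n + e v := fun v h => if_pos h
  have r_f : ∀ v, f v = false → r v = e v := fun v h => if_neg (by rw [h]; decide)
  have r'_t : ∀ v, f v = true → r' v = 2 * n - e v := fun v h => if_pos h
  have r'_f : ∀ v, f v = false → r' v = e v := fun v h => if_neg (by rw [h]; decide)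
  have hr : Function.Injective r := by
    intro x y h
    apply he
    have h1 := hlt x
    have h2 := hlt y
    rcases hcase x with hx | hx <;> rcases hcase y with hy | hy
    · rw [r_t x hx, r_t y hy] at h; omega
    · rw [r_t x hx, r_f y hy] at h; omega
    · rw [r_f x hx, r_t y hy] at h; omega
    · rw [r_f x hx, r_f y hy] at h; omega
  have hr' : Function.Injective r' := by
    intro x y h
    apply he
    have h1 := hlt x
    have h2 := hlt y
    rcases hcase x with hx | hx <;> rcases hcase y with hy | hy
    · rw [r'_t x hx, r'_t y hy] at h; omega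
    · rw [r'_t x hx, r'_f y hy] at h; omega
    · rw [r'_f x hx, r'_t y hy] at h; omega
    · rw [r'_f x hx, r'_f y hy] at h; omega
  have h1 := S.bip_one hd f hf r hr (by
    intro x y hx hy
    rw [r_f x hx, r_t y hy]
    have := hlt x
    omega)
  have h2 := S.bip_one hd f hf r' hr' (by
    intro x y hx hy
    rw [r'_f x hx, r'_t y hy]
    have := hlt x
    have := hlt y
    omega)
  have h3 : ∑ v ∈ Finset.univ.filter (fun v => f v = true),
        ∑ u ∈ Finset.univ.filter (fun u => G.Adj v u), S.T r u v +
      ∑ v ∈ Finset.univ.filter (fun v => f v = true),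
        ∑ u ∈ Finset.univ.filter (fun u => G.Adj v u), S.T r' u v ≤
      ∑ v ∈ Finset.univ.filter (fun v => f v = true),
        ∑ _u ∈ Finset.univ.filter (fun u => G.Adj v u), 2 := by
    rw [← Finset.sum_add_distrib]
    apply Finset.sum_le_sum
    intro v hv
    have hv := (Finset.mem_filter.1 hv).2
    rw [← Finset.sum_add_distrib]
    apply Finset.sum_le_sum
    intro u hu
    have hu := (Finset.mem_filter.1 hu).2
    apply S.I_add u v
    intro x hx hux h4 h5
    have hfx := hpos x u hux (hneg u v hu hv)
    rw [r_t x hfx, r_t v hv] at h4
    rw [r'_t x hfx, r'_t v hv] at h5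
    have := hlt x
    have := hlt v
    omega
  have h4 : ∑ v ∈ Finset.univ.filter (fun v => f v = true),
      ∑ _u ∈ Finset.univ.filter (fun u => G.Adj v u), 2 = 2 * Nat.card G.edgeSet := by
    have h5 := sum_adj_one (G := G) 2
    simp only [Finset.sum_filter] at h5 ⊢
    have h6 : ∑ v : V, (if f v = true then ∑ u : V, (if G.Adj v u then 2 else 0) else 0) =
        ∑ v : V, (if f v = true then 0 else ∑ u : V, (if G.Adj v u then 2 else 0)) := by
      have h7 : ∀ v : V, (if f v = true then ∑ u : V, (if G.Adj v u then 2 else 0) else 0) =
          ∑ u : V, (if f v = true ∧ G.Adj v u then 2 else 0) := by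
        intro v
        by_cases hv : f v = true
        · simp [hv]
        · simp [hv]
      have h8 : ∀ v : V, (if f v = true then 0 else ∑ u : V, (if G.Adj v u then 2 else 0)) =
          ∑ u : V, (if ¬ f v = true ∧ G.Adj v u then 2 else 0) := by
        intro v
        by_cases hv : f v = true
        · simp [hv]
        · simp [hv]
      simp only [h7, h8]
      rw [Finset.sum_comm]
      apply Finset.sum_congr rfl
      intro v _
      apply Finset.sum_congr rfl
      intro u _
      apply if_congr _ rfl rfl
      constructor
      · rintro ⟨h9, h10⟩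
        refine ⟨?_, h10.symm⟩
        rw [hneg v u h10 h9]
        decide
      · rintro ⟨h9, h10⟩
        refine ⟨?_, h10.symm⟩
        rcases hcase v with h11 | h11
        · exact absurd h11 h9
        · exact hpos u v h10 h11
    have h9 : ∑ v : V, ∑ u : V, (if G.Adj v u then 2 else 0) =
        ∑ v : V, (if f v = true then ∑ u : V, (if G.Adj v u then 2 else 0) else 0) +
        ∑ v : V, (if f v = true then 0 else ∑ u : V, (if G.Adj v u then 2 else 0)) := by
      rw [← Finset.sum_add_distrib]
      apply Finset.sum_congr rfl
      intro v _
      by_cases hv : f v = true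
      · simp [hv]
      · simp [hv]
    omega
  omega

end Pool.Agent.HTE
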