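import Pool.Agent.HTE.Core

set_option autoImplicit false

namespace Pool.Agent.HTE

open Module

variable {V : Type} [Fintype V] {G : SimpleGraph V}

open scoped Classical in
/-- replace the value on the leg `p` by zero -/
private noncomputable def c12_upd (p : V) : (V → Bool → ZMod 2) →ₗ[ZMod 2] (V → Bool → ZMod 2) where
  toFun c := Function.update c p 0
  map_add' c c' := by
    ext x s
    by_cases hx : x = p
    · subst hx; simp
    · simp [Function.update_of_ne hx]
  map_smul' a c := by
    ext x s
    by_cases hx : x = p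
    · subst hx; simp
    · simp [Function.update_of_ne hx]

omit [Fintype V] in
private theorem c12_upd_self (p : V) (c : V → Bool → ZMod 2) : c12_upd p c p = 0 := by
  simp [c12_upd]

omit [Fintype V] in
private theorem c12_upd_ne (p : V) (c : V → Bool → ZMod 2) (x : V) (hx : x ≠ p) :
    c12_upd p c x = c x := by
  simp [c12_upd, hx]

/-- the words of `C u` constant on the leg `p` -/
private def c12_const (S : Sys G) (u p : V) : Submodule (ZMod 2) (V → Bool → ZMod 2) where
  carrier := {c | c ∈ S.C u ∧ c p false = c p true}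
  add_mem' := by
    rintro c c' ⟨h1, h2⟩ ⟨h1', h2'⟩
    refine ⟨(S.C u).add_mem h1 h1', ?_⟩
    simp only [Pi.add_apply, h2, h2']
  zero_mem' := ⟨(S.C u).zero_mem, rfl⟩
  smul_mem' := by
    rintro a c ⟨h1, h2⟩
    refine ⟨(S.C u).smul_mem a h1, ?_⟩
    simp only [Pi.smul_apply, h2]

open scoped Classical in
/-- the new codes -/
private noncomputable def c12_C (S : Sys G) (p u v : V) :
    Submodule (ZMod 2) (V → Bool → ZMod 2) :=
  if v = p then ⊥ else if v = u then (c12_const S u p).map (c12_upd p) else S.C v

private theorem c12_C_p (S : Sys G) (p u : V) : c12_C S p u p = ⊥ := by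
  simp [c12_C]

private theorem c12_C_u (S : Sys G) (p u : V) (h : u ≠ p) :
    c12_C S p u u = (c12_const S u p).map (c12_upd p) := by
  simp [c12_C, h]

private theorem c12_C_v (S : Sys G) (p u v : V) (h : v ≠ p) (h' : v ≠ u) :
    c12_C S p u v = S.C v := by
  simp [c12_C, h, h']

omit [Fintype V] in
private theorem c12_adj_u (p u x : V) (hpu : G.Adj p u) (hxp : x ≠ p) (hx : G.Adj u x) :
    (G.deleteEdges {s(p, u)}).Adj u x := by
  rw [SimpleGraph.deleteEdges_adj]
  refine ⟨hx, ?_⟩
  rw [Set.mem_singleton_iff, Sym2.eq_iff]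
  rintro (⟨h1, h2⟩ | ⟨h1, h2⟩)
  · exact hpu.ne h1.symm
  · exact hxp h2

omit [Fintype V] in
private theorem c12_adj_v (p u v x : V) (hp : v ≠ p) (hu : v ≠ u) (hx : G.Adj v x) :
    (G.deleteEdges {s(p, u)}).Adj v x := by
  rw [SimpleGraph.deleteEdges_adj]
  refine ⟨hx, ?_⟩
  rw [Set.mem_singleton_iff, Sym2.eq_iff]
  rintro (⟨h1, h2⟩ | ⟨h1, h2⟩)
  · exact hp h1
  · exact hu h1

private theorem c12_zmod (a b : ZMod 2) : a * b + a * b = 0 := by
  revert a b; decide

private theorem c12_sq (a b : ZMod 2) (h : a * a + b * b = 0) : a = b := by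
  revert a b; decide

/-- the new system -/
private noncomputable def c12_S (S : Sys G) (p u : V) (hpu : G.Adj p u) :
    Sys (G.deleteEdges {s(p, u)}) where
  C v := c12_C S p u v
  supp := by
    intro v c hc x hx
    by_cases hvp : v = p
    · subst hvp
      rw [c12_C_p, Submodule.mem_bot] at hc
      rw [hc]; rfl
    by_cases hvu : v = u
    · subst hvu
      rw [c12_C_u S p v hvp] at hc
      obtain ⟨c0, ⟨h1, h2⟩, rfl⟩ := hc
      by_cases hxp : x = p
      · subst hxp; exact c12_upd_self _ _
      · rw [c12_upd_ne _ _ _ hxp]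
        apply S.supp v c0 h1 x
        intro h
        exact hx (c12_adj_u p v x hpu hxp h)
    · rw [c12_C_v S p u v hvp hvu] at hc
      apply S.supp v c hc x
      intro h
      exact hx (c12_adj_v p u v x hvp hvu h)
  orth := by
    intro v c c' hc hc'
    by_cases hvp : v = p
    · subst hvp
      rw [c12_C_p, Submodule.mem_bot] at hc
      rw [hc]; simp
    by_cases hvu : v = u
    · subst hvu
      rw [c12_C_u S p v hvp] at hc hc'
      obtain ⟨c0, ⟨h1, h2⟩, rfl⟩ := hc
      obtain ⟨c1, ⟨h3, h4⟩, rfl⟩ := hc'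
      rw [← S.orth v c0 c1 h1 h3]
      apply Finset.sum_congr rfl
      intro x _
      by_cases hxp : x = p
      · subst hxp
        rw [c12_upd_self]
        simp only [Fintype.sum_bool, Pi.zero_apply, zero_mul, add_zero]
        rw [h2, h4, c12_zmod]
      · rw [c12_upd_ne _ _ _ hxp, c12_upd_ne _ _ _ hxp]
    · rw [c12_C_v S p u v hvp hvu] at hc hc'
      exact S.orth v c c' hc hc'
  tran := by
    intro v c hc hcon
    by_cases hvp : v = p
    · subst hvp
      rw [c12_C_p, Submodule.mem_bot] at hc
      exact Or.inl hc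
    by_cases hvu : v = u
    · subst hvu
      rw [c12_C_u S p v hvp] at hc
      obtain ⟨c0, ⟨h1, h2⟩, rfl⟩ := hc
      have hcon0 : ∀ x, c0 x false = c0 x true := by
        intro x
        by_cases hxp : x = p
        · rw [hxp]; exact h2
        · have := hcon x
          rwa [c12_upd_ne _ _ _ hxp] at this
      rcases S.tran v c0 h1 hcon0 with h | h
      · left; rw [h]; exact (c12_upd p).map_zero
      · right
        intro x hx
        rw [SimpleGraph.deleteEdges_adj, Set.mem_singleton_iff] at hx
        have hxp : x ≠ p := by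
          rintro rfl
          exact hx.2 Sym2.eq_swap
        rw [c12_upd_ne _ _ _ hxp]
        exact h x hx.1
    · rw [c12_C_v S p u v hvp hvu] at hc
      rcases S.tran v c hc hcon with h | h
      · exact Or.inl h
      · right
        intro x hx
        exact h x ((SimpleGraph.deleteEdges_adj.1 hx).1)

open scoped Classical in
/-- the map on words -/
private noncomputable def c12_T (p u : V) :
    (V → V → Bool → ZMod 2) →ₗ[ZMod 2] (V → V → Bool → ZMod 2) where
  toFun W := fun x y => if (x = p ∧ y = u) ∨ (x = u ∧ y = p) then 0 else W x y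
  map_add' W W' := by
    ext x y s
    by_cases h : (x = p ∧ y = u) ∨ (x = u ∧ y = p)
    · simp [h]
    · simp [h]
  map_smul' a W := by
    ext x y s
    by_cases h : (x = p ∧ y = u) ∨ (x = u ∧ y = p)
    · simp [h]
    · simp [h]

omit [Fintype V] in
private theorem c12_T_pos (p u : V) (W : V → V → Bool → ZMod 2) (x y : V)
    (h : (x = p ∧ y = u) ∨ (x = u ∧ y = p)) : c12_T p u W x y = 0 := by
  simp only [c12_T, LinearMap.coe_mk, AddHom.coe_mk]
  rw [if_pos h]

omit [Fintype V] in
private theorem c12_T_neg (p u : V) (W : V → V → Bool → ZMod 2) (x y : V)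
    (h : ¬ ((x = p ∧ y = u) ∨ (x = u ∧ y = p))) : c12_T p u W x y = W x y := by
  simp only [c12_T, LinearMap.coe_mk, AddHom.coe_mk]
  rw [if_neg h]

private theorem c12_const_pu (S : Sys G) (p u : V) (hp : ∀ y, G.Adj p y → y = u)
    (W : V → V → Bool → ZMod 2) (hW : W ∈ S.D) : W p u false = W p u true := by
  have h := S.orth p (W p) (W p) (hW.1 p) (hW.1 p)
  rw [Finset.sum_eq_single u] at h
  · rw [Fintype.sum_bool] at h
    exact (c12_sq _ _ h).symm
  · intro x _ hx
    have : W p x = 0 := S.supp p (W p) (hW.1 p) x (fun h => hx (hp x h))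
    simp [this]
  · intro h; exact absurd (Finset.mem_univ u) h

private theorem c12_T_mem (S : Sys G) (p u : V) (hpu : G.Adj p u) (hp : ∀ y, G.Adj p y → y = u)
    (W : V → V → Bool → ZMod 2) (hW : W ∈ S.D) : c12_T p u W ∈ (c12_S S p u hpu).D := by
  have hup : u ≠ p := hpu.ne.symm
  refine ⟨?_, ?_⟩
  · intro v
    change c12_T p u W v ∈ c12_C S p u v
    by_cases hvp : v = p
    · subst hvp
      rw [c12_C_p, Submodule.mem_bot]
      ext1 x
      by_cases hx : x = u
      · exact c12_T_pos _ _ _ _ _ (Or.inl ⟨rfl, hx⟩)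
      · rw [c12_T_neg]
        · exact S.supp v (W v) (hW.1 v) x (fun h => hx (hp x h))
        · rintro (⟨_, h⟩ | ⟨h, _⟩)
          · exact hx h
          · exact hup h.symm
    by_cases hvu : v = u
    · subst hvu
      rw [c12_C_u S p v hvp]
      refine ⟨W v, ⟨hW.1 v, ?_⟩, ?_⟩
      · rw [hW.2 v p]
        exact c12_const_pu S p v hp W hW
      · ext1 x
        by_cases hx : x = p
        · subst hx
          rw [c12_upd_self, c12_T_pos]
          exact Or.inr ⟨rfl, rfl⟩
        · rw [c12_upd_ne _ _ _ hx, c12_T_neg]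
          rintro (⟨h, _⟩ | ⟨_, h⟩)
          · exact hvp h
          · exact hx h
    · rw [c12_C_v S p u v hvp hvu]
      have : c12_T p u W v = W v := by
        ext1 x
        rw [c12_T_neg]
        rintro (⟨h, _⟩ | ⟨h, _⟩)
        · exact hvp h
        · exact hvu h
      rw [this]
      exact hW.1 v
  · intro x y
    by_cases h : (x = p ∧ y = u) ∨ (x = u ∧ y = p)
    · rw [c12_T_pos _ _ _ _ _ h, c12_T_pos]
      rcases h with ⟨h1, h2⟩ | ⟨h1, h2⟩
      · exact Or.inr ⟨h2, h1⟩
      · exact Or.inl ⟨h2, h1⟩
    · rw [c12_T_neg _ _ _ _ _ h, c12_T_neg]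
      · exact hW.2 x y
      · rintro (⟨h1, h2⟩ | ⟨h1, h2⟩)
        · exact h (Or.inr ⟨h2, h1⟩)
        · exact h (Or.inl ⟨h2, h1⟩)

omit [Fintype V] in
/-- a word killed by the map is supported on the edge -/
private theorem c12_ker (p u : V) (W : V → V → Bool → ZMod 2) (h : c12_T p u W = 0) (x y : V)
    (hxy : ¬ ((x = p ∧ y = u) ∨ (x = u ∧ y = p))) : W x y = 0 := by
  rw [← c12_T_neg p u W x y hxy, h]; rfl

private theorem c12_ker0 (S : Sys G) (p u : V) (W : V → V → Bool → ZMod 2) (hW : W ∈ S.D)
    (h : c12_T p u W = 0) (h0 : W p u = 0) : W = 0 := by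
  ext1 x
  ext1 y
  by_cases hxy : (x = p ∧ y = u) ∨ (x = u ∧ y = p)
  · rcases hxy with ⟨rfl, rfl⟩ | ⟨rfl, rfl⟩
    · exact h0
    · rw [hW.2]; exact h0
  · exact c12_ker p u W h x y hxy

/-- Removing a pendant edge `p u` whose end `u` has another neighbour does not make `dim D`
smaller.

Proof. `G' = G.deleteEdges {s(p, u)}`: `G'.Adj x y` iff `G.Adj x y` and not
(`x = p, y = u` or `x = u, y = p`). New codes:
`C' p = ⊥`; `C' u` = the image of `{c ∈ C u | c p false = c p true}` under the map that replaces
the value on the leg `p` by `0` (i.e. the words `Function.update c p 0`); `C' v = C v` for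
`v ≠ p, u`. Checks: `supp`: clear (`p` is isolated in `G'`: its only neighbour in `G` is `u`; for
`v ≠ p, u` the neighbours in `G` and `G'` agree; a word of `C' u` vanishes at `p`).
`orth` at `u`: the term of the leg `p` in `∑ c x s * c' x s` for `c, c'` constant on `p` is
`2 * (c p false * c' p false) = 0`, so removing it does not change the sum. `tran` at `u`: if
`Function.update c p 0` is constant on all legs then so is `c`, so `c = 0` (then the new word is
`0`) or `c x = 1` for all `G`-neighbours `x` of `u` (then the new word is `1` on all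
`G'`-neighbours of `u`, which are `≠ p`). At `p`: the word is `0`.

Map `S.D → S'.D`: `W ↦ W'` with `W' x y = W x y` except `W' p u = W' u p = 0`. It lands in `D'`:
`W p` is supported on the leg `u` (`S.supp`, `hp`), and `S.orth p (W p) (W p)` says
`(W p u false)^2 + (W p u true)^2 = 0`, so `W p u false = W p u true` (`ZMod 2`), hence
`W u p = W p u` is constant; `W' p = 0` (all legs other than `u` are zero);
`W' u = Function.update (W u) p 0 ∈ C' u`; `W' v = W v` for `v ≠ p, u`.
It is injective: if `W' = 0` then `W x y = 0` except possibly `W p u = W u p`, so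
`W u` is constant on all legs; by `S.tran u` it is `0` or `1` on all neighbours; the second is
impossible since `W u x = 0` for the neighbour `x ≠ p`. So `W u p = 0` and `W = 0`.
Use `LinearMap.finrank_le_finrank_of_injective` (after `LinearMap.codRestrict`). -/
theorem Sys.pend_step (S : Sys G) (p u x : V) (hpu : G.Adj p u) (hp : ∀ y, G.Adj p y → y = u)
    (hx : G.Adj u x) (hxp : x ≠ p) :
    ∃ S' : Sys (G.deleteEdges {s(p, u)}), finrank (ZMod 2) S.D ≤ finrank (ZMod 2) S'.D := by
  refine ⟨c12_S S p u hpu, ?_⟩
  have hup : u ≠ p := hpu.ne.symm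
  apply LinearMap.finrank_le_finrank_of_injective
    (f := (c12_T p u).restrict (fun W hW => c12_T_mem S p u hpu hp W hW))
  rw [← LinearMap.ker_eq_bot, LinearMap.ker_eq_bot']
  rintro ⟨W, hW⟩ h
  have hT : c12_T p u W = 0 := congrArg Subtype.val h
  have hux : W u x = 0 := by
    apply c12_ker p u W hT
    rintro (⟨h1, _⟩ | ⟨_, h1⟩)
    · exact hup h1
    · exact hxp h1
  have hcon : ∀ y, W u y false = W u y true := by
    intro y
    by_cases hy : y = p
    · subst hy
      rw [hW.2 u y]
      exact c12_const_pu S y u hp W hW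
    · have : W u y = 0 := by
        apply c12_ker p u W hT
        rintro (⟨h1, _⟩ | ⟨_, h1⟩)
        · exact hup h1
        · exact hy h1
      rw [this]; rfl
  have h0 : W p u = 0 := by
    rcases S.tran u (W u) (hW.1 u) hcon with h1 | h1
    · rw [hW.2 p u, h1]; rfl
    · exfalso
      have h2 := h1 x hx
      rw [hux] at h2
      have h3 := congrFun h2 true
      exact absurd h3 (by decide)
  have hW0 := c12_ker0 S p u W hW hT h0
  exact Subtype.ext hW0

/-- Removing an isolated edge `p u` makes `dim D` smaller by at most one.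

Proof. As in `Sys.pend_step` with `C' p = ⊥`, `C' u = ⊥`, `C' v = C v` for `v ≠ p, u`. The map
`W ↦ W'` (`W' = W` except `W' p u = W' u p = 0`) `S.D → S'.D` has kernel of dimension `≤ 1`: a word
`W` of the kernel is determined by `W p u = W u p` (everything else is zero), which is constant
(`W p u false = W p u true`, from `S.orth p (W p) (W p)`), so the kernel injects into `F`
(`W ↦ W p u false`). So `finrank S.D = finrank range + finrank ker ≤ finrank S'.D + 1`. -/
theorem Sys.pend_iso (S : Sys G) (p u : V) (hpu : G.Adj p u) (hp : ∀ y, G.Adj p y → y = u)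
    (hu : ∀ y, G.Adj u y → y = p) :
    ∃ S' : Sys (G.deleteEdges {s(p, u)}), finrank (ZMod 2) S.D ≤ finrank (ZMod 2) S'.D + 1 := by
  refine ⟨c12_S S p u hpu, ?_⟩
  set f := (c12_T p u).restrict (fun W hW => c12_T_mem S p u hpu hp W hW) with hf
  have h1 := LinearMap.finrank_range_add_finrank_ker f
  have h2 : finrank (ZMod 2) (LinearMap.range f) ≤ finrank (ZMod 2) (c12_S S p u hpu).D :=
    Submodule.finrank_le _
  have h3 : finrank (ZMod 2) (LinearMap.ker f) ≤ 1 := by
    have h4 : finrank (ZMod 2) (LinearMap.ker f) ≤ finrank (ZMod 2) (ZMod 2) := by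
      let g : LinearMap.ker f →ₗ[ZMod 2] ZMod 2 :=
        { toFun := fun W => W.1.1 p u false
          map_add' := fun _ _ => rfl
          map_smul' := fun _ _ => rfl }
      apply LinearMap.finrank_le_finrank_of_injective (f := g)
      rw [← LinearMap.ker_eq_bot, LinearMap.ker_eq_bot']
      rintro ⟨⟨W, hW⟩, hk⟩ h
      have hT : c12_T p u W = 0 := congrArg Subtype.val (LinearMap.mem_ker.1 hk)
      have h0f : W p u false = 0 := h
      have h0 : W p u = 0 := by
        ext s
        cases s
        · exact h0f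
        · rw [← c12_const_pu S p u hp W hW]; exact h0f
      have hW0 := c12_ker0 S p u W hW hT h0
      exact Subtype.ext (Subtype.ext hW0)
    rwa [Module.finrank_self] at h4
  omega

end Pool.Agent.HTE
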