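import Pool.Agent.HTE.C10
import Pool.Agent.HTE.C11
import Pool.Agent.HTE.C12

set_option autoImplicit false

namespace Pool.Agent.HTE

open Module

variable {V : Type} [Fintype V] {G : SimpleGraph V}

/-- The vertices of the components `K_2` of `G`. -/
def isoPair (G : SimpleGraph V) : Set V :=
  {v | ∃ u, G.Adj v u ∧ (∀ x, G.Adj v x → x = u) ∧ ∀ x, G.Adj u x → x = v}

omit [Fintype V] in
private theorem c13_adj (p u v x : V) (hp : v ≠ p) (hu : v ≠ u) (hx : G.Adj v x) :
    (G.deleteEdges {s(p, u)}).Adj v x := by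
  rw [SimpleGraph.deleteEdges_adj]
  refine ⟨hx, ?_⟩
  rw [Set.mem_singleton_iff, Sym2.eq_iff]
  rintro (⟨h1, h2⟩ | ⟨h1, h2⟩)
  · exact hp h1
  · exact hu h1

omit [Fintype V] in
private theorem c13_p (p u : V) (hp : ∀ y, G.Adj p y → y = u) (x : V) :
    ¬ (G.deleteEdges {s(p, u)}).Adj p x := by
  intro h
  rw [SimpleGraph.deleteEdges_adj, Set.mem_singleton_iff] at h
  have h1 := hp x h.1
  subst h1
  exact h.2 rfl

omit [Fintype V] in
private theorem c13_u (p u : V) (hp : ∀ y, G.Adj u y → y = p) (x : V) :
    ¬ (G.deleteEdges {s(p, u)}).Adj u x := by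
  intro h
  rw [SimpleGraph.deleteEdges_adj, Set.mem_singleton_iff] at h
  have h1 := hp x h.1
  subst h1
  exact h.2 Sym2.eq_swap

private theorem c13_card (p u : V) (hpu : G.Adj p u) :
    Nat.card (G.deleteEdges {s(p, u)}).edgeSet + 1 = Nat.card G.edgeSet := by
  rw [Nat.card_coe_set_eq, Nat.card_coe_set_eq, SimpleGraph.edgeSet_deleteEdges]
  exact Set.ncard_sdiff_singleton_add_one hpu (Set.toFinite _)

/-- How the numbers change when the pendant edge `p u` is removed and `u` has another neighbour:
the number of edges drops by one and `isoPair` gets at most two new vertices.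
Proof: `p ∉ isoPair G'` (isolated in `G'`). If `v ∈ isoPair G'` and `v ≠ u`, and its partner is not
`u`, then `v` and its partner have the same neighbours in `G` and `G'` (the neighbourhoods of the
vertices `≠ p, u` do not change), so `v ∈ isoPair G`. So `isoPair G' ⊆ isoPair G ∪ {u, w}` where
`w` is the partner of `u` in `G'` (if `u` has a unique `G'`-neighbour `w`; otherwise `w = u`). -/
theorem isoPair_step (p u x : V) (hpu : G.Adj p u) (hp : ∀ y, G.Adj p y → y = u)
    (hx : G.Adj u x) (hxp : x ≠ p) :
    Nat.card (G.deleteEdges {s(p, u)}).edgeSet + 1 = Nat.card G.edgeSet ∧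
      (isoPair (G.deleteEdges {s(p, u)})).ncard ≤ (isoPair G).ncard + 2 := by
  refine ⟨c13_card p u hpu, ?_⟩
  obtain ⟨w, hw⟩ : ∃ w, ∀ v, (G.deleteEdges {s(p, u)}).Adj v u →
      v ∈ isoPair (G.deleteEdges {s(p, u)}) → (∀ y, (G.deleteEdges {s(p, u)}).Adj v y → y = u) →
      (∀ y, (G.deleteEdges {s(p, u)}).Adj u y → y = v) → v = w := by
    by_cases h : ∃ v, (G.deleteEdges {s(p, u)}).Adj u v
    · obtain ⟨v, hv⟩ := h
      exact ⟨v, fun v' _ _ _ h4 => (h4 v hv).symm⟩
    · exact ⟨u, fun v' h1 _ _ _ => absurd ⟨v', h1.symm⟩ h⟩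
  have hsub : isoPair (G.deleteEdges {s(p, u)}) ⊆ isoPair G ∪ {u, w} := by
    intro v hv
    by_cases hvu : v = u
    · right; left; exact hvu
    have hv0 := hv
    obtain ⟨z, h1, h2, h3⟩ := hv
    have hvp : v ≠ p := by
      rintro rfl
      exact c13_p v u hp z h1
    have hzp : z ≠ p := by
      rintro rfl
      exact c13_p z u hp v h1.symm
    by_cases hzu : z = u
    · subst hzu
      right; right
      exact hw v h1 hv0 h2 h3
    · left
      refine ⟨z, (SimpleGraph.deleteEdges_adj.1 h1).1, ?_, ?_⟩
      · intro y hy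
        exact h2 y (c13_adj p u v y hvp hvu hy)
      · intro y hy
        exact h3 y (c13_adj p u z y hzp hzu hy)
  calc (isoPair (G.deleteEdges {s(p, u)})).ncard ≤ (isoPair G ∪ {u, w}).ncard :=
        Set.ncard_le_ncard hsub (Set.toFinite _)
    _ ≤ (isoPair G).ncard + ({u, w} : Set V).ncard := Set.ncard_union_le _ _
    _ ≤ (isoPair G).ncard + 2 := by
        have := Set.ncard_insert_le u ({w} : Set V)
        rw [Set.ncard_singleton] at this
        omega

/-- If `p u` is an isolated edge: the number of edges drops by one, `isoPair` loses the two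
vertices `p`, `u` and nothing else changes (no other vertex is adjacent to `p` or `u`). -/
theorem isoPair_iso (p u : V) (hpu : G.Adj p u) (hp : ∀ y, G.Adj p y → y = u)
    (hu : ∀ y, G.Adj u y → y = p) :
    Nat.card (G.deleteEdges {s(p, u)}).edgeSet + 1 = Nat.card G.edgeSet ∧
      (isoPair (G.deleteEdges {s(p, u)})).ncard + 2 ≤ (isoPair G).ncard := by
  refine ⟨c13_card p u hpu, ?_⟩
  have hsub : isoPair (G.deleteEdges {s(p, u)}) ∪ {p, u} ⊆ isoPair G := by
    intro v hv
    rcases hv with ⟨z, h1, h2, h3⟩ | hv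
    · have hvp : v ≠ p := by
        rintro rfl
        exact c13_p v u hp z h1
      have hzp : z ≠ p := by
        rintro rfl
        exact c13_p z u hp v h1.symm
      have hvu : v ≠ u := by
        rintro rfl
        exact c13_u p v hu z h1
      have hzu : z ≠ u := by
        rintro rfl
        exact c13_u p z hu v h1.symm
      refine ⟨z, (SimpleGraph.deleteEdges_adj.1 h1).1, ?_, ?_⟩
      · intro y hy
        exact h2 y (c13_adj p u v y hvp hvu hy)
      · intro y hy
        exact h3 y (c13_adj p u z y hzp hzu hy)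
    · rcases hv with hv | hv
      · rw [hv]
        exact ⟨u, hpu, hp, hu⟩
      · rw [Set.mem_singleton_iff] at hv
        rw [hv]
        exact ⟨p, hpu.symm, hu, hp⟩
  have hdis : Disjoint (isoPair (G.deleteEdges {s(p, u)})) ({p, u} : Set V) := by
    rw [Set.disjoint_left]
    rintro v ⟨z, h1, h2, h3⟩ hv
    rcases hv with hv | hv
    · subst hv
      exact c13_p v u hp z h1
    · rw [Set.mem_singleton_iff] at hv
      subst hv
      exact c13_u p v hu z h1
  have h1 := Set.ncard_le_ncard hsub (Set.toFinite _)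
  rw [Set.ncard_union_eq hdis (Set.toFinite _) (Set.toFinite _), Set.ncard_pair hpu.ne] at h1
  exact h1

/-- The bound for arbitrary `G`: `6 k ≤ 4 |E| + |isoPair G|`.

Proof: strong induction on the number of edges (for all `G` and `S` at once). If no vertex has
degree one (for all adjacent `v u` there is another neighbour `u'` of `v`): `Sys.three_k`.
Otherwise there are `p u` with `G.Adj p u` and `∀ y, G.Adj p y → y = u`. If `u` has another
neighbour `x ≠ p`: `Sys.pend_step`, `isoPair_step` and the induction hypothesis give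
`6 k ≤ 6 k' ≤ 4 (|E| - 1) + |isoPair| + 2 ≤ 4 |E| + |isoPair|`. Otherwise `Sys.pend_iso`,
`isoPair_iso`: `6 k ≤ 6 k' + 6 ≤ 4 (|E| - 1) + |isoPair| - 2 + 6 = 4 |E| + |isoPair|`. -/
theorem Sys.three_k_gen (S : Sys G) :
    6 * finrank (ZMod 2) S.D ≤ 4 * Nat.card G.edgeSet + (isoPair G).ncard := by
  obtain ⟨n, hn⟩ : ∃ n, Nat.card G.edgeSet = n := ⟨_, rfl⟩
  induction n using Nat.strong_induction_on generalizing G with
  | _ n ih =>
    by_cases hd : ∀ v u, G.Adj v u → ∃ u', u' ≠ u ∧ G.Adj v u'
    · have := S.three_k hd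
      omega
    · push Not at hd
      obtain ⟨p, u, hpu, hd⟩ := hd
      have hp : ∀ y, G.Adj p y → y = u := by
        intro y hy
        by_contra h
        exact hd y h hy
      by_cases hx : ∃ x, G.Adj u x ∧ x ≠ p
      · obtain ⟨x, hx, hxp⟩ := hx
        obtain ⟨S', hS'⟩ := S.pend_step p u x hpu hp hx hxp
        obtain ⟨h1, h2⟩ := isoPair_step p u x hpu hp hx hxp
        have := ih (n - 1) (by omega) S' (by omega)
        omega
      · have hu : ∀ y, G.Adj u y → y = p := by
          intro y hy
          by_contra h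
          exact hx ⟨y, hy, h⟩
        obtain ⟨S', hS'⟩ := S.pend_iso p u hpu hp hu
        obtain ⟨h1, h2⟩ := isoPair_iso p u hpu hp hu
        have := ih (n - 1) (by omega) S' (by omega)
        omega

/-- The bound for arbitrary bipartite `G`: `4 k ≤ 2 |E| + |isoPair G|`.
Proof: as `Sys.three_k_gen` with `Sys.two_k`:
`4 k ≤ 4 k' ≤ 2 (|E| - 1) + |isoPair| + 2 = 2 |E| + |isoPair|` and
`4 k ≤ 4 k' + 4 ≤ 2 (|E| - 1) + |isoPair| - 2 + 4 = 2 |E| + |isoPair|`.
(`f` is also a colouring of `G.deleteEdges _`.) -/
theorem Sys.two_k_gen (S : Sys G) (f : V → Bool) (hf : ∀ u v, G.Adj u v → f u ≠ f v) :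
    4 * finrank (ZMod 2) S.D ≤ 2 * Nat.card G.edgeSet + (isoPair G).ncard := by
  obtain ⟨n, hn⟩ : ∃ n, Nat.card G.edgeSet = n := ⟨_, rfl⟩
  induction n using Nat.strong_induction_on generalizing G with
  | _ n ih =>
    by_cases hd : ∀ v u, G.Adj v u → ∃ u', u' ≠ u ∧ G.Adj v u'
    · have := S.two_k hd f hf
      omega
    · push Not at hd
      obtain ⟨p, u, hpu, hd⟩ := hd
      have hp : ∀ y, G.Adj p y → y = u := by
        intro y hy
        by_contra h
        exact hd y h hy
      have hf' : ∀ x y, (G.deleteEdges {s(p, u)}).Adj x y → f x ≠ f y := fun x y h =>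
        hf x y (SimpleGraph.deleteEdges_adj.1 h).1
      by_cases hx : ∃ x, G.Adj u x ∧ x ≠ p
      · obtain ⟨x, hx, hxp⟩ := hx
        obtain ⟨S', hS'⟩ := S.pend_step p u x hpu hp hx hxp
        obtain ⟨h1, h2⟩ := isoPair_step p u x hpu hp hx hxp
        have := ih (n - 1) (by omega) S' hf' (by omega)
        omega
      · have hu : ∀ y, G.Adj u y → y = p := by
          intro y hy
          by_contra h
          exact hx ⟨y, hy, h⟩
        obtain ⟨S', hS'⟩ := S.pend_iso p u hpu hp hu
        obtain ⟨h1, h2⟩ := isoPair_iso p u hpu hp hu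
        have := ih (n - 1) (by omega) S' hf' (by omega)
        omega

/-- A connected graph with at least three vertices has no component `K_2`.
Proof: if `v` and `u` are adjacent, and adjacent to nobody else, then the set `{v, u}` is closed
under adjacency, so every vertex reachable from `v` is in `{v, u}`: `card V ≤ 2`. -/
theorem isoPair_eq_empty (hG : G.Connected) (h3 : 3 ≤ Fintype.card V) : isoPair G = ∅ := by
  rw [Set.eq_empty_iff_forall_notMem]
  rintro v ⟨u, huv, h1, h2⟩
  have key : ∀ w, w = v ∨ w = u := by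
    intro w
    have hr := hG.preconnected v w
    rw [SimpleGraph.reachable_iff_reflTransGen] at hr
    induction hr with
    | refl => exact Or.inl rfl
    | tail _ hbc ih =>
      rcases ih with ih | ih
      · subst ih
        exact Or.inr (h1 _ hbc)
      · subst ih
        exact Or.inl (h2 _ hbc)
  classical
  have h4 : (Finset.univ : Finset V) ⊆ {v, u} := by
    intro w _
    rcases key w with h | h
    · rw [h]; simp
    · rw [h]; simp
  have h5 := Finset.card_le_card h4
  rw [Finset.card_univ] at h5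
  have h6 : ({v, u} : Finset V).card ≤ 2 := Finset.card_le_two
  omega

end Pool.Agent.HTE
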