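import Pool.Agent.HTE.C13

set_option autoImplicit false

namespace Pool.Agent.HTE

open Module

variable {V : Type} [Fintype V] {G : SimpleGraph V}

theorem Sys.core3 (S : Sys G) (hG : G.Connected) (h3 : 3 ≤ Fintype.card V) :
    3 * finrank (ZMod 2) S.D ≤ 2 * Nat.card G.edgeSet := by
  have h := S.three_k_gen
  rw [isoPair_eq_empty hG h3, Set.ncard_empty] at h
  omega

theorem Sys.core2 (S : Sys G) (hG : G.Connected) (h3 : 3 ≤ Fintype.card V)
    (f : V → Bool) (hf : ∀ u v, G.Adj u v → f u ≠ f v) :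
    2 * finrank (ZMod 2) S.D ≤ Nat.card G.edgeSet := by
  have h := S.two_k_gen f hf
  rw [isoPair_eq_empty hG h3, Set.ncard_empty] at h
  omega

end Pool.Agent.HTE
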