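import Pool.Agent.HTE.C1

set_option autoImplicit false

namespace Pool.Agent.HTE

open Module

variable {V : Type} [Fintype V] {G : SimpleGraph V}

/-- If `P` and `Q` are disjoint (except at `u`) on the neighbours of `v`, then the values on the
leg `u` of the words supported on `P + u` are orthogonal to those of the words supported on
`Q + u`. Proof: `p = c u`, `q = c' u` with `c, c' ∈ S.C v`, `c` zero outside `P ∪ {u}`,
`c'` zero outside `Q ∪ {u}`. In `S.orth v c c'`: `∑ x, ∑ s, c x s * c' x s = 0` all terms with
`x ≠ u` vanish: if `x` is not a neighbour of `v` then `c x = 0` by `S.supp`; otherwise not both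
`P x` and `Q x`. So `∑ s, c u s * c' u s = 0`. Then use `orth_dim` with `ι = Bool`
(`Fintype.card Bool = 2`). -/
theorem Sys.I_add (S : Sys G) (v u : V) (P Q : V → Prop)
    (h : ∀ x, x ≠ u → G.Adj v x → P x → ¬ Q x) :
    finrank (ZMod 2) (S.I v u P) + finrank (ZMod 2) (S.I v u Q) ≤ 2 := by
  classical
  have key := orth_dim (S.I v u P) (S.I v u Q) (by
    rintro _ ⟨c, ⟨hc1, hc2⟩, rfl⟩ _ ⟨c', ⟨hc1', hc2'⟩, rfl⟩
    have h1 := S.orth v c c' hc1 hc1'
    rw [Finset.sum_eq_single u] at h1
    · exact h1
    · intro x _ hxu
      by_cases hvx : G.Adj v x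
      · by_cases hP : P x
        · have hQ : ¬ (Q x ∨ x = u) := by
            rintro (h2 | h2)
            · exact h x hxu hvx hP h2
            · exact hxu h2
          have h3 := hc2' x hQ
          simp [h3]
        · have hP' : ¬ (P x ∨ x = u) := by
            rintro (h2 | h2)
            · exact hP h2
            · exact hxu h2
          have h3 := hc2 x hP'
          simp [h3]
      · have h3 := S.supp v c hc1 x hvx
        simp [h3]
    · intro h2
      exact absurd (Finset.mem_univ u) h2)
  rwa [Fintype.card_bool] at key

end Pool.Agent.HTE
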