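import Pool.Agent.HTE.C1

set_option autoImplicit false

namespace Pool.Agent.HTE

open Module

variable {V : Type} [Fintype V] {G : SimpleGraph V}

open scoped Classical in
/-- A subspace of `F^2` that contains a word `a` with `a false ≠ a true` has dimension at least
the number of coordinates on which it does not vanish identically. Proof: both `s` in the set:
if the dimension were `≤ 1`, every element of `A` would be a multiple of `a` (`a ≠ 0`), i.e. `0` or
`a`; but `a` vanishes on one of the coordinates (`ZMod 2` has two elements and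
`a false ≠ a true`), contradiction. One `s` in the set: `A ≠ 0`, dimension `≥ 1`. -/
theorem card_supp_le (A : Submodule (ZMod 2) (Bool → ZMod 2))
    (a : Bool → ZMod 2) (ha : a ∈ A) (hne : a false ≠ a true) :
    (Finset.univ.filter (fun s => ∃ b ∈ A, b s ≠ 0)).card ≤ finrank (ZMod 2) A := by
  set T := Finset.univ.filter (fun s => ∃ b ∈ A, b s ≠ 0) with hT
  have ha0 : a ≠ 0 := by
    rintro rfl
    exact hne rfl
  have hA1 : 1 ≤ finrank (ZMod 2) A := by
    rw [Nat.one_le_iff_ne_zero]
    intro h0
    rw [Submodule.finrank_eq_zero] at h0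
    rw [h0, Submodule.mem_bot] at ha
    exact ha0 ha
  have hT2 : T.card ≤ 2 := by
    have h1 := Finset.card_le_univ T
    rwa [Fintype.card_bool] at h1
  rcases Nat.lt_or_ge T.card 2 with h1 | h1
  · omega
  · have hall : ∀ s, ∃ b ∈ A, b s ≠ 0 := by
      intro s
      have h2 : T = Finset.univ := by
        rw [← Finset.card_eq_iff_eq_univ, Fintype.card_bool]
        omega
      have h3 : s ∈ T := by
        rw [h2]
        exact Finset.mem_univ s
      exact (Finset.mem_filter.1 h3).2
    have h4 : finrank (ZMod 2) A ≠ 1 := by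
      intro h5
      have h6 := (finrank_eq_one_iff_of_nonzero' (⟨a, ha⟩ : A) (by
        intro h7
        exact ha0 (congrArg Subtype.val h7))).1 h5
      have hs : ∃ s, a s = 0 := by
        have key : ∀ x y : ZMod 2, x ≠ y → x = 0 ∨ y = 0 := by decide
        rcases key _ _ hne with h8 | h8
        · exact ⟨false, h8⟩
        · exact ⟨true, h8⟩
      obtain ⟨s, hs⟩ := hs
      obtain ⟨b, hb, hbs⟩ := hall s
      obtain ⟨c, hc⟩ := h6 ⟨b, hb⟩
      have h9 : c • a = b := congrArg Subtype.val hc
      apply hbs
      rw [← h9, Pi.smul_apply, hs, smul_zero]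
    omega

/-- A self-orthogonal space of words on `V × Bool` that is supported on a finite set `B` has
dimension at most `|B| / 2`. Proof: restrict the words to the subtype `{i // i ∈ B}`:
the restriction map `W → ({i // i ∈ B} → F)` is injective and its range is self-orthogonal
(the sum over `V × Bool` equals the sum over `B`); apply `orth_dim` with `P = Q` the range. -/
theorem selforth_supp (W : Submodule (ZMod 2) (V → Bool → ZMod 2))
    (h : ∀ c ∈ W, ∀ c' ∈ W, ∑ u, ∑ s, c u s * c' u s = 0)
    (B : Finset (V × Bool)) (hB : ∀ c ∈ W, ∀ u s, (u, s) ∉ B → c u s = 0) :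
    2 * finrank (ZMod 2) W ≤ B.card := by
  classical
  let ρ : (V → Bool → ZMod 2) →ₗ[ZMod 2] ({i // i ∈ B} → ZMod 2) :=
    { toFun := fun c i => c i.1.1 i.1.2
      map_add' := fun _ _ => rfl
      map_smul' := fun _ _ => rfl }
  let f : W →ₗ[ZMod 2] ({i // i ∈ B} → ZMod 2) := ρ.comp W.subtype
  have hf : ∀ (c : W) (i : {i // i ∈ B}), f c i = c.1 i.1.1 i.1.2 := fun _ _ => rfl
  have hinj : Function.Injective f := by
    rw [← LinearMap.ker_eq_bot, LinearMap.ker_eq_bot']
    intro c hc
    apply Subtype.ext
    funext u s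
    by_cases hus : (u, s) ∈ B
    · have h1 := congrFun hc ⟨(u, s), hus⟩
      rw [hf] at h1
      exact h1
    · exact hB c.1 c.2 u s hus
  have key := orth_dim (LinearMap.range f) (LinearMap.range f) (by
    rintro _ ⟨c, rfl⟩ _ ⟨c', rfl⟩
    have h1 := h c.1 c.2 c'.1 c'.2
    rw [← Fintype.sum_prod_type' (fun u s => c.1 u s * c'.1 u s)] at h1
    rw [← Finset.sum_subset (Finset.subset_univ B) (by
      intro i _ hi
      rw [hB c.1 c.2 i.1 i.2 hi, zero_mul])] at h1
    rw [← Finset.sum_coe_sort] at h1
    exact h1)
  rw [LinearMap.finrank_range_of_inj hinj, Fintype.card_coe] at key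
  omega

end Pool.Agent.HTE
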