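import Pool.Agent.HTE.C3

set_option autoImplicit false

namespace Pool.Agent.HTE

open Module

variable {V : Type} [Fintype V] {G : SimpleGraph V}

private theorem c4_zmod (a b : ZMod 2) : a * b + a * b = 0 := by
  revert a b; decide

open scoped Classical in
/-- keep the legs in `J` -/
private noncomputable def c4_pi (J : Finset V) :
    (V → Bool → ZMod 2) →ₗ[ZMod 2] (V → Bool → ZMod 2) where
  toFun c := fun u => if u ∈ J then c u else 0
  map_add' c c' := by
    ext x s
    by_cases hx : x ∈ J
    · simp [hx]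
    · simp [hx]
  map_smul' a c := by
    ext x s
    by_cases hx : x ∈ J
    · simp [hx]
    · simp [hx]

omit [Fintype V] in
private theorem c4_pi_pos (J : Finset V) (c : V → Bool → ZMod 2) (u : V) (h : u ∈ J) :
    c4_pi J c u = c u := by
  simp only [c4_pi, LinearMap.coe_mk, AddHom.coe_mk]
  rw [if_pos h]

omit [Fintype V] in
private theorem c4_pi_neg (J : Finset V) (c : V → Bool → ZMod 2) (u : V) (h : u ∉ J) :
    c4_pi J c u = 0 := by
  simp only [c4_pi, LinearMap.coe_mk, AddHom.coe_mk]
  rw [if_neg h]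

/-- **Lemma R.** `W` is a subspace of `S.C v` (hence self-orthogonal), `v` does not have degree 1,
the words of `W` are supported on a set `J` of neighbours of `v` and `c u ∈ A u` for `c ∈ W`,
`u ∈ J`. Then `2 dim W ≤ ∑ u ∈ J, dim (A u)`.

Proof (use `classical`). Let `R` be the set of `u ∈ J` such that all `a ∈ A u` satisfy
`a false = a true`, and `J' = J \ R`.

Case 1: `J' = ∅`. Then every `c ∈ W` satisfies `c u false = c u true` for all `u` (for `u ∈ J`
since `c u ∈ A u`, for `u ∉ J` since `c u = 0`), so by `S.tran` `c = 0` or `c u = 1` for all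
neighbours `u` of `v`. If `W = ⊥` we are done. Otherwise take `c ∈ W`, `c ≠ 0`: `c u = 1 ≠ 0` for
all neighbours `u` of `v`, so all neighbours are in `J` and `A u ≠ ⊥` for them, i.e.
`1 ≤ finrank (A u)`. `c ≠ 0` gives a neighbour (`S.supp`: `c u = 0` for nonneighbours), `hd` gives
a second one, so the sum is `≥ 2`. And any two elements of `W` that are nonzero are equal
(both are `1` on the neighbours and `0` elsewhere), so `finrank W ≤ 1`
(`finrank_le_one`). So `2 * finrank W ≤ 2 ≤ ∑`.

Case 2: `J' ≠ ∅`, `u₀ ∈ J'`. Let `π : (V → Bool → F) → (V → Bool → F)` be the linear map which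
keeps the legs in `J'` and puts `0` on the other legs. `π` is injective on `W`: if `c ∈ W` and
`c u = 0` for `u ∈ J'`, then `c u false = c u true` for all `u`, so `c = 0` or `c u₀ = 1`; the
latter contradicts `c u₀ = 0`. `W' = W.map π` has the same finrank and is self-orthogonal: for
`c, c' ∈ W`, `0 = ∑ u, ∑ s, c u s * c' u s` (`S.orth`), and the legs `u ∉ J'` contribute `0`:
for `u ∈ R` `c u`, `c' u` are constant, so the contribution is `2 * (c u false * c' u false) = 0`;
for `u ∉ J` it is `0`. `W'` is supported on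
`B = {(u, s) | u ∈ J', ∃ b ∈ A u, b s ≠ 0}`; so `2 * finrank W' ≤ B.card` by `selforth_supp`, and
`B.card = ∑ u ∈ J', card {s | ∃ b ∈ A u, b s ≠ 0} ≤ ∑ u ∈ J', finrank (A u)` by `card_supp_le`
(`u ∈ J'` means that some `a ∈ A u` has `a false ≠ a true`)
`≤ ∑ u ∈ J, finrank (A u)`. -/
theorem Sys.lemR (S : Sys G) (v : V) (hd : ∀ u, G.Adj v u → ∃ u', u' ≠ u ∧ G.Adj v u')
    (W : Submodule (ZMod 2) (V → Bool → ZMod 2)) (hW : W ≤ S.C v)
    (J : Finset V) (hJ : ∀ u ∈ J, G.Adj v u) (hs : ∀ c ∈ W, ∀ u, u ∉ J → c u = 0)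
    (A : V → Submodule (ZMod 2) (Bool → ZMod 2)) (hA : ∀ c ∈ W, ∀ u ∈ J, c u ∈ A u) :
    2 * finrank (ZMod 2) W ≤ ∑ u ∈ J, finrank (ZMod 2) (A u) := by
  classical
  by_cases hJ' : ∃ u₀ ∈ J, ∃ a ∈ A u₀, a false ≠ a true
  · obtain ⟨u₀, hu₀, hne⟩ := hJ'
    set J' : Finset V := J.filter (fun u => ∃ a ∈ A u, a false ≠ a true) with hJ'def
    have hmem : ∀ u, u ∈ J' ↔ u ∈ J ∧ ∃ a ∈ A u, a false ≠ a true := by
      intro u; rw [hJ'def, Finset.mem_filter]
    have hconst : ∀ c ∈ W, ∀ u, u ∉ J' → c u false = c u true := by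
      intro c hc u hu
      by_cases huJ : u ∈ J
      · by_contra h
        exact hu ((hmem u).2 ⟨huJ, c u, hA c hc u huJ, h⟩)
      · rw [hs c hc u huJ]; rfl
    have hinj : ∀ c ∈ W, c4_pi J' c = 0 → c = 0 := by
      intro c hc h
      have h1 : ∀ u ∈ J', c u = 0 := by
        intro u hu
        rw [← c4_pi_pos J' c u hu, h]; rfl
      have h2 : ∀ u, c u false = c u true := by
        intro u
        by_cases hu : u ∈ J'
        · rw [h1 u hu]; rfl
        · exact hconst c hc u hu
      rcases S.tran v c (hW hc) h2 with h3 | h3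
      · exact h3
      · exfalso
        have h4 := h3 u₀ (hJ u₀ hu₀)
        rw [h1 u₀ ((hmem u₀).2 ⟨hu₀, hne⟩)] at h4
        exact absurd (congrFun h4 true) (by decide)
    have hfin : finrank (ZMod 2) (W.map (c4_pi J')) = finrank (ZMod 2) W := by
      have hg : ∀ x : W, (c4_pi J').domRestrict W x ∈ W.map (c4_pi J') := by
        rintro ⟨c, hc⟩
        exact ⟨c, hc, rfl⟩
      apply le_antisymm
      · exact Submodule.finrank_map_le _ _
      · apply LinearMap.finrank_le_finrank_of_injective
          (f := ((c4_pi J').domRestrict W).codRestrict (W.map (c4_pi J')) hg)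
        rw [← LinearMap.ker_eq_bot, LinearMap.ker_eq_bot']
        rintro ⟨c, hc⟩ h
        have h1 : c4_pi J' c = 0 := congrArg Subtype.val h
        exact Subtype.ext (hinj c hc h1)
    set B : Finset (V × Bool) :=
      Finset.univ.filter (fun p => p.1 ∈ J' ∧ ∃ b ∈ A p.1, b p.2 ≠ 0) with hB
    have h1 : 2 * finrank (ZMod 2) (W.map (c4_pi J')) ≤ B.card := by
      apply selforth_supp
      · rintro _ ⟨c, hc, rfl⟩ _ ⟨c', hc', rfl⟩
        rw [← S.orth v c c' (hW hc) (hW hc')]
        apply Finset.sum_congr rfl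
        intro u _
        by_cases hu : u ∈ J'
        · rw [c4_pi_pos _ _ _ hu, c4_pi_pos _ _ _ hu]
        · rw [c4_pi_neg _ _ _ hu]
          simp only [Fintype.sum_bool, Pi.zero_apply, zero_mul, add_zero]
          rw [hconst c hc u hu, hconst c' hc' u hu, c4_zmod]
      · rintro _ ⟨c, hc, rfl⟩ u s hus
        by_cases hu : u ∈ J'
        · rw [c4_pi_pos _ _ _ hu]
          by_contra h
          apply hus
          rw [hB, Finset.mem_filter]
          exact ⟨Finset.mem_univ _, hu, c u, hA c hc u ((hmem u).1 hu).1, h⟩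
        · rw [c4_pi_neg _ _ _ hu]; rfl
    have h2 : B.card ≤ ∑ u ∈ J', finrank (ZMod 2) (A u) := by
      have h3 : B =
          (J'.sigma (fun u => Finset.univ.filter (fun s => ∃ b ∈ A u, b s ≠ 0))).map
          ⟨fun p => (p.1, p.2), fun p q h => by
            rcases p with ⟨p1, p2⟩
            rcases q with ⟨q1, q2⟩
            simp only [Prod.mk.injEq] at h
            rw [Sigma.mk.injEq]
            exact ⟨h.1, heq_of_eq h.2⟩⟩ := by
        ext ⟨u, s⟩
        rw [hB, Finset.mem_filter, Finset.mem_map]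
        constructor
        · rintro ⟨_, h4, h5⟩
          exact ⟨⟨u, s⟩, Finset.mem_sigma.2 ⟨h4, Finset.mem_filter.2 ⟨Finset.mem_univ _, h5⟩⟩, rfl⟩
        · rintro ⟨⟨u', s'⟩, h4, h5⟩
          obtain ⟨h8, h9⟩ := Finset.mem_sigma.1 h4
          obtain ⟨h6, h7⟩ := Prod.mk.inj h5
          dsimp only at h6 h7 h8 h9
          subst h6
          subst h7
          exact ⟨Finset.mem_univ _, h8, (Finset.mem_filter.1 h9).2⟩
      rw [h3, Finset.card_map, Finset.card_sigma]
      apply Finset.sum_le_sum
      intro u hu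
      obtain ⟨_, a, ha, hne'⟩ := (hmem u).1 hu
      exact card_supp_le (A u) a ha hne'
    have h3 : ∑ u ∈ J', finrank (ZMod 2) (A u) ≤ ∑ u ∈ J, finrank (ZMod 2) (A u) :=
      Finset.sum_le_sum_of_subset (Finset.filter_subset _ _)
    rw [hfin] at h1
    exact h1.trans (h2.trans h3)
  · have hconst : ∀ c ∈ W, ∀ u, c u false = c u true := by
      intro c hc u
      by_cases huJ : u ∈ J
      · by_contra h
        exact hJ' ⟨u, huJ, c u, hA c hc u huJ, h⟩
      · rw [hs c hc u huJ]; rfl
    have hone : ∀ c ∈ W, c ≠ 0 → ∀ u, G.Adj v u → c u = 1 := by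
      intro c hc hc0
      rcases S.tran v c (hW hc) (hconst c hc) with h | h
      · exact absurd h hc0
      · exact h
    by_cases hbot : W = ⊥
    · rw [hbot, finrank_bot]; exact Nat.zero_le _
    obtain ⟨c, hc, hc0⟩ := Submodule.exists_mem_ne_zero_of_ne_bot hbot
    have hle1 : finrank (ZMod 2) W ≤ 1 := by
      apply finrank_le_one (⟨c, hc⟩ : W)
      rintro ⟨c', hc'⟩
      by_cases h0 : c' = 0
      · refine ⟨0, ?_⟩
        apply Subtype.ext
        simp [h0]
      · refine ⟨1, ?_⟩
        apply Subtype.ext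
        simp only [one_smul]
        ext1 u
        by_cases hadj : G.Adj v u
        · rw [hone c hc hc0 u hadj, hone c' hc' h0 u hadj]
        · rw [S.supp v c (hW hc) u hadj, S.supp v c' (hW hc') u hadj]
    obtain ⟨u1, hu1⟩ : ∃ u, G.Adj v u := by
      by_contra h
      push Not at h
      apply hc0
      ext1 u
      exact S.supp v c (hW hc) u (h u)
    obtain ⟨u2, hne, hu2⟩ := hd u1 hu1
    have hin : ∀ u, G.Adj v u → u ∈ J ∧ 1 ≤ finrank (ZMod 2) (A u) := by
      intro u hu
      have h1 := hone c hc hc0 u hu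
      have h10 : (1 : Bool → ZMod 2) ≠ 0 := by
        intro h
        exact absurd (congrFun h true) (by decide)
      have huJ : u ∈ J := by
        by_contra h
        rw [hs c hc u h] at h1
        exact h10 h1.symm
      refine ⟨huJ, ?_⟩
      rw [Submodule.one_le_finrank_iff]
      intro hb
      have := hA c hc u huJ
      rw [hb, Submodule.mem_bot, h1] at this
      exact h10 this
    have hsub : ({u1, u2} : Finset V) ⊆ J := by
      intro u hu
      rw [Finset.mem_insert, Finset.mem_singleton] at hu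
      rcases hu with h | h
      · rw [h]; exact (hin u1 hu1).1
      · rw [h]; exact (hin u2 hu2).1
    have hsum : ∑ u ∈ ({u1, u2} : Finset V), finrank (ZMod 2) (A u) ≤
        ∑ u ∈ J, finrank (ZMod 2) (A u) := Finset.sum_le_sum_of_subset hsub
    rw [Finset.sum_pair hne.symm] at hsum
    have h1 := (hin u1 hu1).2
    have h2 := (hin u2 hu2).2
    omega

end Pool.Agent.HTE
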