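import Mathlib

set_option autoImplicit false

/-!
# Self-orthogonal codes at the vertices of a graph

`F = ZMod 2`. At every vertex `v` of a finite simple graph `G` there is a code `C v` of words
`c : V → Bool → F` (two sides `false, true` for each leg `u`), supported on the neighbours of `v`,
self-orthogonal, and such that the only words that are constant on the legs are `0` and (perhaps)
the word that is `1` on all neighbours.
-/

namespace Pool.Agent.HTE

open Module

variable {V : Type} [Fintype V] {G : SimpleGraph V}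

/-- A system of self-orthogonal codes at the vertices of `G`. -/
structure Sys (G : SimpleGraph V) where
  C : V → Submodule (ZMod 2) (V → Bool → ZMod 2)
  supp : ∀ v c, c ∈ C v → ∀ u, ¬ G.Adj v u → c u = 0
  orth : ∀ v c c', c ∈ C v → c' ∈ C v → ∑ u, ∑ s, c u s * c' u s = 0
  tran : ∀ v c, c ∈ C v → (∀ u, c u false = c u true) → c = 0 ∨ ∀ u, G.Adj v u → c u = 1

namespace Sys

/-- The words on the sides of the edges that lie in all the codes `C v`. -/
def D (S : Sys G) : Submodule (ZMod 2) (V → V → Bool → ZMod 2) where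
  carrier := {W | (∀ v, W v ∈ S.C v) ∧ ∀ u v, W u v = W v u}
  add_mem' := by
    rintro W W' ⟨h1, h2⟩ ⟨h1', h2'⟩
    refine ⟨fun v => (S.C v).add_mem (h1 v) (h1' v), fun u v => ?_⟩
    simp only [Pi.add_apply, h2 u v, h2' u v]
  zero_mem' := ⟨fun v => (S.C v).zero_mem, fun _ _ => rfl⟩
  smul_mem' := by
    rintro a W ⟨h1, h2⟩
    refine ⟨fun v => (S.C v).smul_mem a (h1 v), fun u v => ?_⟩
    simp only [Pi.smul_apply, h2 u v]

/-- The words of `C v` that vanish outside `P`. -/
def sub (S : Sys G) (v : V) (P : V → Prop) : Submodule (ZMod 2) (V → Bool → ZMod 2) where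
  carrier := {c | c ∈ S.C v ∧ ∀ x, ¬ P x → c x = 0}
  add_mem' := by
    rintro c c' ⟨h1, h2⟩ ⟨h1', h2'⟩
    refine ⟨(S.C v).add_mem h1 h1', fun x hx => ?_⟩
    simp only [Pi.add_apply, h2 x hx, h2' x hx, add_zero]
  zero_mem' := ⟨(S.C v).zero_mem, fun _ _ => rfl⟩
  smul_mem' := by
    rintro a c ⟨h1, h2⟩
    refine ⟨(S.C v).smul_mem a h1, fun x hx => ?_⟩
    simp only [Pi.smul_apply, h2 x hx, smul_zero]

/-- The values on the leg `u` of the words of `C v` that vanish outside `P` and `u`. -/
def I (S : Sys G) (v u : V) (P : V → Prop) : Submodule (ZMod 2) (Bool → ZMod 2) :=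
  (S.sub v (fun x => P x ∨ x = u)).map (LinearMap.proj u)

/-- `T r v u`: the dimension of `I v u` for the set of vertices before `u` in the order given by
`r`. -/
noncomputable def T (S : Sys G) (r : V → ℕ) (v u : V) : ℕ :=
  finrank (ZMod 2) (S.I v u (fun x => r x < r u))

/-- The words of `D` that live on the edges between vertices with `r < t`. -/
def Dlt (S : Sys G) (r : V → ℕ) (t : ℕ) : Submodule (ZMod 2) (V → V → Bool → ZMod 2) where
  carrier := {W | W ∈ S.D ∧ ∀ u v, ¬ (r u < t ∧ r v < t) → W u v = 0}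
  add_mem' := by
    rintro W W' ⟨h1, h2⟩ ⟨h1', h2'⟩
    refine ⟨S.D.add_mem h1 h1', fun u v h => ?_⟩
    simp only [Pi.add_apply, h2 u v h, h2' u v h, add_zero]
  zero_mem' := ⟨S.D.zero_mem, fun _ _ _ => rfl⟩
  smul_mem' := by
    rintro a W ⟨h1, h2⟩
    refine ⟨S.D.smul_mem a h1, fun u v h => ?_⟩
    simp only [Pi.smul_apply, h2 u v h, smul_zero]

/-- The values at `v` of the words of `D` that live on the edges between vertices not after `v`. -/
def im (S : Sys G) (r : V → ℕ) (v : V) : Submodule (ZMod 2) (V → Bool → ZMod 2) :=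
  (S.Dlt r (r v + 1)).map (LinearMap.proj v)

end Sys

end Pool.Agent.HTE
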