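import Mathlib

set_option autoImplicit false

/-!
# Drawings of graphs on closed surfaces (orientable or not), combinatorially

A connected graph drawn on a closed surface is encoded by the map of its planarisation (the graph
obtained by turning every crossing into a vertex), and a map is encoded by its flags.
-/

namespace Pool.Agent.HTE

/-- A map on a closed surface, orientable or not, given by its finite set `D` of flags (mutually
incident triples vertex, edge, face). `t0`, `t1`, `t2` change the vertex, the edge, the face of a
flag and keep the other two. Vertices, edges and faces are the orbits of the groups generated by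
`t1, t2`, by `t0, t2` and by `t0, t1`. These are the cell decompositions of closed connected
surfaces. -/
structure GMap where
  /-- the flags -/
  D : Type
  /-- there are finitely many flags -/
  fin : Fintype D
  t0 : D → D
  t1 : D → D
  t2 : D → D
  t0_t0 : ∀ d, t0 (t0 d) = d
  t1_t1 : ∀ d, t1 (t1 d) = d
  t2_t2 : ∀ d, t2 (t2 d) = d
  t0_ne : ∀ d, t0 d ≠ d
  t1_ne : ∀ d, t1 d ≠ d
  t2_ne : ∀ d, t2 d ≠ d
  t0_t2 : ∀ d, t0 (t2 d) = t2 (t0 d)
  t0_t2_ne : ∀ d, t0 (t2 d) ≠ d
  conn : ∀ P : D → Prop, (∀ d, P d → P (t0 d) ∧ P (t1 d) ∧ P (t2 d)) → (∃ d, P d) → ∀ d, P d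

namespace GMap

/-- The vertices of the map. -/
def Vert (M : GMap) : Type := Quot (fun d e : M.D => e = M.t1 d ∨ e = M.t2 d)

/-- The edges of the map. -/
def Edge (M : GMap) : Type := Quot (fun d e : M.D => e = M.t0 d ∨ e = M.t2 d)

/-- The faces of the map. -/
def Face (M : GMap) : Type := Quot (fun d e : M.D => e = M.t0 d ∨ e = M.t1 d)

/-- The Euler characteristic `V - E + F` of the surface. -/
noncomputable def chi (M : GMap) : ℤ :=
  (Nat.card M.Vert : ℤ) - (Nat.card M.Edge : ℤ) + (Nat.card M.Face : ℤ)

/-- The surface is orientable: the flags have two classes that are switched by `t0`, `t1`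
and `t2`. -/
def Orientable (M : GMap) : Prop :=
  ∃ o : M.D → Bool, ∀ d, o (M.t0 d) = !o d ∧ o (M.t1 d) = !o d ∧ o (M.t2 d) = !o d

end GMap

/-- A drawing of a (connected, simple) graph `G` on a closed surface, given by the map of its
planarisation. `cross d` says that the vertex of the flag `d` is a crossing (otherwise it is a
vertex of `G`), and `lab d` is the oriented edge of `G` along which one travels when leaving the
vertex of `d` along the edge of `d`.

* Each oriented edge `a` of `G` leaves exactly one vertex of the map that is a vertex of `G`, and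
  does so once (there are exactly two flags there, the two sides); oriented edges of `G` leave the
  same vertex of the map iff they have the same initial vertex in `G`.
* At a crossing exactly two edges of `G` meet, and they cross properly: the four edge ends around
  the crossing belong alternately to the two edges, and these are different.
* `pos` counts the crossings already passed when travelling along an oriented edge; its existence
  says that each edge of `G` is drawn as one arc (there are no stray closed curves). -/
structure Drawing {V : Type} (G : SimpleGraph V) extends GMap where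
  cross : D → Prop
  lab : D → G.Dart
  pos : D → ℕ
  lab_t2 : ∀ d, lab (t2 d) = lab d
  lab_t0 : ∀ d, lab (t0 d) = (lab d).symm
  cross_t1 : ∀ d, cross (t1 d) ↔ cross d
  cross_t2 : ∀ d, cross (t2 d) ↔ cross d
  cross_four : ∀ d, cross d → t1 (t2 (t1 (t2 (t1 (t2 (t1 (t2 d))))))) = d
  cross_opp : ∀ d, cross d → lab (t1 (t2 (t1 (t2 d)))) = (lab d).symm
  cross_ne : ∀ d, cross d → (lab (t1 d)).edge ≠ (lab d).edge
  vert_same : ∀ d e, ¬ cross d → ¬ cross e →
    (Quot.mk (fun d e : D => e = t1 d ∨ e = t2 d) d = Quot.mk _ e ↔ (lab d).fst = (lab e).fst)
  vert_ex : ∀ a : G.Dart, ∃ d, ¬ cross d ∧ lab d = a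
  vert_uniq : ∀ d e, ¬ cross d → ¬ cross e → lab d = lab e → e = d ∨ e = t2 d
  pos_t2 : ∀ d, pos (t2 d) = pos d
  pos_zero : ∀ d, ¬ cross d → pos d = 0
  pos_succ : ∀ d, cross (t0 d) → pos (t1 (t2 (t1 (t0 d)))) = pos d + 1

namespace Drawing

variable {V : Type} {G : SimpleGraph V}

/-- The number of crossings between the edges `e` and `f` (`e ≠ f`). Every crossing of `e` and `f`
has eight flags, and exactly four of them, namely those along `e`, satisfy the condition below. -/
noncomputable def crossings (M : Drawing G) (e f : Sym2 V) : ℕ :=
  Nat.card {d : M.D // M.cross d ∧ (M.lab d).edge = e ∧ (M.lab (M.t1 d)).edge = f} / 4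

/-- Every two independent edges (edges without a common endpoint) cross an even number of
times. -/
def IndependentlyEven (M : Drawing G) : Prop :=
  ∀ e ∈ G.edgeSet, ∀ f ∈ G.edgeSet, (∀ v, v ∈ e → v ∉ f) → Even (M.crossings e f)

/-- A drawing without crossings. -/
def IsEmbedding (M : Drawing G) : Prop := ∀ d, ¬ M.cross d

/-- The drawing can be placed on the orientable surface of genus `g`: the surface of the map is
orientable, of genus at most `g`. -/
def OnOrientable (M : Drawing G) (g : ℕ) : Prop := M.Orientable ∧ 2 - 2 * (g : ℤ) ≤ M.chi

/-- The drawing can be placed on the nonorientable surface with `k ≥ 1` crosscaps, of Euler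
characteristic `2 - k`: the surface of the map is nonorientable, of Euler characteristic at
least `2 - k`, or it has Euler characteristic larger than `2 - k`. -/
def OnNonorientable (M : Drawing G) (k : ℕ) : Prop :=
  (¬ M.Orientable ∧ 2 - (k : ℤ) ≤ M.chi) ∨ 2 - (k : ℤ) < M.chi

end Drawing

end Pool.Agent.HTE
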