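import Pool.Agent.HTE.C4

set_option autoImplicit false

namespace Pool.Agent.HTE

open Module

variable {V : Type} [Fintype V] {G : SimpleGraph V}

namespace Sys

private theorem e1_rank {X Y : Type} [AddCommGroup X] [Module (ZMod 2) X]
    [FiniteDimensional (ZMod 2) X] [AddCommGroup Y] [Module (ZMod 2) Y]
    (M N : Submodule (ZMod 2) X) (f : X →ₗ[ZMod 2] Y) (h : ∀ x, x ∈ N ↔ x ∈ M ∧ f x = 0) :
    finrank (ZMod 2) M = finrank (ZMod 2) N + finrank (ZMod 2) (M.map f) := by
  have h1 := LinearMap.finrank_range_add_finrank_ker (f.domRestrict M)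
  have h2 : LinearMap.range (f.domRestrict M) = M.map f := by
    ext y
    constructor
    · rintro ⟨⟨x, hx⟩, rfl⟩
      exact ⟨x, hx, rfl⟩
    · rintro ⟨x, hx, rfl⟩
      exact ⟨⟨x, hx⟩, rfl⟩
  have h3 : (LinearMap.ker (f.domRestrict M)).map M.subtype = N := by
    ext x
    constructor
    · rintro ⟨⟨y, hy⟩, hk, rfl⟩
      exact (h y).2 ⟨hy, hk⟩
    · intro hx
      have h4 := (h x).1 hx
      exact ⟨⟨x, h4.1⟩, h4.2, rfl⟩
  have h4 : finrank (ZMod 2) (LinearMap.ker (f.domRestrict M)) = finrank (ZMod 2) N := by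
    rw [← h3]
    exact (Submodule.finrank_map_subtype_eq M _).symm
  rw [h2, h4] at h1
  omega

/-- The words of `D` that live on the edges inside `A`. -/
def DA (S : Sys G) (A : Finset V) : Submodule (ZMod 2) (V → V → Bool → ZMod 2) where
  carrier := {W | W ∈ S.D ∧ ∀ u v, ¬ (u ∈ A ∧ v ∈ A) → W u v = 0}
  add_mem' := by
    rintro W W' ⟨h1, h2⟩ ⟨h1', h2'⟩
    refine ⟨S.D.add_mem h1 h1', fun u v h => ?_⟩
    simp only [Pi.add_apply, h2 u v h, h2' u v h, add_zero]
  zero_mem' := ⟨S.D.zero_mem, fun _ _ _ => rfl⟩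
  smul_mem' := by
    rintro a W ⟨h1, h2⟩
    refine ⟨S.D.smul_mem a h1, fun u v h => ?_⟩
    simp only [Pi.smul_apply, h2 u v h, smul_zero]

/-- `f A = dim (DA A)`. -/
noncomputable def f (S : Sys G) (A : Finset V) : ℕ := finrank (ZMod 2) (S.DA A)

/-- `g v J`: the dimension of the space of the words of `C v` supported on `J`. -/
noncomputable def g (S : Sys G) (v : V) (J : Finset V) : ℕ :=
  finrank (ZMod 2) (S.sub v (fun x => x ∈ J))

open scoped Classical in
/-- The values at `v` of the words of `D` living inside `A ∪ {v}`. -/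
noncomputable def iA (S : Sys G) (v : V) (A : Finset V) :
    Submodule (ZMod 2) (V → Bool → ZMod 2) :=
  (S.DA (insert v A)).map (LinearMap.proj v)

open scoped Classical in
/-- `f (insert v A) = f A + dim (iA v A)` for `v ∉ A`.
Proof: rank-nullity for `W ↦ W v` on `DA (insert v A)`; the kernel is `DA A` (if `W v = 0` then
`W u v = W v u = 0` for all `u` by symmetry). -/
theorem f_insert (S : Sys G) (v : V) (A : Finset V) (hv : v ∉ A) :
    S.f (insert v A) = S.f A + finrank (ZMod 2) (S.iA v A) := by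
  have h1 := e1_rank (S.DA (insert v A)) (S.DA A) (LinearMap.proj v) ?_
  · exact h1
  intro W
  constructor
  · rintro ⟨h2, h3⟩
    refine ⟨⟨h2, fun u x hux => h3 u x fun h4 => hux ⟨Finset.mem_insert_of_mem h4.1,
      Finset.mem_insert_of_mem h4.2⟩⟩, ?_⟩
    ext1 x
    exact h3 v x fun h4 => hv h4.1
  · rintro ⟨⟨h2, h3⟩, h4⟩
    have h5 : W v = 0 := h4
    refine ⟨h2, fun u x hux => ?_⟩
    by_cases h6 : u ∈ insert v A ∧ x ∈ insert v A
    · by_cases h7 : u = v
      · rw [h7, h5]
        rfl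
      · by_cases h8 : x = v
        · rw [h8, h2.2 u v, h5]
          rfl
        · exact absurd ⟨(Finset.mem_insert.1 h6.1).resolve_left h7,
            (Finset.mem_insert.1 h6.2).resolve_left h8⟩ hux
    · exact h3 u x h6

private theorem e1_iA (S : Sys G) (v : V) (A : Finset V) : S.iA v A ≤ S.sub v (fun x => x ∈ A) := by
  classical
  rintro _ ⟨W, hW, rfl⟩
  refine ⟨hW.1.1 v, fun x hx => ?_⟩
  change W v x = 0
  by_cases hxv : x = v
  · rw [hxv]
    exact S.supp v (W v) (hW.1.1 v) v (G.loopless.irrefl v)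
  · refine hW.2 v x ?_
    rintro ⟨-, h2⟩
    rcases Finset.mem_insert.1 h2 with h3 | h3
    · exact hxv h3
    · exact hx h3

/-- `iA v A` consists of words of `C v` supported on `A` (not on `v` since `v` is not adjacent to
itself), so `dim (iA v A) ≤ g v A`. -/
theorem iA_le (S : Sys G) (v : V) (A : Finset V) : finrank (ZMod 2) (S.iA v A) ≤ S.g v A := by
  exact Submodule.finrank_mono (e1_iA S v A)

open scoped Classical in
/-- `g u (insert v A) = g u A + dim (I u v A)` for `v ∉ A` (rank-nullity for `c ↦ c v`). -/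
theorem g_insert (S : Sys G) (u v : V) (A : Finset V) (hv : v ∉ A) :
    S.g u (insert v A) = S.g u A + finrank (ZMod 2) (S.I u v (fun x => x ∈ A)) := by
  have h0 : S.sub u (fun x => x ∈ insert v A) = S.sub u (fun x => x ∈ A ∨ x = v) := by
    congr 1
    ext x
    rw [Finset.mem_insert]
    tauto
  have h1 := e1_rank (S.sub u (fun x => x ∈ A ∨ x = v)) (S.sub u (fun x => x ∈ A)) (LinearMap.proj v) ?_
  · unfold g I
    rw [h0]
    exact h1
  intro c
  constructor
  · rintro ⟨h2, h3⟩
    exact ⟨⟨h2, fun x hx => h3 x fun h4 => hx (Or.inl h4)⟩, h3 v hv⟩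
  · rintro ⟨⟨h2, h3⟩, h4⟩
    have h5 : c v = 0 := h4
    refine ⟨h2, fun x hx => ?_⟩
    by_cases h7 : x = v
    · rw [h7, h5]
    · exact h3 x fun h8 => by
        rcases h8 with h8 | h8
        · exact hx h8
        · exact h7 h8

open scoped Classical in
/-- If `v` is not adjacent to `u`, then adding `v` changes nothing (`S.supp`). In particular this
holds for `v = u`. -/
theorem g_insert_of_not_adj (S : Sys G) (u v : V) (A : Finset V) (h : ¬ G.Adj u v) :
    S.g u (insert v A) = S.g u A := by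
  have h0 : S.sub u (fun x => x ∈ insert v A) = S.sub u (fun x => x ∈ A) := by
    ext c
    constructor
    · rintro ⟨h2, h3⟩
      refine ⟨h2, fun x hx => ?_⟩
      by_cases h7 : x = v
      · rw [h7]
        exact S.supp u c h2 v h
      · exact h3 x fun h8 => by
          rcases Finset.mem_insert.1 h8 with h8 | h8
          · exact h7 h8
          · exact hx h8
    · rintro ⟨h2, h3⟩
      exact ⟨h2, fun x hx => h3 x fun h4 => hx (Finset.mem_insert_of_mem h4)⟩
  unfold g
  rw [h0]

open scoped Classical in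
/-- **Lemma R for sets.** `2 dim (iA v A) + ∑_{u ∈ A, Adj v u} g u A ≤
∑_{u ∈ A, Adj v u} g u (insert v A)` if `v ∉ A` does not have degree one.
Proof: `Sys.lemR` with `W = S.iA v A`, `J = A.filter (G.Adj v)`, `A u = S.I u v (fun x => x ∈ A)`
(for `c = W v`, `W ∈ DA (insert v A)`, `u ∈ J`: `c u = W v u = W u v = (W u) v`, `W u ∈ C u` and
`W u` vanishes outside `insert v A`, so `c u ∈ I u v A`), and `g_insert`. -/
theorem two_iA_le (S : Sys G) (v : V) (A : Finset V) (hv : v ∉ A)
    (hd : ∀ u, G.Adj v u → ∃ u', u' ≠ u ∧ G.Adj v u') :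
    2 * finrank (ZMod 2) (S.iA v A) + ∑ u ∈ A.filter (fun u => G.Adj v u), S.g u A ≤
      ∑ u ∈ A.filter (fun u => G.Adj v u), S.g u (insert v A) := by
  have h1 := S.lemR v hd (S.iA v A) (fun c hc => (e1_iA S v A hc).1)
    (A.filter (fun u => G.Adj v u)) (fun u hu => (Finset.mem_filter.1 hu).2) ?_
    (fun u => S.I u v (fun x => x ∈ A)) ?_
  · have h2 : ∑ u ∈ A.filter (fun u => G.Adj v u), S.g u (insert v A) =
        ∑ u ∈ A.filter (fun u => G.Adj v u), S.g u A +
          ∑ u ∈ A.filter (fun u => G.Adj v u), finrank (ZMod 2) (S.I u v (fun x => x ∈ A)) := by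
      rw [← Finset.sum_add_distrib]
      exact Finset.sum_congr rfl fun u _ => S.g_insert u v A hv
    rw [h2]
    omega
  · intro c hc u hu
    have h3 := e1_iA S v A hc
    by_cases hadj : G.Adj v u
    · exact h3.2 u fun h4 => hu (Finset.mem_filter.2 ⟨h4, hadj⟩)
    · exact S.supp v c h3.1 u hadj
  · rintro _ ⟨W, hW, rfl⟩ u hu
    refine ⟨W u, ⟨hW.1.1 u, fun x hx => ?_⟩, ?_⟩
    · refine hW.2 u x ?_
      rintro ⟨-, h2⟩
      rcases Finset.mem_insert.1 h2 with h3 | h3
      · exact hx (Or.inr h3)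
      · exact hx (Or.inl h3)
    · exact hW.1.2 u v

/-- `f univ = dim D`. -/
theorem f_univ (S : Sys G) : S.f Finset.univ = finrank (ZMod 2) S.D := by
  have h0 : S.DA Finset.univ = S.D := by
    ext W
    constructor
    · intro h
      exact h.1
    · intro h
      exact ⟨h, fun u v huv => absurd ⟨Finset.mem_univ _, Finset.mem_univ _⟩ huv⟩
  unfold f
  rw [h0]

/-- `f ∅ = 0`. -/
theorem f_empty (S : Sys G) : S.f ∅ = 0 := by
  have h0 : S.DA ∅ = ⊥ := by
    rw [eq_bot_iff]
    rintro W ⟨_, h⟩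
    rw [Submodule.mem_bot]
    ext1 x
    ext1 y
    exact h x y fun h1 => Finset.notMem_empty _ h1.1
  unfold f
  rw [h0, finrank_bot]

/-- `g v univ = dim (C v)`. -/
theorem g_univ (S : Sys G) (v : V) : S.g v Finset.univ = finrank (ZMod 2) (S.C v) := by
  have h0 : S.sub v (fun x => x ∈ (Finset.univ : Finset V)) = S.C v := by
    ext c
    constructor
    · intro h
      exact h.1
    · intro h
      exact ⟨h, fun u huv => absurd (Finset.mem_univ _) huv⟩
  unfold g
  rw [h0]

open scoped Classical in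
/-- Self-orthogonality: `dim (C v) ≤ deg v` (`selforth_supp` with
`B = {(u, s) | G.Adj v u}`, `|B| = 2 deg v`). -/
theorem finrank_C_le (S : Sys G) (v : V) :
    finrank (ZMod 2) (S.C v) ≤ (Finset.univ.filter (fun u => G.Adj v u)).card := by
  have h1 := selforth_supp (S.C v) (fun c hc c' hc' => S.orth v c c' hc hc')
    ((Finset.univ.filter (fun u => G.Adj v u)) ×ˢ (Finset.univ : Finset Bool)) ?_
  · rw [Finset.card_product, Finset.card_univ, Fintype.card_bool] at h1
    omega
  · intro c hc u s hus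
    have h2 : ¬ G.Adj v u := by
      intro h3
      apply hus
      rw [Finset.mem_product, Finset.mem_filter]
      exact ⟨⟨Finset.mem_univ _, h3⟩, Finset.mem_univ _⟩
    rw [S.supp v c hc u h2]
    rfl

end Sys

end Pool.Agent.HTE
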