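import Pool.Agent.HTE.A12

set_option autoImplicit false

namespace Pool.Agent.HTE

open Module

/-- Equality in `linalg_count`: if the inequality of `linalg_count` is an equality, then
`LM ≤ LG ⊔ K ⊔ X`.

Proof. Let `a = finrank (LG.map f)`, `b = finrank (LM.map f)`, `a ≤ b` since `LG ≤ LM`.
`finrank LG = a + finrank (LG ⊓ ker f)`, `finrank LM = b + finrank (LM ⊓ ker f)`,
`finrank (K ⊔ X) = finrank K + finrank X ≤ finrank (LM ⊓ ker f)`. The hypothesis gives `a ≥ b` and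
`finrank (K ⊔ X) ≥ finrank (LM ⊓ ker f)`, so `LG.map f = LM.map f` and `K ⊔ X = LM ⊓ ker f`
(`Submodule.eq_of_le_of_finrank_le`). For `w ∈ LM` take `w' ∈ LG` with `f w' = f w`; then
`w - w' ∈ LM ⊓ ker f = K ⊔ X`. -/
theorem linalg_eq {E E' : Type} [AddCommGroup E] [Module (ZMod 2) E]
    [FiniteDimensional (ZMod 2) E] [AddCommGroup E'] [Module (ZMod 2) E']
    (f : E →ₗ[ZMod 2] E') (LM LG K X : Submodule (ZMod 2) E) (h1 : LG ≤ LM)
    (h2 : K ≤ LM ⊓ LinearMap.ker f) (h3 : X ≤ LM ⊓ LinearMap.ker f) (h4 : K ⊓ X = ⊥)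
    (h5 : finrank (ZMod 2) (LG ⊓ LinearMap.ker f : Submodule (ZMod 2) E) + finrank (ZMod 2) LM ≤
      finrank (ZMod 2) LG + finrank (ZMod 2) K + finrank (ZMod 2) X) :
    LM ≤ LG ⊔ K ⊔ X := by
  have e1 := a12_rank f LM
  have e2 := a12_rank f LG
  have hle : LG.map f ≤ LM.map f := Submodule.map_mono h1
  have e3 : finrank (ZMod 2) (LG.map f) ≤ finrank (ZMod 2) (LM.map f) :=
    Submodule.finrank_mono hle
  have hsup : K ⊔ X ≤ LM ⊓ LinearMap.ker f := sup_le h2 h3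
  have e4 : finrank (ZMod 2) (K ⊔ X : Submodule (ZMod 2) E) ≤
      finrank (ZMod 2) (LM ⊓ LinearMap.ker f : Submodule (ZMod 2) E) :=
    Submodule.finrank_mono hsup
  have e5 := Submodule.finrank_sup_add_finrank_inf_eq K X
  rw [h4, finrank_bot, add_zero] at e5
  have hmap : LG.map f = LM.map f := Submodule.eq_of_le_of_finrank_le hle (by omega)
  have hker : K ⊔ X = LM ⊓ LinearMap.ker f := Submodule.eq_of_le_of_finrank_le hsup (by omega)
  intro w hw
  have h6 : f w ∈ LG.map f := by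
    rw [hmap]
    exact Submodule.mem_map_of_mem hw
  obtain ⟨w', hw', hf⟩ := Submodule.mem_map.mp h6
  have h7 : w - w' ∈ LM ⊓ LinearMap.ker f := by
    refine ⟨LM.sub_mem hw (h1 hw'), LinearMap.mem_ker.2 ?_⟩
    rw [map_sub, hf, sub_self]
  rw [← hker] at h7
  rw [sup_assoc]
  have h8 : w = w' + (w - w') := by abel
  rw [h8]
  exact Submodule.add_mem_sup hw' h7

variable {V : Type} [Fintype V] {G : SimpleGraph V} {M : Drawing G}

/-- If the main count is an equality, then every `w ∈ LM` is the sum of an element of `LG` and a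
function on the faces.

Proof. As in `Side.main_count` (its proof): `dim (LG ⊓ ker ThL) ≤ dim D + dim X`,
`|Vert| + |E| + 1 ≤ dim LG + |V|` (`finrank_LG`), `dim LM ≤ |Edge| + 1` (`finrank_LM`),
`dim invF = |Face|`. With the hypothesis:
`dim (LG ⊓ ker) + dim LM ≤ dim D + dim X + |Edge| + 1 ≤ |Vert| + |E| + |Face| - |V| + dim X + 1
≤ dim LG + dim invF + dim X`. So `linalg_eq` applies: `LM ≤ LG ⊔ invF ⊔ X`, and `X ≤ LG`
(a function on the vertices has jump `0`; take `z = 0`). -/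
theorem Side.LM_le (σ : Side M) (hE : M.IndependentlyEven) (a : G.Dart)
    (h : finrank (ZMod 2) σ.sys.D + Fintype.card V + Nat.card M.Edge ≤
      Nat.card M.Vert + Nat.card G.edgeSet + Nat.card M.Face) :
    M.LM ≤ M.LG ⊔ M.invF := by
  have : Nonempty V := ⟨a.fst⟩
  have h2 := finrank_LG M σ
  have h3 := M.toGMap.finrank_LM σ.sd σ.sd_t2 σ.sd_t0
  have h4 := M.toGMap.finrank_invF
  have e1 := a12_rank σ.Ph (M.LG ⊓ LinearMap.ker σ.ThL)
  have e2 : finrank (ZMod 2) ((M.LG ⊓ LinearMap.ker σ.ThL).map σ.Ph) ≤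
      finrank (ZMod 2) σ.sys.D := by
    apply Submodule.finrank_mono
    rintro _ ⟨w, ⟨hw, hw'⟩, rfl⟩
    exact σ.Ph_mem hE w hw (LinearMap.mem_ker.1 hw')
  have e3 : finrank (ZMod 2) ((M.LG ⊓ LinearMap.ker σ.ThL) ⊓ LinearMap.ker σ.Ph :
      Submodule (ZMod 2) (M.D → ZMod 2)) ≤ finrank (ZMod 2) M.X := by
    apply Submodule.finrank_mono
    rintro w ⟨⟨hw, -⟩, hk⟩
    exact σ.Ph_ker w hw (LinearMap.mem_ker.1 hk)
  have h4' : finrank (ZMod 2) M.invF = Nat.card M.Face := h4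
  have h5 := linalg_eq σ.ThL M.LM M.LG M.invF M.X (LG_le_LM M) (invF_le σ) (X_le σ)
    (invF_inf_X M a) (by omega)
  have hX : M.X ≤ M.LG := by
    rintro w ⟨hV, -⟩
    have hw' := (GMap.mem_invV _ _).1 hV
    refine ⟨(GMap.mem_inv1 _ _).2 hw'.1, 0, fun _ _ => rfl, fun _ _ _ => rfl, fun d => ?_⟩
    rw [hw'.2]
    exact CharTwo.add_self_eq_zero _
  exact h5.trans (sup_le le_rfl (hX.trans le_sup_left))

end Pool.Agent.HTE
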