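import Pool.Agent.HTE.A0
import Pool.Agent.HTE.A4

set_option autoImplicit false

namespace Pool.Agent.HTE

open Module

open scoped Classical in
theorem e11_dec {α : Type} {a b : α} (h : a ≠ b) :
    decide (WellOrderingRel b a) = !decide (WellOrderingRel a b) := by
  rcases trichotomous_of (WellOrderingRel : α → α → Prop) a b with h1 | h1 | h1
  · have h2 : ¬ WellOrderingRel b a := fun h3 => asymm_of (WellOrderingRel : α → α → Prop) h1 h3
    rw [decide_eq_true h1, decide_eq_false h2]
    rfl
  · exact absurd h1 h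
  · have h2 : ¬ WellOrderingRel a b := fun h3 => asymm_of (WellOrderingRel : α → α → Prop) h1 h3
    rw [decide_eq_true h1, decide_eq_false h2]
    rfl

/-- A fixed-point-free involution has a transversal. Proof: choose by `Quot.out` an element `r d` of
each class of the relation `e = t d` (classes `{d, t d}`); `H d = decide (r = d)` where
`r = (Quot.mk _ d).out`. For every `d` the chosen element is `d` or `t d`, not both. -/
theorem exists_transversal {D : Type} (t : D → D) (ht : ∀ d, t (t d) = d) (hne : ∀ d, t d ≠ d) :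
    ∃ H : D → Bool, ∀ d, H (t d) = !H d := by
  classical
  refine ⟨fun d => decide (WellOrderingRel d (t d)), fun d => ?_⟩
  show decide (WellOrderingRel (t d) (t (t d))) = !decide (WellOrderingRel d (t d))
  rw [ht]
  exact e11_dec (hne d).symm

variable {V : Type} {G : SimpleGraph V}

/-- A transversal of `t1` which at every crossing selects the flags along one of the two arcs.

Proof. Let `i : Sym2 V → ℕ` be injective if `V` is finite (or use any linear order on `Sym2 V`,
e.g. `linearOrderOfSTO`/`WellOrderingRel`; a well order exists on every type: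
`exists_wellOrder`/`WellOrderingRel`). For crossing flags let
`H d = decide ((lab d).edge < (lab (t1 d)).edge)`. `cross_ne` gives `H (t1 d) = !H d` (`t1_t1`).
`H (t2 d) = H d`: `lab (t2 d) = lab d`, and `(lab (t1 (t2 d))).edge = (lab (t1 d)).edge`
(`cross_opp` applied to `t2 (t1 d)`: `lab (t1 (t2 d)) = (lab (t2 (t1 d))).symm = (lab (t1 d)).symm`).
`H (st d) = H d`: `lab (st d) = (lab d).symm`, `lab (t1 (st d)) = lab (t2 (t1 d)) = lab (t1 d)`.
For noncrossing flags take any transversal (`exists_transversal`); `cross_t1` shows that `t1` keeps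
the two kinds of flags. -/
theorem exists_H1 (M : Drawing G) : ∃ H : M.D → Bool, (∀ d, H (M.t1 d) = !H d) ∧
    (∀ d, M.cross d → H (M.t2 d) = H d) ∧ ∀ d, M.cross d → H (M.st d) = H d := by
  classical
  obtain ⟨H0, hH0⟩ := exists_transversal M.t1 M.t1_t1 M.t1_ne
  obtain ⟨K, hK⟩ : ∃ K : M.D → Bool, ∀ d,
      K d = decide (WellOrderingRel (M.lab d).edge (M.lab (M.t1 d)).edge) := ⟨_, fun _ => rfl⟩
  obtain ⟨H, hH⟩ : ∃ H : M.D → Bool, ∀ d, H d = if M.cross d then K d else H0 d :=
    ⟨_, fun _ => rfl⟩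
  refine ⟨H, fun d => ?_, fun d hd => ?_, fun d hd => ?_⟩
  · rw [hH, hH]
    by_cases hd : M.cross d
    · rw [if_pos ((M.cross_t1 d).2 hd), if_pos hd, hK, hK, M.t1_t1]
      exact e11_dec (M.cross_ne d hd).symm
    · rw [if_neg (fun h => hd ((M.cross_t1 d).1 h)), if_neg hd]
      exact hH0 d
  · rw [hH, hH, if_pos ((M.cross_t2 d).2 hd), if_pos hd, hK, hK, M.lab_t2]
    have h1 := M.cross_opp (M.t2 (M.t1 d)) ((M.cross_t2 _).2 ((M.cross_t1 _).2 hd))
    rw [M.t2_t2, M.t1_t1, M.lab_t2] at h1
    rw [h1, SimpleGraph.Dart.edge_symm]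
  · rw [hH, hH, if_pos ((M.cross_st d).2 hd), if_pos hd, hK, hK, M.lab_st d hd,
      SimpleGraph.Dart.edge_symm]
    have h1 : M.t1 (M.st d) = M.t2 (M.t1 d) := M.t1_t1 _
    rw [h1, M.lab_t2]

/-- `w ↦ w + w ∘ t1`. -/
def e11_L (M : GMap) : (M.D → ZMod 2) →ₗ[ZMod 2] (M.D → ZMod 2) where
  toFun w d := w d + w (M.t1 d)
  map_add' w w' := by
    funext d
    simp only [Pi.add_apply]
    ring
  map_smul' b w := by
    funext d
    simp only [Pi.smul_apply, smul_eq_mul, RingHom.id_apply]
    ring

open scoped Classical in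
/-- A sum over all flags is the sum over those with `H d = false` of `x d + x (t1 d)`. -/
theorem e11_sum (M : GMap) (H : M.D → Bool) (hH : ∀ d, H (M.t1 d) = !H d) (x : M.D → ZMod 2) :
    ∑ d, x d = ∑ d ∈ Finset.univ.filter (fun d => H d = false), (x d + x (M.t1 d)) := by
  rw [Finset.sum_add_distrib, ← Finset.sum_filter_add_sum_filter_not Finset.univ
    (fun d => H d = false) x]
  congr 1
  refine Finset.sum_nbij' M.t1 M.t1 ?_ ?_ (fun d _ => M.t1_t1 d) (fun d _ => M.t1_t1 d) ?_
  · intro d hd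
    simp only [Finset.mem_filter, Finset.mem_univ, true_and, hH] at hd ⊢
    revert hd
    cases H d <;> simp
  · intro d hd
    simp only [Finset.mem_filter, Finset.mem_univ, true_and, hH] at hd ⊢
    rw [hd]
    simp
  · intro d _
    rw [M.t1_t1]

theorem e11_perm (M : GMap) (x : M.D → ZMod 2) : ∑ d, x (M.t1 d) = ∑ d, x d :=
  Finset.sum_nbij' M.t1 M.t1 (fun _ _ => Finset.mem_univ _) (fun _ _ => Finset.mem_univ _)
    (fun d _ => M.t1_t1 d) (fun d _ => M.t1_t1 d) (fun _ _ => rfl)

open scoped Classical in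
/-- **Duality.** `ε` is a `t1`-invariant function with `∑_{H1 d = false} ε d * w d = 0` for all
`w ∈ LM`. Then `ε = β + β ∘ t1` with a function `β` on the edges.

Proof. (Same pattern as `GMap.exists_corner`.) Let `R` be the range of the linear map
`invE → (D → F)`, `β ↦ β + β ∘ t1`. If `ε ∉ R` there is a linear functional `f` on `D → F` with
`f = 0` on `R`, `f ε ≠ 0`. Let `b d = f (Pi.single d 1)`, `f x = ∑ b d * x d`, and
`w d = b d + b (t1 d)`, which is `t1`-invariant. For `β ∈ invE`:
`0 = ∑ b d * (β d + β (t1 d)) = ∑ w d * β d`. For `β` the indicator of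
`{d, t2 d, t0 d, t0 (t2 d)}` (four different flags: `t2_ne`, `t0_ne`, `t0_t2_ne`; it is in `invE`):
`w d + w (t2 d) + w (t0 d) + w (t0 (t2 d)) = 0`. So `w ∈ LM` (`t0 (t2 d) = t2 (t0 d)`).
`f ε = ∑ b d * ε d = ∑_{H1 d = false} (b d + b (t1 d)) * ε d = ∑_{H1 d = false} w d * ε d = 0`,
a contradiction. -/
theorem GMap.exists_edge_fun (M : GMap) (H : M.D → Bool) (hH : ∀ d, H (M.t1 d) = !H d)
    (ε : M.D → ZMod 2) (hε : ε ∈ M.inv1)
    (h : ∀ w ∈ M.LM, ∑ d ∈ Finset.univ.filter (fun d => H d = false), ε d * w d = 0) :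
    ∃ β ∈ M.invE, ∀ d, β d + β (M.t1 d) = ε d := by
  have hfun : ∀ f : Module.Dual (ZMod 2) (M.D → ZMod 2), ∀ x : M.D → ZMod 2,
      f x = ∑ d, x d * f (Pi.single d 1) := by
    intro f x
    rw [LinearMap.pi_apply_eq_sum_univ f x]
    refine Finset.sum_congr rfl fun d _ => ?_
    rw [smul_eq_mul]
    congr 2
    funext e
    rw [Pi.single_apply]
    by_cases hde : d = e
    · rw [if_pos hde, if_pos hde.symm]
    · rw [if_neg hde, if_neg (fun h => hde h.symm)]
  by_cases hR : ε ∈ (M.invE).map (e11_L M)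
  · obtain ⟨β, hβ, hβε⟩ := hR
    exact ⟨β, hβ, fun d => congrFun hβε d⟩
  · exfalso
    obtain ⟨f, hf1, hf2⟩ := Submodule.exists_le_ker_of_notMem hR
    have hz : ∀ β ∈ M.invE, ∑ d, β d * (f (Pi.single d 1) + f (Pi.single (M.t1 d) 1)) = 0 := by
      intro β hβ
      have h0 : f (e11_L M β) = 0 := hf2 (Submodule.mem_map_of_mem hβ)
      rw [hfun] at h0
      have h1 : ∀ d, e11_L M β d = β d + β (M.t1 d) := fun d => rfl
      simp only [h1, add_mul, Finset.sum_add_distrib] at h0
      have h2 := e11_perm M (fun d => β (M.t1 d) * f (Pi.single d 1))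
      simp only [M.t1_t1] at h2
      simp only [mul_add, Finset.sum_add_distrib]
      rw [h2]
      exact h0
    set w : M.D → ZMod 2 := fun d => f (Pi.single d 1) + f (Pi.single (M.t1 d) 1) with hw
    have ht1 : ∀ d, w (M.t1 d) = w d := by
      intro d
      simp only [hw, M.t1_t1]
      ring
    have ht02 : ∀ d, w (M.t0 d) + w (M.t2 (M.t0 d)) = w d + w (M.t2 d) := by
      intro d
      have hβ : (Pi.single d 1 + Pi.single (M.t2 d) 1 + (Pi.single (M.t0 d) 1 +
          Pi.single (M.t0 (M.t2 d)) 1) : M.D → ZMod 2) ∈ M.invE := by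
        rw [GMap.mem_invE]
        constructor
        · intro e
          simp only [Pi.add_apply, Pi.single_apply]
          have e1 : ∀ x, (M.t0 e = x) ↔ (e = M.t0 x) := fun x =>
            ⟨fun h => by rw [← h, M.t0_t0], fun h => by rw [h, M.t0_t0]⟩
          simp only [e1, M.t0_t0]
          ring
        · intro e
          simp only [Pi.add_apply, Pi.single_apply]
          have e1 : ∀ x, (M.t2 e = x) ↔ (e = M.t2 x) := fun x =>
            ⟨fun h => by rw [← h, M.t2_t2], fun h => by rw [h, M.t2_t2]⟩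
          simp only [e1, ← M.t0_t2, M.t2_t2]
          ring
      have h1 := hz _ hβ
      simp only [Pi.add_apply, add_mul, Finset.sum_add_distrib, Pi.single_apply, ite_mul, one_mul,
        zero_mul, Finset.sum_ite_eq', Finset.mem_univ, if_true] at h1
      have h2 : w d + w (M.t2 d) + (w (M.t0 d) + w (M.t0 (M.t2 d))) = 0 := h1
      rw [← M.t0_t2]
      exact (CharTwo.add_eq_zero.1 h2).symm
    have hwL : w ∈ M.LM := ⟨(M.mem_inv1 w).2 ht1, ht02⟩
    have h3 := h w hwL
    apply hf1
    rw [hfun, e11_sum M H hH, ← h3]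
    refine Finset.sum_congr rfl fun d _ => ?_
    rw [(M.mem_inv1 ε).1 hε d]
    simp only [hw]
    ring

end Pool.Agent.HTE
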