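import Pool.Agent.HTE.A7
import Pool.Agent.HTE.A8

set_option autoImplicit false

namespace Pool.Agent.HTE

open Module

variable {V : Type} [Fintype V] {G : SimpleGraph V} {M : Drawing G}

open scoped Classical in
private theorem e12_pair {D : Type} (X : Finset D) (t : D → D) (htt : ∀ d, t (t d) = d)
    (hX : ∀ d ∈ X, t d ∈ X) (q : D → Bool) (hq : ∀ d ∈ X, q (t d) = !q d) (F : D → ZMod 2) :
    ∑ d ∈ X, F d = ∑ d ∈ X.filter (fun d => q d = false), (F d + F (t d)) := by
  rw [Finset.sum_add_distrib, ← Finset.sum_filter_add_sum_filter_not X (fun d => q d = false)]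
  congr 1
  symm
  refine Finset.sum_nbij' t t ?_ ?_ ?_ ?_ ?_
  · intro d hd
    rw [Finset.mem_filter] at hd ⊢
    refine ⟨hX d hd.1, ?_⟩
    rw [hq d hd.1, hd.2]
    decide
  · intro d hd
    rw [Finset.mem_filter] at hd ⊢
    refine ⟨hX d hd.1, ?_⟩
    have h2 : q d = true := by
      cases h3 : q d
      · exact absurd h3 hd.2
      · rfl
    rw [hq d hd.1, h2]
    rfl
  · intro d _
    exact htt d
  · intro d _
    exact htt d
  · intro d _
    rfl

private theorem e12_half {D : Type} (W : Finset D) (t : D → D) (htt : ∀ d, t (t d) = d)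
    (hW : ∀ d ∈ W, t d ∈ W) (P : D → Prop) [DecidablePred P] (hP : ∀ d ∈ W, (P (t d) ↔ ¬ P d)) :
    2 * (W.filter P).card = W.card := by
  have h1 : (W.filter P).card = (W.filter (fun d => ¬ P d)).card := by
    refine Finset.card_nbij' t t ?_ ?_ ?_ ?_
    · intro d hd
      rw [Finset.mem_coe, Finset.mem_filter] at hd ⊢
      exact ⟨hW d hd.1, fun h => (hP d hd.1).1 h hd.2⟩
    · intro d hd
      rw [Finset.mem_coe, Finset.mem_filter] at hd ⊢
      exact ⟨hW d hd.1, (hP d hd.1).2 hd.2⟩
    · intro d _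
      exact htt d
    · intro d _
      exact htt d
  have h2 := Finset.card_filter_add_card_filter_not (s := W) P
  omega

private theorem e12_sum {D : Type} (s : Finset D) (w : D → ZMod 2) :
    ∑ d ∈ s, w d = ((s.filter (fun d => w d = 1)).card : ZMod 2) := by
  rw [← Finset.sum_boole]
  refine Finset.sum_congr rfl fun d _ => ?_
  have h2 : ∀ x : ZMod 2, x = if x = 1 then 1 else 0 := by decide
  exact h2 (w d)

private theorem e12_two (x : ZMod 2) : x + x = 0 := CharTwo.add_self_eq_zero x

open scoped Classical in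
/-- **Faces.** `O : D → F` is switched by `t0` and `t2` (not necessarily by `t1`),
`ε d = O d + O (t1 d) + 1`. For a function `w` on the faces `∑_{H d = false} ε d * w d = 0`
(`H` a transversal of `t1`).

Proof. `∑_{H d = false} (O d + O (t1 d)) * w d = ∑_d O d * w d` (`w (t1 d) = w d`, `t1` is a
bijection between `H = false` and `H = true`). Let `H0` be a transversal of `t0`
(`exists_transversal` is in E11; here prove it again as a private lemma or choose
`H0 d = decide (O d = 0)`, which is a transversal of `t0` since `O (t0 d) = O d + 1`!). Then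
`∑_d O d * w d = ∑_{H0 d = true} (O d + O (t0 d)) * w d = ∑_{O d = 0} w d` (`O d + O (t0 d) = 1`).
In `ZMod 2`, `∑_{O d = 0} w d` is the number of flags with `w d = 1`, `O d = 0`, i.e. half the number
`n` of flags with `w d = 1` (the bijection `t0`), and `∑_{H d = false} w d` is the number of flags
with `w d = 1`, `H d = false`, also `n / 2` (the bijection `t1`). So the total is
`n / 2 + n / 2 = 0` in `ZMod 2`. -/
theorem eps_face (M : Drawing G) (O : M.D → ZMod 2) (h0 : ∀ d, O (M.t0 d) = O d + 1)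
    (H : M.D → Bool) (hH : ∀ d, H (M.t1 d) = !H d) (w : M.D → ZMod 2) (hw : w ∈ M.invF) :
    ∑ d ∈ Finset.univ.filter (fun d => H d = false), (O d + O (M.t1 d) + 1) * w d = 0 := by
  have hw0 : ∀ d, w (M.t0 d) = w d := ((M.mem_invF w).1 hw).1
  have hw1 : ∀ d, w (M.t1 d) = w d := ((M.mem_invF w).1 hw).2
  have h1 : ∑ d, O d * w d = ∑ d ∈ Finset.univ.filter (fun d => H d = false),
      (O d * w d + O (M.t1 d) * w (M.t1 d)) :=
    e12_pair Finset.univ M.t1 M.t1_t1 (fun d _ => Finset.mem_univ _) H (fun d _ => hH d)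
      (fun d => O d * w d)
  have h2 : ∑ d ∈ Finset.univ.filter (fun d => H d = false), (O d + O (M.t1 d) + 1) * w d =
      ∑ d, O d * w d + ∑ d ∈ Finset.univ.filter (fun d => H d = false), w d := by
    rw [h1, ← Finset.sum_add_distrib]
    refine Finset.sum_congr rfl fun d _ => ?_
    rw [hw1]
    ring
  have h3 : ∑ d, O d * w d = ∑ d ∈ Finset.univ.filter (fun d => O d = 1), w d := by
    rw [Finset.sum_filter]
    refine Finset.sum_congr rfl fun d _ => ?_
    have h4 : ∀ x y : ZMod 2, x * y = if x = 1 then y else 0 := by decide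
    exact h4 _ _
  rw [h2, h3, e12_sum, e12_sum, Finset.filter_filter, Finset.filter_filter]
  have h5 := e12_half (Finset.univ.filter (fun d => w d = 1)) M.t1 M.t1_t1
    (fun d hd => by
      rw [Finset.mem_filter] at hd ⊢
      exact ⟨Finset.mem_univ _, by rw [hw1]; exact hd.2⟩) (fun d => H d = false)
    (fun d _ => by
      rw [hH]
      cases H d <;> simp)
  have h6 := e12_half (Finset.univ.filter (fun d => w d = 1)) M.t0 M.t0_t0
    (fun d hd => by
      rw [Finset.mem_filter] at hd ⊢
      exact ⟨Finset.mem_univ _, by rw [hw0]; exact hd.2⟩) (fun d => O d = 1)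
    (fun d _ => by
      rw [h0]
      have h7 : ∀ x : ZMod 2, x + 1 = 1 ↔ ¬ x = 1 := by decide
      exact h7 _)
  have h7 : (Finset.univ.filter (fun d => O d = 1 ∧ w d = 1)).card =
      (Finset.univ.filter (fun d => H d = false ∧ w d = 1)).card := by
    rw [← Finset.filter_filter, ← Finset.filter_filter, Finset.filter_comm,
      Finset.filter_comm (p := fun d => H d = false)]
    omega
  rw [h7]
  exact e12_two _

open scoped Classical in
/-- **Crossings.** For `w ∈ LG` the sum over the crossing flags with `H d = false` is `0`, where `H`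
is as in `exists_H1`.

Proof. Let `ε d = O d + O (t1 d) + 1`. For crossing `d`: `ε (t2 d) = ε d` and `ε (st d) = ε d`.
Indeed `O (t2 d) = O d + 1`, `O (st d) = O d + 1` (`hst`), so
`O (t1 (t2 d)) = O (st (t2 (t1 d)))`: note `st (t2 (t1 d)) = t1 (t2 (t1 (t2 (t1 d))))` and by
`cross_four` `t1 (t2 (t1 (t2 (t1 d)))) = t2 (t1 (t2 d))`; simpler: apply `hst` to the crossing flag
`t1 d`: `O (t1 (t2 (t1 (t1 d)))) = O (t1 (t2 d)) = O (t1 d) + 1`. So
`ε (t2 d) = O d + 1 + O (t1 d) + 1 + 1 = ε d`. And `t1 (st d) = t2 (t1 d)`, so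
`ε (st d) = (O d + 1) + (O (t1 d) + 1) + 1 = ε d`.
Let `X` be the set of crossing flags with `H d = false`; it is closed under `t2` and `st`
(`hH2`, `hH3`, `cross_st`, `cross_t2`). `t2` is a bijection between the elements with `sd = false`
and those with `sd = true`, so
`∑_{X} ε d * w d = ∑_{X, sd d = false} ε d * (w d + w (t2 d)) = ∑_{X, sd d = false} ε d * y d`,
`y d = z (lab d).fst (lab d).snd` the jump. `st` is a fixed-point-free involution of
`{d ∈ X | sd d = false}` (`st_st`, `sd_st`; `lab (st d) = (lab d).symm ≠ lab d`) which leaves `ε` and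
`y` invariant (`lab_st`, `z` symmetric). So the sum is `0` (`Finset.sum_involution`). -/
theorem eps_cross (σ : Side M) (O : M.D → ZMod 2) (h2 : ∀ d, O (M.t2 d) = O d + 1)
    (hst : ∀ d, M.cross d → O (M.st d) = O d + 1)
    (H : M.D → Bool) (hH : ∀ d, H (M.t1 d) = !H d) (hH2 : ∀ d, M.cross d → H (M.t2 d) = H d)
    (hH3 : ∀ d, M.cross d → H (M.st d) = H d) (w : M.D → ZMod 2) (hw : w ∈ M.LG) :
    ∑ d ∈ Finset.univ.filter (fun d => H d = false ∧ M.cross d),
      (O d + O (M.t1 d) + 1) * w d = 0 := by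
  obtain ⟨hw1, z, hz, hz0, hwz⟩ := hw
  have heps : ∀ d, M.cross d → O (M.t1 (M.t2 d)) = O (M.t1 d) + 1 := by
    intro d hd
    have h3 := hst (M.t1 d) ((M.cross_t1 d).2 hd)
    rw [Drawing.st, M.t1_t1] at h3
    exact h3
  have heps2 : ∀ d, M.cross d → O (M.t2 d) + O (M.t1 (M.t2 d)) + 1 = O d + O (M.t1 d) + 1 := by
    intro d hd
    rw [h2, heps d hd]
    linear_combination e12_two 1
  have heps3 : ∀ d, M.cross d → O (M.st d) + O (M.t1 (M.st d)) + 1 = O d + O (M.t1 d) + 1 := by
    intro d hd
    have h3 : M.t1 (M.st d) = M.t2 (M.t1 d) := by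
      rw [Drawing.st, M.t1_t1]
    rw [h3, h2, hst d hd]
    linear_combination e12_two 1
  rw [e12_pair _ M.t2 M.t2_t2 (fun d hd => by
    rw [Finset.mem_filter] at hd ⊢
    exact ⟨Finset.mem_univ _, by rw [hH2 d hd.2.2]; exact hd.2.1, (M.cross_t2 d).2 hd.2.2⟩)
    σ.sd (fun d _ => σ.sd_t2 d)]
  refine Finset.sum_involution (fun d _ => M.st d) ?_ ?_ ?_ ?_
  · intro d hd
    rw [Finset.mem_filter, Finset.mem_filter] at hd
    have hc := hd.1.2.2
    have hcs : M.cross (M.st d) := (M.cross_st d).2 hc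
    rw [heps2 d hc, heps2 _ hcs, heps3 d hc, ← mul_add, ← mul_add, hwz, hwz, M.lab_st d hc]
    have h3 : z (M.lab d).symm.fst (M.lab d).symm.snd = z (M.lab d).fst (M.lab d).snd := hz _ _
    rw [h3]
    exact e12_two _
  · intro d hd _ h3
    rw [Finset.mem_filter, Finset.mem_filter] at hd
    have h4 := M.lab_st d hd.1.2.2
    rw [h3] at h4
    exact (M.lab d).symm_ne h4.symm
  · intro d hd
    rw [Finset.mem_filter, Finset.mem_filter] at hd ⊢
    have hc := hd.1.2.2
    exact ⟨⟨Finset.mem_univ _, by rw [hH3 d hc]; exact hd.1.2.1, (M.cross_st d).2 hc⟩,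
      by
        have h5 := σ.sd_st d hc
        show σ.sd (M.st d) = false
        rw [Drawing.st, h5]
        exact hd.2⟩
  · intro d _
    exact M.st_st d

end Pool.Agent.HTE
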