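import Pool.Agent.HTE.E1

set_option autoImplicit false

namespace Pool.Agent.HTE

open Module

variable {V : Type} [Fintype V] {G : SimpleGraph V}

open scoped Classical in
/-- The word with a single `1`, on the side `s` of the leg `u`. -/
noncomputable def wd (u : V) (s : Bool) : V → Bool → ZMod 2 :=
  fun x t => if x = u ∧ t = s then 1 else 0

/-- The inner product with `wd u s` is the value at `(u, s)`. -/
theorem sum_wd (c : V → Bool → ZMod 2) (u : V) (s : Bool) :
    ∑ x, ∑ t, c x t * wd u s x t = c u s := by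
  rw [Finset.sum_eq_single u]
  · rw [Fintype.sum_bool]
    unfold wd
    cases s <;> simp
  · intro x _ hx
    apply Finset.sum_eq_zero
    intro t _
    unfold wd
    rw [if_neg (fun h => hx h.1), mul_zero]
  · intro h
    exact absurd (Finset.mem_univ _) h

/-- A word of `C v` takes equal values at `p` and `q` if `wd p + wd q ∈ C v` (`S.orth`,
`sum_wd`). -/
theorem Sys.eq_of_pair (S : Sys G) (v : V) (u u' : V) (s s' : Bool)
    (h : wd u s + wd u' s' ∈ S.C v) (c : V → Bool → ZMod 2) (hc : c ∈ S.C v) :
    c u s = c u' s' := by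
  have h1 := S.orth v c _ hc h
  have h2 : ∑ x, ∑ t, c x t * (wd u s + wd u' s') x t =
      ∑ x, ∑ t, c x t * wd u s x t + ∑ x, ∑ t, c x t * wd u' s' x t := by
    rw [← Finset.sum_add_distrib]
    refine Finset.sum_congr rfl fun x _ => ?_
    rw [← Finset.sum_add_distrib]
    refine Finset.sum_congr rfl fun t _ => ?_
    rw [Pi.add_apply, Pi.add_apply, mul_add]
  rw [h2, sum_wd, sum_wd] at h1
  have h3 : ∀ a b : ZMod 2, a + b = 0 → a = b := by decide
  exact h3 _ _ h1

omit [Fintype V] in
private theorem e4_self (u : V) (s : Bool) : wd u s u false + wd u s u true = 1 := by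
  unfold wd
  cases s <;> simp

omit [Fintype V] in
private theorem e4_other (u w : V) (s b : Bool) (h : u ≠ w) : wd w s u b = 0 := by
  unfold wd
  rw [if_neg (fun h' => h h'.1)]

/-- Words of `C v` supported on two legs `u ≠ w` (neighbours of `v`), when `v` has a third
neighbour `y`: such a word `c ≠ 0` is of the form `wd u s + wd w t`, and it is the only nonzero
one.
Proof: put `z x = c x false + c x true`. `∑ x, z x = 0`: `S.orth v c c` says
`∑ x, ∑ s, c x s * c x s = 0` and `a * a = a` in `ZMod 2`. So `z u = z w` (other legs vanish). If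
`z u = 0` then `c` is constant on all legs, so `c = 0` or `c y = 1`; but `c y = 0`. Contradiction.
So `z u = z w = 1`, i.e. exactly one of `c u false, c u true` is `1`, same for `w`. Uniqueness: if
`c, c'` are two such words, `c + c'` is supported on `{u, w}` with `z = 0`, hence `0`. -/
theorem Sys.two_leg (S : Sys G) (v u w y : V) (huw : u ≠ w) (hyu : y ≠ u) (hyw : y ≠ w)
    (hy : G.Adj v y) (c : V → Bool → ZMod 2) (hc : c ∈ S.C v)
    (hs : ∀ x, x ≠ u → x ≠ w → c x = 0) (h0 : c ≠ 0) :
    ∃ s t, c = wd u s + wd w t := by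
  classical
  have hvan : ∀ x, x ≠ u → x ≠ w → ∀ b, c x b = 0 := by
    intro x h1 h2 b
    rw [hs x h1 h2]
    rfl
  have hsum : (c u false + c u true) + (c w false + c w true) = 0 := by
    have h1 := S.orth v c c hc hc
    have h2 : ∀ x, ∑ b, c x b * c x b = c x false + c x true := by
      intro x
      rw [Fintype.sum_bool]
      have h3 : ∀ a b : ZMod 2, a * a + b * b = b + a := by decide
      exact h3 _ _
    rw [Finset.sum_congr rfl (fun x _ => h2 x),
      ← Finset.sum_subset (Finset.subset_univ ({u, w} : Finset V)) (by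
        intro x _ hx
        rw [Finset.mem_insert, Finset.mem_singleton, not_or] at hx
        rw [hvan x hx.1 hx.2, hvan x hx.1 hx.2, add_zero]), Finset.sum_pair huw] at h1
    exact h1
  have hzu : c u false + c u true = 1 := by
    by_contra hcon
    have h3 : ∀ a : ZMod 2, a ≠ 1 → a = 0 := by decide
    have h4 := h3 _ hcon
    have h5 : c w false + c w true = 0 := by
      rw [h4, zero_add] at hsum
      exact hsum
    have h6 : ∀ a b : ZMod 2, a + b = 0 → a = b := by decide
    have h7 : ∀ x, c x false = c x true := by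
      intro x
      by_cases h8 : x = u
      · rw [h8]
        exact h6 _ _ h4
      · by_cases h9 : x = w
        · rw [h9]
          exact h6 _ _ h5
        · rw [hvan x h8 h9, hvan x h8 h9]
    rcases S.tran v c hc h7 with h8 | h8
    · exact h0 h8
    · have h9 := h8 y hy
      rw [hs y hyu hyw] at h9
      have h10 := congrFun h9 false
      exact zero_ne_one h10
  have hzw : c w false + c w true = 1 := by
    rw [hzu] at hsum
    have h3 : ∀ a : ZMod 2, 1 + a = 0 → a = 1 := by decide
    exact h3 _ hsum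
  have hch : ∀ x, c x false + c x true = 1 → ∃ s : Bool, ∀ b, c x b = wd x s x b := by
    intro x hx
    have h3 : ∀ a b : ZMod 2, a + b = 1 → (a = 1 ∧ b = 0) ∨ (a = 0 ∧ b = 1) := by decide
    rcases h3 _ _ hx with ⟨h4, h5⟩ | ⟨h4, h5⟩
    · refine ⟨false, fun b => ?_⟩
      cases b <;> simp [wd, h4, h5]
    · refine ⟨true, fun b => ?_⟩
      cases b <;> simp [wd, h4, h5]
  obtain ⟨s, hs'⟩ := hch u hzu
  obtain ⟨t, ht'⟩ := hch w hzw
  refine ⟨s, t, ?_⟩
  funext x b
  rw [Pi.add_apply, Pi.add_apply]
  by_cases h8 : x = u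
  · rw [h8, hs' b, e4_other u w t b huw, add_zero]
  · by_cases h9 : x = w
    · rw [h9, ht' b, e4_other w u s b huw.symm, zero_add]
    · rw [hvan x h8 h9, e4_other x u s b h8, e4_other x w t b h9, add_zero]

open scoped Classical in
/-- `g v P ≤ 1` for a pair `P` of legs if `v` has degree at least three (see `Sys.two_leg`:
the sum of two different nonzero words of `sub v P` would be a nonzero word, and all three have
`z u = 1`, impossible; so `sub v P` has at most one nonzero element). -/
theorem Sys.g_pair_le (S : Sys G) (v : V) (P : Finset V) (hP : P.card = 2)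
    (hd : 3 ≤ (Finset.univ.filter (fun u => G.Adj v u)).card) : S.g v P ≤ 1 := by
  classical
  obtain ⟨u, w, huw, rfl⟩ := Finset.card_eq_two.1 hP
  obtain ⟨y, hy1, hy2⟩ : ∃ y, G.Adj v y ∧ y ∉ ({u, w} : Finset V) := by
    obtain ⟨y, hy, hy'⟩ := Finset.exists_mem_notMem_of_card_lt_card
      (s := ({u, w} : Finset V)) (t := Finset.univ.filter (fun u => G.Adj v u)) (by omega)
    exact ⟨y, (Finset.mem_filter.1 hy).2, hy'⟩
  rw [Finset.mem_insert, Finset.mem_singleton, not_or] at hy2
  have hform : ∀ c ∈ S.sub v (fun x => x ∈ ({u, w} : Finset V)), c ≠ 0 →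
      c u false + c u true = 1 := by
    rintro c ⟨hc1, hc2⟩ hc0
    obtain ⟨s, t, h1⟩ := S.two_leg v u w y huw hy2.1 hy2.2 hy1 c hc1
      (fun x h2 h3 => hc2 x (by
        show ¬ x ∈ ({u, w} : Finset V)
        rw [Finset.mem_insert, Finset.mem_singleton, not_or]
        exact ⟨h2, h3⟩)) hc0
    rw [h1]
    simp only [Pi.add_apply]
    rw [e4_other u w t false huw, e4_other u w t true huw, add_zero, add_zero]
    exact e4_self u s
  have huniq : ∀ c ∈ S.sub v (fun x => x ∈ ({u, w} : Finset V)),
      ∀ c' ∈ S.sub v (fun x => x ∈ ({u, w} : Finset V)), c ≠ 0 → c' ≠ 0 → c' = c := by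
    intro c hc c' hc' h1 h2
    by_contra h3
    have h4 : c + c' ≠ 0 := by
      intro h5
      apply h3
      funext x b
      have h6 := congrFun (congrFun h5 x) b
      rw [Pi.add_apply, Pi.add_apply] at h6
      have h7 : ∀ a b : ZMod 2, a + b = 0 → b = a := by decide
      exact h7 _ _ h6
    have h5 := hform _ ((S.sub v (fun x => x ∈ ({u, w} : Finset V))).add_mem hc hc') h4
    have h6 := hform c hc h1
    have h7 := hform c' hc' h2
    simp only [Pi.add_apply] at h5
    have h8 : ∀ a b a' b' : ZMod 2, (a + a') + (b + b') = 1 → a + b = 1 → a' + b' = 1 → False := by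
      decide
    exact h8 _ _ _ _ h5 h6 h7
  show finrank (ZMod 2) (S.sub v (fun x => x ∈ ({u, w} : Finset V))) ≤ 1
  by_cases hex : ∃ c ∈ S.sub v (fun x => x ∈ ({u, w} : Finset V)), c ≠ 0
  · obtain ⟨c, hc, hc0⟩ := hex
    refine finrank_le_one (⟨c, hc⟩ : S.sub v (fun x => x ∈ ({u, w} : Finset V))) ?_
    rintro ⟨c', hc'⟩
    by_cases h1 : c' = 0
    · refine ⟨0, ?_⟩
      apply Subtype.ext
      simp [h1]
    · refine ⟨1, ?_⟩
      apply Subtype.ext
      rw [one_smul]
      exact (huniq c hc c' hc' hc0 h1).symm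
  · push Not at hex
    have h1 : S.sub v (fun x => x ∈ ({u, w} : Finset V)) = ⊥ := by
      rw [Submodule.eq_bot_iff]
      exact hex
    rw [h1, finrank_bot]
    exact zero_le_one

end Pool.Agent.HTE
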