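import Pool.Agent.HTE.Defs
import Pool.Agent.HTE.A0
import Pool.Agent.HTE.E4

set_option autoImplicit false

namespace Pool.Agent.HTE

open Module

variable {V : Type} [Fintype V] {G : SimpleGraph V}

omit [Fintype V] in
theorem e7_ext {a b : G.Dart} (h1 : a.fst = b.fst) (h2 : a.snd = b.snd) : a = b := by
  apply SimpleGraph.Dart.ext
  exact Prod.ext h1 h2

omit [Fintype V] in
theorem e7_wd_self (u : V) (s : Bool) : wd u s u s = 1 := by
  unfold wd
  rw [if_pos ⟨rfl, rfl⟩]

omit [Fintype V] in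
theorem e7_wd_ne {u x : V} {s t : Bool} (h : ¬ (x = u ∧ t = s)) : wd u s x t = 0 := by
  unfold wd
  rw [if_neg h]

/-- A matching of the sides of the legs at all vertices, by words of the codes. -/
structure Match (S : Sys G) where
  τ : G.Dart × Bool → G.Dart × Bool
  fst : ∀ p, (τ p).1.fst = p.1.fst
  ne : ∀ p, (τ p).1 ≠ p.1
  mem : ∀ p, wd p.1.snd p.2 + wd (τ p).1.snd (τ p).2 ∈ S.C p.1.fst

/-- Existence (choice). For `p = (a, s)`, `v = a.fst`, `u = a.snd` take `u', s'` from `h` and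
`τ p = (⟨(v, u'), _⟩, s')`; it is different from `a` since `u' ≠ u`. -/
theorem exists_Match (S : Sys G)
    (h : ∀ v u, G.Adj v u → ∀ s, ∃ u' s', G.Adj v u' ∧ u' ≠ u ∧ wd u s + wd u' s' ∈ S.C v) :
    Nonempty (Match S) := by
  choose U T hadj hne hmem using h
  exact ⟨{ τ := fun p => (⟨(p.1.fst, U p.1.fst p.1.snd p.1.adj p.2), hadj _ _ _ _⟩,
            T p.1.fst p.1.snd p.1.adj p.2)
           fst := fun p => rfl
           ne := fun p hp => hne p.1.fst p.1.snd p.1.adj p.2 (congrArg (fun a : G.Dart => a.snd) hp)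
           mem := fun p => hmem p.1.fst p.1.snd p.1.adj p.2 }⟩

namespace Match

variable {S : Sys G} (μ : Match S)

/-- `τ` is an involution: put `p' = τ p`, `p'' = τ p'` (all three with the same `fst = v`). The word
`wd p + wd p' ∈ C v` takes equal values at `p'` and `p''` (`Sys.eq_of_pair` with
`wd p' + wd p'' ∈ C v`). Its value at `p'` is `1` (`p' ≠ p`, as the legs are different: darts with
the same `fst` and the same `snd` are equal), so its value at `p''` is `1`, i.e. `p'' = p` or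
`p'' = p'` (as pairs leg, side); the latter is excluded by `ne`. -/
theorem τ_τ (p : G.Dart × Bool) : μ.τ (μ.τ p) = p := by
  have h1 := μ.mem p
  have h2 := μ.mem (μ.τ p)
  rw [μ.fst p] at h2
  have h3 := S.eq_of_pair p.1.fst _ _ _ _ h2 _ h1
  have hne1 : ¬ ((μ.τ p).1.snd = p.1.snd) := fun h => μ.ne p (e7_ext (μ.fst p) h)
  have hne2 : ¬ ((μ.τ (μ.τ p)).1.snd = (μ.τ p).1.snd) :=
    fun h => μ.ne (μ.τ p) (e7_ext (μ.fst (μ.τ p)) h)
  simp only [Pi.add_apply] at h3
  rw [e7_wd_self, e7_wd_ne (fun h => hne1 h.1), e7_wd_ne (fun h => hne2 h.1), zero_add,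
    add_zero] at h3
  by_contra hcon
  have h4 : ¬ ((μ.τ (μ.τ p)).1.snd = p.1.snd ∧ (μ.τ (μ.τ p)).2 = p.2) := by
    rintro ⟨h5, h6⟩
    apply hcon
    refine Prod.ext (e7_ext ?_ h5) h6
    rw [μ.fst, μ.fst]
  rw [e7_wd_ne h4] at h3
  exact one_ne_zero h3

/-- Words of the code take equal values at `p` and `τ p`. (`Sys.eq_of_pair`.) -/
theorem eq_τ (v : V) (c : V → Bool → ZMod 2) (hc : c ∈ S.C v) (p : G.Dart × Bool)
    (hp : p.1.fst = v) : c p.1.snd p.2 = c (μ.τ p).1.snd (μ.τ p).2 := by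
  subst hp
  exact S.eq_of_pair p.1.fst _ _ _ _ (μ.mem p) c hc

open scoped Classical in
theorem e7_sum_mem (v : V) : ∀ (n : ℕ) (T : Finset (G.Dart × Bool)), T.card = n →
    (∀ q ∈ T, μ.τ q ∈ T) → (∀ q ∈ T, q.1.fst = v) →
    ∑ q ∈ T, wd q.1.snd q.2 ∈ S.C v := by
  intro n
  induction n using Nat.strong_induction_on with
  | _ n ih =>
    intro T hT hτ hv
    rcases T.eq_empty_or_nonempty with h0 | ⟨q, hq⟩
    · rw [h0, Finset.sum_empty]
      exact (S.C v).zero_mem
    · have hne : μ.τ q ≠ q := fun h => μ.ne q (congrArg Prod.fst h)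
      have hq' : μ.τ q ∈ T.erase q := Finset.mem_erase.2 ⟨hne, hτ q hq⟩
      rw [← Finset.add_sum_erase T _ hq, ← Finset.add_sum_erase _ _ hq', ← add_assoc]
      refine (S.C v).add_mem ?_ ?_
      · have h1 := μ.mem q
        rw [hv q hq] at h1
        exact h1
      · refine ih _ ?_ _ rfl ?_ ?_
        · rw [← hT]
          exact lt_of_lt_of_le (Finset.card_erase_lt_of_mem hq')
            (Finset.card_le_card (Finset.erase_subset _ _))
        · intro x hx
          rw [Finset.mem_erase, Finset.mem_erase] at hx ⊢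
          obtain ⟨hx1, hx2, hx3⟩ := hx
          refine ⟨fun h => hx2 ?_, fun h => hx1 ?_, hτ x hx3⟩
          · have := congrArg μ.τ h
            rwa [μ.τ_τ, μ.τ_τ] at this
          · have := congrArg μ.τ h
            rwa [μ.τ_τ] at this
        · intro x hx
          exact hv x (Finset.mem_of_mem_erase (Finset.mem_of_mem_erase hx))

open scoped Classical in
/-- **Connectedness of the rotation at a vertex.** A set of leg sides which is closed under `τ` and
under changing the side and contains one leg side at `v` contains all leg sides at `v`.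

Proof. Let `v = p.1.fst` and `T = {q | P q ∧ q.1.fst = v}` (a finset), `c = ∑ q ∈ T, wd q.1.snd q.2`.
`c ∈ C v`: more generally `∑ q ∈ T', wd q.1.snd q.2 ∈ C v` for every `τ`-closed `T'` all of whose
elements start at `v`, by induction on `T'.card`: if `q ∈ T'` then `T' \ {q, τ q}` is `τ`-closed
(`τ_τ`), `τ q ≠ q`, and `wd q + wd (τ q) ∈ C v` by `mem`. `c` is constant on the legs
(`P` is closed under changing the side), `c` is `1` on the leg of `p`. By `S.tran` `c = 1` on all
neighbours of `v`, i.e. `P q` for all `q` with `q.1.fst = v`. -/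
theorem closed_all (P : G.Dart × Bool → Prop) (h1 : ∀ p, P p → P (μ.τ p))
    (h2 : ∀ p, P p → P (p.1, !p.2)) (p q : G.Dart × Bool) (hp : P p) (hpq : p.1.fst = q.1.fst) :
    P q := by
  obtain ⟨v, hv⟩ : ∃ v, v = p.1.fst := ⟨_, rfl⟩
  obtain ⟨T, hT⟩ : ∃ T : Finset (G.Dart × Bool),
      T = Finset.univ.filter (fun x => P x ∧ x.1.fst = v) := ⟨_, rfl⟩
  have hTm : ∀ x, x ∈ T ↔ P x ∧ x.1.fst = v := by
    intro x
    rw [hT, Finset.mem_filter]
    exact ⟨fun h => h.2, fun h => ⟨Finset.mem_univ _, h⟩⟩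
  obtain ⟨c, hc⟩ : ∃ c : V → Bool → ZMod 2, c = ∑ q ∈ T, wd q.1.snd q.2 := ⟨_, rfl⟩
  have hcm : c ∈ S.C v := by
    rw [hc]
    refine μ.e7_sum_mem v _ T rfl (fun x hx => ?_) (fun x hx => ((hTm x).1 hx).2)
    rw [hTm] at hx ⊢
    exact ⟨h1 x hx.1, by rw [μ.fst, hx.2]⟩
  have hval1 : ∀ x : G.Dart × Bool, x.1.fst = v → P x → c x.1.snd x.2 = 1 := by
    intro x hx hPx
    rw [hc, Finset.sum_apply, Finset.sum_apply]
    rw [Finset.sum_eq_single_of_mem x ((hTm x).2 ⟨hPx, hx⟩), e7_wd_self]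
    intro y hy hyx
    apply e7_wd_ne
    rintro ⟨h3, h4⟩
    apply hyx
    refine Prod.ext (e7_ext ?_ h3.symm) h4.symm
    rw [((hTm y).1 hy).2, hx]
  have hval0 : ∀ x : G.Dart × Bool, x.1.fst = v → ¬ P x → c x.1.snd x.2 = 0 := by
    intro x hx hPx
    rw [hc, Finset.sum_apply, Finset.sum_apply]
    apply Finset.sum_eq_zero
    intro y hy
    apply e7_wd_ne
    rintro ⟨h3, h4⟩
    apply hPx
    have h5 : y = x := by
      refine Prod.ext (e7_ext ?_ h3.symm) h4.symm
      rw [((hTm y).1 hy).2, hx]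
    rw [← h5]
    exact ((hTm y).1 hy).1
  have hconst : ∀ u, c u false = c u true := by
    intro u
    by_cases hu : G.Adj v u
    · by_cases hP : P (⟨(v, u), hu⟩, false)
      · have h3 := h2 _ hP
        have h4 := hval1 _ rfl hP
        have h5 := hval1 _ rfl h3
        exact h4.trans h5.symm
      · have h3 : ¬ P (⟨(v, u), hu⟩, true) := fun h => hP (h2 _ h)
        have h4 := hval0 (⟨(v, u), hu⟩, false) rfl hP
        have h5 := hval0 (⟨(v, u), hu⟩, true) rfl h3
        exact h4.trans h5.symm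
    · rw [S.supp v c hcm u hu]
      rfl
  rcases S.tran v c hcm hconst with h0 | h3
  · exfalso
    have h4 := hval1 p hv.symm hp
    rw [h0] at h4
    exact zero_ne_one h4
  · by_contra hq
    have hqv : q.1.fst = v := by rw [hv, hpq]
    have h4 := hval0 q hqv hq
    have h5 : G.Adj v q.1.snd := by
      rw [← hqv]
      exact q.1.adj
    rw [h3 _ h5] at h4
    exact one_ne_zero h4

end Match

end Pool.Agent.HTE
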