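import Pool.Agent.HTE.A10
import Pool.Agent.HTE.E7

set_option autoImplicit false

namespace Pool.Agent.HTE

open Module

variable {V : Type} [Fintype V] {G : SimpleGraph V} {M : Drawing G}

private theorem e13_two (x : ZMod 2) : x + x = 0 := CharTwo.add_self_eq_zero x

/-- Twice, as a map from `ZMod 2` to `ZMod 4`. -/
private def e13_phi : ZMod 2 →+ ZMod 4 where
  toFun a := 2 * (a.val : ZMod 4)
  map_zero' := by decide
  map_add' := by decide

/-- The lift `0, 1`. -/
private def e13_i (a : ZMod 2) : ZMod 4 := (a.val : ZMod 4)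

/-- The sign. -/
private def e13_chi (a : ZMod 2) : ZMod 4 := 1 - 2 * (a.val : ZMod 4)

private theorem e13_f0 : ∀ a : ZMod 2, e13_phi a = 0 → a = 0 := by decide

private theorem e13_f1 : ∀ a b w : ZMod 2,
    e13_phi ((a + b + 1) * w) = (e13_chi a + e13_chi b) * e13_i w := by decide

private theorem e13_f2 : ∀ a : ZMod 2, e13_chi (a + 1) = - e13_chi a := by decide

private theorem e13_f3 : ∀ a w1 w2 L : ZMod 2,
    e13_chi (a + 1) * e13_i (w1 + L) + e13_chi a * e13_i (w2 + L) =
      e13_chi (a + 1) * e13_i w1 + e13_chi a * e13_i w2 + e13_phi ((w2 + w1) * L) := by decide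

private theorem e13_fst_t1 (d : M.D) (h : ¬ M.cross d) :
    (M.lab (M.t1 d)).fst = (M.lab d).fst := by
  have h' : ¬ M.cross (M.t1 d) := fun h1 => h ((M.cross_t1 d).1 h1)
  exact ((M.vert_same d (M.t1 d) h h').1 (Quot.sound (Or.inl rfl))).symm

open scoped Classical in
/-- The sums `z x`. -/
private noncomputable def e13_z (σ : Side M) (w : M.D → ZMod 2) (v x : V) : ZMod 2 :=
  if h : G.Adj v x then w (σ.rho ⟨(v, x), h⟩ false) + w (σ.rho ⟨(v, x), h⟩ true) else 0

open scoped Classical in
/-- The sums `L x`. -/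
private noncomputable def e13_L (σ : Side M) (w : M.D → ZMod 2) (v x : V) : ZMod 2 :=
  ∑ x' ∈ Finset.univ.erase x, (M.crossings s(v, x) s(v, x') : ZMod 2) * e13_z σ w v x'

open scoped Classical in
/-- The word of part 1. -/
private noncomputable def e13_c (σ : Side M) (w : M.D → ZMod 2) (v : V) (x : V) (s : Bool) :
    ZMod 2 :=
  if h : G.Adj v x then w (σ.rho ⟨(v, x), h⟩ s) + e13_L σ w v x else 0

private theorem e13_mem (σ : Side M) (w : M.D → ZMod 2) (hw : w ∈ M.inv1) (v : V) :
    e13_c σ w v ∈ σ.code v := by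
  classical
  refine ⟨?_, w, hw, ?_⟩
  · intro u hu
    funext s
    unfold e13_c
    rw [dif_neg hu]
    rfl
  · intro u h s
    have hz : ∀ x, e13_c σ w v x false + e13_c σ w v x true = e13_z σ w v x := by
      intro x
      unfold e13_c e13_z
      by_cases hx : G.Adj v x
      · rw [dif_pos hx, dif_pos hx, dif_pos hx]
        have := e13_two (e13_L σ w v x)
        linear_combination this
      · rw [dif_neg hx, dif_neg hx, dif_neg hx, add_zero]
    have h1 : e13_c σ w v u s = w (σ.rho ⟨(v, u), h⟩ s) + e13_L σ w v u := by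
      unfold e13_c
      rw [dif_pos h]
    rw [h1]
    unfold e13_L
    congr 1
    refine Finset.sum_congr (by congr) fun x _ => ?_
    rw [hz]

open scoped Classical in
private theorem e13_cross (N : V → V → ZMod 2) (hN : ∀ u u', N u u' = N u' u) (z : V → ZMod 2) :
    ∑ x, z x * ∑ x' ∈ Finset.univ.erase x, N x x' * z x' = 0 := by
  have h1 : ∑ x, z x * ∑ x' ∈ Finset.univ.erase x, N x x' * z x' =
      ∑ p ∈ (Finset.univ : Finset (V × V)).filter (fun p => p.2 ≠ p.1),
        z p.1 * (N p.1 p.2 * z p.2) := by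
    rw [Finset.sum_filter, Fintype.sum_prod_type]
    refine Finset.sum_congr rfl fun x _ => ?_
    rw [Finset.mul_sum, ← Finset.sum_filter]
    refine Finset.sum_congr ?_ fun _ _ => rfl
    ext y
    simp
  rw [h1]
  refine Finset.sum_involution (fun p _ => (p.2, p.1)) ?_ ?_ ?_ ?_
  · intro p _
    have := e13_two (z p.1 * (N p.1 p.2 * z p.2))
    simp only [hN p.2 p.1]
    linear_combination this
  · intro p hp _ hcon
    rw [Finset.mem_filter] at hp
    exact hp.2 (congrArg Prod.fst hcon)
  · intro p hp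
    rw [Finset.mem_filter] at hp ⊢
    exact ⟨Finset.mem_univ _, fun h => hp.2 h.symm⟩
  · intro p _
    rfl

private theorem e13_zL (σ : Side M) (w : M.D → ZMod 2) (v : V) :
    ∑ x, e13_z σ w v x * e13_L σ w v x = 0 := by
  classical
  unfold e13_L
  have := e13_cross (fun x x' => (M.crossings s(v, x) s(v, x') : ZMod 2))
    (fun x x' => by simp only [crossings_comm M s(v, x) s(v, x')]) (e13_z σ w v)
  rw [← this]

open scoped Classical in
/-- **Vertices, part 1.** The code word of a function `w` on the corners: with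
`z x = w (rho (v,x) false) + w (rho (v,x) true)` for neighbours `x` of `v` (`0` otherwise), the word
`c x s = w (rho (v,x) s) + ∑_{x' ≠ x} m x x' * z x'` (`0` for nonneighbours) is in `σ.code v`.
Proof: `c x false + c x true = z x` for all `x` (char 2). -/
theorem code_word (σ : Side M) (w : M.D → ZMod 2) (hw : w ∈ M.inv1) (v : V) :
    (fun (x : V) (s : Bool) => if h : G.Adj v x then w (σ.rho ⟨(v, x), h⟩ s) +
      ∑ x' ∈ Finset.univ.erase x, (M.crossings s(v, x) s(v, x') : ZMod 2) *
        (if h' : G.Adj v x' then w (σ.rho ⟨(v, x'), h'⟩ false) + w (σ.rho ⟨(v, x'), h'⟩ true)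
          else 0) else 0) ∈ σ.code v := by
  have h := e13_mem σ w hw v
  exact h

open scoped Classical in
/-- **Vertices, part 2.** `μ` is a matching of `σ.sys`, `o` an orientation of the embedding given by
`μ`. Put `O d = o (lab d, sd d)` (in `ZMod 2`). Then for `w ∈ inv1` the sum over the noncrossing
flags at `v` with `H d = false` of `(O d + O (t1 d) + 1) * w d` is `0`.

Proof. For a flag `d` let `χ d = 1` if `O d = 0` and `χ d = -1` if `O d = 1`, in `ZMod 4` (or `ℤ`).
Let `X` be the set of the noncrossing flags with `(lab d).fst = v` and `w d = 1`.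
(A) `∑_{d ∈ X} χ d = ∑_{d ∈ X, H d = false} (χ d + χ (t1 d))` (`t1` maps `X` to itself: `cross_t1`,
`vert_same`, `w ∈ inv1`), and `χ d + χ (t1 d)` is `0` if `O d ≠ O (t1 d)`, i.e. if
`O d + O (t1 d) + 1 = 0`, and `2` or `-2` otherwise. So modulo `4` it is `2 N`, `N` the number of
`d ∈ X` with `H d = false` and `O d + O (t1 d) + 1 = 1`; the sum in the theorem is `N` mod `2`.
(B) Let `c` be the word of `code_word`. For a leg side `p = (x, s)` at `v` let
`χ' p = χ (rho (v,x) s)` (depends only on `o ((v,x), s)`). The sum of `χ' p` over the leg sides `p`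
with `c p = 1` is `0`: by `Match.eq_τ` (`c ∈ σ.code v = σ.sys.C v`) `τ` maps this set to itself,
without fixed points, and `χ' (τ p) = - χ' p` by `ho1`.
(C) The sum in (A) is the sum of `χ' (x, s)` over the leg sides with `w (rho (v,x) s) = 1`
(`rho_uniq`). Let `L x = ∑_{x' ≠ x} m x x' * z x'`, so `c x s = w (rho (v,x) s) + L x`. For a leg `x`
with `L x = 0` the contributions of `x` to (B) and (C) agree. For `L x = 1` the two sides are
exchanged: if `z x = 0` (`w` equal on the two sides) the contributions are both `0`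
(`χ' (x, !s) = - χ' (x, s)`, by `ho2`), if `z x = 1` they are `χ' (x, s)` and `χ' (x, !s) = - χ' (x, s)`
and differ by `2` mod `4`. So (C) - (B) `= 2 #{x | L x = 1, z x = 1}` mod `4`, and
`#{x | L x = 1, z x = 1} = ∑_x z x * L x = ∑_x ∑_{x' ≠ x} m x x' z x z x' = 0` in `ZMod 2`
(`m` is symmetric by `crossings_comm`: the terms of `(x, x')` and `(x', x)` cancel).
Together `2 N = 0` mod `4`, i.e. `N` is even. -/
theorem eps_vert (σ : Side M) (μ : Match σ.sys) (o : G.Dart × Bool → ZMod 2)
    (ho1 : ∀ p, o (μ.τ p) = o p + 1) (ho2 : ∀ p, o (p.1, !p.2) = o p + 1)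
    (H : M.D → Bool) (hH : ∀ d, H (M.t1 d) = !H d) (w : M.D → ZMod 2) (hw : w ∈ M.inv1) (v : V) :
    ∑ d ∈ Finset.univ.filter (fun d => H d = false ∧ ¬ M.cross d ∧ (M.lab d).fst = v),
      (o (M.lab d, σ.sd d) + o (M.lab (M.t1 d), σ.sd (M.t1 d)) + 1) * w d = 0 := by
  apply e13_f0
  rw [map_sum]
  have hw1 := (M.mem_inv1 w).1 hw
  have hvt : ∀ d, ¬ M.cross d ∧ (M.lab d).fst = v →
      ¬ M.cross (M.t1 d) ∧ (M.lab (M.t1 d)).fst = v := by
    intro d hd
    exact ⟨fun h => hd.1 ((M.cross_t1 d).1 h), by rw [e13_fst_t1 d hd.1, hd.2]⟩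
  set f : M.D → ZMod 4 := fun d => e13_chi (o (M.lab d, σ.sd d)) * e13_i (w d) with hf
  -- step (A)
  have hA : ∑ d ∈ Finset.univ.filter (fun d => H d = false ∧ ¬ M.cross d ∧ (M.lab d).fst = v),
      e13_phi ((o (M.lab d, σ.sd d) + o (M.lab (M.t1 d), σ.sd (M.t1 d)) + 1) * w d) =
      ∑ d ∈ Finset.univ.filter (fun d => ¬ M.cross d ∧ (M.lab d).fst = v), f d := by
    have h1 : ∀ d, e13_phi ((o (M.lab d, σ.sd d) + o (M.lab (M.t1 d), σ.sd (M.t1 d)) + 1) * w d) =
        f d + f (M.t1 d) := by
      intro d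
      rw [e13_f1, add_mul, hf]
      simp only [hw1]
    rw [Finset.sum_congr rfl (fun d _ => h1 d), Finset.sum_add_distrib]
    have h2 : ∑ d ∈ Finset.univ.filter (fun d => H d = false ∧ ¬ M.cross d ∧ (M.lab d).fst = v),
        f (M.t1 d) =
        ∑ d ∈ Finset.univ.filter (fun d => H d = true ∧ ¬ M.cross d ∧ (M.lab d).fst = v),
        f d := by
      refine Finset.sum_bij' (fun d _ => M.t1 d) (fun d _ => M.t1 d) ?_ ?_ ?_ ?_ ?_
      · intro d hd
        rw [Finset.mem_filter] at hd ⊢
        exact ⟨Finset.mem_univ _, by rw [hH, hd.2.1]; rfl, hvt d hd.2.2⟩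
      · intro d hd
        rw [Finset.mem_filter] at hd ⊢
        exact ⟨Finset.mem_univ _, by rw [hH, hd.2.1]; rfl, hvt d hd.2.2⟩
      · intro d _
        exact M.t1_t1 d
      · intro d _
        exact M.t1_t1 d
      · intro d _
        rfl
    rw [h2, ← Finset.sum_union]
    · refine Finset.sum_congr ?_ fun _ _ => rfl
      ext d
      simp only [Finset.mem_union, Finset.mem_filter, Finset.mem_univ, true_and]
      cases H d <;> simp
    · rw [Finset.disjoint_left]
      intro d hd hd'
      rw [Finset.mem_filter] at hd hd'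
      rw [hd.2.1] at hd'
      exact Bool.false_ne_true hd'.2.1
  rw [hA]
  -- step (C)
  have hC : ∑ d ∈ Finset.univ.filter (fun d => ¬ M.cross d ∧ (M.lab d).fst = v), f d =
      ∑ p ∈ (Finset.univ : Finset (G.Dart × Bool)).filter (fun p => p.1.fst = v),
        e13_chi (o p) * e13_i (w (σ.rho p.1 p.2)) := by
    refine Finset.sum_bij' (fun d _ => (M.lab d, σ.sd d)) (fun p _ => σ.rho p.1 p.2) ?_ ?_ ?_ ?_ ?_
    · intro d hd
      rw [Finset.mem_filter] at hd ⊢
      exact ⟨Finset.mem_univ _, hd.2.2⟩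
    · intro p hp
      rw [Finset.mem_filter] at hp ⊢
      exact ⟨Finset.mem_univ _, σ.rho_cross _ _, by rw [σ.rho_lab]; exact hp.2⟩
    · intro d hd
      rw [Finset.mem_filter] at hd
      exact (σ.rho_uniq d hd.2.1).symm
    · intro p _
      exact Prod.ext (σ.rho_lab _ _) (σ.rho_sd _ _)
    · intro d hd
      rw [Finset.mem_filter] at hd
      rw [hf]
      simp only
      rw [← σ.rho_uniq d hd.2.1]
  rw [hC]
  -- step (B)
  have hB : ∑ p ∈ (Finset.univ : Finset (G.Dart × Bool)).filter (fun p => p.1.fst = v),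
      e13_chi (o p) * e13_i (e13_c σ w v p.1.snd p.2) = 0 := by
    refine Finset.sum_involution (fun p _ => μ.τ p) ?_ ?_ ?_ ?_
    · intro p hp
      rw [Finset.mem_filter] at hp
      have h1 := μ.eq_τ v (e13_c σ w v) (e13_mem σ w hw v) p hp.2
      rw [← h1, ho1, e13_f2]
      ring
    · intro p _ _ hcon
      exact μ.ne p (congrArg Prod.fst hcon)
    · intro p hp
      rw [Finset.mem_filter] at hp ⊢
      exact ⟨Finset.mem_univ _, by rw [μ.fst]; exact hp.2⟩
    · intro p _
      exact μ.τ_τ p
  have hprod : ∀ g : G.Dart × Bool → ZMod 4,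
      ∑ p ∈ (Finset.univ : Finset (G.Dart × Bool)).filter (fun p => p.1.fst = v), g p =
      ∑ a ∈ (Finset.univ : Finset G.Dart).filter (fun a => a.fst = v),
        (g (a, true) + g (a, false)) := by
    intro g
    rw [Finset.sum_filter, Fintype.sum_prod_type, Finset.sum_filter]
    refine Finset.sum_congr rfl fun a _ => ?_
    rw [Fintype.sum_bool]
    by_cases h : a.fst = v
    · rw [if_pos h, if_pos h, if_pos h]
    · rw [if_neg h, if_neg h, if_neg h, add_zero]
  have hrel : ∀ a ∈ (Finset.univ : Finset G.Dart).filter (fun a => a.fst = v),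
      e13_chi (o (a, true)) * e13_i (e13_c σ w v a.snd true) +
        e13_chi (o (a, false)) * e13_i (e13_c σ w v a.snd false) =
      (e13_chi (o (a, true)) * e13_i (w (σ.rho a true)) +
        e13_chi (o (a, false)) * e13_i (w (σ.rho a false))) +
        e13_phi (e13_z σ w v a.snd * e13_L σ w v a.snd) := by
    intro a ha
    rw [Finset.mem_filter] at ha
    obtain ⟨_, ha⟩ := ha
    have hadj : G.Adj v a.snd := by
      rw [← ha]
      exact a.adj
    have hl : (⟨(v, a.snd), hadj⟩ : G.Dart) = a := by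
      apply SimpleGraph.Dart.ext
      exact Prod.ext ha.symm rfl
    have c1 : ∀ s, e13_c σ w v a.snd s = w (σ.rho a s) + e13_L σ w v a.snd := by
      intro s
      unfold e13_c
      rw [dif_pos hadj, hl]
    have z1 : e13_z σ w v a.snd = w (σ.rho a false) + w (σ.rho a true) := by
      unfold e13_z
      rw [dif_pos hadj, hl]
    have o1 : o (a, true) = o (a, false) + 1 := ho2 (a, false)
    rw [c1, c1, z1, o1]
    exact e13_f3 _ _ _ _
  have hz : ∑ a ∈ (Finset.univ : Finset G.Dart).filter (fun a => a.fst = v),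
      e13_z σ w v a.snd * e13_L σ w v a.snd = 0 := by
    rw [← e13_zL σ w v]
    have h1 : ∑ x, e13_z σ w v x * e13_L σ w v x =
        ∑ x ∈ Finset.univ.filter (fun x => G.Adj v x), e13_z σ w v x * e13_L σ w v x := by
      rw [Finset.sum_filter]
      refine Finset.sum_congr rfl fun x _ => ?_
      by_cases h : G.Adj v x
      · rw [if_pos h]
      · rw [if_neg h]
        unfold e13_z
        rw [dif_neg h, zero_mul]
    rw [h1]
    refine Finset.sum_bij (fun a _ => a.snd) ?_ ?_ ?_ ?_
    · intro a ha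
      rw [Finset.mem_filter] at ha ⊢
      refine ⟨Finset.mem_univ _, ?_⟩
      rw [← ha.2]
      exact a.adj
    · intro a ha b hb hab
      rw [Finset.mem_filter] at ha hb
      apply SimpleGraph.Dart.ext
      exact Prod.ext (ha.2.trans hb.2.symm) hab
    · intro x hx
      rw [Finset.mem_filter] at hx
      refine ⟨⟨(v, x), hx.2⟩, ?_, rfl⟩
      rw [Finset.mem_filter]
      exact ⟨Finset.mem_univ _, rfl⟩
    · intro a _
      rfl
  rw [hprod] at hB ⊢
  rw [Finset.sum_congr rfl hrel, Finset.sum_add_distrib, ← map_sum, hz, map_zero, add_zero] at hB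
  exact hB

end Pool.Agent.HTE
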