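import Pool.Agent.HTE.E8
import Pool.Agent.HTE.E10
import Pool.Agent.HTE.E11
import Pool.Agent.HTE.E12
import Pool.Agent.HTE.E13

set_option autoImplicit false

namespace Pool.Agent.HTE

open Module

variable {V : Type} [Fintype V] {G : SimpleGraph V} {M : Drawing G}

private def e14_w : Bool → ZMod 2
  | false => 0
  | true => 1

private theorem e14_w_not (b : Bool) : e14_w (!b) = e14_w b + 1 := by
  cases b <;> decide

open scoped Classical in
private theorem e14_claim (σ : Side M) (μ : Match σ.sys) (hE : M.IndependentlyEven)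
    (a : G.Dart)
    (heq : finrank (ZMod 2) σ.sys.D + Fintype.card V + Nat.card M.Edge ≤
      Nat.card M.Vert + Nat.card G.edgeSet + Nat.card M.Face)
    (o : G.Dart × Bool → ZMod 2)
    (ho1 : ∀ p, o (μ.τ p) = o p + 1) (ho2 : ∀ p : G.Dart × Bool, o (p.1, !p.2) = o p + 1)
    (hO0 : ∀ d, o (M.lab (M.t0 d), σ.sd (M.t0 d)) = o (M.lab d, σ.sd d) + 1)
    (hO2 : ∀ d, o (M.lab (M.t2 d), σ.sd (M.t2 d)) = o (M.lab d, σ.sd d) + 1)
    (hOst : ∀ d, M.cross d → o (M.lab (M.st d), σ.sd (M.st d)) = o (M.lab d, σ.sd d) + 1)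
    (H : M.D → Bool) (hH1 : ∀ d, H (M.t1 d) = !H d) (hH2 : ∀ d, M.cross d → H (M.t2 d) = H d)
    (hH3 : ∀ d, M.cross d → H (M.st d) = H d) :
    ∀ w ∈ M.LM, ∑ d ∈ Finset.univ.filter (fun d => H d = false),
      (o (M.lab d, σ.sd d) + o (M.lab (M.t1 d), σ.sd (M.t1 d)) + 1) * w d = 0 := by
  intro w hw
  obtain ⟨w', hw', w'', hw'', rfl⟩ := Submodule.mem_sup.1 (σ.LM_le hE a heq hw)
  have h1 := eps_face M (fun d => o (M.lab d, σ.sd d)) hO0 H hH1 w'' hw''
  have h2 := eps_cross σ (fun d => o (M.lab d, σ.sd d)) hO2 hOst H hH1 hH2 hH3 w' hw'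
  have h3 : ∑ d ∈ Finset.univ.filter (fun d => H d = false ∧ ¬ M.cross d),
      (o (M.lab d, σ.sd d) + o (M.lab (M.t1 d), σ.sd (M.t1 d)) + 1) * w' d = 0 := by
    rw [← Finset.sum_fiberwise _ (fun d => (M.lab d).fst)]
    refine Finset.sum_eq_zero fun v _ => ?_
    rw [Finset.filter_filter]
    have h4 := eps_vert σ μ o ho1 ho2 H hH1 w' hw'.1 v
    simp only [and_assoc]
    exact h4
  have h5 : ∑ d ∈ Finset.univ.filter (fun d => H d = false),
      (o (M.lab d, σ.sd d) + o (M.lab (M.t1 d), σ.sd (M.t1 d)) + 1) * w' d = 0 := by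
    rw [← Finset.sum_filter_add_sum_filter_not _ (fun d => M.cross d), Finset.filter_filter,
      Finset.filter_filter]
    have h2' : ∑ d ∈ Finset.univ.filter (fun d => H d = false ∧ M.cross d),
      (o (M.lab d, σ.sd d) + o (M.lab (M.t1 d), σ.sd (M.t1 d)) + 1) * w' d = 0 := h2
    rw [h2', h3, add_zero]
  calc ∑ d ∈ Finset.univ.filter (fun d => H d = false),
      (o (M.lab d, σ.sd d) + o (M.lab (M.t1 d), σ.sd (M.t1 d)) + 1) * (w' + w'') d
      = ∑ d ∈ Finset.univ.filter (fun d => H d = false),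
          ((o (M.lab d, σ.sd d) + o (M.lab (M.t1 d), σ.sd (M.t1 d)) + 1) * w' d +
          (o (M.lab d, σ.sd d) + o (M.lab (M.t1 d), σ.sd (M.t1 d)) + 1) * w'' d) := by
        refine Finset.sum_congr rfl fun d _ => ?_
        rw [Pi.add_apply, mul_add]
    _ = 0 := by
        rw [Finset.sum_add_distrib, h5, zero_add]
        exact h1

/-- **Orientability is transferred back** in the equality case.

Proof. Let `o' : G.Dart × Bool → Bool` be an orientation of the embedding (`h`), `o p = 0` or `1` its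
value in `ZMod 2`: `o (a.symm, s) = o (a, s) + 1`, `o (τ p) = o p + 1`, `o (a, !s) = o (a, s) + 1`.
Put `O d = o (lab d, sd d)` for the flags of `M`: `O (t0 d) = O d + 1` (`lab_t0`, `sd_t0`),
`O (t2 d) = O d + 1` (`lab_t2`, `sd_t2`), `O (st d) = O d + 1` for crossing `d` (`lab_st`, `sd_st`).
Let `ε d = O d + O (t1 d) + 1`, a `t1`-invariant function, and `H` the transversal of `exists_H1`.
Claim: `∑_{H d = false} ε d * w d = 0` for all `w ∈ LM`. By `Side.LM_le` `w = w' + w''` with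
`w' ∈ LG`, `w'' ∈ invF`. For `w''`: `eps_face`. For `w'`: the crossing flags contribute `0` by
`eps_cross`, the noncrossing ones are grouped by `v = (lab d).fst` and contribute `0` by `eps_vert`
(`w' ∈ inv1`). By `GMap.exists_edge_fun` there is `β ∈ invE` with `β d + β (t1 d) = ε d`. Then
`O d + β d` is switched by `t0`, `t2` (`β` is invariant) and `t1`
(`O (t1 d) + β (t1 d) = O (t1 d) + β d + ε d = O d + β d + 1`), so
`d ↦ decide (O d + β d = 1)` is an orientation of `M`. -/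
theorem or_back (σ : Side M) (μ : Match σ.sys) (hG : G.Connected) (hE : M.IndependentlyEven)
    (a : G.Dart)
    (heq : finrank (ZMod 2) σ.sys.D + Fintype.card V + Nat.card M.Edge ≤
      Nat.card M.Vert + Nat.card G.edgeSet + Nat.card M.Face)
    (h : (μ.draw hG).Orientable) : M.Orientable := by
  obtain ⟨o', ho'⟩ := h
  set o : G.Dart × Bool → ZMod 2 := fun p => e14_w (o' p) with ho
  have ho0 : ∀ p : G.Dart × Bool, o (p.1.symm, p.2) = o p + 1 := by
    intro p
    have h1 : o' (p.1.symm, p.2) = !o' p := (ho' p).1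
    show e14_w (o' (p.1.symm, p.2)) = e14_w (o' p) + 1
    rw [h1, e14_w_not]
  have ho1 : ∀ p : G.Dart × Bool, o (μ.τ p) = o p + 1 := by
    intro p
    have h1 : o' (μ.τ p) = !o' p := (ho' p).2.1
    show e14_w (o' (μ.τ p)) = e14_w (o' p) + 1
    rw [h1, e14_w_not]
  have ho2 : ∀ p : G.Dart × Bool, o (p.1, !p.2) = o p + 1 := by
    intro p
    have h1 : o' (p.1, !p.2) = !o' p := (ho' p).2.2
    show e14_w (o' (p.1, !p.2)) = e14_w (o' p) + 1
    rw [h1, e14_w_not]
  set O : M.D → ZMod 2 := fun d => o (M.lab d, σ.sd d) with hO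
  have hO0 : ∀ d, O (M.t0 d) = O d + 1 := by
    intro d
    show o (M.lab (M.t0 d), σ.sd (M.t0 d)) = o (M.lab d, σ.sd d) + 1
    rw [M.lab_t0, σ.sd_t0]
    exact ho0 (M.lab d, σ.sd d)
  have hO2 : ∀ d, O (M.t2 d) = O d + 1 := by
    intro d
    show o (M.lab (M.t2 d), σ.sd (M.t2 d)) = o (M.lab d, σ.sd d) + 1
    rw [M.lab_t2, σ.sd_t2]
    exact ho2 (M.lab d, σ.sd d)
  have hOst : ∀ d, M.cross d → O (M.st d) = O d + 1 := by
    intro d hd
    show o (M.lab (M.st d), σ.sd (M.st d)) = o (M.lab d, σ.sd d) + 1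
    have h1 : σ.sd (M.st d) = σ.sd d := by rw [Drawing.st, σ.sd_st d hd]
    rw [M.lab_st d hd, h1]
    exact ho0 (M.lab d, σ.sd d)
  set ε : M.D → ZMod 2 := fun d => O d + O (M.t1 d) + 1 with hε
  have hε1 : ε ∈ M.inv1 := by
    rw [M.mem_inv1]
    intro d
    show O (M.t1 d) + O (M.t1 (M.t1 d)) + 1 = O d + O (M.t1 d) + 1
    rw [M.t1_t1, add_comm (O (M.t1 d))]
  obtain ⟨H, hH1, hH2, hH3⟩ := exists_H1 M
  have claim := e14_claim σ μ hE a heq o ho1 ho2 hO0 hO2 hOst H hH1 hH2 hH3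
  obtain ⟨β, hβ, hβε⟩ := GMap.exists_edge_fun M.toGMap H hH1 ε hε1 claim
  have hβ' := (M.mem_invE β).1 hβ
  have hdec : ∀ x : ZMod 2, decide (x + 1 = 1) = !decide (x = 1) := by decide
  refine ⟨fun d => decide (O d + β d = 1), fun d => ⟨?_, ?_, ?_⟩⟩
  · show decide (O (M.t0 d) + β (M.t0 d) = 1) = !decide (O d + β d = 1)
    have h1 : O (M.t0 d) + β (M.t0 d) = O d + β d + 1 := by
      rw [hO0, hβ'.1]
      ring
    rw [h1, hdec]
  · show decide (O (M.t1 d) + β (M.t1 d) = 1) = !decide (O d + β d = 1)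
    have h1 : O (M.t1 d) + β (M.t1 d) = O d + β d + 1 := by
      have h2 : β d + β (M.t1 d) = O d + O (M.t1 d) + 1 := hβε d
      have h3 : β d + β d = 0 := CharTwo.add_self_eq_zero _
      have h4 : O (M.t1 d) + O (M.t1 d) = 0 := CharTwo.add_self_eq_zero _
      linear_combination h2 - h3 + h4
    rw [h1, hdec]
  · show decide (O (M.t2 d) + β (M.t2 d) = 1) = !decide (O d + β d = 1)
    have h1 : O (M.t2 d) + β (M.t2 d) = O d + β d + 1 := by
      rw [hO2, hβ'.2]
      ring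
    rw [h1, hdec]

end Pool.Agent.HTE
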