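import Pool.Agent.HTE.C14

set_option autoImplicit false

namespace Pool.Agent.HTE

open Module

variable {V : Type} [Fintype V] {G : SimpleGraph V}

/-- In the equality case there is no vertex of degree one.

Proof. Suppose `G.Adj v u` and `u` is the only neighbour of `v`. As `G` is connected with at least
three vertices, `u` has a neighbour `x ≠ v` (otherwise `v, u` form a component `K_2`; see
`isoPair_eq_empty`). By `Sys.pend_step` there is a system `S'` on
`G' = G.deleteEdges {s(v, u)}` with `finrank S.D ≤ finrank S'.D`, by `isoPair_step` `G'` has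
`|E| - 1` edges and `|isoPair G'| ≤ |isoPair G| + 2 = 2`; `Sys.three_k_gen` for `S'`:
`6 finrank S.D ≤ 4 (|E| - 1) + 2 < 4 |E|`, contradicting `h`. -/
theorem no_pendant (S : Sys G) (hG : G.Connected) (h3 : 3 ≤ Fintype.card V)
    (h : 2 * Nat.card G.edgeSet ≤ 3 * finrank (ZMod 2) S.D) :
    ∀ v u, G.Adj v u → ∃ u', u' ≠ u ∧ G.Adj v u' := by
  intro v u hvu
  by_contra hd
  push Not at hd
  have hp : ∀ y, G.Adj v y → y = u := by
    intro y hy
    by_contra h
    exact hd y h hy
  by_cases hx : ∃ x, G.Adj u x ∧ x ≠ v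
  · obtain ⟨x, hx, hxp⟩ := hx
    obtain ⟨S', hS'⟩ := S.pend_step v u x hvu hp hx hxp
    obtain ⟨h1, h2⟩ := isoPair_step v u x hvu hp hx hxp
    have h4 := S'.three_k_gen
    rw [isoPair_eq_empty hG h3, Set.ncard_empty] at h2
    omega
  · have hu : ∀ y, G.Adj u y → y = v := by
      intro y hy
      by_contra h
      exact hx ⟨y, hy, h⟩
    have h5 : v ∈ isoPair G := ⟨u, hvu, hp, hu⟩
    rw [isoPair_eq_empty hG h3] at h5
    exact h5

end Pool.Agent.HTE
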