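import Pool.Agent.HTE.E1

set_option autoImplicit false

namespace Pool.Agent.HTE

open Module

variable {V : Type} [Fintype V] {G : SimpleGraph V}

open scoped Classical in
private theorem e2_step (S : Sys G) (v : V) (A : Finset V) (hv : v ∉ A) :
    ∑ u ∈ insert v A, S.g u (insert v A) + ∑ u ∈ A.filter (fun u => G.Adj v u), S.g u A =
      S.g v A + ∑ u ∈ A, S.g u A + ∑ u ∈ A.filter (fun u => G.Adj v u), S.g u (insert v A) := by
  rw [Finset.sum_insert hv, S.g_insert_of_not_adj v v A (G.loopless.irrefl v)]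
  have h1 := Finset.sum_filter_add_sum_filter_not A (fun u => G.Adj v u)
    (fun u => S.g u (insert v A))
  have h2 := Finset.sum_filter_add_sum_filter_not A (fun u => G.Adj v u) (fun u => S.g u A)
  have h3 : ∑ u ∈ A.filter (fun u => ¬ G.Adj v u), S.g u (insert v A) =
      ∑ u ∈ A.filter (fun u => ¬ G.Adj v u), S.g u A := by
    refine Finset.sum_congr rfl fun u hu => ?_
    exact S.g_insert_of_not_adj u v A fun h => (Finset.mem_filter.1 hu).2 h.symm
  rw [h3] at h1
  omega

open scoped Classical in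
private theorem e2_deg : ∑ v : V, (Finset.univ.filter (fun u => G.Adj v u)).card =
    2 * Nat.card G.edgeSet := by
  have h1 : ∀ v : V, (Finset.univ.filter (fun u => G.Adj v u)).card = G.degree v := by
    intro v
    rw [← SimpleGraph.card_neighborFinset_eq_degree, SimpleGraph.neighborFinset_eq_filter]
  simp only [h1]
  rw [SimpleGraph.sum_degrees_eq_twice_card_edges, Nat.card_eq_fintype_card,
    SimpleGraph.edgeFinset_card]

open scoped Classical in
/-- **The equality case, first step.** If `3 dim D ≥ 2 |E|` (and no vertex has degree one), then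
all inequalities are equalities, for every set `A` and every `v ∉ A`.

Proof. Let `Φ A = ∑ u ∈ A, S.g u A`, `δ A = Φ A - 3 f A` (in `ℤ`). For `v ∉ A`:
`Φ (insert v A) = g v (insert v A) + ∑ u ∈ A, g u (insert v A)`, `g v (insert v A) = g v A`
(`g_insert_of_not_adj` with `u = v`), and in the sum only the neighbours `u` of `v` change
(`g_insert_of_not_adj`). So
`δ (insert v A) - δ A = (g v A - i) + (∑_{u ∈ A, Adj v u} (g u (insert v A) - g u A) - 2 i)`,
`i = dim (iA v A)` (`f_insert`), and both brackets are `≥ 0` (`iA_le`, `two_iA_le`). So `δ` is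
monotone, `δ ∅ = 0`. `δ univ = ∑ u, dim (C u) - 3 dim D ≤ ∑ u, deg u - 3 dim D = 2 |E| - 3 dim D ≤ 0`
(`g_univ`, `f_univ`, `finrank_C_le`, `sum_degrees_eq_twice_card_edges`). Hence `δ A = 0` for all
`A` (between `∅` and `univ`; use `Finset.induction_on` for `δ A ≥ 0` and an induction on
`Aᶜ` for `δ A ≤ δ univ`), both brackets are `0`, and `dim (C u) = deg u` for all `u`. -/
theorem Sys.eq_case (S : Sys G) (hd : ∀ v u, G.Adj v u → ∃ u', u' ≠ u ∧ G.Adj v u')
    (h : 2 * Nat.card G.edgeSet ≤ 3 * finrank (ZMod 2) S.D) :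
    (∀ v, finrank (ZMod 2) (S.C v) = (Finset.univ.filter (fun u => G.Adj v u)).card) ∧
    ∀ (v : V) (A : Finset V), v ∉ A →
      S.f (insert v A) = S.f A + S.g v A ∧
      2 * S.g v A + ∑ u ∈ A.filter (fun u => G.Adj v u), S.g u A =
        ∑ u ∈ A.filter (fun u => G.Adj v u), S.g u (insert v A) := by
  have hstep : ∀ (v : V) (A : Finset V), v ∉ A →
      ((∑ u ∈ insert v A, S.g u (insert v A) : ℕ) : ℤ) - 3 * (S.f (insert v A) : ℤ) =
        ((∑ u ∈ A, S.g u A : ℕ) : ℤ) - 3 * (S.f A : ℤ) +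
          ((S.g v A : ℤ) - (finrank (ZMod 2) (S.iA v A) : ℤ)) +
          (((∑ u ∈ A.filter (fun u => G.Adj v u), S.g u (insert v A) : ℕ) : ℤ) -
            ((∑ u ∈ A.filter (fun u => G.Adj v u), S.g u A : ℕ) : ℤ) -
            2 * (finrank (ZMod 2) (S.iA v A) : ℤ)) := by
    intro v A hv
    have h1 := e2_step S v A hv
    have h2 := S.f_insert v A hv
    omega
  have hmono : ∀ (v : V) (A : Finset V), v ∉ A →
      ((∑ u ∈ A, S.g u A : ℕ) : ℤ) - 3 * (S.f A : ℤ) ≤
        ((∑ u ∈ insert v A, S.g u (insert v A) : ℕ) : ℤ) - 3 * (S.f (insert v A) : ℤ) := by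
    intro v A hv
    have h1 := hstep v A hv
    have h2 := S.iA_le v A
    have h3 := S.two_iA_le v A hv (hd v)
    omega
  have hun : ∀ A B : Finset V, ((∑ u ∈ A, S.g u A : ℕ) : ℤ) - 3 * (S.f A : ℤ) ≤
      ((∑ u ∈ A ∪ B, S.g u (A ∪ B) : ℕ) : ℤ) - 3 * (S.f (A ∪ B) : ℤ) := by
    intro A B
    induction B using Finset.induction_on with
    | empty => rw [Finset.union_empty]
    | insert x B _ ih =>
      rw [Finset.union_insert]
      by_cases h1 : x ∈ A ∪ B
      · rw [Finset.insert_eq_of_mem h1]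
        exact ih
      · exact ih.trans (hmono x (A ∪ B) h1)
  have h0 : ((∑ u ∈ (∅ : Finset V), S.g u ∅ : ℕ) : ℤ) - 3 * (S.f ∅ : ℤ) = 0 := by
    rw [Finset.sum_empty, S.f_empty]
    norm_num
  have hsumC : ∑ u, S.g u Finset.univ = ∑ u, finrank (ZMod 2) (S.C u) :=
    Finset.sum_congr rfl fun u _ => S.g_univ u
  have hCle : ∑ u, finrank (ZMod 2) (S.C u) ≤ 2 * Nat.card G.edgeSet := by
    rw [← e2_deg]
    exact Finset.sum_le_sum fun u _ => S.finrank_C_le u
  have huniv : ((∑ u, S.g u Finset.univ : ℕ) : ℤ) - 3 * (S.f Finset.univ : ℤ) ≤ 0 := by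
    rw [hsumC, S.f_univ]
    omega
  have hge : ∀ A : Finset V, 0 ≤ ((∑ u ∈ A, S.g u A : ℕ) : ℤ) - 3 * (S.f A : ℤ) := by
    intro A
    have h1 := hun ∅ A
    rw [Finset.empty_union, h0] at h1
    exact h1
  have hle : ∀ A : Finset V, ((∑ u ∈ A, S.g u A : ℕ) : ℤ) - 3 * (S.f A : ℤ) ≤ 0 := by
    intro A
    have h1 := hun A Finset.univ
    rw [Finset.union_eq_right.2 (Finset.subset_univ A)] at h1
    exact h1.trans huniv
  constructor
  · have h1 : ∑ u, finrank (ZMod 2) (S.C u) =
        ∑ u : V, (Finset.univ.filter (fun x => G.Adj u x)).card := by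
      have h2 := hge Finset.univ
      rw [hsumC, S.f_univ] at h2
      rw [e2_deg]
      omega
    intro v
    exact (Finset.sum_eq_sum_iff_of_le fun u _ => S.finrank_C_le u).1 h1 v (Finset.mem_univ v)
  · intro v A hv
    have h1 := hstep v A hv
    have h2 := S.iA_le v A
    have h3 := S.two_iA_le v A hv (hd v)
    have h4 := hge A
    have h5 := hle A
    have h6 := hge (insert v A)
    have h7 := hle (insert v A)
    have h8 := S.f_insert v A hv
    constructor
    · omega
    · omega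

end Pool.Agent.HTE
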