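import Pool.Agent.HTE.E1

set_option autoImplicit false

namespace Pool.Agent.HTE

open Module

variable {V : Type} [Fintype V] {G : SimpleGraph V}

open scoped Classical in
/-- **The equality case, second step: a local identity.** For a set `J` of neighbours of `v`:
`|J| g v J = 2 g v J + ∑_{u ∈ J} g v (J - u)`.

Proof. `v ∉ J`. For `u ∈ J` let `J' = J.erase u`. By the first part of `h`:
`f (insert v J) = f J + g v J` (`A = J`), `f (insert v J') = f J' + g v J'` (`A = J'`),
`f J = f (insert u J') = f J' + g u J'`,
`f (insert v J) = f (insert u (insert v J')) = f (insert v J') + g u (insert v J')`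
(`u ∉ insert v J'`). Hence `g u (insert v J') - g u J' = g v J - g v J'` (in `ℤ`). And
`g u J = g u J'`, `g u (insert v J) = g u (insert v J')` (`g_insert_of_not_adj` with the vertex `u`
itself). Sum over `u ∈ J` and use the second part of `h` for `A = J`
(`J.filter (G.Adj v) = J`): `2 g v J = ∑_{u ∈ J} (g v J - g v J')`. -/
theorem Sys.local_id (S : Sys G)
    (h : ∀ (v : V) (A : Finset V), v ∉ A →
      S.f (insert v A) = S.f A + S.g v A ∧
      2 * S.g v A + ∑ u ∈ A.filter (fun u => G.Adj v u), S.g u A =
        ∑ u ∈ A.filter (fun u => G.Adj v u), S.g u (insert v A))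
    (v : V) (J : Finset V) (hJ : ∀ u ∈ J, G.Adj v u) :
    J.card * S.g v J = 2 * S.g v J + ∑ u ∈ J, S.g v (J.erase u) := by
  have hvJ : v ∉ J := fun hv => G.irrefl (hJ v hv)
  have key : ∀ u ∈ J, S.g u J + S.g v J = S.g v (J.erase u) + S.g u (insert v J) := by
    intro u hu
    have huv : u ≠ v := fun he => hvJ (he ▸ hu)
    have e1 : insert u (J.erase u) = J := Finset.insert_erase hu
    have hu' : u ∉ J.erase u := Finset.notMem_erase u J
    have hv' : v ∉ J.erase u := fun hv => hvJ (Finset.mem_of_mem_erase hv)
    have e2 : insert u (insert v (J.erase u)) = insert v J := by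
      rw [Finset.insert_comm, e1]
    have hu'' : u ∉ insert v (J.erase u) := by
      rw [Finset.mem_insert]
      rintro (h1 | h1)
      · exact huv h1
      · exact hu' h1
    have a1 := (h v J hvJ).1
    have a2 := (h v (J.erase u) hv').1
    have a3 := (h u (J.erase u) hu').1
    have a4 := (h u (insert v (J.erase u)) hu'').1
    have a5 := S.g_insert_of_not_adj u u (J.erase u) G.irrefl
    have a6 := S.g_insert_of_not_adj u u (insert v (J.erase u)) G.irrefl
    rw [e1] at a3 a5
    rw [e2] at a4 a6
    omega
  have hsum := Finset.sum_congr rfl key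
  rw [Finset.sum_add_distrib, Finset.sum_add_distrib, Finset.sum_const, smul_eq_mul] at hsum
  have h2 := (h v J hvJ).2
  have hf : J.filter (fun u => G.Adj v u) = J := Finset.filter_true_of_mem hJ
  rw [hf] at h2
  omega

/-- Pure combinatorics of finite sets. Proof: induction on `J.card`. If `J.card = 2` then
`J.powersetCard 2 = {J}`. If `J.card = n ≥ 3`: all `J.erase u` have at least two elements, so
`(n - 2) g J = ∑_{u ∈ J} ∑_{P ∈ (J.erase u).powersetCard 2} g P
= ∑_{P ∈ J.powersetCard 2} |J \ P| * g P = (n - 2) ∑_P g P` (swap the sums; `P ⊆ J.erase u` iff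
`P ⊆ J` and `u ∉ P`), and cancel `n - 2 > 0`. -/
theorem pairs_sum {V : Type} [DecidableEq V] (N : Finset V) (g : Finset V → ℕ)
    (h : ∀ J ⊆ N, J.card * g J = 2 * g J + ∑ u ∈ J, g (J.erase u)) :
    ∀ J ⊆ N, 2 ≤ J.card → g J = ∑ P ∈ J.powersetCard 2, g P := by
  have key : ∀ n : ℕ, ∀ J ⊆ N, J.card = n + 2 → g J = ∑ P ∈ J.powersetCard 2, g P := by
    intro n
    induction n with
    | zero =>
      intro J _ hc
      have h1 : J.powersetCard 2 = {J} := by
        have := Finset.powersetCard_self J
        rwa [hc] at this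
      rw [h1, Finset.sum_singleton]
    | succ n ih =>
      intro J hJ hc
      have h0 := h J hJ
      have h1 : ∑ u ∈ J, g (J.erase u) = ∑ u ∈ J, ∑ P ∈ (J.erase u).powersetCard 2, g P := by
        refine Finset.sum_congr rfl fun u hu => ?_
        refine ih (J.erase u) ((Finset.erase_subset u J).trans hJ) ?_
        rw [Finset.card_erase_of_mem hu, hc]
        omega
      have h2 : ∑ u ∈ J, ∑ P ∈ (J.erase u).powersetCard 2, g P =
          ∑ P ∈ J.powersetCard 2, ∑ u ∈ J \ P, g P := by
        refine Finset.sum_comm' fun u P => ?_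
        rw [Finset.mem_powersetCard, Finset.mem_powersetCard, Finset.mem_sdiff,
          Finset.subset_erase]
        tauto
      have h3 : ∑ P ∈ J.powersetCard 2, ∑ u ∈ J \ P, g P =
          (n + 1) * ∑ P ∈ J.powersetCard 2, g P := by
        rw [Finset.mul_sum]
        refine Finset.sum_congr rfl fun P hP => ?_
        rw [Finset.mem_powersetCard] at hP
        rw [Finset.sum_const, Finset.card_sdiff_of_subset hP.1, hc, hP.2, smul_eq_mul]
        rfl
      rw [h1, h2, h3, hc] at h0
      have h4 : (n + 1) * g J = (n + 1) * ∑ P ∈ J.powersetCard 2, g P := by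
        have : (n + 1 + 2) * g J = (n + 1) * g J + 2 * g J := by ring
        omega
      exact Nat.eq_of_mul_eq_mul_left (Nat.succ_pos n) h4
  intro J hJ h2
  exact key (J.card - 2) J hJ (by omega)

end Pool.Agent.HTE
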