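import Pool.Agent.HTE.E4

set_option autoImplicit false

namespace Pool.Agent.HTE

open Module

variable {V : Type} [Fintype V] {G : SimpleGraph V}

theorem e5_z2 (a : ZMod 2) : a = 0 ∨ a = 1 := by
  revert a
  decide

theorem e5_add (a b : ZMod 2) : a + b = 0 ↔ a = b := by
  revert a b
  decide

/-- A two-dimensional space has an element different from `0` and from a given element. -/
theorem e5_ex {X : Type} [AddCommGroup X] [Module (ZMod 2) X] (W : Submodule (ZMod 2) X)
    (h : finrank (ZMod 2) W = 2) (a : X) : ∃ b ∈ W, b ≠ 0 ∧ b ≠ a := by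
  by_contra hc
  push Not at hc
  have hle : W ≤ Submodule.span (ZMod 2) {a} := by
    intro b hb
    by_cases h0 : b = 0
    · rw [h0]
      exact Submodule.zero_mem _
    · rw [hc b hb h0]
      exact Submodule.mem_span_singleton_self a
  have h1 : finrank (ZMod 2) W ≤ finrank (ZMod 2) (Submodule.span (ZMod 2) {a}) :=
    Submodule.finrank_mono hle
  have h2 : finrank (ZMod 2) (Submodule.span (ZMod 2) {a}) ≤ 1 := by
    classical
    have := finrank_span_le_card (R := ZMod 2) ({a} : Set X)
    simpa using this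
  omega

/-- sum of the two values over all legs -/
theorem Sys.e5_sum (S : Sys G) (v : V) (c : V → Bool → ZMod 2) (hc : c ∈ S.C v) :
    ∑ x, (c x false + c x true) = 0 := by
  have h := S.orth v c c hc hc
  rw [← h]
  refine Finset.sum_congr rfl fun x _ => ?_
  have h1 : ∀ a : ZMod 2, a * a = a := by decide
  rw [Fintype.sum_bool, h1, h1, add_comm]

open scoped Classical in
/-- the word which is `1` on all legs -/
noncomputable def e5_e (G : SimpleGraph V) (v : V) : V → Bool → ZMod 2 :=
  fun x _ => if G.Adj v x then 1 else 0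

theorem Sys.e5_const (S : Sys G) (v : V) (c : V → Bool → ZMod 2) (hc : c ∈ S.C v)
    (h : ∀ x, c x false + c x true = 0) : c = 0 ∨ c = e5_e G v := by
  rcases S.tran v c hc (fun x => (e5_add _ _).1 (h x)) with h1 | h1
  · exact Or.inl h1
  · right
    funext x t
    unfold e5_e
    by_cases hx : G.Adj v x
    · rw [if_pos hx, h1 x hx]
      rfl
    · rw [if_neg hx, S.supp v c hc x hx]
      rfl

omit [Fintype V] in
/-- a word on two legs -/
theorem e5_word {c : V → Bool → ZMod 2} {u w : V} (huw : u ≠ w) (hs : ∀ x, x ≠ u → x ≠ w → c x = 0)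
    {s : Bool} (h1 : c u s = 1) (hu : c u false + c u true ≠ 0) (hw : c w false + c w true ≠ 0) :
    ∃ s', c = wd u s + wd w s' := by
  have key : ∀ a b : ZMod 2, a + b ≠ 0 → (a = 1 ∧ b = 0) ∨ (a = 0 ∧ b = 1) := by decide
  have hcu : c u (!s) = 0 := by
    rcases key _ _ hu with h | h <;> cases s
    · exact h.2
    · rw [h.2] at h1
      exact absurd h1 (by decide)
    · rw [h.1] at h1
      exact absurd h1 (by decide)
    · exact h.1
  obtain ⟨s', hs1, hs2⟩ : ∃ s', c w s' = 1 ∧ c w (!s') = 0 := by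
    rcases key _ _ hw with h | h
    · exact ⟨false, h.1, h.2⟩
    · exact ⟨true, h.2, h.1⟩
  refine ⟨s', ?_⟩
  funext x t
  show c x t = wd u s x t + wd w s' x t
  unfold wd
  by_cases hx : x = u
  · subst hx
    by_cases ht : t = s
    · subst ht
      rw [if_pos ⟨rfl, rfl⟩, if_neg (fun h => huw h.1), add_zero]
      exact h1
    · have ht2 : t = !s := by
        cases t <;> cases s <;> simp_all
      rw [if_neg (fun h => ht h.2), if_neg (fun h => huw h.1), add_zero, ht2]
      exact hcu
  · by_cases hx2 : x = w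
    · subst hx2
      by_cases ht : t = s'
      · subst ht
        rw [if_neg (fun h => hx h.1), zero_add, if_pos ⟨rfl, rfl⟩]
        exact hs1
      · have ht2 : t = !s' := by
          cases t <;> cases s' <;> simp_all
        rw [if_neg (fun h => hx h.1), zero_add, if_neg (fun h => ht h.2), ht2]
        exact hs2
    · rw [if_neg (fun h => hx h.1), if_neg (fun h => hx2 h.1), hs x hx hx2]
      rfl

open scoped Classical in
/-- **Local matching, degree two.**

Proof. Let `u, w` be the two neighbours. Every word of `C v` is supported on `{u, w}`. `C v` has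
`4` elements (dimension 2). A word `c ∈ C v` with `z u = c u false + c u true` satisfies
`z u = z w` (see `Sys.two_leg`: `∑ x, z x = 0`). If `z u = 0` then `c` is constant, so `c = 0` or
`c = 1` on both legs. The sum of two words with `z u = 1` has `z u = 0`. So among the three nonzero
words there is one with `z u = 1` and one, call it `e`, with `z u = 0`, `e ≠ 0`, i.e. `e = 1` on
both legs. Let `c` have `z u = z w = 1`: `c = wd u a + wd w b`, and `c + e = wd u (!a) + wd w (!b)`.
One of them has the side `s` on the leg `u`. -/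
theorem Sys.match_two (S : Sys G) (v : V)
    (h2 : (Finset.univ.filter (fun u => G.Adj v u)).card = 2)
    (hC : finrank (ZMod 2) (S.C v) = 2) (u : V) (hu : G.Adj v u) (s : Bool) :
    ∃ u' s', G.Adj v u' ∧ u' ≠ u ∧ wd u s + wd u' s' ∈ S.C v := by
  -- the other neighbour
  have huN : u ∈ Finset.univ.filter (fun u => G.Adj v u) := by
    rw [Finset.mem_filter]
    exact ⟨Finset.mem_univ _, hu⟩
  obtain ⟨w, hwN, hwu⟩ := Finset.exists_mem_ne (by omega :
    1 < (Finset.univ.filter (fun u => G.Adj v u)).card) u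
  have hw : G.Adj v w := (Finset.mem_filter.1 hwN).2
  have hN : ∀ x, G.Adj v x → x = u ∨ x = w := by
    intro x hx
    by_contra hc
    push Not at hc
    have h3 : ({u, w, x} : Finset V) ⊆ Finset.univ.filter (fun u => G.Adj v u) := by
      intro y hy
      rw [Finset.mem_insert, Finset.mem_insert, Finset.mem_singleton] at hy
      rw [Finset.mem_filter]
      rcases hy with rfl | rfl | rfl
      · exact ⟨Finset.mem_univ _, hu⟩
      · exact ⟨Finset.mem_univ _, hw⟩
      · exact ⟨Finset.mem_univ _, hx⟩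
    have h4 := Finset.card_le_card h3
    rw [h2, Finset.card_eq_three.2 ⟨u, w, x, hwu.symm, hc.1.symm, hc.2.symm, rfl⟩] at h4
    omega
  have hsupp : ∀ c ∈ S.C v, ∀ x, x ≠ u → x ≠ w → c x = 0 := by
    intro c hc x hxu hxw
    refine S.supp v c hc x fun h => ?_
    rcases hN x h with h | h
    · exact hxu h
    · exact hxw h
  have hz : ∀ c ∈ S.C v, c u false + c u true = c w false + c w true := by
    intro c hc
    have h3 := S.e5_sum v c hc
    rw [Finset.sum_eq_add u w hwu.symm ?_ ?_ ?_] at h3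
    · exact (e5_add _ _).1 h3
    · intro x _ hx
      rw [hsupp c hc x hx.1 hx.2]
      rfl
    · exact fun h => absurd (Finset.mem_univ _) h
    · exact fun h => absurd (Finset.mem_univ _) h
  have hconst : ∀ c ∈ S.C v, c u false + c u true = 0 → c = 0 ∨ c = e5_e G v := by
    intro c hc h0
    refine S.e5_const v c hc fun x => ?_
    by_cases hxu : x = u
    · rw [hxu]
      exact h0
    · by_cases hxw : x = w
      · rw [hxw, ← hz c hc]
        exact h0
      · rw [hsupp c hc x hxu hxw]
        rfl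
  obtain ⟨c, hc, hc0, hce⟩ := e5_ex (S.C v) hC (e5_e G v)
  have hcz : c u false + c u true ≠ 0 := by
    intro h
    rcases hconst c hc h with h | h
    · exact hc0 h
    · exact hce h
  have he : e5_e G v ∈ S.C v := by
    obtain ⟨b, hb, hb0, hbc⟩ := e5_ex (S.C v) hC c
    by_cases h : b u false + b u true = 0
    · rcases hconst b hb h with h1 | h1
      · exact absurd h1 hb0
      · rw [← h1]
        exact hb
    · have h1 : (b + c) u false + (b + c) u true = 0 := by
        show b u false + c u false + (b u true + c u true) = 0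
        have key : ∀ a1 a2 b1 b2 : ZMod 2, a1 + a2 ≠ 0 → b1 + b2 ≠ 0 → a1 + b1 + (a2 + b2) = 0 := by
          decide
        exact key _ _ _ _ h hcz
      rcases hconst _ ((S.C v).add_mem hb hc) h1 with h3 | h3
      · exfalso
        apply hbc
        funext x t
        exact (e5_add _ _).1 (congrFun (congrFun h3 x) t)
      · rw [← h3]
        exact (S.C v).add_mem hb hc
  obtain ⟨c', hc', hs1, hz'⟩ : ∃ c' ∈ S.C v, c' u s = 1 ∧ c' u false + c' u true ≠ 0 := by
    rcases e5_z2 (c u s) with h | h
    · refine ⟨c + e5_e G v, (S.C v).add_mem hc he, ?_, ?_⟩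
      · show c u s + e5_e G v u s = 1
        unfold e5_e
        rw [if_pos hu, h, zero_add]
      · show c u false + e5_e G v u false + (c u true + e5_e G v u true) ≠ 0
        unfold e5_e
        rw [if_pos hu]
        have key : ∀ a1 a2 : ZMod 2, a1 + a2 ≠ 0 → a1 + 1 + (a2 + 1) ≠ 0 := by decide
        exact key _ _ hcz
    · exact ⟨c, hc, h, hcz⟩
  obtain ⟨s', hs'⟩ := e5_word hwu.symm (hsupp c' hc') hs1 hz' (by rw [← hz c' hc']; exact hz')
  exact ⟨w, s', hw, hwu, hs' ▸ hc'⟩

open scoped Classical in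
/-- **Local matching, degree at least three.** `N` is the set of neighbours, `h` says that there are
`|N|` two-leg words.

Proof. Let `Q` be the set of the pairs `P ∈ N.powersetCard 2` with `g v P ≠ 0`; by `Sys.g_pair_le`
`|Q| = ∑ g v P = |N|`. For `P ∈ Q`, `P = {u, w}`, there is a nonzero word in `sub v P`; by
`Sys.two_leg` (a third neighbour `y` exists) it is `wd u a + wd w b`: it covers the two coordinates
`(u, a)`, `(w, b)`. Two different pairs `P ≠ P'` in `Q` cover disjoint sets of coordinates: if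
`wd u a + wd w b` and `wd u a + wd w' b'` both lie in `C v` with `w ≠ w'`, both different from `u`,
then by `Sys.eq_of_pair` (applied to the word `c = wd u a + wd w' b'` and the pair
`(u, a), (w, b)`) `1 = c u a = c w b = 0`, a contradiction. So the pairs in `Q` cover `2 |N|`
coordinates `(u, a)`, `u ∈ N`, i.e. all of them. -/
theorem Sys.match_ge (S : Sys G) (v : V)
    (h3 : 3 ≤ (Finset.univ.filter (fun u => G.Adj v u)).card)
    (h : ∑ P ∈ (Finset.univ.filter (fun u => G.Adj v u)).powersetCard 2, S.g v P =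
      (Finset.univ.filter (fun u => G.Adj v u)).card) (u : V) (hu : G.Adj v u) (s : Bool) :
    ∃ u' s', G.Adj v u' ∧ u' ≠ u ∧ wd u s + wd u' s' ∈ S.C v := by
  obtain ⟨N, hN⟩ : ∃ N, N = Finset.univ.filter (fun u => G.Adj v u) := ⟨_, rfl⟩
  have hNm : ∀ x, x ∈ N ↔ G.Adj v x := by
    intro x
    rw [hN, Finset.mem_filter]
    exact ⟨fun h => h.2, fun h => ⟨Finset.mem_univ _, h⟩⟩
  rw [← hN] at h3 h
  obtain ⟨Q, hQ⟩ : ∃ Q, Q = (N.powersetCard 2).filter (fun P => S.g v P ≠ 0) := ⟨_, rfl⟩
  have hQc : Q.card = N.card := by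
    rw [← h, hQ, Finset.card_filter]
    refine Finset.sum_congr rfl fun P hP => ?_
    have h4 := S.g_pair_le v P (Finset.mem_powersetCard.1 hP).2 (by rw [← hN]; exact h3)
    by_cases h0 : S.g v P = 0
    · rw [if_neg (fun h => h h0), h0]
    · rw [if_pos h0]
      omega
  have hcov : ∀ P ∈ Q, ∃ K : Finset (V × Bool), ∃ x a y b, x ≠ y ∧ P = {x, y} ∧
      K = {(x, a), (y, b)} ∧ wd x a + wd y b ∈ S.C v := by
    intro P hP
    rw [hQ, Finset.mem_filter, Finset.mem_powersetCard] at hP
    obtain ⟨⟨hPN, hP2⟩, hg⟩ := hP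
    obtain ⟨x, y, hxy, rfl⟩ := Finset.card_eq_two.1 hP2
    have hne : S.sub v (fun z => z ∈ ({x, y} : Finset V)) ≠ ⊥ := by
      intro hbot
      apply hg
      unfold Sys.g
      rw [hbot, finrank_bot]
    obtain ⟨c, ⟨hc1, hc2⟩, hc0⟩ := Submodule.exists_mem_ne_zero_of_ne_bot hne
    obtain ⟨y', hy', hyP⟩ := Finset.exists_mem_notMem_of_card_lt_card
      (by rw [hP2]; omega : ({x, y} : Finset V).card < N.card)
    rw [Finset.mem_insert, Finset.mem_singleton] at hyP
    push Not at hyP
    obtain ⟨a, b, hab⟩ := S.two_leg v x y y' hxy hyP.1 hyP.2 ((hNm y').1 hy') c hc1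
      (fun z hz1 hz2 => hc2 z (fun hz => by
        rcases Finset.mem_insert.1 hz with h | h
        · exact hz1 h
        · exact hz2 (Finset.mem_singleton.1 h))) hc0
    exact ⟨_, x, a, y, b, hxy, rfl, rfl, hab ▸ hc1⟩
  choose! cov hcov using hcov
  have hwd1 : ∀ (x : V) (a : Bool), wd x a x a = 1 := by
    intro x a
    unfold wd
    rw [if_pos ⟨rfl, rfl⟩]
  have hwd0 : ∀ (x y : V) (a b : Bool), x ≠ y → wd x a y b = 0 := by
    intro x y a b hxy
    unfold wd
    rw [if_neg (fun h => hxy h.1.symm)]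
  -- the pairs with a common coordinate
  have hmem : ∀ P ∈ Q, ∀ x a, (x, a) ∈ cov P → ∃ y b, x ≠ y ∧ P = {x, y} ∧
      wd x a + wd y b ∈ S.C v := by
    intro P hP x a hx
    obtain ⟨x1, a1, y1, b1, hne, hP1, hK, hw⟩ := hcov P hP
    rw [hK, Finset.mem_insert, Finset.mem_singleton, Prod.mk.injEq, Prod.mk.injEq] at hx
    rcases hx with ⟨rfl, rfl⟩ | ⟨rfl, rfl⟩
    · exact ⟨y1, b1, hne, hP1, hw⟩
    · refine ⟨x1, a1, hne.symm, by rw [hP1, Finset.pair_comm], ?_⟩
      rw [add_comm]
      exact hw
  have hdisj : ∀ P ∈ Q, ∀ P' ∈ Q, P ≠ P' → Disjoint (cov P) (cov P') := by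
    intro P hP P' hP' hne
    rw [Finset.disjoint_left]
    rintro ⟨x, a⟩ h1 h2
    obtain ⟨y, b, hxy, hPe, hw⟩ := hmem P hP x a h1
    obtain ⟨y', b', hxy', hPe', hw'⟩ := hmem P' hP' x a h2
    have hyy : y' ≠ y := by
      rintro rfl
      exact hne (by rw [hPe, hPe'])
    have h4 := S.eq_of_pair v x y a b hw _ hw'
    have h5 : (wd x a + wd y' b') x a = wd x a x a + wd y' b' x a := rfl
    have h6 : (wd x a + wd y' b') y b = wd x a y b + wd y' b' y b := rfl
    rw [h5, h6, hwd1, hwd0 y' x b' a hxy'.symm, hwd0 x y a b hxy, hwd0 y' y b' b hyy] at h4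
    exact absurd h4 (by decide)
  have hcard : ∀ P ∈ Q, (cov P).card = 2 := by
    intro P hP
    obtain ⟨x1, a1, y1, b1, hne, hP1, hK, hw⟩ := hcov P hP
    rw [hK]
    exact Finset.card_pair (fun h => hne (congrArg Prod.fst h))
  have hsub : Q.biUnion cov ⊆ N ×ˢ Finset.univ := by
    intro ⟨x, a⟩ hx
    obtain ⟨P, hP, hxP⟩ := Finset.mem_biUnion.1 hx
    obtain ⟨y, b, -, hPe, -⟩ := hmem P hP x a hxP
    rw [Finset.mem_product]
    refine ⟨?_, Finset.mem_univ _⟩
    rw [hQ, Finset.mem_filter, Finset.mem_powersetCard] at hP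
    apply hP.1.1
    rw [hPe]
    exact Finset.mem_insert_self x _
  have hall : Q.biUnion cov = N ×ˢ Finset.univ := by
    refine Finset.eq_of_subset_of_card_le hsub ?_
    rw [Finset.card_biUnion hdisj, Finset.sum_congr rfl hcard, Finset.sum_const, smul_eq_mul, hQc,
      Finset.card_product, Finset.card_univ, Fintype.card_bool]
  have hus : (u, s) ∈ Q.biUnion cov := by
    rw [hall, Finset.mem_product]
    exact ⟨(hNm u).2 hu, Finset.mem_univ _⟩
  obtain ⟨P, hP, hxP⟩ := Finset.mem_biUnion.1 hus
  obtain ⟨y, b, hxy, hPe, hw⟩ := hmem P hP u s hxP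
  refine ⟨y, b, ?_, hxy.symm, hw⟩
  rw [hQ, Finset.mem_filter, Finset.mem_powersetCard] at hP
  rw [← hNm]
  apply hP.1.1
  rw [hPe]
  exact Finset.mem_insert_of_mem (Finset.mem_singleton_self y)

end Pool.Agent.HTE
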