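import Pool.Agent.HTE.E2
import Pool.Agent.HTE.E3
import Pool.Agent.HTE.E5

set_option autoImplicit false

namespace Pool.Agent.HTE

open Module

variable {V : Type} [Fintype V] {G : SimpleGraph V}

/-- **In the equality case all codes are rotation codes.**

Proof. Let `N = univ.filter (G.Adj v)`. It has at least two elements (`u` and the `u'` of `hd`).
By `Sys.eq_case` and `Sys.local_id`, `pairs_sum` (with `g = S.g v`; `J ⊆ N` consists of neighbours):
`S.g v N = ∑ P ∈ N.powersetCard 2, S.g v P`, and `S.g v N = finrank (C v) = |N|`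
(all words of `C v` are supported on `N`; so `S.sub v (fun x => x ∈ N) = S.C v`). If `|N| = 2`:
`Sys.match_two`, if `|N| ≥ 3`: `Sys.match_ge`. -/
theorem Sys.exists_match (S : Sys G) (hd : ∀ v u, G.Adj v u → ∃ u', u' ≠ u ∧ G.Adj v u')
    (h : 2 * Nat.card G.edgeSet ≤ 3 * finrank (ZMod 2) S.D) (v u : V) (hu : G.Adj v u) (s : Bool) :
    ∃ u' s', G.Adj v u' ∧ u' ≠ u ∧ wd u s + wd u' s' ∈ S.C v := by
  classical
  obtain ⟨hC, hI⟩ := Sys.eq_case S hd h
  have hNmem : ∀ x, x ∈ Finset.univ.filter (fun u => G.Adj v u) ↔ G.Adj v x := by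
    intro x
    simp
  have hlow : ∀ J ⊆ Finset.univ.filter (fun u => G.Adj v u),
      J.card * S.g v J = 2 * S.g v J + ∑ u ∈ J, S.g v (J.erase u) :=
    fun J hJ => Sys.local_id S hI v J (fun x hx => (hNmem x).1 (hJ hx))
  have h2 : 2 ≤ (Finset.univ.filter (fun u => G.Adj v u)).card := by
    obtain ⟨u', hne, hu'⟩ := hd v u hu
    have h1 : ({u', u} : Finset V) ⊆ Finset.univ.filter (fun u => G.Adj v u) := by
      intro x hx
      rw [Finset.mem_insert, Finset.mem_singleton] at hx
      rcases hx with rfl | rfl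
      · exact (hNmem _).2 hu'
      · exact (hNmem _).2 hu
    have h3 := Finset.card_le_card h1
    rwa [Finset.card_pair hne] at h3
  have hg : S.g v (Finset.univ.filter (fun u => G.Adj v u)) =
      (Finset.univ.filter (fun u => G.Adj v u)).card := by
    rw [← hC v]
    unfold Sys.g
    have h4 : S.sub v (fun x => x ∈ Finset.univ.filter (fun u => G.Adj v u)) = S.C v := by
      ext c
      constructor
      · intro hc
        exact hc.1
      · intro hc
        refine ⟨hc, fun x hx => S.supp v c hc x fun hadj => hx ((hNmem x).2 hadj)⟩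
    rw [h4]
  have hsum := pairs_sum (Finset.univ.filter (fun u => G.Adj v u)) (S.g v) hlow _
    (Finset.Subset.refl _) h2
  rcases Nat.lt_or_ge 2 (Finset.univ.filter (fun u => G.Adj v u)).card with h3 | h3
  · exact Sys.match_ge S v h3 (hsum.symm.trans hg) u hu s
  · have h5 : (Finset.univ.filter (fun u => G.Adj v u)).card = 2 := le_antisymm h3 h2
    exact Sys.match_two S v h5 ((hC v).trans h5) u hu s

end Pool.Agent.HTE
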