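import Pool.Agent.HTE.E7
import Pool.Agent.HTE.A2

set_option autoImplicit false

namespace Pool.Agent.HTE

open Module

variable {V : Type} [Fintype V] {G : SimpleGraph V} {S : Sys G}

namespace Match

/-- All flags are reached from one (used for the field `conn` below).
Proof: let `P` be closed under `t0 : (a, s) ↦ (a.symm, s)`, `τ`, `t2 : (a, s) ↦ (a, !s)` and contain
`p₀`. By `closed_all` the set `X = {v | P q for all q with q.1.fst = v}` contains `p₀.1.fst`. If
`v ∈ X` and `G.Adj v u` then `(⟨(v,u),_⟩, true)` is in `P`, so is its `t0`-image, which starts at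
`u`, so `u ∈ X` (`closed_all`). By connectedness `X = V` (`SimpleGraph.Walk` induction). -/
theorem conn_aux (μ : Match S) (hG : G.Connected) (P : G.Dart × Bool → Prop)
    (h : ∀ p, P p → P (p.1.symm, p.2) ∧ P (μ.τ p) ∧ P (p.1, !p.2)) (h0 : ∃ p, P p) :
    ∀ p, P p := by
  have hstep : ∀ u v, G.Adj u v → (∀ q : G.Dart × Bool, q.1.fst = u → P q) →
      ∀ q : G.Dart × Bool, q.1.fst = v → P q := by
    intro u v huv hu q hq
    have h1 : P (⟨(u, v), huv⟩, true) := hu _ rfl
    have h2 := (h _ h1).1
    exact μ.closed_all P (fun p hp => (h p hp).2.1) (fun p hp => (h p hp).2.2) _ q h2 hq.symm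
  have hwalk : ∀ u v (w : G.Walk u v), (∀ q : G.Dart × Bool, q.1.fst = u → P q) →
      ∀ q : G.Dart × Bool, q.1.fst = v → P q := by
    intro u v w
    induction w with
    | nil => exact fun hu => hu
    | cons h' _ ih => exact fun hu => ih (hstep _ _ h' hu)
  obtain ⟨p₀, hp₀⟩ := h0
  intro p
  obtain ⟨w⟩ := hG.preconnected p₀.1.fst p.1.fst
  refine hwalk _ _ w (fun q hq => ?_) p rfl
  exact μ.closed_all P (fun p hp => (h p hp).2.1) (fun p hp => (h p hp).2.2) p₀ q hp₀ hq.symm

open scoped Classical in
/-- The map given by a matching: flags are the oriented edges with a side. -/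
noncomputable def map (μ : Match S) (hG : G.Connected) : GMap where
  D := G.Dart × Bool
  fin := inferInstance
  t0 p := (p.1.symm, p.2)
  t1 p := μ.τ p
  t2 p := (p.1, !p.2)
  t0_t0 p := by simp
  t1_t1 p := μ.τ_τ p
  t2_t2 p := by simp
  t0_ne p h := p.1.symm_ne (congrArg Prod.fst h)
  t1_ne p h := μ.ne p (congrArg Prod.fst h)
  t2_ne p h := by
    have := congrArg Prod.snd h
    simp at this
  t0_t2 p := rfl
  t0_t2_ne p h := p.1.symm_ne (congrArg Prod.fst h)
  conn := μ.conn_aux hG

/-- Two flags are in the same vertex of the map iff their darts start at the same vertex of `G`.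
Proof: `→`: `τ` and `t2` keep `p.1.fst` (lift through `Quot`). `←`: `closed_all` for
`P q := Quot.mk _ q = Quot.mk _ p`. -/
theorem same_vert (μ : Match S) (p q : G.Dart × Bool) :
    (Quot.mk (fun d e : G.Dart × Bool => e = μ.τ d ∨ e = (d.1, !d.2)) p = Quot.mk _ q ↔
      p.1.fst = q.1.fst) := by
  constructor
  · intro h
    have h1 := congrArg (Quot.lift (fun x : G.Dart × Bool => x.1.fst) (by
      rintro x y (h2 | h2)
      · rw [h2, μ.fst]
      · rw [h2])) h
    exact h1
  · intro h
    have hs1 : ∀ x : G.Dart × Bool,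
        Quot.mk (fun d e : G.Dart × Bool => e = μ.τ d ∨ e = (d.1, !d.2)) x = Quot.mk _ (μ.τ x) :=
      fun x => Quot.sound (Or.inl rfl)
    have hs2 : ∀ x : G.Dart × Bool,
        Quot.mk (fun d e : G.Dart × Bool => e = μ.τ d ∨ e = (d.1, !d.2)) x =
          Quot.mk _ (x.1, !x.2) :=
      fun x => Quot.sound (Or.inr rfl)
    have h1 := μ.closed_all
      (fun x => Quot.mk (fun d e : G.Dart × Bool => e = μ.τ d ∨ e = (d.1, !d.2)) x = Quot.mk _ p)
      (fun x hx => (hs1 x).symm.trans hx)
      (fun x hx => (hs2 x).symm.trans hx) p q rfl h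
    exact h1.symm

/-- The embedding given by a matching. -/
noncomputable def draw (μ : Match S) (hG : G.Connected) : Drawing G where
  toGMap := μ.map hG
  cross _ := False
  lab p := p.1
  pos _ := 0
  lab_t2 _ := rfl
  lab_t0 _ := rfl
  cross_t1 _ := Iff.rfl
  cross_t2 _ := Iff.rfl
  cross_four _ h := h.elim
  cross_opp _ h := h.elim
  cross_ne _ h := h.elim
  vert_same p q _ _ := μ.same_vert p q
  vert_ex a := ⟨(a, true), id, rfl⟩
  vert_uniq p q _ _ h := by
    rcases p with ⟨a, s⟩
    rcases q with ⟨b, t⟩
    have hab : a = b := h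
    subst hab
    by_cases hst : t = s
    · left; rw [hst]
    · right
      have : t = !s := by revert hst; cases s <;> cases t <;> simp
      rw [this]
      rfl
  pos_t2 _ := rfl
  pos_zero _ _ := rfl
  pos_succ _ h := h.elim

theorem draw_emb (μ : Match S) (hG : G.Connected) : (μ.draw hG).IsEmbedding := fun _ h => h

/-- The vertices of the map are the vertices of `G` (`same_vert`; every vertex of `G` has a
neighbour because `G` is connected and has at least two vertices). -/
theorem card_vert (μ : Match S) (hG : G.Connected) (h2 : 2 ≤ Fintype.card V) :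
    Nat.card (μ.draw hG).Vert = Fintype.card V := by
  have hdeg : ∀ v : V, ∃ u, G.Adj v u := by
    intro v
    have hnt : Nontrivial V := Fintype.one_lt_card_iff_nontrivial.1 h2
    obtain ⟨u, hu⟩ := exists_ne v
    obtain ⟨w⟩ := hG.preconnected v u
    cases w with
    | nil => exact absurd rfl hu
    | cons h' _ => exact ⟨_, h'⟩
  have hb : Function.Bijective (Quot.lift (fun x : G.Dart × Bool => x.1.fst) (by
      rintro x y (h2 | h2)
      · rw [h2, μ.fst]
      · rw [h2]) :
      Quot (fun d e : G.Dart × Bool => e = μ.τ d ∨ e = (d.1, !d.2)) → V) := by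
    constructor
    · intro a b hab
      obtain ⟨p, rfl⟩ := Quot.exists_rep a
      obtain ⟨q, rfl⟩ := Quot.exists_rep b
      exact (μ.same_vert p q).2 hab
    · intro v
      obtain ⟨u, hu⟩ := hdeg v
      exact ⟨Quot.mk _ (⟨(v, u), hu⟩, true), rfl⟩
  have h3 := Nat.card_congr (Equiv.ofBijective _ hb)
  have h4 : Nat.card V = Fintype.card V := Nat.card_eq_fintype_card
  rw [h4] at h3
  exact h3

/-- The edges of the map are the edges of `G`: the map `p ↦ p.1.edge` induces a bijection
`Quot (e = t0 d ∨ e = t2 d) ≃ G.edgeSet` (`SimpleGraph.dart_edge_eq_iff`). -/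
theorem card_edge (μ : Match S) (hG : G.Connected) :
    Nat.card (μ.draw hG).Edge = Nat.card G.edgeSet := by
  have hb : Function.Bijective (Quot.lift
      (fun x : G.Dart × Bool => (⟨x.1.edge, x.1.edge_mem⟩ : G.edgeSet)) (by
      rintro x y (h2 | h2)
      · rw [h2]
        apply Subtype.ext
        exact (SimpleGraph.Dart.edge_symm x.1).symm
      · rw [h2]) :
      Quot (fun d e : G.Dart × Bool => e = (d.1.symm, d.2) ∨ e = (d.1, !d.2)) → G.edgeSet) := by
    constructor
    · intro a b hab
      obtain ⟨p, rfl⟩ := Quot.exists_rep a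
      obtain ⟨q, rfl⟩ := Quot.exists_rep b
      have h1 : p.1.edge = q.1.edge := congrArg Subtype.val hab
      have hbool : ∀ (a : G.Dart) (s t : Bool),
          (Quot.mk (fun d e : G.Dart × Bool => e = (d.1.symm, d.2) ∨ e = (d.1, !d.2)) (a, s)) =
            Quot.mk _ (a, t) := by
        intro a s t
        by_cases hst : s = t
        · rw [hst]
        · have h3 : t = !s := by revert hst; cases s <;> cases t <;> simp
          rw [h3]
          exact Quot.sound (Or.inr rfl)
      obtain ⟨a, s⟩ := p
      obtain ⟨b, t⟩ := q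
      rcases (SimpleGraph.dart_edge_eq_iff _ _).1 h1 with h2 | h2
      · have h3 : a = b := h2
        rw [h3]
        exact hbool b s t
      · have h3 : a = b.symm := h2
        rw [h3]
        refine Eq.trans ?_ (hbool b s t)
        have h5 : Quot.mk (fun d e : G.Dart × Bool => e = (d.1.symm, d.2) ∨ e = (d.1, !d.2)) (b, s) =
            Quot.mk _ (b.symm, s) := Quot.sound (Or.inl rfl)
        exact h5.symm
    · rintro ⟨e, he⟩
      induction e with
      | _ v u =>
        exact ⟨Quot.mk _ (⟨(v, u), he⟩, true), rfl⟩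
  exact Nat.card_congr (Equiv.ofBijective _ hb)

/-- There are at least `dim D` faces.
Proof: `finrank_invF : finrank (invF) = |Face|`. The linear map `S.D → (flags → F)`,
`W ↦ (p ↦ W p.1.fst p.1.snd p.2)` has values in `invF` (`GMap.mem_invF`: `t0`-invariant by the
symmetry of `W`, `t1`-invariant by `Match.eq_τ` as `W v ∈ C v`), and it is injective, because
`W v u = 0` for nonadjacent `v, u` (`S.supp`). -/
theorem le_card_face (μ : Match S) (hG : G.Connected) :
    finrank (ZMod 2) S.D ≤ Nat.card (μ.draw hG).Face := by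
  have h1 : finrank (ZMod 2) (μ.map hG).invF = Nat.card (μ.draw hG).Face :=
    GMap.finrank_invF (μ.map hG)
  rw [← h1]
  let f : S.D →ₗ[ZMod 2] (μ.map hG).invF :=
    { toFun := fun W => ⟨fun p : G.Dart × Bool => W.1 p.1.fst p.1.snd p.2, by
        rw [GMap.mem_invF]
        constructor
        · intro p
          have h2 := W.2.2 p.1.fst p.1.snd
          exact (congrFun h2 p.2).symm
        · intro p
          have h2 := μ.eq_τ p.1.fst _ (W.2.1 p.1.fst) p rfl
          have h3 := μ.fst p
          show W.1 (μ.τ p).1.fst (μ.τ p).1.snd (μ.τ p).2 = W.1 p.1.fst p.1.snd p.2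
          rw [h3]
          exact h2.symm⟩
      map_add' := fun W W' => rfl
      map_smul' := fun a W => rfl }
  have hf : Function.Injective f := by
    intro W W' hWW
    apply Subtype.ext
    funext v u s
    by_cases hvu : G.Adj v u
    · have h2 := congrArg Subtype.val hWW
      exact congrFun h2 (⟨(v, u), hvu⟩, s)
    · rw [S.supp v _ (W.2.1 v) u hvu, S.supp v _ (W'.2.1 v) u hvu]
  exact LinearMap.finrank_le_finrank_of_injective hf

end Match

end Pool.Agent.HTE
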