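import Pool.Agent.HTE.A10
import Pool.Agent.HTE.E8

set_option autoImplicit false

namespace Pool.Agent.HTE

open Module

variable {V : Type} [Fintype V] {G : SimpleGraph V} {M : Drawing G}

private def e9_w : Bool → ZMod 2
  | false => 0
  | true => 1

private theorem e9_w_not (b : Bool) : e9_w (!b) = e9_w b + 1 := by
  cases b <;> decide

private theorem e9_w_inj (b c : Bool) (h : e9_w b = e9_w c) : b = c := by
  revert h
  cases b <;> cases c <;> decide

open scoped Classical in
private theorem e9_split (σ : Side M) (w : M.D → ZMod 2) (a : G.Dart) (s : Bool) :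
    ∑ d ∈ Finset.univ.filter (fun d => M.lab d = a ∧ σ.sd d = s), w d =
      w (σ.rho a s) +
        ∑ d ∈ Finset.univ.filter (fun d => M.cross d ∧ M.lab d = a ∧ σ.sd d = s), w d := by
  have hins : Finset.univ.filter (fun d => M.lab d = a ∧ σ.sd d = s) =
      insert (σ.rho a s)
        (Finset.univ.filter (fun d => M.cross d ∧ M.lab d = a ∧ σ.sd d = s)) := by
    ext d
    simp only [Finset.mem_filter, Finset.mem_univ, true_and, Finset.mem_insert]
    constructor
    · rintro ⟨h1, h2⟩
      by_cases hc : M.cross d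
      · exact Or.inr ⟨hc, h1, h2⟩
      · left
        have := σ.rho_uniq d hc
        rw [h1, h2] at this
        exact this
    · rintro (rfl | ⟨_, h1, h2⟩)
      · exact ⟨σ.rho_lab a s, σ.rho_sd a s⟩
      · exact ⟨h1, h2⟩
  rw [hins, Finset.sum_insert]
  simp only [Finset.mem_filter, Finset.mem_univ, true_and, not_and]
  intro h
  exact absurd h (σ.rho_cross a s)

open scoped Classical in
private theorem e9_t0 (σ : Side M) (w : M.D → ZMod 2) (a : G.Dart) (s : Bool) :
    ∑ d ∈ Finset.univ.filter (fun d => M.lab d = a ∧ σ.sd d = s), w (M.t0 d) =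
      ∑ d ∈ Finset.univ.filter (fun d => M.lab d = a.symm ∧ σ.sd d = s), w d := by
  refine Finset.sum_nbij' (fun d => M.t0 d) (fun d => M.t0 d) ?_ ?_ ?_ ?_ ?_
  · intro d hd
    simp only [Finset.mem_filter, Finset.mem_univ, true_and] at hd ⊢
    exact ⟨by rw [M.lab_t0, hd.1], by rw [σ.sd_t0, hd.2]⟩
  · intro d hd
    simp only [Finset.mem_filter, Finset.mem_univ, true_and] at hd ⊢
    exact ⟨by rw [M.lab_t0, hd.1, SimpleGraph.Dart.symm_symm], by rw [σ.sd_t0, hd.2]⟩
  · intro d _
    exact M.t0_t0 d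
  · intro d _
    exact M.t0_t0 d
  · intro d _
    rfl

open scoped Classical in
private theorem e9_st (σ : Side M) (w : M.D → ZMod 2) (a : G.Dart) (s : Bool) :
    ∑ d ∈ Finset.univ.filter (fun d => M.cross d ∧ M.lab d = a ∧ σ.sd d = s), w (M.st d) =
      ∑ d ∈ Finset.univ.filter (fun d => M.cross d ∧ M.lab d = a.symm ∧ σ.sd d = s), w d := by
  refine Finset.sum_nbij' (fun d => M.st d) (fun d => M.st d) ?_ ?_ ?_ ?_ ?_
  · intro d hd
    simp only [Finset.mem_filter, Finset.mem_univ, true_and] at hd ⊢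
    exact ⟨(M.cross_st d).2 hd.1, by rw [M.lab_st d hd.1, hd.2.1],
      by rw [Drawing.st, σ.sd_st d hd.1, hd.2.2]⟩
  · intro d hd
    simp only [Finset.mem_filter, Finset.mem_univ, true_and] at hd ⊢
    exact ⟨(M.cross_st d).2 hd.1, by rw [M.lab_st d hd.1, hd.2.1, SimpleGraph.Dart.symm_symm],
      by rw [Drawing.st, σ.sd_st d hd.1, hd.2.2]⟩
  · intro d _
    exact M.st_st d
  · intro d _
    exact M.st_st d
  · intro d _
    rfl

private theorem e9_two (x : ZMod 2) : x + x = 0 := CharTwo.add_self_eq_zero x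

private theorem e9_eq {x y : ZMod 2} (h : x + y = 0) : x = y := by
  rw [add_eq_zero_iff_eq_neg, ZMod.neg_eq_self_mod_two] at h
  exact h

private theorem e9_fst_t1 (d : M.D) (h : ¬ M.cross d) :
    (M.lab (M.t1 d)).fst = (M.lab d).fst := by
  have h' : ¬ M.cross (M.t1 d) := fun h1 => h ((M.cross_t1 d).1 h1)
  exact ((M.vert_same d (M.t1 d) h h').1 (Quot.sound (Or.inl rfl))).symm

open scoped Classical in
private noncomputable def e9_S (M : Drawing G) (v : V) : Finset M.D :=
  Finset.univ.filter (fun d => ¬ M.cross d ∧ (M.lab d).fst = v)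

private theorem e9_S_mem (v : V) (d : M.D) :
    d ∈ e9_S M v ↔ ¬ M.cross d ∧ (M.lab d).fst = v := by
  simp [e9_S]

private theorem e9_S_t1 (v : V) (d : M.D) (h : d ∈ e9_S M v) : M.t1 d ∈ e9_S M v := by
  rw [e9_S_mem] at h ⊢
  exact ⟨fun h1 => h.1 ((M.cross_t1 d).1 h1), by rw [e9_fst_t1 d h.1, h.2]⟩

open scoped Classical in
private theorem e9_S_fib (σ : Side M) (v : V) (f : M.D → ℤ) :
    ∑ d ∈ e9_S M v, f d = ∑ u, if h : G.Adj v u then
      (f (σ.rho ⟨(v, u), h⟩ true) + f (σ.rho ⟨(v, u), h⟩ false)) else 0 := by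
  rw [← Finset.sum_fiberwise (e9_S M v) (fun d => (M.lab d).snd) f]
  refine Finset.sum_congr rfl fun u _ => ?_
  by_cases h : G.Adj v u
  · rw [dif_pos h]
    have hfil : (e9_S M v).filter (fun d => (M.lab d).snd = u) =
        {σ.rho ⟨(v, u), h⟩ true, σ.rho ⟨(v, u), h⟩ false} := by
      ext d
      simp only [Finset.mem_filter, e9_S_mem, Finset.mem_insert, Finset.mem_singleton]
      constructor
      · rintro ⟨⟨h1, h2⟩, h3⟩
        have hl : M.lab d = ⟨(v, u), h⟩ := by
          apply SimpleGraph.Dart.ext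
          exact Prod.ext h2 h3
        have hr := σ.rho_uniq d h1
        rw [hl] at hr
        cases hs : σ.sd d
        · rw [hs] at hr
          exact Or.inr hr
        · rw [hs] at hr
          exact Or.inl hr
      · rintro (rfl | rfl)
        · exact ⟨⟨σ.rho_cross _ _, by rw [σ.rho_lab]⟩, by rw [σ.rho_lab]⟩
        · exact ⟨⟨σ.rho_cross _ _, by rw [σ.rho_lab]⟩, by rw [σ.rho_lab]⟩
    rw [hfil, Finset.sum_pair]
    intro he
    have := congrArg σ.sd he
    rw [σ.rho_sd, σ.rho_sd] at this
    exact Bool.false_ne_true this.symm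
  · rw [dif_neg h]
    apply Finset.sum_eq_zero
    intro d hd
    exfalso
    rw [Finset.mem_filter, e9_S_mem] at hd
    apply h
    have := (M.lab d).adj
    rw [← hd.1.2, ← hd.2]
    exact this

/-- the sign of an orientation -/
private def e9_e : Bool → ℤ
  | false => -1
  | true => 1

private theorem e9_e_not (b : Bool) : e9_e (!b) = -e9_e b := by
  cases b <;> rfl

private theorem e9_e_opp (b c : Bool) (h : e9_e b + e9_e c = 0) : c = !b := by
  revert h
  cases b <;> cases c <;> decide

/-- indicator of `1` -/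
private def e9_g (x : ZMod 2) : ℤ := if x = 1 then 1 else 0

private theorem e9_F (σ : Side M) (o : M.D → Bool) (ho : ∀ d, o (M.t2 d) = !o d) (a : G.Dart)
    (wf : M.D → ZMod 2) (t : Bool) (m : ZMod 2) (h1 : wf (σ.rho a t) = 1 + m)
    (h2 : wf (σ.rho a (!t)) = m) :
    e9_g (wf (σ.rho a true)) * e9_e (o (σ.rho a true)) +
      e9_g (wf (σ.rho a false)) * e9_e (o (σ.rho a false)) =
      (if m = 0 then 1 else -1) * e9_e (o (σ.rho a t)) := by
  have h3 : e9_e (o (σ.rho a (!t))) = -e9_e (o (σ.rho a t)) := by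
    rw [← σ.rho_t2, ho, e9_e_not]
  have h4 : e9_g (wf (σ.rho a true)) * e9_e (o (σ.rho a true)) +
      e9_g (wf (σ.rho a false)) * e9_e (o (σ.rho a false)) =
      e9_g (wf (σ.rho a t)) * e9_e (o (σ.rho a t)) +
      e9_g (wf (σ.rho a (!t))) * e9_e (o (σ.rho a (!t))) := by
    cases t
    · exact add_comm _ _
    · rfl
  rw [h4, h1, h2, h3]
  have h5 : ∀ m : ZMod 2, ∀ x : ℤ, e9_g (1 + m) * x + e9_g m * (-x) =
      (if m = 0 then 1 else -1) * x := by
    intro m x
    have h6 : m = 0 ∨ m = 1 := by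
      revert m
      decide
    rcases h6 with rfl | rfl
    · have e1 : e9_g (1 + 0) = 1 := by decide
      have e2 : e9_g 0 = 0 := by decide
      rw [e1, e2, if_pos rfl]
      ring
    · have e1 : e9_g (1 + 1) = 0 := by decide
      have e2 : e9_g 1 = 1 := by decide
      rw [e1, e2, if_neg (by decide)]
      ring
  exact h5 m _

open scoped Classical in
/-- Along the arc of `a` the orientation alternates: the flags at the two ends of a side of the arc
have opposite orientations.

Proof. Work in `ZMod 2`: let `w d = if o d then 1 else 0`; `w (t_i d) = w d + 1`. As in the proof of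
`Side.tele` (but without `t1`-invariance): let `n` be the number of flags with label `a`, side `s`,
and `n'` the number of the crossing ones among them, `n = n' + 1` (`rho_uniq`).
`n = ∑_{lab d = a, sd d = s} (w d + w (t0 d)) = ∑_{lab d = a, sd d = s} w d +
∑_{lab d = a.symm, sd d = s} w d` (the bijection `t0`). Split off the noncrossing flags
`rho a s`, `rho a.symm s`; `M.st` is a bijection between the crossing flags of the two sums, and
`w (st d) = w d + 3 = w d + 1`. So `n = w (rho a s) + w (rho a.symm s) + n'` in `ZMod 2`, i.e.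
`w (rho a s) + w (rho a.symm s) = 1`. -/
theorem Side.or_symm (σ : Side M) (o : M.D → Bool)
    (ho : ∀ d, o (M.t0 d) = !o d ∧ o (M.t1 d) = !o d ∧ o (M.t2 d) = !o d) (a : G.Dart) (s : Bool) :
    o (σ.rho a.symm s) = !o (σ.rho a s) := by
  set w : M.D → ZMod 2 := fun d => e9_w (o d) with hw
  have h0 : ∀ d, w (M.t0 d) = w d + 1 := by
    intro d
    show e9_w (o (M.t0 d)) = e9_w (o d) + 1
    rw [(ho d).1, e9_w_not]
  have hst : ∀ d, w (M.st d) = w d + 1 := by
    intro d
    show e9_w (o (M.t1 (M.t2 (M.t1 d)))) = e9_w (o d) + 1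
    rw [(ho _).2.1, e9_w_not, (ho _).2.2, e9_w_not, (ho _).2.1, e9_w_not]
    have := e9_two (1 : ZMod 2)
    linear_combination this
  have A1 := e9_split σ w a.symm s
  have A2 := e9_t0 σ w a s
  have A3 := e9_split σ (fun d => w (M.t0 d)) a s
  have A4 := e9_st σ w a s
  have A5 : ∑ d ∈ Finset.univ.filter (fun d => M.cross d ∧ M.lab d = a ∧ σ.sd d = s), w (M.t0 d) =
      ∑ d ∈ Finset.univ.filter (fun d => M.cross d ∧ M.lab d = a ∧ σ.sd d = s), w (M.st d) :=
    Finset.sum_congr rfl fun d _ => by rw [h0, hst]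
  have A6 : w (σ.rho a.symm s) = w (σ.rho a s) + 1 := by
    have A3' : ∑ d ∈ Finset.univ.filter (fun d => M.lab d = a ∧ σ.sd d = s), w (M.t0 d) =
        w (M.t0 (σ.rho a s)) +
          ∑ d ∈ Finset.univ.filter (fun d => M.cross d ∧ M.lab d = a ∧ σ.sd d = s), w (M.t0 d) := A3
    rw [A5, A4, A2, A1, h0] at A3'
    exact add_right_cancel A3'
  apply e9_w_inj
  rw [e9_w_not]
  exact A6

open scoped Classical in
/-- Two leg sides at `v` matched by a word of the code have opposite orientations.

Proof. Let `c = wd u s + wd u' s' ∈ σ.code v` (`u ≠ u'`), with `w ∈ inv1` as in the definition of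
`Side.code`: `c x t = w (rho (v,x) t) + L x`, where `L x = ∑_{x' ≠ x} m x x' * ζ x'`,
`ζ x = c x false + c x true` is `1` for `x = u, u'` and `0` otherwise. So `L u = m u u'`,
`L u' = m u' u = m u u'` (`crossings_comm`). Consider the finite set `X` of the noncrossing flags `d`
with `(lab d).fst = v` and `w d = 1`. `t1` is a bijection between the elements of `X` with
`o d = true` and those with `o d = false` (`w` is `t1`-invariant, `ho`, `cross_t1`;
`(lab (t1 d)).fst = (lab d).fst` by `vert_same`), so they have the same number. The leg `x` (a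
neighbour of `v`) contributes the flags `rho (v,x) false`, `rho (v,x) true`, which have opposite
orientations (`rho_t2`, `ho`). For `x ≠ u, u'`: `w (rho (v,x) t) = L x` for both `t`: both or none
are in `X`, an equal contribution to both orientations. For `x = u`: `w (rho (v,u) t) = 1` iff
`(t = s) = (L u = 0)`: exactly one flag, with side `s` if `m u u' = 0` and `!s` if `m u u' = 1`; for
`u'`: exactly one flag, with side `s'` resp. `!s'`. So these two flags must have opposite
orientations; and then so do `rho (v,u) s` and `rho (v,u') s'` (in the second case both are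
switched). -/
theorem Side.or_match (σ : Side M) (o : M.D → Bool)
    (ho : ∀ d, o (M.t0 d) = !o d ∧ o (M.t1 d) = !o d ∧ o (M.t2 d) = !o d) (v u u' : V)
    (hu : G.Adj v u) (hu' : G.Adj v u') (huu' : u ≠ u') (s s' : Bool)
    (h : wd u s + wd u' s' ∈ σ.code v) :
    o (σ.rho ⟨(v, u'), hu'⟩ s') = !o (σ.rho ⟨(v, u), hu⟩ s) := by
  obtain ⟨-, wf, hwf, hc⟩ := h
  have hwf1 := (M.mem_inv1 wf).1 hwf
  have hcv : ∀ x t, (wd u s + wd u' s') x t =
      (if x = u ∧ t = s then (1 : ZMod 2) else 0) + (if x = u' ∧ t = s' then 1 else 0) :=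
    fun x t => rfl
  have hz : ∀ x, x ≠ u → x ≠ u' → ∀ t, (wd u s + wd u' s') x t = 0 := by
    intro x h1 h2 t
    rw [hcv, if_neg (fun h => h1 h.1), if_neg (fun h => h2 h.1), add_zero]
  have hzu : ∀ t, (wd u s + wd u' s') u t = if t = s then 1 else 0 := by
    intro t
    rw [hcv, if_neg (c := u = u' ∧ t = s') (fun h => huu' h.1), add_zero]
    by_cases ht : t = s
    · rw [if_pos ⟨rfl, ht⟩, if_pos ht]
    · rw [if_neg (fun h => ht h.2), if_neg ht]
  have hzu' : ∀ t, (wd u s + wd u' s') u' t = if t = s' then 1 else 0 := by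
    intro t
    rw [hcv, if_neg (fun h => huu' h.1.symm), zero_add]
    by_cases ht : t = s'
    · rw [if_pos ⟨rfl, ht⟩, if_pos ht]
    · rw [if_neg (fun h => ht h.2), if_neg ht]
  have hone : ∀ r : Bool, (if false = r then (1 : ZMod 2) else 0) + (if true = r then 1 else 0) = 1 := by
    decide
  have hLu : ∑ y ∈ Finset.univ.erase u, (M.crossings s(v, u) s(v, y) : ZMod 2) *
      ((wd u s + wd u' s') y false + (wd u s + wd u' s') y true) =
      (M.crossings s(v, u) s(v, u') : ZMod 2) := by
    rw [Finset.sum_eq_single u']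
    · rw [hzu', hzu', hone, mul_one]
    · intro y hy hy'
      rw [hz y (Finset.ne_of_mem_erase hy) hy' false, hz y (Finset.ne_of_mem_erase hy) hy' true,
        add_zero, mul_zero]
    · intro h
      exact absurd (Finset.mem_erase.2 ⟨fun h => huu' h.symm, Finset.mem_univ _⟩) h
  have hLu' : ∑ y ∈ Finset.univ.erase u', (M.crossings s(v, u') s(v, y) : ZMod 2) *
      ((wd u s + wd u' s') y false + (wd u s + wd u' s') y true) =
      (M.crossings s(v, u) s(v, u') : ZMod 2) := by
    rw [Finset.sum_eq_single u]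
    · rw [hzu, hzu, hone, mul_one, crossings_comm]
    · intro y hy hy'
      rw [hz y hy' (Finset.ne_of_mem_erase hy) false, hz y hy' (Finset.ne_of_mem_erase hy) true,
        add_zero, mul_zero]
    · intro h
      exact absurd (Finset.mem_erase.2 ⟨huu', Finset.mem_univ _⟩) h
  set m : ZMod 2 := (M.crossings s(v, u) s(v, u') : ZMod 2) with hm
  have hbn : ∀ b : Bool, (!b) ≠ b := by decide
  have hsum : ∑ d ∈ e9_S M v, e9_g (wf d) * e9_e (o d) = 0 := by
    refine Finset.sum_involution (fun d _ => M.t1 d) ?_ ?_ ?_ ?_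
    · intro d _
      rw [hwf1, (ho d).2.1, e9_e_not]
      ring
    · intro d _ _
      exact M.t1_ne d
    · intro d hd
      exact e9_S_t1 v d hd
    · intro d _
      exact M.t1_t1 d
  rw [e9_S_fib σ v (fun d => e9_g (wf d) * e9_e (o d)), Fintype.sum_eq_add u u' huu'] at hsum
  · rw [dif_pos hu, dif_pos hu'] at hsum
    have e1 : wf (σ.rho ⟨(v, u), hu⟩ s) = 1 + m := by
      have h1 := hc u hu s
      rw [hLu, hzu, if_pos rfl] at h1
      have h2 := e9_two m
      linear_combination (-1 : ZMod 2) * h1 - h2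
    have e2 : wf (σ.rho ⟨(v, u), hu⟩ (!s)) = m := by
      have h1 := hc u hu (!s)
      rw [hLu, hzu, if_neg (hbn s)] at h1
      exact e9_eq h1.symm
    have e3 : wf (σ.rho ⟨(v, u'), hu'⟩ s') = 1 + m := by
      have h1 := hc u' hu' s'
      rw [hLu', hzu', if_pos rfl] at h1
      have h2 := e9_two m
      linear_combination (-1 : ZMod 2) * h1 - h2
    have e4 : wf (σ.rho ⟨(v, u'), hu'⟩ (!s')) = m := by
      have h1 := hc u' hu' (!s')
      rw [hLu', hzu', if_neg (hbn s')] at h1
      exact e9_eq h1.symm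
    have f1 := e9_F σ o (fun d => (ho d).2.2) ⟨(v, u), hu⟩ wf s m e1 e2
    have f2 := e9_F σ o (fun d => (ho d).2.2) ⟨(v, u'), hu'⟩ wf s' m e3 e4
    rw [f1, f2, ← mul_add] at hsum
    have hne : (if m = 0 then (1 : ℤ) else -1) ≠ 0 := by
      by_cases h0 : m = 0
      · rw [if_pos h0]
        decide
      · rw [if_neg h0]
        decide
    exact e9_e_opp _ _ ((mul_eq_zero.1 hsum).resolve_left hne)
  · intro x hx
    by_cases h : G.Adj v x
    · rw [dif_pos h]
      have h1 := hc x h true
      have h2 := hc x h false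
      rw [hz x hx.1 hx.2] at h1 h2
      have h3 := e9_eq h1.symm
      have h4 := e9_eq h2.symm
      have h5 : wf (σ.rho ⟨(v, x), h⟩ true) = wf (σ.rho ⟨(v, x), h⟩ false) := by rw [h3, h4]
      have h6 : o (σ.rho ⟨(v, x), h⟩ true) = !o (σ.rho ⟨(v, x), h⟩ false) := by
        have h7 := σ.rho_t2 ⟨(v, x), h⟩ false
        rw [← (ho _).2.2, h7]
        rfl
      rw [h5, h6, e9_e_not]
      ring
    · rw [dif_neg h]

/-- If the surface of the drawing is orientable, so is the surface of the embedding: the flag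
`(a, s)` gets the orientation of `σ.rho a s` (`or_symm` for `t0`, `or_match` with `μ.mem`, `μ.fst`,
`μ.ne` for `t1`, `rho_t2` for `t2`). -/
theorem or_transfer (σ : Side M) (μ : Match σ.sys) (hG : G.Connected) (h : M.Orientable) :
    (μ.draw hG).Orientable := by
  obtain ⟨o, ho⟩ := h
  have aux : ∀ (a a' : G.Dart) (s s' : Bool), a'.fst = a.fst → a' ≠ a →
      wd a.snd s + wd a'.snd s' ∈ σ.code a.fst → o (σ.rho a' s') = !o (σ.rho a s) := by
    rintro ⟨⟨v, u⟩, hu⟩ ⟨⟨v', u'⟩, hu'⟩ s s' hf hne hmem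
    have hf' : v' = v := hf
    subst hf'
    refine σ.or_match o ho v' u u' hu hu' (fun h => hne ?_) s s' hmem
    subst h
    rfl
  refine ⟨fun p => o (σ.rho p.1 p.2), fun p => ⟨?_, ?_, ?_⟩⟩
  · exact σ.or_symm o ho p.1 p.2
  · exact aux p.1 (μ.τ p).1 p.2 (μ.τ p).2 (μ.fst p) (μ.ne p) (μ.mem p)
  · show o (σ.rho p.1 (!p.2)) = !o (σ.rho p.1 p.2)
    rw [← σ.rho_t2, (ho _).2.2]

end Pool.Agent.HTE
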