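import Pool.Agent.HTE.F1

set_option autoImplicit false

namespace Pool.Agent.HTE.EulerBoundMain

open Pool.Agent.HTE

/-- **Euler's bound for independently even drawings.** Let `G` be a finite connected simple graph
with at least three vertices. If `G` has a drawing on a closed surface (orientable or not) of Euler
characteristic `χ` in which every two independent edges cross an even number of times, then
`|E| ≤ 3 (|V| - χ)`, and `|E| ≤ 2 (|V| - χ)` if `G` is bipartite. -/
theorem result (V : Type) [Fintype V] (G : SimpleGraph V) (hG : G.Connected)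
    (h3 : 3 ≤ Fintype.card V) (M : Drawing G) (hM : M.IndependentlyEven) :
    (Nat.card G.edgeSet : ℤ) ≤ 3 * ((Fintype.card V : ℤ) - M.chi) ∧
      (G.Colorable 2 → (Nat.card G.edgeSet : ℤ) ≤ 2 * ((Fintype.card V : ℤ) - M.chi)) := by
  refine ⟨euler_bound3 hG h3 M hM, fun hc => ?_⟩
  obtain ⟨c⟩ := hc
  refine euler_bound2 hG h3 (fun v => decide (c v = 0)) (fun u v huv h => ?_) M hM
  have h1 := c.valid huv
  have h2 : (c u = 0) ↔ (c v = 0) := by simpa using h
  apply h1
  by_cases h0 : c u = 0
  · rw [h0, h2.1 h0]
  · have h0' : c v ≠ 0 := fun h' => h0 (h2.2 h')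
    rw [Fin.eq_one_of_ne_zero _ h0, Fin.eq_one_of_ne_zero _ h0']

end Pool.Agent.HTE.EulerBoundMain
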