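import Pool.Agent.HTE.A12
import Pool.Agent.HTE.B3
import Pool.Agent.HTE.C14

set_option autoImplicit false

namespace Pool.Agent.HTE

open Module

variable {V : Type} [Fintype V] {G : SimpleGraph V}

theorem exists_dart (hG : G.Connected) (h3 : 3 ≤ Fintype.card V) : Nonempty G.Dart := by
  obtain ⟨v⟩ := hG.nonempty
  have h1 : 1 < Fintype.card V := by omega
  obtain ⟨u, hu⟩ := Fintype.exists_ne_of_one_lt_card h1 v
  obtain ⟨w⟩ := hG.preconnected v u
  cases w with
  | nil => exact absurd rfl hu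
  | cons h _ => exact ⟨⟨(_, _), h⟩⟩

/-- **Euler's bound for independently even drawings.** -/
theorem euler_bound3 (hG : G.Connected) (h3 : 3 ≤ Fintype.card V) (M : Drawing G)
    (hE : M.IndependentlyEven) :
    (Nat.card G.edgeSet : ℤ) ≤ 3 * ((Fintype.card V : ℤ) - M.chi) := by
  obtain ⟨a⟩ := exists_dart hG h3
  obtain ⟨σ⟩ := exists_side M
  have h1 := σ.main_count hE a
  have h2 := σ.sys.core3 hG h3
  simp only [GMap.chi]
  push_cast
  omega

/-- **Euler's bound for independently even drawings of bipartite graphs.** -/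
theorem euler_bound2 (hG : G.Connected) (h3 : 3 ≤ Fintype.card V)
    (f : V → Bool) (hf : ∀ u v, G.Adj u v → f u ≠ f v) (M : Drawing G)
    (hE : M.IndependentlyEven) :
    (Nat.card G.edgeSet : ℤ) ≤ 2 * ((Fintype.card V : ℤ) - M.chi) := by
  obtain ⟨a⟩ := exists_dart hG h3
  obtain ⟨σ⟩ := exists_side M
  have h1 := σ.main_count hE a
  have h2 := σ.sys.core2 hG h3 f hf
  simp only [GMap.chi]
  push_cast
  omega

/-- `G` satisfies the strong Hanani-Tutte theorem on the orientable surface of genus `g`: if it has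
an independently even drawing there, it has an embedding. -/
def HTOrientable (G : SimpleGraph V) (g : ℕ) : Prop :=
  (∃ M : Drawing G, M.OnOrientable g ∧ M.IndependentlyEven) →
    ∃ M : Drawing G, M.OnOrientable g ∧ M.IsEmbedding

/-- `G` satisfies the strong Hanani-Tutte theorem on the nonorientable surface with `k` crosscaps:
if it has an independently even drawing there, it has an embedding. -/
def HTNonorientable (G : SimpleGraph V) (k : ℕ) : Prop :=
  (∃ M : Drawing G, M.OnNonorientable k ∧ M.IndependentlyEven) →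
    ∃ M : Drawing G, M.OnNonorientable k ∧ M.IsEmbedding

/-- Orientable surfaces. -/
theorem ht_orientable (hG : G.Connected) (h3 : 3 ≤ Fintype.card V)
    (N : Drawing G) (hN : N.IsEmbedding) (hO : N.Orientable)
    (ht : 3 * ((Fintype.card V : ℤ) - N.chi) < (Nat.card G.edgeSet : ℤ) + 6 ∨
      (∃ f : V → Bool, ∀ u v, G.Adj u v → f u ≠ f v) ∧
        2 * ((Fintype.card V : ℤ) - N.chi) < (Nat.card G.edgeSet : ℤ) + 4) (g : ℕ) :
    HTOrientable G g := by
  rintro ⟨M, ⟨hMO, hMg⟩, hE⟩
  refine ⟨N, ⟨hO, ?_⟩, hN⟩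
  obtain ⟨x, hx⟩ := even_chi M.toGMap hMO
  obtain ⟨y, hy⟩ := even_chi N.toGMap hO
  rcases ht with ht | ⟨⟨f, hf⟩, ht⟩
  · have := euler_bound3 hG h3 M hE
    omega
  · have := euler_bound2 hG h3 f hf M hE
    omega

/-- Nonorientable surfaces. -/
theorem ht_nonorientable (hG : G.Connected) (h3 : 3 ≤ Fintype.card V)
    (N : Drawing G) (hN : N.IsEmbedding) (hO : ¬ N.Orientable)
    (ht : 3 * ((Fintype.card V : ℤ) - N.chi) < (Nat.card G.edgeSet : ℤ) + 3 ∨
      (∃ f : V → Bool, ∀ u v, G.Adj u v → f u ≠ f v) ∧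
        2 * ((Fintype.card V : ℤ) - N.chi) < (Nat.card G.edgeSet : ℤ) + 2) (k : ℕ) :
    HTNonorientable G k := by
  rintro ⟨M, hM, hE⟩
  have hMk : 2 - (k : ℤ) ≤ M.chi := by
    rcases hM with h | h
    · exact h.2
    · exact h.le
  refine ⟨N, Or.inl ⟨hO, ?_⟩, hN⟩
  rcases ht with ht | ⟨⟨f, hf⟩, ht⟩
  · have := euler_bound3 hG h3 M hE
    omega
  · have := euler_bound2 hG h3 f hf M hE
    omega

end Pool.Agent.HTE
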