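import Pool.Agent.HTE.F1
import Pool.Agent.HTE.E6
import Pool.Agent.HTE.E9
import Pool.Agent.HTE.E14
import Pool.Agent.HTE.E15

set_option autoImplicit false

namespace Pool.Agent.HTE

open Module

variable {V : Type} [Fintype V] {G : SimpleGraph V}

/-- An embedding is an independently even drawing. -/
theorem emb_even (N : Drawing G) (hN : N.IsEmbedding) : N.IndependentlyEven := by
  intro e _ f _ _
  have : Nat.card {d : N.D // N.cross d ∧ (N.lab d).edge = e ∧ (N.lab (N.t1 d)).edge = f} = 0 := by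
    haveI : IsEmpty {d : N.D // N.cross d ∧ (N.lab d).edge = e ∧ (N.lab (N.t1 d)).edge = f} :=
      ⟨fun d => hN d.1 d.2.1⟩
    exact Nat.card_of_isEmpty
  rw [Drawing.crossings, this]
  exact ⟨0, rfl⟩

/-- **The equality case.** An independently even drawing with `|E| ≥ 3 (|V| - χ)` gives an
embedding on the same surface. -/
theorem z2_triangulation (hG : G.Connected) (h3 : 3 ≤ Fintype.card V) (M : Drawing G)
    (hE : M.IndependentlyEven)
    (h : 3 * ((Fintype.card V : ℤ) - M.chi) ≤ (Nat.card G.edgeSet : ℤ)) :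
    ∃ N : Drawing G, N.IsEmbedding ∧ N.chi = M.chi ∧ (N.Orientable ↔ M.Orientable) := by
  obtain ⟨a⟩ := exists_dart hG h3
  obtain ⟨σ⟩ := exists_side M
  have h1 := σ.main_count hE a
  have h2 := σ.sys.core3 hG h3
  have hchi : M.chi = (Nat.card M.Vert : ℤ) - (Nat.card M.Edge : ℤ) + (Nat.card M.Face : ℤ) := rfl
  have h4 : 2 * Nat.card G.edgeSet ≤ 3 * finrank (ZMod 2) σ.sys.D := by
    zify
    zify at h1
    rw [hchi] at h
    omega
  have h5 : finrank (ZMod 2) σ.sys.D + Fintype.card V + Nat.card M.Edge ≤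
      Nat.card M.Vert + Nat.card G.edgeSet + Nat.card M.Face := by
    zify
    zify at h1 h2
    rw [hchi] at h
    omega
  have hd := no_pendant σ.sys hG h3 h4
  obtain ⟨μ⟩ := exists_Match σ.sys (fun v u hu s => σ.sys.exists_match hd h4 v u hu s)
  refine ⟨μ.draw hG, μ.draw_emb hG, ?_, ⟨fun h => or_back σ μ hG hE a h5 h,
    fun h => or_transfer σ μ hG h⟩⟩
  have h6 := euler_bound3 hG h3 (μ.draw hG) (emb_even _ (μ.draw_emb hG))
  have h7 : (μ.draw hG).chi = (Nat.card (μ.draw hG).Vert : ℤ) -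
    (Nat.card (μ.draw hG).Edge : ℤ) + (Nat.card (μ.draw hG).Face : ℤ) := rfl
  have h8 := μ.card_vert hG (by omega)
  have h9 := μ.card_edge hG
  have h10 := μ.le_card_face hG
  rw [h8, h9] at h7
  zify at h10 h1
  omega

/-- The pairs (graph, surface) that are settled, orientable surfaces. -/
theorem ht_dense_orientable (hG : G.Connected) (h3 : 3 ≤ Fintype.card V) (g : ℕ)
    (h : 3 * ((Fintype.card V : ℤ) - (2 - 2 * g)) ≤ (Nat.card G.edgeSet : ℤ) ∨
      (∃ f : V → Bool, ∀ u v, G.Adj u v → f u ≠ f v) ∧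
        2 * ((Fintype.card V : ℤ) - (2 - 2 * g)) < (Nat.card G.edgeSet : ℤ)) :
    HTOrientable G g := by
  rintro ⟨M, ⟨hMO, hMg⟩, hE⟩
  rcases h with h | ⟨⟨f, hf⟩, h⟩
  · obtain ⟨N, hN1, hN2, hN3⟩ := z2_triangulation hG h3 M hE (by omega)
    exact ⟨N, ⟨hN3.2 hMO, by omega⟩, hN1⟩
  · have := euler_bound2 hG h3 f hf M hE
    omega

/-- The pairs (graph, surface) that are settled, nonorientable surfaces. -/
theorem ht_dense_nonorientable (hG : G.Connected) (h3 : 3 ≤ Fintype.card V) (k : ℕ)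
    (h : 3 * ((Fintype.card V : ℤ) - (2 - k)) ≤ (Nat.card G.edgeSet : ℤ) ∨
      (∃ f : V → Bool, ∀ u v, G.Adj u v → f u ≠ f v) ∧
        2 * ((Fintype.card V : ℤ) - (2 - k)) < (Nat.card G.edgeSet : ℤ)) :
    HTNonorientable G k := by
  rintro ⟨M, hM, hE⟩
  have hMk : 2 - (k : ℤ) ≤ M.chi := by
    rcases hM with h | h
    · exact h.2
    · exact h.le
  rcases h with h | ⟨⟨f, hf⟩, h⟩
  · obtain ⟨N, hN1, hN2, hN3⟩ := z2_triangulation hG h3 M hE (by omega)
    refine ⟨N, ?_, hN1⟩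
    rcases hM with h' | h'
    · exact Or.inl ⟨fun hO => h'.1 (hN3.1 hO), by omega⟩
    · exact Or.inr (by omega)
  · have := euler_bound2 hG h3 f hf M hE
    omega

end Pool.Agent.HTE
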